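import Pool.Agent.P.MP_f1a348_lc.GI.ADefs

/-!
Correctness of the basic list routines: enumerations, closures, generating lists, Schreier's lemma.
-/

namespace Pool.Agent.P.MP_f1a348_lc.GI

open scoped commutatorElement

set_option linter.unusedSectionVars false

section enum
variable {α β : Type}

theorem mem_prodL {l : List α} {m : List β} {p : α × β} : p ∈ prodL l m ↔ p.1 ∈ l ∧ p.2 ∈ m := by
  obtain ⟨a, b⟩ := p
  simp [prodL]

theorem nodup_prodL {l : List α} {m : List β} (hl : l.Nodup) (hm : m.Nodup) :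
    (prodL l m).Nodup := List.Nodup.product hl hm

theorem length_prodL (l : List α) (m : List β) : (prodL l m).length = l.length * m.length :=
  List.length_product l m

theorem tuples_append (pad : List Unit) (l : List α) (u : List β) (b : β) :
    tuples pad l (u ++ [b]) =
      ((tuples pad l u).flatMap (fun t => l.map (fun x => x :: t))).take pad.length := by
  simp [tuples]

theorem tuples_sound {pad : List Unit} {l : List α} {u : List β} {t : List α}
    (h : t ∈ tuples pad l u) : t.length = u.length ∧ ∀ x ∈ t, x ∈ l := by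
  induction u using List.reverseRecOn generalizing t with
  | nil => simp [tuples] at h; simp [h]
  | append_singleton u b ih =>
    rw [tuples_append] at h
    obtain ⟨s, hs, ht⟩ := List.mem_flatMap.1 (List.mem_of_mem_take h)
    obtain ⟨x, hx, rfl⟩ := List.mem_map.1 ht
    have := ih hs
    refine ⟨by simp [this.1], fun y hy => ?_⟩
    rcases List.mem_cons.1 hy with rfl | hy
    · exact hx
    · exact this.2 y hy

theorem length_tuples_le (pad : List Unit) (l : List α) (u : List β) :
    (tuples pad l u).length ≤ l.length ^ u.length := by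
  induction u using List.reverseRecOn with
  | nil => simp [tuples]
  | append_singleton u b ih =>
    rw [tuples_append]
    refine (List.length_take_le' _ _).trans ?_
    simp only [List.length_flatMap, List.length_map, List.map_const', List.sum_replicate,
      smul_eq_mul, List.length_append, List.length_singleton, pow_succ]
    exact Nat.mul_le_mul_right _ ih

theorem length_tuples_le_pad (pad : List Unit) (l : List α) (u : List β) :
    (tuples pad l u).length ≤ pad.length + 1 := by
  induction u using List.reverseRecOn with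
  | nil => simp [tuples]
  | append_singleton u b _ =>
    rw [tuples_append]
    exact (List.length_take_le _ _).trans (Nat.le_succ _)

theorem tuples_complete {pad : List Unit} {l : List α} {u : List β} {t : List α}
    (hp : l.length ^ u.length ≤ pad.length) (h1 : t.length = u.length) (h2 : ∀ x ∈ t, x ∈ l) :
    t ∈ tuples pad l u := by
  induction u using List.reverseRecOn generalizing t with
  | nil => simp [tuples, List.length_eq_zero_iff.1 h1]
  | append_singleton u b ih =>
    rw [tuples_append]
    obtain ⟨x, s, rfl⟩ : ∃ x s, t = x :: s := List.exists_cons_of_length_pos (by simp [h1])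
    have hx : x ∈ l := h2 x (by simp)
    have hpos : 0 < l.length := List.length_pos_of_mem hx
    simp only [List.length_append, List.length_cons, List.length_nil,
      pow_succ] at hp h1
    have hp' : l.length ^ u.length ≤ pad.length := le_trans (Nat.le_mul_of_pos_right _ hpos) hp
    rw [List.take_of_length_le]
    · exact List.mem_flatMap.2 ⟨s, ih hp' (by omega) (fun y hy => h2 y (by simp [hy])),
        List.mem_map_of_mem hx⟩
    · simp only [List.length_flatMap, List.length_map, List.map_const', List.sum_replicate,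
        smul_eq_mul]
      exact le_trans (Nat.mul_le_mul_right _ (length_tuples_le pad l u)) hp

theorem subl_sound {pad : List Unit} {l s : List α} (h : s ∈ subl pad l) : ∀ x ∈ s, x ∈ l := by
  obtain ⟨m, _, rfl⟩ := List.mem_map.1 h
  intro x hx
  obtain ⟨p, hp, rfl⟩ := List.mem_map.1 hx
  exact (List.of_mem_zip (List.mem_filter.1 hp).1).1

theorem subl_complete {pad : List Unit} {l : List α} (hp : 2 ^ l.length ≤ pad.length)
    (q : α → Bool) : l.filter q ∈ subl pad l := by
  refine List.mem_map.2 ⟨l.map q, tuples_complete (by simpa using hp) (by simp)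
    (fun x _ => by cases x <;> simp), ?_⟩
  clear hp
  induction l with
  | nil => rfl
  | cons a l ih => cases h : q a <;> simp [h, ih]

/-- padding a short list with a default element -/
theorem exists_pad (l : List α) (d : α) {n : ℕ} (h : l.length ≤ n) :
    ∃ m : List α, m.length = n ∧ (∀ x ∈ l, x ∈ m) ∧ ∀ x ∈ m, x ∈ l ∨ x = d :=
  ⟨l ++ List.replicate (n - l.length) d, by simp; omega, fun x hx => by simp [hx],
    fun x hx => (List.mem_append.1 hx).imp id List.eq_of_mem_replicate⟩
end enum

section sub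
variable {U : Type} [Group U] [DecidableEq U]

namespace Rep
variable {l m : List U} {Z W : Subgroup U}

theorem card (h : Rep l Z) : Nat.card Z = l.length := by
  have : (Z : Set U) = ↑l.toFinset := by ext x; simp [h.mem]
  rw [← List.toFinset_card_of_nodup h.nodup, ← Set.ncard_coe_finset, ← this]
  rfl
theorem finite (h : Rep l Z) : Finite Z :=
  Set.Finite.to_subtype (l.finite_toSet.subset (fun x hx => (h.mem x).2 hx))
theorem length_pos (h : Rep l Z) : 0 < l.length := List.length_pos_of_mem ((h.mem 1).2 Z.one_mem)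
theorem gen_eq (h : Rep l Z) : gen l = Z :=
  le_antisymm (gen_le.2 fun x hx => (h.mem x).1 hx) (fun x hx => mem_gen ((h.mem x).2 hx))
theorem contains (h : Rep l Z) (x : U) : l.contains x = true ↔ x ∈ Z := by simp [h.mem]
theorem length_le (h : Rep l Z) (h' : Rep m W) (hle : Z ≤ W) : l.length ≤ m.length := by
  have := h'.finite
  rw [← h.card, ← h'.card]
  exact Subgroup.card_le_of_le hle
theorem filter (h : Rep l Z) {q : U → Bool} (hq : ∀ x, x ∈ W ↔ x ∈ Z ∧ q x = true) :
    Rep (l.filter q) W :=
  ⟨h.nodup.filter _, fun x => by rw [List.mem_filter, h.mem, hq]⟩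
theorem prod {V : Type} [Group V] {l' : List V} {Z' : Subgroup V} (h : Rep l Z) (h' : Rep l' Z') :
    Rep (prodL l l') (Z.prod Z') :=
  ⟨nodup_prodL h.nodup h'.nodup, fun p => by rw [mem_prodL, h.mem, h'.mem, Subgroup.mem_prod]⟩
theorem unique (h : Rep l Z) (h' : Rep l W) : Z = W :=
  Subgroup.ext fun x => (h.mem x).symm.trans (h'.mem x)
end Rep

theorem finite_of_le {Z W : Subgroup U} [Finite W] (h : Z ≤ W) : Finite Z :=
  Finite.of_injective _ (Subgroup.inclusion_injective h)

theorem cm_eq (a b : U) : cm a b = ⁅a, b⁆ := rfl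

theorem subB_iff {A B : List U} : subB A B = true ↔ ∀ x ∈ A, x ∈ B := by simp [subB]
theorem normB_iff {J A : List U} : normB J A = true ↔ ∀ j ∈ J, ∀ x ∈ A, j * x * j⁻¹ ∈ A := by
  simp [normB]
theorem commB_iff {A B : List U} : commB A B = true ↔ ∀ a ∈ A, ∀ b ∈ B, a * b = b * a := by
  simp [commB]
theorem mem_cenL {K Y : List U} {d : U} : d ∈ cenL K Y ↔ d ∈ Y ∧ ∀ k ∈ K, d * k = k * d := by
  simp [cenL]
theorem coverB_iff {Y A X : List U} :
    coverB Y A X = true ↔ ∀ y ∈ Y, ∃ a ∈ A, ∃ x ∈ X, y = a * x := by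
  simp only [coverB, List.all_eq_true, List.any_eq_true, List.contains_iff_mem]
  refine forall₂_congr fun y _ => exists_congr fun a => and_congr_right fun _ => ?_
  exact ⟨fun h => ⟨_, h, by simp⟩, fun ⟨x, hx, e⟩ => by simpa [e] using hx⟩

theorem clo_sublist (el gs : List U) : (clo el gs).Sublist el := by
  unfold clo
  cases el.length with
  | zero => exact List.filter_sublist
  | succ n => rw [Function.iterate_succ_apply']; exact List.filter_sublist

theorem clo_rep {el gs : List U} {G : Subgroup U} (h : Rep el G) (hg : ∀ g ∈ gs, g ∈ G) :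
    Rep (clo el gs) (gen gs) := by
  have hle : gen gs ≤ G := gen_le.2 hg
  set S : ℕ → List U := fun i => (cloStep el gs)^[i] (el.filter (fun x => x == 1)) with hS
  have hs : ∀ i x, x ∈ S (i + 1) ↔ x ∈ G ∧ (x ∈ S i ∨ ∃ g ∈ gs, x * g⁻¹ ∈ S i) := fun i x => by
    simp only [hS, Function.iterate_succ_apply']
    rw [cloStep, List.mem_filter, h.mem]
    simp
  have h0 : ∀ x, x ∈ S 0 ↔ x = 1 := fun x => by
    simp only [hS, Function.iterate_zero, id, List.mem_filter, h.mem, beq_iff_eq]
    exact ⟨fun a => a.2, fun a => ⟨a ▸ G.one_mem, a⟩⟩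
  have sound : ∀ i, ∀ x ∈ S i, x ∈ gen gs := by
    intro i
    induction i with
    | zero => intro x hx; rw [(h0 x).1 hx]; exact Subgroup.one_mem _
    | succ i ih =>
      intro x hx
      rcases ((hs i x).1 hx).2 with hx | ⟨g, hg, hx⟩
      · exact ih x hx
      · simpa using Subgroup.mul_mem _ (ih _ hx) (mem_gen hg)
  have mono : ∀ i, ∀ x ∈ S i, x ∈ S (i + 1) := fun i x hx =>
    (hs i x).2 ⟨hle (sound i x hx), Or.inl hx⟩
  have one : ∀ i, (1 : U) ∈ S i := fun i => by
    induction i with
    | zero => exact (h0 1).2 rfl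
    | succ i ih => exact mono i 1 ih
  have key : ∀ i, (∀ x ∈ S (i + 1), x ∈ S i) ∨ i + 1 ≤ (S i).toFinset.card := by
    intro i
    induction i with
    | zero => exact Or.inr (Finset.card_pos.2 ⟨1, List.mem_toFinset.2 (one 0)⟩)
    | succ i ih =>
      by_cases hc : ∀ x ∈ S (i + 1), x ∈ S i
      · left
        intro x hx
        obtain ⟨h1, h2⟩ := (hs _ x).1 hx
        exact (hs i x).2 ⟨h1, h2.imp (hc x) (fun ⟨g, hg, h3⟩ => ⟨g, hg, hc _ h3⟩)⟩
      · right
        have h1 := ih.resolve_left hc
        have : (S i).toFinset ⊂ (S (i + 1)).toFinset := by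
          refine Finset.ssubset_iff_subset_ne.2 ⟨fun x hx => ?_, fun e => hc fun x hx => ?_⟩
          · exact List.mem_toFinset.2 (mono i x (List.mem_toFinset.1 hx))
          · exact List.mem_toFinset.1 (e ▸ List.mem_toFinset.2 hx)
        have := Finset.card_lt_card this
        omega
  have stab : ∀ x ∈ S (el.length + 1), x ∈ S el.length := by
    refine (key el.length).resolve_right (fun hc => ?_)
    have := (List.toFinset_card_le _).trans (clo_sublist el gs).length_le
    change (S el.length).toFinset.card ≤ _ at this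
    omega
  refine ⟨h.nodup.sublist (clo_sublist el gs), fun x => ⟨sound _ x, fun hx => ?_⟩⟩
  change x ∈ S el.length
  have hmul : ∀ g ∈ gs, ∀ y ∈ S el.length, y * g ∈ S el.length := fun g hg' y hy =>
    stab _ ((hs _ _).2 ⟨G.mul_mem (hle (sound _ y hy)) (hg g hg'), Or.inr ⟨g, hg', by simpa⟩⟩)
  have hinv : ∀ g ∈ gs, ∀ y ∈ S el.length, y * g⁻¹ ∈ S el.length := by
    intro g hg' y hy
    have hsurj := Finset.surjOn_of_injOn_of_card_le (s := (S el.length).toFinset)
      (t := (S el.length).toFinset) (fun y => y * g)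
      (fun y hy => by simpa using hmul g hg' y (by simpa using hy))
      (fun a _ b _ e => mul_right_cancel e) le_rfl
    obtain ⟨z, hz, e⟩ := hsurj (show y ∈ ((S el.length).toFinset : Set U) by simpa using hy)
    have : y * g⁻¹ = z := by rw [← e]; simp
    rw [this]
    simpa using hz
  induction hx using Subgroup.closure_induction_right with
  | one => exact one _
  | mul_right y _ g hg ih => exact hmul g hg y ih
  | mul_inv_cancel y _ g hg ih => exact hinv g hg y ih

theorem gensOf_spec {Y : List U} {Z : Subgroup U} (h : Rep Y Z) :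
    gen (gensOf Y) = Z ∧ 2 ^ (gensOf Y).length ≤ Y.length := by
  have := h.finite
  have key : ∀ u : List U, (∀ x ∈ u, x ∈ Z) →
      let l := u.foldl (fun l x => if (clo Y l).contains x then l else x :: l) []
      gen l ≤ Z ∧ (∀ x ∈ u, x ∈ gen l) ∧ 2 ^ l.length ≤ Nat.card (gen l) := by
    intro u
    induction u using List.reverseRecOn with
    | nil => intro _; simp [gen_nil]
    | append_singleton u a ih =>
      intro hu
      obtain ⟨h1, h2, h3⟩ := ih (fun x hx => hu x (by simp [hx]))
      simp only [List.foldl_append, List.foldl_cons, List.foldl_nil]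
      set l := u.foldl (fun l x => if (clo Y l).contains x then l else x :: l) []
      have hr := clo_rep h (gen_le.1 h1)
      by_cases ha : a ∈ gen l
      · rw [if_pos ((hr.contains a).2 ha)]
        refine ⟨h1, fun x hx => ?_, h3⟩
        rcases List.mem_append.1 hx with hx | hx
        · exact h2 x hx
        · rwa [List.mem_singleton.1 hx]
      · rw [if_neg (fun hc => ha ((hr.contains a).1 hc))]
        have hle : gen l ≤ gen (a :: l) := gen_mono fun x hx => by simp [hx]
        have hZ : gen (a :: l) ≤ Z := gen_le.2 fun x hx => by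
          rcases List.mem_cons.1 hx with rfl | hx
          · exact hu _ (by simp)
          · exact h1 (mem_gen hx)
        refine ⟨hZ, fun x hx => ?_, ?_⟩
        · rcases List.mem_append.1 hx with hx | hx
          · exact hle (h2 x hx)
          · rw [List.mem_singleton.1 hx]; exact mem_gen (by simp)
        · have := finite_of_le hZ
          obtain ⟨c, hc⟩ := Subgroup.card_dvd_of_le hle
          have hc0 : c ≠ 0 := by
            rintro rfl
            exact (Nat.card_pos (α := gen (a :: l))).ne' (by simpa using hc)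
          have hc1 : c ≠ 1 := by
            rintro rfl
            have := Subgroup.eq_of_le_of_card_ge hle (by rw [hc]; simp)
            exact ha (this ▸ mem_gen (by simp))
          rw [List.length_cons, pow_succ, hc]
          exact Nat.mul_le_mul h3 (by omega)
  obtain ⟨h1, h2, h3⟩ := key Y (fun x hx => (h.mem x).1 hx)
  have e : gen (gensOf Y) = Z := le_antisymm h1 (fun x hx => h2 x ((h.mem x).2 hx))
  refine ⟨e, ?_⟩
  rw [← h.card, ← e]
  exact h3

theorem mem_schTriples {R S : List U} {x : U} : x ∈ schTriples R S ↔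
    ∃ r' ∈ R, ∃ s, (s = 1 ∨ s ∈ S ∨ s⁻¹ ∈ S) ∧ ∃ r ∈ R, x = r'⁻¹ * s * r := by
  simp only [schTriples, List.mem_flatMap, List.mem_cons, List.mem_append, List.mem_map]
  refine exists_congr fun r' => and_congr_right fun _ => exists_congr fun s => and_congr ?_ ?_
  · refine or_congr_right (or_congr_right ⟨?_, fun h => ⟨_, h, inv_inv s⟩⟩)
    rintro ⟨a, ha, rfl⟩
    simpa using ha
  · simp only [eq_comm]

theorem length_schTriples (R S : List U) :
    (schTriples R S).length = R.length * ((2 * S.length + 1) * R.length) := by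
  simp only [schTriples, List.length_flatMap, List.length_map, List.map_const', List.sum_replicate,
    smul_eq_mul, List.length_cons, List.length_append]
  ring

/-- Schreier's lemma -/
theorem schreier {R S : List U} {V : Subgroup U} {q : U → Bool} (h1 : (1 : U) ∈ R)
    (hR : ∀ r ∈ R, r ∈ gen S) (hV : V ≤ gen S) (hq : ∀ x ∈ gen S, q x = true ↔ x ∈ V)
    (hc : ∀ r ∈ R, ∀ s, s ∈ S ∨ s⁻¹ ∈ S → ∃ r' ∈ R, r'⁻¹ * s * r ∈ V) :
    gen ((schTriples R S).filter q) = V ∧ ∀ u ∈ gen S, ∃ r ∈ R, r⁻¹ * u ∈ V := by
  have hs : ∀ s, s = 1 ∨ s ∈ S ∨ s⁻¹ ∈ S → s ∈ gen S := by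
    rintro s (rfl | h | h)
    · exact Subgroup.one_mem _
    · exact mem_gen h
    · simpa using Subgroup.inv_mem _ (mem_gen h)
  have hle : gen ((schTriples R S).filter q) ≤ V := gen_le.2 fun x hx => by
    obtain ⟨hx, hqx⟩ := List.mem_filter.1 hx
    obtain ⟨r', hr', s, hs', r, hr, rfl⟩ := mem_schTriples.1 hx
    exact (hq _ (Subgroup.mul_mem _ (Subgroup.mul_mem _ (Subgroup.inv_mem _ (hR _ hr')) (hs _ hs'))
      (hR _ hr))).1 hqx
  have hin : ∀ r' ∈ R, ∀ s, s = 1 ∨ s ∈ S ∨ s⁻¹ ∈ S → ∀ r ∈ R, r'⁻¹ * s * r ∈ V →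
      r'⁻¹ * s * r ∈ gen ((schTriples R S).filter q) := fun r' hr' s hs' r hr hv =>
    mem_gen (List.mem_filter.2 ⟨mem_schTriples.2 ⟨r', hr', s, hs', r, hr, rfl⟩,
      (hq _ (hV hv)).2 hv⟩)
  have key : ∀ u ∈ gen S, ∃ r ∈ R, r⁻¹ * u ∈ gen ((schTriples R S).filter q) := by
    have step : ∀ s, s ∈ S ∨ s⁻¹ ∈ S → ∀ u, (∃ r ∈ R, r⁻¹ * u ∈ gen ((schTriples R S).filter q)) →
        ∃ r ∈ R, r⁻¹ * (s * u) ∈ gen ((schTriples R S).filter q) := by
      rintro s hs' u ⟨r, hr, hu⟩
      obtain ⟨r', hr', hv⟩ := hc r hr s hs'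
      refine ⟨r', hr', ?_⟩
      have := Subgroup.mul_mem _ (hin r' hr' s (Or.inr hs') r hr hv) hu
      simpa [mul_assoc] using this
    intro u hu
    induction hu using Subgroup.closure_induction_left with
    | one => exact ⟨1, h1, by simp⟩
    | mul_left s hs' u _ ih => exact step s (Or.inl hs') u ih
    | inv_mul_cancel s hs' u _ ih => exact step s⁻¹ (Or.inr (by simpa using hs')) u ih
  refine ⟨le_antisymm hle (fun v hv => ?_), fun u hu => (key u hu).imp fun r hr => ⟨hr.1, hle hr.2⟩⟩
  obtain ⟨r, hr, h⟩ := key v (hV hv)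
  have hrV : r ∈ V := by simpa using V.mul_mem hv (V.inv_mem (hle h))
  have := hin 1 h1 1 (Or.inl rfl) r hr (by simpa using hrV)
  simpa using Subgroup.mul_mem _ this h

/-- a list of given length meeting all left cosets of a subgroup of small index -/
theorem exists_transversal {A Z : Subgroup U} [Finite Z] (hA : A ≤ Z) {b : ℕ}
    (hb : Nat.card Z ≤ b * Nat.card A) :
    ∃ T : List U, T.length = b ∧ (∀ r ∈ T, r ∈ Z) ∧ ∀ z ∈ Z, ∃ r ∈ T, r⁻¹ * z ∈ A := by
  classical
  have := finite_of_le hA
  have h1 : Nat.card (Z ⧸ A.subgroupOf Z) ≤ b := by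
    have h2 := (A.subgroupOf Z).card_mul_index
    rw [Nat.card_congr (Subgroup.subgroupOfEquivOfLe hA).toEquiv, Subgroup.index] at h2
    rw [← h2, mul_comm] at hb
    exact Nat.le_of_mul_le_mul_right hb Nat.card_pos
  have := Fintype.ofFinite (Z ⧸ A.subgroupOf Z)
  obtain ⟨m, hm, hm1, hm2⟩ := exists_pad ((Finset.univ : Finset (Z ⧸ A.subgroupOf Z)).toList.map
    (fun c => (c.out : U))) 1 (n := b) (by simpa using h1)
  refine ⟨m, hm, fun r hr => ?_, fun z hz => ?_⟩
  · rcases hm2 r hr with h | rfl
    · obtain ⟨c, _, rfl⟩ := List.mem_map.1 h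
      exact c.out.2
    · exact Z.one_mem
  · refine ⟨((QuotientGroup.mk (⟨z, hz⟩ : Z) : Z ⧸ A.subgroupOf Z).out : U),
      hm1 _ (List.mem_map_of_mem (by simp)), ?_⟩
    have := QuotientGroup.eq.1 (QuotientGroup.out_eq' (QuotientGroup.mk (⟨z, hz⟩ : Z) :
      Z ⧸ A.subgroupOf Z))
    exact this

/-- generators of given number over a subgroup of small index -/
theorem exists_gens_over {A Z : Subgroup U} [Finite Z] (hA : A ≤ Z) {b : ℕ}
    (hb : Nat.card Z ≤ b * Nat.card A) : ∃ T : List U, T.length = b ∧ Z = A ⊔ gen T := by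
  obtain ⟨T, h1, h2, h3⟩ := exists_transversal hA hb
  refine ⟨T, h1, le_antisymm (fun z hz => ?_) (sup_le hA (gen_le.2 h2))⟩
  obtain ⟨r, hr, h⟩ := h3 z hz
  simpa using Subgroup.mul_mem _ ((le_sup_right : gen T ≤ A ⊔ gen T) (mem_gen hr))
    ((le_sup_left : A ≤ A ⊔ gen T) h)

theorem clo_over {Y E xs : List U} {y e : Subgroup U} (h : Rep Y y) (hE : Rep E e) (he : e ≤ y)
    (hx : ∀ x ∈ xs, x ∈ y) : Rep (clo Y (E ++ xs)) (e ⊔ gen xs) := by
  rw [← hE.gen_eq, ← gen_append]
  refine clo_rep h fun g hg => ?_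
  rcases List.mem_append.1 hg with hg | hg
  · exact he ((hE.mem g).1 hg)
  · exact hx g hg
end sub

/-! ### the padding -/

namespace Big
variable {N b : ℕ} {pad : List Unit}

theorem pow_le (h : Big N b pad) {n e : ℕ} (hn : n ≤ N + 1) (he : e ≤ 3 * (b + 1) ^ 2) :
    n ^ e ≤ pad.length :=
  ((Nat.pow_le_pow_left hn e).trans (Nat.pow_le_pow_right (Nat.succ_pos N) he)).trans h
theorem cube (h : Big N b pad) : (N + 1) ^ 3 ≤ pad.length :=
  h.pow_le le_rfl (Nat.le_mul_of_pos_right _ (by positivity))
theorem tuples (h : Big N b pad) {n : ℕ} (hn : n ≤ N) : n ^ b ≤ pad.length :=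
  h.pow_le (hn.trans (Nat.le_succ N)) (by nlinarith)
/-- `d` is logarithmic -/
theorem log_pow (h : Big N b pad) {c d e : ℕ} (hc : c ≤ b) (hd : 2 ^ d ≤ N) (he : e ≤ 1 + b) :
    c ^ (d * e) ≤ pad.length := by
  have h1 : c ≤ 2 ^ b := hc.trans Nat.lt_two_pow_self.le
  calc c ^ (d * e) ≤ (2 ^ b) ^ (d * e) := Nat.pow_le_pow_left h1 _
    _ = (2 ^ d) ^ (b * e) := by rw [← pow_mul, ← pow_mul]; congr 1; ring
    _ ≤ _ := h.pow_le (hd.trans (Nat.le_succ N)) (by nlinarith)
theorem mono (h : Big N b pad) {M : ℕ} (hM : M ≤ N) : Big M b pad :=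
  h.pow_le (Nat.succ_le_succ hM) le_rfl
end Big

/-- the element returned by the tower passes the last test -/
theorem tower_last {G Ω τ : Type} [Group G] [DecidableEq G] [MulAction G Ω] [DecidableEq Ω]
    {mem pass : τ → G → Bool} {pad : List Unit} {base : List Ω} {tests : List τ} {t : τ} {g₀ : G}
    {S₀ : List G} (h : (tower mem pass pad base (tests ++ [t]) g₀ S₀).isSome = true) :
    ∃ g, pass t g = true := by
  rw [tower, List.foldl_append, List.foldl_cons, List.foldl_nil, towerStep] at h
  obtain ⟨r, hr⟩ := Option.isSome_iff_exists.1 h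
  obtain ⟨s, _, hs⟩ := Option.bind_eq_some_iff.1 hr
  obtain ⟨g, hg, _⟩ := Option.map_eq_some_iff.1 hs
  exact ⟨g, List.find?_some hg⟩

/-- pigeonhole for lists of pairwise inequivalent elements -/
theorem length_le_of_invariant {α V : Type} {l : List α} {R : α → α → Prop} (c : α → V)
    (T : List V) (hT : ∀ a ∈ l, c a ∈ T) (hl : l.Pairwise R)
    (hc : ∀ a ∈ l, ∀ b ∈ l, c a = c b → ¬ R a b) : l.length ≤ T.length := by
  have hn : (l.map c).Nodup := by
    rw [List.Nodup, List.pairwise_map]
    exact List.Pairwise.imp_of_mem (fun ha hb h e => hc _ ha _ hb e h) hl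
  have := List.Nodup.subperm hn (l₂ := T) (fun v hv => by
    obtain ⟨a, ha, rfl⟩ := List.mem_map.1 hv
    exact hT a ha)
  simpa using this.length_le

end Pool.Agent.P.MP_f1a348_lc.GI
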