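import Pool.Agent.P.MP_f1a348_lc.GI.ABasic

/-! Correctness of the Sims filter. -/

namespace Pool.Agent.P.MP_f1a348_lc.GI

namespace Sims

variable {G Ω : Type} [Group G] [MulAction G Ω] [DecidableEq Ω]

theorem gen_cons (a : G) (l : List G) : gen (a :: l) = gen [a] ⊔ gen l := gen_append [a] l

theorem step_in (b : Ω) (st : List G × List G) (g : G) :
    gen (simsIn b st g).1 ⊔ gen (simsIn b st g).2 = gen st.1 ⊔ gen st.2 ⊔ gen [g] ∧
    ((∀ x ∈ st.2, x • b = b) → ∀ x ∈ (simsIn b st g).2, x • b = b) ∧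
    ((st.1.map (· • b)).Nodup → ((simsIn b st g).1.map (· • b)).Nodup) := by
  unfold simsIn
  cases h : st.1.find? (fun r => r • b == g • b) with
  | none =>
    simp only [Option.elim_none]
    refine ⟨?_, id, fun hn => ?_⟩
    · rw [gen_cons g st.1]
      ac_rfl
    · rw [List.map_cons, List.nodup_cons]
      refine ⟨fun hc => ?_, hn⟩
      obtain ⟨r, hr, e⟩ := List.mem_map.1 hc
      have := List.find?_eq_none.1 h r hr
      simp [e] at this
  | some r =>
    simp only [Option.elim_some]
    have hr : r ∈ st.1 := List.mem_of_find?_eq_some h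
    have e : r • b = g • b := by simpa using List.find?_some h
    refine ⟨?_, fun hf x hx => ?_, id⟩
    · apply le_antisymm
      · refine sup_le (le_sup_of_le_left le_sup_left) (gen_le.2 fun x hx => ?_)
        rcases List.mem_cons.1 hx with rfl | hx
        · exact Subgroup.mul_mem _
            (Subgroup.inv_mem _ (Subgroup.mem_sup_left (Subgroup.mem_sup_left (mem_gen hr))))
            (Subgroup.mem_sup_right (mem_gen (by simp)))
        · exact Subgroup.mem_sup_left (Subgroup.mem_sup_right (mem_gen hx))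
      · refine sup_le (sup_le le_sup_left
          (le_sup_of_le_right (gen_mono fun x hx => List.mem_cons_of_mem _ hx)))
          (gen_le.2 fun x hx => ?_)
        rw [List.mem_singleton.1 hx]
        have h1 : r * (r⁻¹ * g) ∈ gen st.1 ⊔ gen (r⁻¹ * g :: st.2) :=
          Subgroup.mul_mem _ (Subgroup.mem_sup_left (mem_gen hr))
            (Subgroup.mem_sup_right (mem_gen (by simp)))
        simpa using h1
    · rcases List.mem_cons.1 hx with rfl | hx
      · rw [mul_smul, ← e, inv_smul_smul]
      · exact hf x hx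

theorem fold_in (b : Ω) (u : List G) : ∀ st : List G × List G,
    gen (u.foldl (simsIn b) st).1 ⊔ gen (u.foldl (simsIn b) st).2 =
      gen st.1 ⊔ gen st.2 ⊔ gen u ∧
    ((∀ x ∈ st.2, x • b = b) → ∀ x ∈ (u.foldl (simsIn b) st).2, x • b = b) ∧
    ((st.1.map (· • b)).Nodup → ((u.foldl (simsIn b) st).1.map (· • b)).Nodup) := by
  induction u with
  | nil => intro st; simp [gen_nil]
  | cons g u ih =>
    intro st
    obtain ⟨h1, h2, h3⟩ := ih (simsIn b st g)
    obtain ⟨k1, k2, k3⟩ := step_in b st g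
    rw [List.foldl_cons]
    refine ⟨?_, fun h => h2 (k2 h), fun h => h3 (k3 h)⟩
    rw [h1, k1, gen_cons g u, sup_assoc]

theorem step_out (st : List G × List G) (b : Ω) {c : ℕ}
    (hT : ∃ T : Finset Ω, T.card ≤ c ∧ ∀ u ∈ gen st.2, u • b ∈ T) :
    gen (simsStep st b).1 ⊔ gen (simsStep st b).2 = gen st.1 ⊔ gen st.2 ∧
    gen (simsStep st b).2 ≤ gen st.2 ∧ (∀ x ∈ (simsStep st b).2, x • b = b) ∧
    (simsStep st b).1.length ≤ st.1.length + c := by
  obtain ⟨h1, h2, h3⟩ := fold_in b st.2 (([], []) : List G × List G)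
  simp only [gen_nil, bot_sup_eq] at h1
  obtain ⟨T, hc, hT⟩ := hT
  unfold simsStep
  refine ⟨?_, ?_, h2 (by simp), ?_⟩
  · simp only [gen_append]
    rw [← h1]
    ac_rfl
  · rw [← h1]
    exact le_sup_right
  · have hn := h3 (by simp)
    have hl : ((st.2.foldl (simsIn b) ([], [])).1.map (· • b)).length ≤ T.card := by
      rw [← List.toFinset_card_of_nodup hn]
      refine Finset.card_le_card fun w hw => ?_
      obtain ⟨r, hr, rfl⟩ := List.mem_map.1 (List.mem_toFinset.1 hw)
      refine hT r ?_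
      rw [← h1]
      exact Subgroup.mem_sup_left (mem_gen hr)
    simp only [List.length_append, List.length_map] at hl ⊢
    omega

theorem fold_out (c : ℕ) (base : List Ω) : ∀ st : List G × List G,
    (∀ b ∈ base, ∃ T : Finset Ω, T.card ≤ c ∧ ∀ u ∈ gen st.2, u • b ∈ T) →
    gen (base.foldl simsStep st).1 ⊔ gen (base.foldl simsStep st).2 = gen st.1 ⊔ gen st.2 ∧
    gen (base.foldl simsStep st).2 ≤ gen st.2 ∧
    (∀ b ∈ base, ∀ x ∈ (base.foldl simsStep st).2, x • b = b) ∧
    (base.foldl simsStep st).1.length ≤ st.1.length + base.length * c := by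
  induction base with
  | nil => intro st _; simp
  | cons b base ih =>
    intro st hT
    obtain ⟨k1, k2, k3, k4⟩ := step_out st b (hT b (by simp))
    obtain ⟨h1, h2, h3, h4⟩ := ih (simsStep st b) fun b' hb' => by
      obtain ⟨T, hc, h⟩ := hT b' (List.mem_cons_of_mem _ hb')
      exact ⟨T, hc, fun u hu => h u (k2 hu)⟩
    rw [List.foldl_cons]
    refine ⟨h1.trans k1, h2.trans k2, fun b' hb' x hx => ?_, ?_⟩
    · rcases List.mem_cons.1 hb' with rfl | hb'
      · have h5 : gen (simsStep st b').2 ≤ MulAction.stabilizer G b' :=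
          gen_le.2 fun y hy => MulAction.mem_stabilizer_iff.2 (k3 y hy)
        exact MulAction.mem_stabilizer_iff.1 (h5 (h2 (mem_gen hx)))
      · exact h3 b' hb' x hx
    · rw [List.length_cons, Nat.succ_mul]
      omega

end Sims

theorem simsLemma : S_SIMS := by
  intro G Ω _ _ _ pad base S c hf hT hp
  obtain ⟨h1, h2, h3, h4⟩ := Sims.fold_out c base (([], S) : List G × List G) hT
  simp only [gen_nil, bot_sup_eq, List.length_nil, zero_add] at h1 h2 h4
  have h5 : gen (base.foldl simsStep ([], S)).2 = ⊥ :=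
    le_bot_iff.1 (gen_le.2 fun x hx =>
      Subgroup.mem_bot.2 (hf x (h2 (mem_gen hx)) fun b hb => h3 b hb x hx))
  rw [h5, sup_bot_eq] at h1
  rw [sims, List.take_of_length_le (h4.trans hp), h1]

end Pool.Agent.P.MP_f1a348_lc.GI
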