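import Pool.Agent.P.MP_f1a348_lc.GI.ABasic

/-! Correctness of the tower of subgroups. -/

namespace Pool.Agent.P.MP_f1a348_lc.GI

namespace TowerA

variable {G : Type} [Group G]

/-- no new representative is found -/
def Done (m : G → Bool) (S R : List G) : Prop :=
  ∀ s, s ∈ S ∨ s⁻¹ ∈ S → ∀ r ∈ R, ∃ r' ∈ R, m (r'⁻¹ * (s * r)) = true

theorem step_cases (m : G → Bool) (S R : List G) :
    (Done m S R ∧ bfsStep m S R = R) ∨ ∃ s, (s ∈ S ∨ s⁻¹ ∈ S) ∧ ∃ r ∈ R,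
      (∀ r' ∈ R, m (r'⁻¹ * (s * r)) = false) ∧ bfsStep m S R = s * r :: R := by
  have hm : ∀ s : G, s ∈ S ++ S.map (fun s => s⁻¹) ↔ s ∈ S ∨ s⁻¹ ∈ S := fun s => by
    rw [List.mem_append, List.mem_map]
    refine or_congr_right ⟨?_, fun h => ⟨_, h, inv_inv s⟩⟩
    rintro ⟨a, ha, rfl⟩
    rwa [inv_inv]
  unfold bfsStep
  cases h : ((S ++ S.map (fun s => s⁻¹)).flatMap (fun s => R.map (fun r => s * r))).find?
      (fun x => R.all (fun r => !m (r⁻¹ * x))) with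
  | none =>
    refine Or.inl ⟨fun s hs r hr => ?_, rfl⟩
    have h1 := List.find?_eq_none.1 h (s * r)
      (List.mem_flatMap.2 ⟨s, (hm s).2 hs, List.mem_map_of_mem hr⟩)
    simpa using h1
  | some x =>
    obtain ⟨s, hs, hx⟩ := List.mem_flatMap.1 (List.mem_of_find?_eq_some h)
    obtain ⟨r, hr, rfl⟩ := List.mem_map.1 hx
    exact Or.inr ⟨s, (hm s).1 hs, r, hr, by simpa using List.find?_some h, rfl⟩

theorem bfs_spec {m : G → Bool} {S : List G} {pad : List Unit} (h1 : m 1 = true)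
    (h2 : ∀ u ∈ gen S, ∀ v ∈ gen S, m u = true → m v = true → m (u⁻¹ * v) = true)
    (h3 : ∀ l : List G, (∀ u ∈ l, u ∈ gen S) → l.Pairwise (fun u v => m (u⁻¹ * v) = false) →
      l.length ≤ pad.length) :
    (1 : G) ∈ bfs pad m S ∧ (∀ r ∈ bfs pad m S, r ∈ gen S) ∧ Done m S (bfs pad m S) := by
  have key : ∀ i, (1 : G) ∈ (bfsStep m S)^[i] [1] ∧ (∀ r ∈ (bfsStep m S)^[i] [1], r ∈ gen S) ∧
      ((bfsStep m S)^[i] [1]).Pairwise (fun u v => m (u⁻¹ * v) = false) ∧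
      (Done m S ((bfsStep m S)^[i] [1]) ∨ i + 1 ≤ ((bfsStep m S)^[i] [1]).length) := by
    intro i
    induction i with
    | zero => simp
    | succ i ih =>
      rw [Function.iterate_succ_apply']
      generalize (bfsStep m S)^[i] [1] = R at ih
      obtain ⟨a1, a2, a3, a4⟩ := ih
      rcases step_cases m S R with ⟨b1, b2⟩ | ⟨s, hs, r, hr, b1, b2⟩
      · rw [b2]
        exact ⟨a1, a2, a3, Or.inl b1⟩
      · have hx : s * r ∈ gen S :=
          mul_mem (hs.elim mem_gen fun h => (inv_mem_iff).1 (mem_gen h)) (a2 r hr)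
        rw [b2]
        refine ⟨List.mem_cons_of_mem _ a1, List.forall_mem_cons.2 ⟨hx, a2⟩,
          List.pairwise_cons.2 ⟨fun r' hr' => ?_, a3⟩, Or.inr ?_⟩
        · rw [← Bool.not_eq_true]
          intro hc
          have h4 := h2 _ (mul_mem (inv_mem hx) (a2 r' hr')) 1 (one_mem _) hc h1
          rw [mul_one, mul_inv_rev, inv_inv, b1 r' hr'] at h4
          exact Bool.false_ne_true h4
        · rcases a4 with a4 | a4
          · obtain ⟨r', hr', h4⟩ := a4 s hs r hr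
            rw [b1 r' hr'] at h4
            exact absurd h4 Bool.false_ne_true
          · rw [List.length_cons]
            omega
  obtain ⟨a1, a2, a3, a4⟩ := key pad.length
  exact ⟨a1, a2, a4.resolve_right fun h => by have := h3 _ a2 a3; omega⟩

theorem step (hS : S_SIMS) {Ω τ : Type} [DecidableEq G] [MulAction G Ω] [DecidableEq Ω]
    {mem pass : τ → G → Bool} {pad : List Unit} {base : List Ω} {t : τ} {g₀ : G} {S : List G}
    {c : ℕ} (b1 : ∀ u ∈ gen S, (∀ b ∈ base, u • b = b) → u = 1)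
    (b2 : ∀ b ∈ base, ∃ T : Finset Ω, T.card ≤ c ∧ ∀ u ∈ gen S, u • b ∈ T)
    (b3 : base.length * c ≤ pad.length) (h1 : mem t 1 = true)
    (h2 : ∀ u ∈ gen S, ∀ v ∈ gen S, mem t u = true → mem t v = true → mem t (u⁻¹ * v) = true)
    (h3 : ∀ l : List G, (∀ u ∈ l, u ∈ gen S) → l.Pairwise (fun u v => mem t (u⁻¹ * v) = false) →
      l.length ≤ pad.length)
    (h4 : ∀ g, g₀⁻¹ * g ∈ gen S → pass t g = true → ∀ u ∈ gen S, pass t (g * u) = mem t u)
    (h5 : ∃ g, g₀⁻¹ * g ∈ gen S ∧ pass t g = true) :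
    ∃ g S', towerStep mem pass pad base (some (g₀, S)) t = some (g, S') ∧ g₀⁻¹ * g ∈ gen S ∧
      pass t g = true ∧ ∀ u, u ∈ gen S' ↔ u ∈ gen S ∧ mem t u = true := by
  obtain ⟨a1, a2, a3⟩ := bfs_spec h1 h2 h3
  have hinv : ∀ u ∈ gen S, mem t u = true → mem t u⁻¹ = true := fun u hu h => by
    simpa using h2 u hu 1 (one_mem _) h h1
  let V : Subgroup G :=
    { carrier := {u | u ∈ gen S ∧ mem t u = true}
      one_mem' := ⟨one_mem _, h1⟩
      inv_mem' := fun h => ⟨inv_mem h.1, hinv _ h.1 h.2⟩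
      mul_mem' := fun h h' => ⟨mul_mem h.1 h'.1, by
        simpa using h2 _ (inv_mem h.1) _ h'.1 (hinv _ h.1 h.2) h'.2⟩ }
  have hV : V ≤ gen S := fun _ h => h.1
  obtain ⟨c1, c2⟩ := schreier (V := V) (q := mem t) a1 a2 hV
    (fun x hx => ⟨fun h => ⟨hx, h⟩, fun h => h.2⟩) fun r hr s hs => by
      obtain ⟨r', hr', h⟩ := a3 s hs r hr
      exact ⟨r', hr', mul_mem (mul_mem (inv_mem (a2 r' hr'))
        (hs.elim mem_gen fun h => (inv_mem_iff).1 (mem_gen h))) (a2 r hr), by rwa [mul_assoc]⟩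
  obtain ⟨g', d1, d2⟩ := h5
  obtain ⟨r, hr, d3⟩ := c2 _ d1
  have d4 : pass t (g₀ * r) = true := by
    have d5 := V.inv_mem d3
    have d6 := (h4 g' d1 d2 _ d5.1).trans d5.2
    rwa [show g' * (r⁻¹ * (g₀⁻¹ * g'))⁻¹ = g₀ * r by group] at d6
  cases h : ((bfs pad (mem t) S).map (fun r => g₀ * r)).find? (pass t) with
  | none => exact absurd d4 (List.find?_eq_none.1 h _ (List.mem_map_of_mem hr))
  | some g =>
    obtain ⟨r', hr', e⟩ := List.mem_map.1 (List.mem_of_find?_eq_some h)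
    refine ⟨g, _, by simp only [towerStep, Option.bind_some, h, Option.map_some]; rfl, ?_,
      List.find?_some h, fun u => ?_⟩
    · rw [← e, inv_mul_cancel_left]
      exact a2 r' hr'
    · rw [hS G Ω pad base _ c (fun u hu => b1 u (hV (c1 ▸ hu)))
        (fun b hb => (b2 b hb).imp fun T hT => ⟨hT.1, fun u hu => hT.2 u (hV (c1 ▸ hu))⟩) b3, c1]
      rfl

end TowerA

theorem towerLemma : S_SIMS → S_TOWER := by
  intro hS G Ω τ _ _ _ _ mem pass pad base tests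
  induction tests with
  | nil =>
    intro g₀ S₀ c _ _ _ _ _ _ _ _
    exact ⟨g₀, S₀, rfl, by simp, by simp, by simp⟩
  | cons t tests ih =>
    intro g₀ S₀ c b1 b2 b3 h1 h2 h3 h4 ⟨g', h5, h6⟩
    have h4' : ∀ g, g₀⁻¹ * g ∈ gen S₀ → pass t g = true → ∀ u ∈ gen S₀,
        pass t (g * u) = mem t u :=
      fun g hg hp u hu => h4 [] t tests rfl g hg (by simp) hp u hu (by simp)
    obtain ⟨g, S, e, a1, a2, a3⟩ := TowerA.step hS b1 b2 b3 (h1 t List.mem_cons_self)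
      (fun u hu v hv => h2 [] t tests rfl u hu v hv (by simp) (by simp))
      (fun l hl => h3 [] t tests rfl l fun u hu => ⟨hl u hu, by simp⟩) h4'
      ⟨g', h5, h6 t List.mem_cons_self⟩
    have k : ∀ x, g⁻¹ * x ∈ gen S → g₀⁻¹ * x ∈ gen S₀ ∧ pass t x = true := fun x hx => by
      obtain ⟨k1, k2⟩ := (a3 _).1 hx
      refine ⟨by simpa [mul_assoc] using mul_mem a1 k1, ?_⟩
      rw [← k2, ← h4' g a1 a2 _ k1, mul_inv_cancel_left]
    have k' : g⁻¹ * g' ∈ gen S := by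
      have k1 : g⁻¹ * g' ∈ gen S₀ := by simpa [mul_assoc] using mul_mem (inv_mem a1) h5
      refine (a3 _).2 ⟨k1, ?_⟩
      rw [← h4' g a1 a2 _ k1, mul_inv_cancel_left]
      exact h6 t List.mem_cons_self
    obtain ⟨g₁, S₁, e₁, c1, c2, c3⟩ := ih g S c (fun u hu => b1 u ((a3 u).1 hu).1)
      (fun b hb => (b2 b hb).imp fun T hT => ⟨hT.1, fun u hu => hT.2 u ((a3 u).1 hu).1⟩) b3
      (fun s hs => h1 s (List.mem_cons_of_mem _ hs))
      (fun pre s post hp u hu v hv hu' hv' => h2 (t :: pre) s post (by rw [hp]; rfl)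
        u ((a3 u).1 hu).1 v ((a3 v).1 hv).1 (List.forall_mem_cons.2 ⟨((a3 u).1 hu).2, hu'⟩)
        (List.forall_mem_cons.2 ⟨((a3 v).1 hv).2, hv'⟩))
      (fun pre s post hp l hl => h3 (t :: pre) s post (by rw [hp]; rfl) l fun u hu =>
        ⟨((a3 u).1 (hl u hu).1).1, List.forall_mem_cons.2 ⟨((a3 u).1 (hl u hu).1).2, (hl u hu).2⟩⟩)
      (fun pre s post hp x hx hx' hs u hu hu' => h4 (t :: pre) s post (by rw [hp]; rfl) x
        (k x hx).1 (List.forall_mem_cons.2 ⟨(k x hx).2, hx'⟩) hs u ((a3 u).1 hu).1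
        (List.forall_mem_cons.2 ⟨((a3 u).1 hu).2, hu'⟩))
      ⟨g', k', fun s hs => h6 s (List.mem_cons_of_mem _ hs)⟩
    refine ⟨g₁, S₁, ?_, (k g₁ c1).1, List.forall_mem_cons.2 ⟨(k g₁ c1).2, c2⟩, fun u => ?_⟩
    · rw [tower, List.foldl_cons, e]
      exact e₁
    · rw [c3, a3, List.forall_mem_cons, and_assoc]

end Pool.Agent.P.MP_f1a348_lc.GI
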