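import Pool.Agent.P.MP_f1a348_lc.GI.ABasic

/-!
The basic list routines and the tower run in polynomial time.
-/

namespace Pool.Agent.P.MP_f1a348_lc.GI

open Pool.Agent.Lib.Helper47

set_option linter.unusedSectionVars false

variable {α : Type} [Enc α]

section enum
variable {β γ : Type} [Enc β] [Enc γ]

@[fun_prop] theorem pt_prodL {l : α → List β} {m : α → List γ} (hl : PT l) (hm : PT m) :
    PT (fun a => prodL (l a) (m a)) := by
  unfold prodL; fun_prop

theorem ps_len {l : α → List β} (hl : PT l) : PS (fun a => (l a).length) :=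
  hl.size_le.mono (fun _ => (length_lt_size _).le)

@[fun_prop] theorem pt_tuples {pad : α → List Unit} {l : α → List β} {u : α → List γ}
    (hp : PT pad) (hl : PT l) (hu : PT u) : PT (fun a => tuples (pad a) (l a) (u a)) := by
  refine PT.foldl (f := fun a (T : List (List β)) (_ : γ) =>
    (T.flatMap (fun t => (l a).map (fun x => x :: t))).take (pad a).length) (by fun_prop) hu
    (PT.const _)
    (fun a => ((pad a).length + 1) * ((u a).length * (size (l a) + 1) + 1 + 1) + 1)
    ((((ps_len hp).add (PB.const 1)).mul ((((ps_len hu).mul (hl.size_le.add (PB.const 1))).add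
      (PB.const 1)).add (PB.const 1))).add (PB.const 1)) (fun a v hv => ?_)
  change size (tuples (pad a) (l a) v) ≤ _
  refine (size_list_le (B := (u a).length * (size (l a) + 1) + 1) (fun t ht => ?_)).trans ?_
  · obtain ⟨h1, h2⟩ := tuples_sound ht
    refine (size_list_le (B := size (l a)) (fun x hx => (size_lt_of_mem (h2 x hx)).le)).trans ?_
    rw [h1]
    exact Nat.add_le_add_right (Nat.mul_le_mul_right _ hv.length_le) _
  · exact Nat.add_le_add_right (Nat.mul_le_mul_right _ (length_tuples_le_pad _ _ _)) _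

@[fun_prop] theorem pt_subl {pad : α → List Unit} {l : α → List β} (hp : PT pad) (hl : PT l) :
    PT (fun a => subl (pad a) (l a)) := by
  unfold subl; fun_prop
end enum

section sub
variable {U : Type} [Group U] [DecidableEq U] [Enc U] [PG U]

@[fun_prop] theorem pt_cloStep {el gs S : α → List U} (h1 : PT el) (h2 : PT gs) (h3 : PT S) :
    PT (fun a => cloStep (el a) (gs a) (S a)) := by
  unfold cloStep; fun_prop

@[fun_prop] theorem pt_clo {el gs : α → List U} (h1 : PT el) (h2 : PT gs) :
    PT (fun a => clo (el a) (gs a)) :=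
  PT.iterate_inv (f := fun a S => cloStep (el a) (gs a) S) (by fun_prop) h1 (by fun_prop)
    (fun a S => S.Sublist (el a)) (fun _ => List.filter_sublist)
    (fun _ _ _ => List.filter_sublist) _ h1.size_le (fun _ _ h => size_sublist h)

@[fun_prop] theorem pt_gensOf {Y : α → List U} (h : PT Y) : PT (fun a => gensOf (Y a)) := by
  refine PT.foldl_add (f := fun a (l : List U) x => if (clo (Y a) l).contains x then l else x :: l)
    (by fun_prop) h (PT.const _) (fun a => size (Y a)) h.size_le (fun a l x hx => ?_)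
  have := size_lt_of_mem hx
  split_ifs
  · omega
  · simp only [size_cons]; omega

@[fun_prop] theorem pt_schTriples {R S : α → List U} (h1 : PT R) (h2 : PT S) :
    PT (fun a => schTriples (R a) (S a)) := by
  unfold schTriples; fun_prop

@[fun_prop] theorem pt_smallIdx {pad ub : α → List Unit} {Y : α → List U} (h1 : PT pad)
    (h2 : PT ub) (h3 : PT Y) : PT (fun a => smallIdx (pad a) (ub a) (Y a)) := by
  unfold smallIdx; fun_prop

@[fun_prop] theorem pt_graphGens {S xs xs' : α → List U} {ι : α → FP U} (h1 : PT S) (h2 : PT ι)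
    (h3 : PT xs) (h4 : PT xs') : PT (fun a => graphGens (S a) (ι a) (xs a) (xs' a)) := by
  unfold graphGens; fun_prop

@[fun_prop] theorem pt_graphOf {S Z Z' xs xs' : α → List U} {ι : α → FP U} (h1 : PT S) (h2 : PT ι)
    (h5 : PT Z) (h6 : PT Z') (h3 : PT xs) (h4 : PT xs') :
    PT (fun a => graphOf (S a) (ι a) (Z a) (Z' a) (xs a) (xs' a)) := by
  unfold graphOf; fun_prop

@[fun_prop] theorem pt_graphB {J Z Z' : α → List U} {ι : α → FP U} {V : α → List (U × U)}
    (h1 : PT J) (h2 : PT ι) (h5 : PT Z) (h6 : PT Z') (h3 : PT V) :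
    PT (fun a => graphB (J a) (ι a) (Z a) (Z' a) (V a)) := by
  unfold graphB; fun_prop

@[fun_prop] theorem pt_matchB {J S Z Z' xs xs' : α → List U} {ι : α → FP U} (h0 : PT J)
    (h1 : PT S) (h2 : PT ι) (h5 : PT Z) (h6 : PT Z') (h3 : PT xs) (h4 : PT xs') :
    PT (fun a => matchB (J a) (S a) (ι a) (Z a) (Z' a) (xs a) (xs' a)) := by
  unfold matchB; fun_prop

@[fun_prop] theorem pt_cm {f g : α → U} (h1 : PT f) (h2 : PT g) : PT (fun a => cm (f a) (g a)) := by
  unfold cm; fun_prop

@[fun_prop] theorem pt_subB {A B : α → List U} (h1 : PT A) (h2 : PT B) :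
    PT (fun a => subB (A a) (B a)) := by
  unfold subB; fun_prop

@[fun_prop] theorem pt_normB {A B : α → List U} (h1 : PT A) (h2 : PT B) :
    PT (fun a => normB (A a) (B a)) := by
  unfold normB; fun_prop

@[fun_prop] theorem pt_commB {A B : α → List U} (h1 : PT A) (h2 : PT B) :
    PT (fun a => commB (A a) (B a)) := by
  unfold commB; fun_prop

@[fun_prop] theorem pt_cenL {A B : α → List U} (h1 : PT A) (h2 : PT B) :
    PT (fun a => cenL (A a) (B a)) := by
  unfold cenL; fun_prop

@[fun_prop] theorem pt_goodB {tl : α → TL U} {Y : α → List U} (h1 : PT tl) (h2 : PT Y) :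
    PT (fun a => goodB (tl a) (Y a)) := by
  unfold goodB; fun_prop

@[fun_prop] theorem pt_coverB {A B C : α → List U} (h1 : PT A) (h2 : PT B) (h3 : PT C) :
    PT (fun a => coverB (A a) (B a) (C a)) := by
  unfold coverB; fun_prop

@[fun_prop] theorem pt_decompB {tl : α → TL U} {A B C : α → List U} (h0 : PT tl) (h1 : PT A)
    (h2 : PT B) (h3 : PT C) : PT (fun a => decompB (tl a) (A a) (B a) (C a)) := by
  unfold decompB; fun_prop

@[fun_prop] theorem pt_summands {pad ub : α → List Unit} {tl : α → TL U} {Y : α → List U}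
    (h1 : PT pad) (h2 : PT ub) (h0 : PT tl) (h3 : PT Y) :
    PT (fun a => summands (pad a) (ub a) (tl a) (Y a)) := by
  unfold summands; fun_prop

@[fun_prop] theorem pt_copyB {tl tl' : α → TL U} {ι : α → FP U} {X xs Y' : α → List U}
    {c : α → List U × List U} (h1 : PT tl) (h2 : PT tl') (h0 : PT ι) (h3 : PT X) (h4 : PT xs)
    (h5 : PT Y') (h6 : PT c) :
    PT (fun a => copyB (tl a) (tl' a) (ι a) (X a) (xs a) (Y' a) (c a)) := by
  unfold copyB; fun_prop

@[fun_prop] theorem pt_findDup {pad ub : α → List Unit} {tl : α → TL U} {Y : α → List U}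
    (h1 : PT pad) (h2 : PT ub) (h0 : PT tl) (h3 : PT Y) :
    PT (fun a => findDup (pad a) (ub a) (tl a) (Y a)) := by
  unfold findDup; fun_prop

@[fun_prop] theorem pt_twin {pad ub : α → List Unit} {tl tl' : α → TL U} {ι : α → FP U}
    {X xs Y' : α → List U} (h7 : PT pad) (h8 : PT ub) (h1 : PT tl) (h2 : PT tl') (h0 : PT ι)
    (h3 : PT X) (h4 : PT xs) (h5 : PT Y') :
    PT (fun a => twin (pad a) (ub a) (tl a) (tl' a) (ι a) (X a) (xs a) (Y' a)) := by
  unfold twin; fun_prop

@[fun_prop] theorem pt_stepG {pad ub : α → List Unit} {tl : α → TL U} {Y : α → List U}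
    (h1 : PT pad) (h2 : PT ub) (h0 : PT tl) (h3 : PT Y) :
    PT (fun a => stepG (pad a) (ub a) (tl a) (Y a)) := by
  unfold stepG; fun_prop

@[fun_prop] theorem pt_stepJ {pad ub : α → List Unit} {tl tl' : α → TL U} {ι : α → FP U}
    {s : α → List U × List U × Bool} (h7 : PT pad) (h8 : PT ub) (h1 : PT tl) (h2 : PT tl')
    (h0 : PT ι) (h3 : PT s) :
    PT (fun a => stepJ (pad a) (ub a) (tl a) (tl' a) (ι a) (s a)) := by
  unfold stepJ; fun_prop

omit [Enc U] [PG U] in
theorem summands_sublist {pad ub : List Unit} {tl : TL U} {Y : List U} {c : List U × List U}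
    (h : c ∈ summands pad ub tl Y) : c.2.Sublist Y := by
  have h1 := (mem_prodL.1 (List.mem_filter.1 h).1).2
  obtain ⟨T, _, h2⟩ := List.mem_flatMap.1 h1
  obtain ⟨s, _, h3⟩ := List.mem_map.1 h2
  exact h3 ▸ clo_sublist Y s

omit [Enc U] [PG U] in
theorem stepG_sublist (pad ub : List Unit) (tl : TL U) (Y : List U) :
    (stepG pad ub tl Y).Sublist Y := by
  unfold stepG
  cases h : findDup pad ub tl Y with
  | none => exact List.Sublist.refl _
  | some c => exact summands_sublist (List.mem_of_find?_eq_some h)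

omit [Enc U] [PG U] in
theorem stepJ_sublist (pad ub : List Unit) (tl tl' : TL U) (ι : FP U)
    (s : List U × List U × Bool) : (stepJ pad ub tl tl' ι s).1.Sublist s.1 ∧
      (stepJ pad ub tl tl' ι s).2.1.Sublist s.2.1 := by
  unfold stepJ
  cases h : findDup pad ub tl s.1 with
  | none => exact ⟨List.Sublist.refl _, List.Sublist.refl _⟩
  | some c =>
    have h1 := summands_sublist (List.mem_of_find?_eq_some h)
    simp only [Option.elim]
    cases h' : twin pad ub tl tl' ι (clo s.1 (tl.2.2 ++ c.1)) c.1 s.2.1 with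
    | none => exact ⟨h1, List.Sublist.refl _⟩
    | some Z =>
      obtain ⟨d, hd, rfl⟩ := Option.map_eq_some_iff.1 h'
      exact ⟨h1, summands_sublist (List.mem_of_find?_eq_some hd)⟩

@[fun_prop] theorem pt_finalG {pad ub : α → List Unit} {tl : α → TL U} {Y : α → List U}
    (h1 : PT pad) (h2 : PT ub) (h0 : PT tl) (h3 : PT Y) :
    PT (fun a => finalG (pad a) (ub a) (tl a) (Y a)) :=
  PT.iterate_inv (f := fun a S => stepG (pad a) (ub a) (tl a) S) (by fun_prop) h3 h3
    (fun a S => S.Sublist (Y a)) (fun _ => List.Sublist.refl _)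
    (fun _ _ h => (stepG_sublist _ _ _ _).trans h) _ h3.size_le (fun _ _ h => size_sublist h)

@[fun_prop] theorem pt_finalJ {pad ub : α → List Unit} {tl tl' : α → TL U} {ι : α → FP U}
    {Y Y' : α → List U} (h7 : PT pad) (h8 : PT ub) (h1 : PT tl) (h2 : PT tl')
    (h0 : PT ι) (h3 : PT Y) (h4 : PT Y') :
    PT (fun a => finalJ (pad a) (ub a) (tl a) (tl' a) (ι a) (Y a) (Y' a)) :=
  PT.iterate_inv (f := fun a s => stepJ (pad a) (ub a) (tl a) (tl' a) (ι a) s) (by fun_prop) h3
    (by fun_prop) (fun a s => s.1.Sublist (Y a) ∧ s.2.1.Sublist (Y' a))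
    (fun _ => ⟨List.Sublist.refl _, List.Sublist.refl _⟩)
    (fun _ _ h => ⟨(stepJ_sublist _ _ _ _ _ _).1.trans h.1, (stepJ_sublist _ _ _ _ _ _).2.trans h.2⟩)
    (fun a => size (Y a) + size (Y' a) + 5) ((h3.size_le.add h4.size_le).add (PB.const 5))
    (fun _ s h => by
      have e1 := size_sublist h.1
      have e2 := size_sublist h.2
      have e3 := size_bool s.2.2
      rw [size_prod, size_prod s.2]; omega)
end sub

section tower
variable {G Ω τ : Type} [Group G] [DecidableEq G] [MulAction G Ω] [DecidableEq Ω]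

theorem simsIn_inv (b : Ω) {W : Subgroup G} {st : List G × List G} {g : G} (hg : g ∈ W)
    (h : ∀ x ∈ st.1 ++ st.2, x ∈ W) : (∀ x ∈ (simsIn b st g).1 ++ (simsIn b st g).2, x ∈ W) ∧
      (simsIn b st g).1.length + (simsIn b st g).2.length = st.1.length + st.2.length + 1 := by
  unfold simsIn
  cases e : st.1.find? (fun r => r • b == g • b) with
  | none =>
    refine ⟨fun x hx => ?_, by simp; omega⟩
    simp only [Option.elim, List.cons_append, List.mem_cons] at hx
    exact hx.elim (fun e => e ▸ hg) (h x)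
  | some r =>
    refine ⟨fun x hx => ?_, by simp; omega⟩
    simp only [Option.elim, List.mem_append, List.mem_cons] at hx
    rcases hx with hx | rfl | hx
    · exact h x (by simp [hx])
    · exact W.mul_mem (W.inv_mem (h r (by simp [List.mem_of_find?_eq_some e]))) hg
    · exact h x (by simp [hx])

theorem simsFold_inv (b : Ω) {W : Subgroup G} (u : List G) (hu : ∀ x ∈ u, x ∈ W) :
    (∀ x ∈ (u.foldl (simsIn b) ([], [])).1 ++ (u.foldl (simsIn b) ([], [])).2, x ∈ W) ∧
      (u.foldl (simsIn b) ([], [])).1.length + (u.foldl (simsIn b) ([], [])).2.length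
        = u.length := by
  induction u using List.reverseRecOn with
  | nil => simp
  | append_singleton u g ih =>
    have ih := ih (fun x hx => hu x (by simp [hx]))
    have := simsIn_inv b (hu g (by simp)) ih.1
    rw [List.foldl_append, List.foldl_cons, List.foldl_nil]
    exact ⟨this.1, by rw [this.2, ih.2]; simp⟩

theorem simsStep_inv (b : Ω) {W : Subgroup G} {st : List G × List G}
    (h : ∀ x ∈ st.1 ++ st.2, x ∈ W) : (∀ x ∈ (simsStep st b).1 ++ (simsStep st b).2, x ∈ W) ∧
      (simsStep st b).1.length + (simsStep st b).2.length = st.1.length + st.2.length := by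
  have := simsFold_inv b st.2 (fun x hx => h x (by simp [hx]))
  unfold simsStep
  refine ⟨fun x hx => ?_, by simp only [List.length_append]; omega⟩
  simp only [List.mem_append] at hx this h
  rcases hx with (hx | hx) | hx
  · exact this.1 x (Or.inl hx)
  · exact h x (Or.inl hx)
  · exact this.1 x (Or.inr hx)

theorem simsOuter_inv (base : List Ω) (S : List G) :
    (∀ x ∈ (base.foldl simsStep ([], S)).1 ++ (base.foldl simsStep ([], S)).2, x ∈ gen S) ∧
      (base.foldl simsStep ([], S)).1.length + (base.foldl simsStep ([], S)).2.length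
        = S.length := by
  induction base using List.reverseRecOn with
  | nil => exact ⟨fun x hx => mem_gen (by simpa using hx), by simp⟩
  | append_singleton u g ih =>
    have := simsStep_inv g ih.1
    rw [List.foldl_append, List.foldl_cons, List.foldl_nil]
    exact ⟨this.1, by rw [this.2, ih.2]⟩

theorem sims_mem {pad : List Unit} {base : List Ω} {S : List G} {x : G}
    (h : x ∈ sims pad base S) : x ∈ gen S :=
  (simsOuter_inv base S).1 x (List.mem_append_left _ (List.mem_of_mem_take h))

theorem sims_length (pad : List Unit) (base : List Ω) (S : List G) :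
    (sims pad base S).length ≤ pad.length := List.length_take_le _ _

theorem bfsStep_inv (mem : G → Bool) {S R : List G} (h : ∀ x ∈ R, x ∈ gen S) :
    (∀ x ∈ bfsStep mem S R, x ∈ gen S) ∧ (bfsStep mem S R).length ≤ R.length + 1 := by
  unfold bfsStep
  refine ⟨fun x hx => ?_, ?_⟩
  · rcases List.mem_append.1 hx with hx | hx
    · obtain ⟨s, hs, hx⟩ := List.mem_flatMap.1
        (List.mem_of_find?_eq_some (Option.mem_toList.1 hx))
      obtain ⟨r, hr, rfl⟩ := List.mem_map.1 hx
      refine Subgroup.mul_mem _ ?_ (h r hr)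
      rcases List.mem_append.1 hs with hs | hs
      · exact mem_gen hs
      · obtain ⟨s', hs', rfl⟩ := List.mem_map.1 hs
        exact Subgroup.inv_mem _ (mem_gen hs')
    · exact h x hx
  · rw [List.length_append, add_comm]
    exact Nat.add_le_add_left (Option.length_toList_le) _

theorem bfsIter_inv (mem : G → Bool) (S : List G) (i : ℕ) :
    (∀ x ∈ (bfsStep mem S)^[i] [1], x ∈ gen S) ∧ ((bfsStep mem S)^[i] [1]).length ≤ i + 1 := by
  induction i with
  | zero => exact ⟨fun x hx => by rw [List.mem_singleton.1 hx]; exact Subgroup.one_mem _, by simp⟩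
  | succ i ih =>
    rw [Function.iterate_succ_apply']
    have := bfsStep_inv mem ih.1
    exact ⟨this.1, by omega⟩

variable [Enc G] [Enc Ω] [Enc τ] [PG G] [PA G Ω]

theorem size_pairlist {st : List G × List G} {n B : ℕ} (h1 : ∀ x ∈ st.1 ++ st.2, size x ≤ B)
    (h2 : st.1.length + st.2.length ≤ n) : size st ≤ n * (B + 1) + 3 := by
  have e1 := size_list_le (l := st.1) (B := B) (fun x hx => h1 x (by simp [hx]))
  have e2 := size_list_le (l := st.2) (B := B) (fun x hx => h1 x (by simp [hx]))
  rw [size_prod]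
  nlinarith

@[fun_prop] theorem pt_simsIn {b : α → Ω} {st : α → List G × List G} {g : α → G} (h1 : PT b)
    (h2 : PT st) (h3 : PT g) : PT (fun a => simsIn (b a) (st a) (g a)) := by
  unfold simsIn; fun_prop

theorem pt_simsFold {b : α → Ω} {u : α → List G} (h1 : PT b) (h2 : PT u) :
    PT (fun a => (u a).foldl (simsIn (b a)) ([], [])) := by
  obtain ⟨B, hB, h⟩ := gen_bound h2
  refine PT.foldl (f := fun a st g => simsIn (b a) st g) (by fun_prop) h2 (PT.const _)
    (fun a => (u a).length * (B a + 1) + 3)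
    (((ps_len h2).mul (hB.add (PB.const 1))).add (PB.const 3)) (fun a v hv => ?_)
  have := simsFold_inv (b a) (W := gen (u a)) v (fun x hx => mem_gen (hv.subset hx))
  exact size_pairlist (fun x hx => h a x (this.1 x hx)) (this.2.le.trans hv.length_le)

@[fun_prop] theorem pt_simsStep {b : α → Ω} {st : α → List G × List G} (h2 : PT st) (h1 : PT b) :
    PT (fun a => simsStep (st a) (b a)) := by
  have := pt_simsFold h1 (PT.snd h2)
  exact PT.prodMk (PT.append (PT.fst this) (PT.fst h2)) (PT.snd this)

@[fun_prop] theorem pt_sims {pad : α → List Unit} {base : α → List Ω} {S : α → List G}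
    (h1 : PT pad) (h2 : PT base) (h3 : PT S) : PT (fun a => sims (pad a) (base a) (S a)) := by
  obtain ⟨B, hB, h⟩ := gen_bound h3
  have : PT (fun a => (base a).foldl simsStep ([], S a)) := by
    refine PT.foldl (f := fun _ (st : List G × List G) (b : Ω) => simsStep st b) (by fun_prop) h2
      (by fun_prop) (fun a => (S a).length * (B a + 1) + 3)
      (((ps_len h3).mul (hB.add (PB.const 1))).add (PB.const 3)) (fun a v _ => ?_)
    have := simsOuter_inv v (S a)
    exact size_pairlist (fun x hx => h a x (this.1 x hx)) this.2.le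
  exact PT.take (PT.length h1) (PT.fst this)

theorem pt_bfsStep {mem : α → G → Bool} {S R : α → List G}
    (hm : PT (fun p : α × G => mem p.1 p.2)) (h1 : PT S) (h2 : PT R) :
    PT (fun a => bfsStep (mem a) (S a) (R a)) := by
  unfold bfsStep
  refine PT.append (PT.toList (PT.find? (PT.all (PT.not ?_) (by fun_prop)) (by fun_prop))) h2
  exact hm.comp (g := fun q : (α × G) × G => (q.1.1, q.2⁻¹ * q.1.2)) (by fun_prop)

theorem pt_bfs {pad : α → List Unit} {mem : α → G → Bool} {S : α → List G} (h0 : PT pad)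
    (hm : PT (fun p : α × G => mem p.1 p.2)) (h1 : PT S) :
    PT (fun a => bfs (pad a) (mem a) (S a)) := by
  obtain ⟨B, hB, h⟩ := gen_bound h1
  refine PT.iterate (f := fun a R => bfsStep (mem a) (S a) R)
    (pt_bfsStep (mem := fun p : α × List G => mem p.1)
      (hm.comp (g := fun q : (α × List G) × G => (q.1.1, q.2)) (by fun_prop)) (by fun_prop)
      (by fun_prop)) h0 (PT.const _)
    (fun a => ((pad a).length + 1) * (B a + 1) + 1)
    ((((ps_len h0).add (PB.const 1)).mul (hB.add (PB.const 1))).add (PB.const 1))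
    (fun a i hi => ?_)
  have := bfsIter_inv (mem a) (S a) i
  refine (size_list_le (fun x hx => h a x (this.1 x hx))).trans ?_
  exact Nat.add_le_add_right (Nat.mul_le_mul_right _ (by omega)) _

theorem pt_towerStep {mem pass : α → τ → G → Bool} {pad : α → List Unit} {base : α → List Ω}
    {st : α → Option (G × List G)} {t : α → τ}
    (hm : PT (fun p : α × τ × G => mem p.1 p.2.1 p.2.2))
    (hp : PT (fun p : α × τ × G => pass p.1 p.2.1 p.2.2)) (h1 : PT pad) (h2 : PT base)
    (h3 : PT st) (h4 : PT t) :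
    PT (fun a => towerStep (mem a) (pass a) (pad a) (base a) (st a) (t a)) := by
  unfold towerStep
  have hm' : PT (fun q : (α × G × List G) × G => mem q.1.1 (t q.1.1) q.2) :=
    hm.comp (g := fun q : (α × G × List G) × G => (q.1.1, t q.1.1, q.2)) (by fun_prop)
  have hp' : PT (fun q : (α × G × List G) × G => pass q.1.1 (t q.1.1) q.2) :=
    hp.comp (g := fun q : (α × G × List G) × G => (q.1.1, t q.1.1, q.2)) (by fun_prop)
  have hb : PT (fun q : α × G × List G => bfs (pad q.1) (mem q.1 (t q.1)) q.2.2) :=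
    pt_bfs (mem := fun q : α × G × List G => mem q.1 (t q.1)) (by fun_prop) hm' (by fun_prop)
  have hs : PT (fun q : α × G × List G => sims (pad q.1) (base q.1)
      ((schTriples (bfs (pad q.1) (mem q.1 (t q.1)) q.2.2) q.2.2).filter (mem q.1 (t q.1)))) :=
    pt_sims (by fun_prop) (by fun_prop) (PT.filter hm' (pt_schTriples hb (by fun_prop)))
  refine PT.optBind h3 (PT.optMap (PT.find? hp' (PT.map (by fun_prop) hb)) ?_)
  exact PT.prodMk (by fun_prop) (hs.comp (g := fun q : (α × G × List G) × G => q.1) (by fun_prop))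

omit [Enc G] [Enc Ω] [Enc τ] [PG G] [PA G Ω] in
theorem towerStep_inv {mem pass : τ → G → Bool} {pad : List Unit} {base : List Ω}
    {st : Option (G × List G)} {t : τ} {W : Subgroup G} {n : ℕ} (hn : pad.length ≤ n)
    (h : ∀ s ∈ st, s.1 ∈ W ∧ (∀ x ∈ s.2, x ∈ W) ∧ s.2.length ≤ n) :
    ∀ s ∈ towerStep mem pass pad base st t, s.1 ∈ W ∧ (∀ x ∈ s.2, x ∈ W) ∧ s.2.length ≤ n := by
  intro s' hs'
  obtain ⟨s, hs, h1⟩ := Option.bind_eq_some_iff.1 hs'
  obtain ⟨g, hg, rfl⟩ := Option.map_eq_some_iff.1 h1
  obtain ⟨a1, a2, _⟩ := h s hs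
  have hle : gen s.2 ≤ W := gen_le.2 a2
  have hb : ∀ x ∈ bfs pad (mem t) s.2, x ∈ gen s.2 := (bfsIter_inv _ _ _).1
  refine ⟨?_, fun x hx => ?_, (sims_length _ _ _).trans hn⟩
  · obtain ⟨r, hr, rfl⟩ := List.mem_map.1 (List.mem_of_find?_eq_some hg)
    exact W.mul_mem a1 (hle (hb r hr))
  · refine (gen_le.2 fun y hy => ?_ : gen _ ≤ W) (sims_mem hx)
    obtain ⟨r', hr', s, hs, r, hr, rfl⟩ := mem_schTriples.1 (List.mem_filter.1 hy).1
    refine W.mul_mem (W.mul_mem (W.inv_mem (hle (hb _ hr'))) ?_) (hle (hb _ hr))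
    rcases hs with rfl | hs | hs
    · exact W.one_mem
    · exact a2 _ hs
    · simpa using W.inv_mem (a2 _ hs)

theorem pt_tower {mem pass : α → τ → G → Bool} {pad : α → List Unit} {base : α → List Ω}
    {tests : α → List τ} {g₀ : α → G} {S₀ : α → List G}
    (hm : PT (fun p : α × τ × G => mem p.1 p.2.1 p.2.2))
    (hp : PT (fun p : α × τ × G => pass p.1 p.2.1 p.2.2)) (h1 : PT pad) (h2 : PT base)
    (h3 : PT tests) (h4 : PT g₀) (h5 : PT S₀) :
    PT (fun a => tower (mem a) (pass a) (pad a) (base a) (tests a) (g₀ a) (S₀ a)) := by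
  obtain ⟨B, hB, h⟩ := gen_bound (PT.cons h4 h5)
  refine PT.foldl_inv (f := fun a st t => towerStep (mem a) (pass a) (pad a) (base a) st t)
    (pt_towerStep (mem := fun p : α × Option (G × List G) × τ => mem p.1)
      (pass := fun p : α × Option (G × List G) × τ => pass p.1)
      (hm.comp (g := fun q : (α × Option (G × List G) × τ) × τ × G => (q.1.1, q.2)) (by fun_prop))
      (hp.comp (g := fun q : (α × Option (G × List G) × τ) × τ × G => (q.1.1, q.2)) (by fun_prop))
      (by fun_prop) (by fun_prop) (by fun_prop) (by fun_prop)) h3 (by fun_prop)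
    (fun a st => ∀ s ∈ st, s.1 ∈ gen (g₀ a :: S₀ a) ∧ (∀ x ∈ s.2, x ∈ gen (g₀ a :: S₀ a)) ∧
      s.2.length ≤ (pad a).length + (S₀ a).length) (fun a s hs => ?_)
    (fun a st t _ ht => towerStep_inv (Nat.le_add_right _ _) ht)
    (fun a => B a + ((pad a).length + (S₀ a).length) * (B a + 1) + 4)
    ((hB.add (((ps_len h1).add (ps_len h5)).mul (hB.add (PB.const 1)))).add (PB.const 4))
    (fun a st ht => ?_)
  · obtain rfl := Option.mem_some_iff.1 hs
    exact ⟨mem_gen (by simp), fun x hx => mem_gen (by simp [hx]), Nat.le_add_left _ _⟩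
  · cases st with
    | none => simp
    | some s =>
      obtain ⟨a1, a2, a3⟩ := ht s rfl
      have e1 := h a _ a1
      have e2 := size_list_le (fun x hx => h a x (a2 x hx))
      have e3 := Nat.mul_le_mul_right (B a + 1) a3
      rw [size_some, size_prod]
      omega
end tower

end Pool.Agent.P.MP_f1a348_lc.GI
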