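import Pool.Agent.P.MP_f1a348_lc.GI.PTB
import Pool.Agent.Lib.Helper33.RT

/-!
The main program: parsing of the multiplication tables, iterative deepening, running time.
-/

namespace Pool.Agent.P.MP_f1a348_lc.GI

open Pool.Agent.Lib.Helper47 Pool.Agent.Lib.Helper33

noncomputable section

/-- the order of the groups, read off from the length of the input -/
def ordN (x : List Bool) : ℕ :=
  (List.range x.length).countP (fun m => Nat.ble (2 * ((m + 1) * (m + 1) * (m + 1))) x.length)

/-- one row of a multiplication table as a permutation -/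
def row (R : List ℕ) (x : List Bool) (off a : ℕ) : FP ℕ :=
  FP.ofList (R.map (fun b =>
    (b, (R.find? (fun c => x.getD (off + ((a * R.length + b) * R.length + c)) false)).getD 0)))

/-- the regular representation of the group whose table starts at position `off` -/
def els (R : List ℕ) (x : List Bool) (off : ℕ) : List (FP ℕ) := R.map (row R x off)

/-- multiply the length by `el.length + 1` -/
def grow1 (el : List (FP ℕ)) (pad : List Unit) : List Unit :=
  pad.flatMap (fun _ => () :: el.map (fun _ => ()))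

/-- multiply the length by `(el.length + 1) ^ 3` -/
def grow3 (el : List (FP ℕ)) (pad : List Unit) : List Unit := grow1 el (grow1 el (grow1 el pad))

/-- multiply the length by `(el.length + 1) ^ 9` -/
def grow (el : List (FP ℕ)) (pad : List Unit) : List Unit := grow3 el (grow3 el (grow3 el pad))

/-- the square root in unary -/
def ubOf (uk : List Unit) : List Unit :=
  (uk.zipIdx.filter (fun p => Nat.ble ((p.2 + 1) * (p.2 + 1)) uk.length)).map (fun p => p.1)

/-- the state of the main loop -/
abbrev St : Type := List Unit × List Unit × List (FP ℕ) × List (FP ℕ)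

/-- the initial state -/
def start (x : List Bool) : St :=
  ([], grow (els (List.range (ordN x)) x 0) [()], els (List.range (ordN x)) x 0,
    els (List.range (ordN x)) x (ordN x * ordN x * ordN x))

/-- increase the parameter -/
def step (s : St) : St := (() :: s.1, grow s.2.2.1 s.2.1, s.2.2)

/-- the plan found for the current parameter -/
def planOf (s : St) : Option (Plan (FP ℕ)) := findPlan s.2.1 s.1 (ubOf s.1) s.2.2.1

/-- the answer -/
def answer (s : St) : List Bool :=
  [(planOf s).elim false (fun p => exec s.2.1 s.1 (ubOf s.1) s.2.2.1 s.2.2.2 p)]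

end

theorem pt_ordN : PT ordN := by
  have := PT.rangeLength (PT.id (α := List Bool))
  unfold ordN; fun_prop

theorem pt_range : PT (fun x => List.range (ordN x)) :=
  PT.range_of_le pt_ordN PT.id (fun x => List.countP_le_length.trans (by simp))

section
variable {α : Type} [Enc α]

@[fun_prop] theorem pt_row {R : α → List ℕ} {x : α → List Bool} {off b : α → ℕ} (h1 : PT R)
    (h2 : PT x) (h3 : PT off) (h4 : PT b) : PT (fun a => row (R a) (x a) (off a) (b a)) := by
  unfold row; fun_prop

@[fun_prop] theorem pt_els {R : α → List ℕ} {x : α → List Bool} {off : α → ℕ} (h1 : PT R)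
    (h2 : PT x) (h3 : PT off) : PT (fun a => els (R a) (x a) (off a)) := by
  unfold els; fun_prop

@[fun_prop] theorem pt_grow {el : α → List (FP ℕ)} {pad : α → List Unit} (h1 : PT el)
    (h2 : PT pad) : PT (fun a => grow (el a) (pad a)) := by
  unfold grow grow3 grow1; fun_prop

@[fun_prop] theorem pt_ubOf {uk : α → List Unit} (h1 : PT uk) : PT (fun a => ubOf (uk a)) := by
  unfold ubOf; fun_prop
end

theorem pt_start : PT start := by
  have h1 := pt_ordN
  have h2 := pt_range
  unfold start; fun_prop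

theorem pt_step : PT step := by unfold step; fun_prop

theorem pt_planOf : PT planOf := by unfold planOf; fun_prop

theorem pt_answer : PT answer := by
  have := pt_planOf
  unfold answer; fun_prop

theorem length_grow (el : List (FP ℕ)) (pad : List Unit) :
    (grow el pad).length = pad.length * (el.length + 1) ^ 9 := by
  have : ∀ pad, (grow1 el pad).length = pad.length * (el.length + 1) := fun pad => by
    simp [grow1, List.length_flatMap]
  simp only [grow, grow3, this]
  ring

theorem countP_range_lt (n s : ℕ) (hs : s ≤ n) (q : ℕ → Bool) (hq : ∀ i, q i = true ↔ i < s) :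
    (List.range n).countP q = s := by
  obtain ⟨m, rfl⟩ := Nat.exists_eq_add_of_le hs
  rw [List.range_add, List.countP_append, List.countP_eq_length.2, List.countP_eq_zero.2]
  · simp
  · intro a ha
    obtain ⟨b, _, rfl⟩ := List.mem_map.1 ha
    simp [hq]
  · intro a ha
    simpa [hq] using ha

theorem length_ubOf (uk : List Unit) : (ubOf uk).length = Nat.sqrt uk.length := by
  rw [ubOf, List.length_map, ← List.countP_eq_length_filter,
    ← countP_range_lt uk.length _ (Nat.sqrt_le_self _)
      (fun i => Nat.ble ((i + 1) * (i + 1)) uk.length)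
      (fun i => by rw [Nat.ble_eq, ← Nat.le_sqrt]; rfl), List.range_eq_range',
    ← List.zipIdx_map_snd 0 uk, List.countP_map]
  rfl

theorem step_iter (x : List Bool) (k : ℕ) : (step^[k] (start x)).1.length = k ∧
    (step^[k] (start x)).2.1.length = ((start x).2.2.1.length + 1) ^ (9 * (k + 1)) ∧
    (step^[k] (start x)).2.2 = (start x).2.2 := by
  induction k with
  | zero => exact ⟨rfl, by simp [start, length_grow], rfl⟩
  | succ k ih =>
    rw [Function.iterate_succ_apply']
    generalize step^[k] (start x) = s at ih ⊢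
    generalize start x = s₀ at ih ⊢
    refine ⟨by simp [step, ih.1], ?_, ih.2.2⟩
    simp only [step, length_grow, ih.2.1, ih.2.2]
    ring

theorem big_iter (N k : ℕ) {pad : List Unit} (h : pad.length = (N + 1) ^ (9 * (k + 1))) :
    Big N (Nat.sqrt k) pad ∧ N ^ k ≤ pad.length := by
  have h1 := Nat.sqrt_le k
  have h2 := Nat.sqrt_le_self k
  rw [Big, h]
  exact ⟨Nat.pow_le_pow_right (Nat.succ_pos N) (by nlinarith),
    (Nat.pow_le_pow_left (Nat.le_succ N) k).trans
      (Nat.pow_le_pow_right (Nat.succ_pos N) (by omega))⟩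

/-- inputs on which some parameter admits a plan -/
def Halts (x : List Bool) : Prop := ∃ k, (planOf (step^[k] (start x))).isSome = true

open Classical in
/-- the least parameter admitting a plan -/
noncomputable def lev (x : {x // Halts x}) : ℕ := Nat.find x.2

/-- the budget -/
noncomputable def bud (x : {x // Halts x}) : ℕ :=
  x.1.length + lev x + ((start x.1).2.2.1.length + 1) ^ (9 * (lev x + 1))

theorem size_units (l : List Unit) : size l = 2 * l.length + 1 := by
  induction l with
  | nil => rfl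
  | cons a l ih => rw [size_cons, ih, size_unit, List.length_cons]; omega

theorem exists_machine : ∃ (M : BTM) (p : Polynomial ℕ), ∀ x : {x // Halts x},
    M.Out x.1 (answer (step^[lev x] (start x.1))) (p.eval (bud x)) := by
  classical
  have hlen : PB bud (fun x => x.1.length) := PB.self.mono fun x => by unfold bud; omega
  have hx : PB bud (fun x => size x.1) :=
    (((PB.const 4).mul hlen).add (PB.const 1)).mono (fun a => size_bits_le _)
  have h0 : RT bud (fun x => x.1) (fun x => start x.1) := RT.of_PT pt_start hx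
  have hs := h0.size_le hx
  have h1 : RT bud (fun x => start x.1) (fun x => step^[lev x] (start x.1)) := by
    refine RT.whileN (go := fun s => (planOf s).isNone) pt_step (PT.isNone pt_planOf) lev
      (fun x => 4 * bud x + 4 + size (start x.1)) (PB.self.mono fun x => by unfold bud; omega)
      ((((PB.const 4).mul PB.self).add (PB.const 4)).add hs) (fun x i hi => ?_) (fun x => ?_)
      (fun x i hi => ?_)
    · have := Nat.find_min x.2 hi
      simpa using this
    · have := Nat.find_spec x.2
      rw [← Option.not_isSome, Bool.not_eq_false']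
      exact this
    · obtain ⟨e1, e2, e3⟩ := step_iter x.1 i
      have e4 : ((start x.1).2.2.1.length + 1) ^ (9 * (i + 1)) ≤
          ((start x.1).2.2.1.length + 1) ^ (9 * (lev x + 1)) :=
        Nat.pow_le_pow_right (Nat.succ_pos _) (by omega)
      rw [size_prod, size_prod (step^[i] (start x.1)).2, size_units, size_units, e1, e2, e3,
        size_prod (start x.1), size_prod (start x.1).2]
      unfold bud
      omega
  have h2 := h1.trans (RT.of_PT pt_answer (h1.size_le hs))
  obtain ⟨M, t, ⟨p, hp⟩, _, h⟩ := (h0.trans h2).exists_btm hlen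
  exact ⟨M, p, fun x => (h x).mono (hp x)⟩

/-! ### parsing -/

open Classical in
/-- the multiplication table as a bit string -/
noncomputable def tbits {G : Type} [Group G] {N : ℕ} (e : Fin N ≃ G) : List Bool :=
  List.ofFn fun x : Fin (N * N * N) => decide (e x.divNat.divNat * e x.divNat.modNat = e x.modNat)

theorem length_tbits {G : Type} [Group G] {N : ℕ} (e : Fin N ≃ G) :
    (tbits e).length = N * N * N := List.length_ofFn

theorem tbits_getD {G : Type} [Group G] {N : ℕ} (e : Fin N ≃ G) (a b c : Fin N) :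
    (tbits e).getD ((a * N + b) * N + c) false = true ↔ e a * e b = e c := by
  have h1 : a * N + b < N * N := by nlinarith [a.2, b.2]
  have h2 : (a * N + b) * N + c < N * N * N := by nlinarith [c.2]
  have hN : 0 < N := Fin.pos a
  rw [List.getD_eq_getElem _ _ (by rwa [length_tbits])]
  simp only [tbits, List.getElem_ofFn, decide_eq_true_eq]
  have d1 : ((a * N + b) * N + c) / N = a * N + b := by
    rw [mul_comm, Nat.mul_add_div hN, Nat.div_eq_of_lt c.2, add_zero]
  have d2 : (a * N + b) / N = a := by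
    rw [mul_comm, Nat.mul_add_div hN, Nat.div_eq_of_lt b.2, add_zero]
  have e1 : (⟨_, h2⟩ : Fin (N * N * N)).divNat.divNat = a := Fin.ext (by simp [d1, d2])
  have e2 : (⟨_, h2⟩ : Fin (N * N * N)).divNat.modNat = b :=
    Fin.ext (by simp [d1, Nat.mod_eq_of_lt b.2])
  have e3 : (⟨_, h2⟩ : Fin (N * N * N)).modNat = c := Fin.ext (by simp [Nat.mod_eq_of_lt c.2])
  rw [e1, e2, e3]

theorem els_rep {G : Type} [Group G] {N : ℕ} (e : Fin N ≃ G) (x : List Bool) (off : ℕ)
    (hx : ∀ a b c : Fin N, x.getD (off + ((a * N + b) * N + c)) false = true ↔ e a * e b = e c) :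
    ∃ Z : Subgroup (FP ℕ), Rep (els (List.range N) x off) Z ∧ Nonempty (G ≃* Z) := by
  have hf : ∀ a b : Fin N, ((List.range N).find? (fun c =>
      x.getD (off + ((a * (List.range N).length + b) * (List.range N).length + c)) false)).getD 0
      = e.symm (e a * e b) := by
    intro a b
    rw [List.length_range]
    cases h : (List.range N).find? (fun c => x.getD (off + ((a * N + b) * N + c)) false) with
    | none =>
      rw [List.find?_eq_none] at h
      exact absurd ((hx a b (e.symm (e a * e b))).2 (by simp))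
        (h _ (List.mem_range.2 (e.symm (e a * e b)).2))
    | some c =>
      have h1 := List.mem_range.1 (List.mem_of_find?_eq_some h)
      have h3 := List.find?_some h
      have h2 := (hx a b ⟨c, h1⟩).1 h3
      simp [h2]
  have hin : ∀ a b : Fin N, (row (List.range N) x off a).app b = e.symm (e a * e b) := by
    intro a b
    rw [row, FP.ofList_map (fun u hu v hv huv => ?_) (List.mem_range.2 b.2), hf]
    have hu' := List.mem_range.1 hu
    have hv' := List.mem_range.1 hv
    have := (hf a ⟨u, hu'⟩).symm.trans (huv.trans (hf a ⟨v, hv'⟩))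
    simpa using Fin.ext this
  have hout : ∀ (a : Fin N) (b : ℕ), N ≤ b → (row (List.range N) x off a).app b = b := by
    intro a b hb
    refine FP.ofList_fix (fun p hp => ?_)
    obtain ⟨u, hu, rfl⟩ := List.mem_map.1 hp
    have hu' := List.mem_range.1 hu
    have h1 := hf a ⟨u, hu'⟩
    have h2 := (e.symm (e a * e ⟨u, hu'⟩)).2
    exact ⟨by dsimp only; omega, by dsimp only at h1 ⊢; omega⟩
  let φ : G →* FP ℕ := MonoidHom.mk' (fun g => row (List.range N) x off (e.symm g)) (fun g h => by
    refine FP.ext fun b => ?_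
    rw [FP.app_mul]
    rcases Nat.lt_or_ge b N with hb | hb
    · rw [hin _ ⟨b, hb⟩, hin _ ⟨b, hb⟩, hin]
      simp [mul_assoc]
    · rw [hout _ _ hb, hout _ _ hb, hout _ _ hb])
  have hφ : Function.Injective φ := fun g h hgh => by
    have := congrArg (fun σ : FP ℕ => σ.app (e.symm 1)) hgh
    simp only [φ, MonoidHom.mk'_apply, hin] at this
    simpa using Fin.ext this
  have hel : els (List.range N) x off = (List.finRange N).map (fun a => φ (e a)) := by
    rw [els, ← List.map_coe_finRange_eq_range, List.map_map]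
    simp [φ]
  refine ⟨φ.range, ⟨?_, fun σ => ?_⟩, ⟨MonoidHom.ofInjective hφ⟩⟩
  · rw [hel]
    exact (List.nodup_finRange N).map (hφ.comp e.injective)
  · rw [hel, List.mem_map, MonoidHom.mem_range]
    exact ⟨fun ⟨a, _, h⟩ => ⟨_, h⟩, fun ⟨g, h⟩ => ⟨e.symm g, List.mem_finRange _, by simpa⟩⟩

theorem start_rep {G H : Type} [Group G] [Group H] {N : ℕ} (e : Fin N ≃ G) (e' : Fin N ≃ H) :
    ∃ Z Z' : Subgroup (FP ℕ), Rep (start (tbits e ++ tbits e')).2.2.1 Z ∧
      Rep (start (tbits e ++ tbits e')).2.2.2 Z' ∧ Nonempty (G ≃* Z) ∧ Nonempty (H ≃* Z') ∧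
      (start (tbits e ++ tbits e')).2.2.1.length = N ∧
      (start (tbits e ++ tbits e')).2.2.2.length = N := by
  have hN : 0 < N := Fin.pos (e.symm 1)
  have hl : (tbits e ++ tbits e').length = 2 * (N * N * N) := by
    rw [List.length_append, length_tbits, length_tbits]; ring
  have ho : ordN (tbits e ++ tbits e') = N := by
    rw [ordN, hl]
    refine countP_range_lt _ _ (by nlinarith [Nat.mul_pos hN hN]) _ (fun i => ?_)
    rw [Nat.ble_eq]
    constructor
    · intro h
      by_contra hc
      have h1 : N < i + 1 := by omega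
      have := Nat.mul_lt_mul'' (Nat.mul_lt_mul'' h1 h1) h1
      omega
    · intro h
      have := Nat.mul_le_mul (Nat.mul_le_mul (Nat.succ_le_of_lt h) (Nat.succ_le_of_lt h))
        (Nat.succ_le_of_lt h)
      simp only [Nat.succ_eq_add_one] at this
      omega
  have hb : ∀ a b c : Fin N, (a * N + b) * N + c < N * N * N := fun a b c => by
    have h1 : a * N + b < N * N := by nlinarith [a.2, b.2]
    nlinarith [c.2]
  obtain ⟨Z, h1, h2⟩ := els_rep e (tbits e ++ tbits e') 0 (fun a b c => by
    rw [zero_add, List.getD_append _ _ _ _ (by rw [length_tbits]; exact hb a b c), tbits_getD])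
  obtain ⟨Z', h3, h4⟩ := els_rep e' (tbits e ++ tbits e') (N * N * N) (fun a b c => by
    rw [List.getD_append_right _ _ _ _ (by rw [length_tbits]; omega), length_tbits,
      Nat.add_sub_cancel_left, tbits_getD])
  refine ⟨Z, Z', ?_, ?_, h2, h4, ?_, ?_⟩
  · simpa only [start, ho] using h1
  · simpa only [start, ho] using h3
  · simp [start, ho, els]
  · simp [start, ho, els]

/-! ### the running time -/

theorem poly_le_pow (p : Polynomial ℕ) : ∃ c d : ℕ, ∀ m : ℕ, p.eval m ≤ c * (m + 1) ^ d := by
  induction p using Polynomial.induction_on' with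
  | add p q hp hq =>
    obtain ⟨c, d, h⟩ := hp
    obtain ⟨c', d', h'⟩ := hq
    refine ⟨c + c', d + d', fun m => ?_⟩
    have e1 : (m + 1) ^ d ≤ (m + 1) ^ (d + d') := Nat.pow_le_pow_right (by omega) (by omega)
    have e2 : (m + 1) ^ d' ≤ (m + 1) ^ (d + d') := Nat.pow_le_pow_right (by omega) (by omega)
    rw [Polynomial.eval_add, add_mul]
    exact Nat.add_le_add ((h m).trans (Nat.mul_le_mul_left _ e1))
      ((h' m).trans (Nat.mul_le_mul_left _ e2))
  | monomial k a =>
    exact ⟨a, k, fun m => by
      rw [Polynomial.eval_monomial]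
      exact Nat.mul_le_mul_left _ (Nat.pow_le_pow_left (Nat.le_succ m) k)⟩

theorem time_bound (d : ℕ) {ε : ℝ} (hε : 0 < ε) : ∃ M : ℕ, 2 ≤ M ∧ ∀ B : ℕ, ∃ C : ℝ, ∀ N : ℕ,
    0 < N → (((N + 1) ^ (d * (2 * Nat.log M N + B)) : ℕ) : ℝ) ≤
      C * (N : ℝ) ^ (ε * Real.logb 2 N) := by
  obtain ⟨j, hj⟩ := exists_nat_gt (4 * d / ε)
  have hj0 : (0 : ℝ) < (j + 1 : ℕ) := by positivity
  refine ⟨2 ^ (j + 1), by rw [pow_succ]; have := Nat.one_le_two_pow (n := j); omega,
    fun B => ⟨2 ^ ((ε / 2 + d * B) ^ 2 / (2 * ε) + d * B : ℝ), fun N hN => ?_⟩⟩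
  set L := Nat.log (2 ^ (j + 1)) N
  set l := Real.logb 2 N with hl
  have hN' : (0 : ℝ) < N := by exact_mod_cast hN
  have hN1 : (1 : ℝ) ≤ N := by exact_mod_cast hN
  have hl0 : 0 ≤ l := Real.logb_nonneg one_lt_two hN1
  have e1 : (N : ℝ) = 2 ^ l := (Real.rpow_logb two_pos (by norm_num) hN').symm
  have hL : ((j + 1 : ℕ) : ℝ) * L ≤ l := by
    have h1 : (2 ^ (j + 1)) ^ L ≤ N := Nat.pow_log_le_self _ hN.ne'
    rw [← pow_mul] at h1
    have h2 : (2 : ℝ) ^ (((j + 1) * L : ℕ) : ℝ) ≤ 2 ^ l := by
      rw [← e1, Real.rpow_natCast]; exact_mod_cast h1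
    have := (Real.rpow_le_rpow_left_iff one_lt_two).1 h2
    exact_mod_cast this
  have hdL : 2 * (d : ℝ) * L ≤ ε / 2 * l := by
    have h1 : 4 * (d : ℝ) ≤ ε * (j + 1 : ℕ) := by
      rw [div_lt_iff₀ hε] at hj
      push_cast
      nlinarith
    have h2 : (0 : ℝ) ≤ L := Nat.cast_nonneg _
    nlinarith [mul_le_mul_of_nonneg_right h1 h2, mul_le_mul_of_nonneg_left hL hε.le]
  have e2 : ((N + 1 : ℕ) : ℝ) ≤ 2 ^ (l + 1) := by
    rw [Real.rpow_add two_pos, ← e1, Real.rpow_one]
    push_cast
    linarith
  calc (((N + 1) ^ (d * (2 * L + B)) : ℕ) : ℝ) = ((N + 1 : ℕ) : ℝ) ^ (d * (2 * L + B)) := by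
        push_cast; rfl
    _ ≤ (2 ^ (l + 1)) ^ (d * (2 * L + B)) := pow_le_pow_left₀ (by positivity) e2 _
    _ = 2 ^ ((l + 1) * ((d * (2 * L + B) : ℕ) : ℝ)) := by
        rw [← Real.rpow_natCast, ← Real.rpow_mul two_pos.le]
    _ ≤ 2 ^ (((ε / 2 + d * B) ^ 2 / (2 * ε) + d * B : ℝ) + l * (ε * l)) := by
        refine Real.rpow_le_rpow_of_exponent_le one_le_two ?_
        push_cast
        have h1 : (ε / 2 + d * B) * l ≤ (ε / 2 + d * B) ^ 2 / (2 * ε) + ε / 2 * l ^ 2 := by
          generalize ε / 2 + d * B = a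
          have h3 : a ^ 2 / (2 * ε) + ε / 2 * l ^ 2 - a * l = (a - ε * l) ^ 2 / (2 * ε) := by
            field_simp; ring
          have h4 : 0 ≤ (a - ε * l) ^ 2 / (2 * ε) := by positivity
          linarith
        have h2 := mul_le_mul_of_nonneg_left hdL (show 0 ≤ l + 1 by linarith)
        nlinarith
    _ = _ := by
        rw [Real.rpow_add two_pos, Real.rpow_mul two_pos.le, ← e1]

open Classical in
theorem main_of (hplan : S_PLAN) (hexec : S_EXEC) : ∃ M : BTM, ∀ ε : ℝ, 0 < ε → ∃ C : ℝ,
    ∀ (G H : Type) [Group G] [Group H] (N : ℕ) (e : Fin N ≃ G) (e' : Fin N ≃ H), ∃ t : ℕ,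
      (t : ℝ) ≤ C * (N : ℝ) ^ (ε * Real.logb 2 N) ∧
      M.Out (tbits e ++ tbits e') [decide (Nonempty (G ≃* H))] t := by
  obtain ⟨M, p, hM⟩ := exists_machine
  obtain ⟨c, d, hp⟩ := poly_le_pow p
  refine ⟨M, fun ε hε => ?_⟩
  obtain ⟨m, hm, hC⟩ := time_bound (9 * d) hε
  obtain ⟨B, hB⟩ := hplan m hm
  obtain ⟨C, hC⟩ := hC (B + B * B + 1)
  refine ⟨(c * 3 ^ d : ℕ) * C, fun G H _ _ N e e' => ?_⟩
  obtain ⟨Z, Z', r1, r2, ⟨i1⟩, ⟨i2⟩, l1, l2⟩ := start_rep e e'
  have hN : 0 < N := Fin.pos (e.symm 1)
  set x := tbits e ++ tbits e' with hx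
  have hbig : ∀ k, Big N (ubOf (step^[k] (start x)).1).length (step^[k] (start x)).2.1 ∧
      N ^ (step^[k] (start x)).1.length ≤ (step^[k] (start x)).2.1.length := fun k => by
    obtain ⟨e1, e2, _⟩ := step_iter x k
    rw [length_ubOf, e1]
    exact big_iter N k (by rw [e2, l1])
  set k₀ := 2 * Nat.log m N + (B + B * B) with hk₀
  have hk : (planOf (step^[k₀] (start x))).isSome = true := by
    obtain ⟨e1, _, e3⟩ := step_iter x k₀
    unfold planOf
    rw [e3]
    refine hB _ _ _ _ _ Z r1 (by rw [l1, e1]; omega) ?_ (by rw [l1]; exact (hbig k₀).1)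
      (by rw [l1]; exact (hbig k₀).2)
    rw [length_ubOf, e1, Nat.le_sqrt]
    omega
  let X : {x // Halts x} := ⟨x, k₀, hk⟩
  have hle : lev X ≤ k₀ := Nat.find_min' X.2 hk
  refine ⟨p.eval (bud X), ?_, ?_⟩
  · have h1 : bud X + 1 ≤ 3 * (N + 1) ^ (9 * (k₀ + 1)) := by
      have a1 : (N + 1) ^ (9 * (lev X + 1)) ≤ (N + 1) ^ (9 * (k₀ + 1)) :=
        Nat.pow_le_pow_right (Nat.succ_pos N) (by omega)
      have a2 : k₀ + 1 ≤ (N + 1) ^ (9 * (k₀ + 1)) :=
        Nat.lt_two_pow_self.le.trans ((Nat.pow_le_pow_left (Nat.succ_le_succ hN) _).trans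
          (Nat.pow_le_pow_right (Nat.succ_pos N) (by omega)))
      have a3 : x.length ≤ (N + 1) ^ (9 * (k₀ + 1)) := by
        refine le_trans ?_ (Nat.pow_le_pow_right (Nat.succ_pos N) (show 4 ≤ _ by omega))
        rw [hx, List.length_append, length_tbits, length_tbits]
        nlinarith [Nat.mul_pos hN hN, Nat.mul_pos (Nat.mul_pos hN hN) hN]
      have a4 : bud X = x.length + lev X + (N + 1) ^ (9 * (lev X + 1)) := by rw [← l1]; rfl
      omega
    have h2 : p.eval (bud X) ≤
        c * 3 ^ d * (N + 1) ^ (9 * d * (2 * Nat.log m N + (B + B * B + 1))) := by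
      refine (hp _).trans ((Nat.mul_le_mul_left c (Nat.pow_le_pow_left h1 d)).trans (le_of_eq ?_))
      rw [mul_pow, ← pow_mul, hk₀]
      ring
    calc ((p.eval (bud X) : ℕ) : ℝ) ≤ ((c * 3 ^ d : ℕ) : ℝ) *
          (((N + 1) ^ (9 * d * (2 * Nat.log m N + (B + B * B + 1))) : ℕ) : ℝ) := by
          exact_mod_cast h2
      _ ≤ (c * 3 ^ d : ℕ) * (C * (N : ℝ) ^ (ε * Real.logb 2 N)) :=
          mul_le_mul_of_nonneg_left (hC N hN) (Nat.cast_nonneg _)
      _ = _ := by ring
  · have h1 := hM X
    obtain ⟨q, hq⟩ := Option.isSome_iff_exists.1 (Nat.find_spec X.2)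
    change planOf (step^[lev X] (start x)) = some q at hq
    obtain ⟨_, _, e3⟩ := step_iter x (lev X)
    have h2 := hexec _ (step^[lev X] (start x)).2.1 (step^[lev X] (start x)).1
      (ubOf (step^[lev X] (start x)).1) _ _ Z Z' q r1 r2 (l2.trans l1.symm)
      (by rw [l1]; exact (hbig _).1) (by rw [l1]; exact (hbig _).2) (by rw [← e3]; exact hq)
    have h3 : answer (step^[lev X] (start x)) = [decide (Nonempty (G ≃* H))] := by
      rw [answer, hq, e3, Option.elim_some]
      congr 1
      rw [Bool.eq_iff_iff, h2, decide_eq_true_iff]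
      exact ⟨fun ⟨f⟩ => ⟨(i1.trans f).trans i2.symm⟩, fun ⟨f⟩ => ⟨(i1.symm.trans f).trans i2⟩⟩
    exact h3 ▸ h1

end Pool.Agent.P.MP_f1a348_lc.GI
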