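import Pool.Agent.P.MP_f1a348_lc.GI.Basic
import Pool.Agent.Lib.Helper47.PTMore

/-!
Groups with polynomial-time operations; finitary permutations `FP α` and finitely supported
functions `FF α U` with canonical codes.
-/

namespace Pool.Agent.P.MP_f1a348_lc.GI

open Pool.Agent.Lib.Helper47

set_option linter.unusedSectionVars false

/-- groups with polynomial-time operations in which products of given elements stay short -/
class PG (U : Type) [Group U] [Enc U] : Prop where
  mul : PT (fun p : U × U => p.1 * p.2)
  inv : PT (fun x : U => x⁻¹)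
  bdd : ∃ p : Polynomial ℕ, ∀ (l : List U) (x : U), x ∈ gen l → size x ≤ p.eval (size l)

/-- polynomial-time actions -/
class PA (G Ω : Type) [Group G] [MulAction G Ω] [Enc G] [Enc Ω] : Prop where
  smul : PT (fun p : G × Ω => p.1 • p.2)

section generic
variable {α U Ω : Type} [Enc α] [Group U] [Enc U]

@[fun_prop] theorem pt_gmul [PG U] {f g : α → U} (hf : PT f) (hg : PT g) :
    PT (fun a => f a * g a) := PT.comp (g := fun a => (f a, g a)) PG.mul (PT.prodMk hf hg)

@[fun_prop] theorem pt_ginv [PG U] {f : α → U} (hf : PT f) : PT (fun a => (f a)⁻¹) :=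
  PT.comp PG.inv hf

@[fun_prop] theorem pt_gsmul [MulAction U Ω] [Enc Ω] [PA U Ω] {f : α → U} {g : α → Ω} (hf : PT f)
    (hg : PT g) : PT (fun a => f a • g a) :=
  PT.comp (g := fun a => (f a, g a)) PA.smul (PT.prodMk hf hg)

/-- a polynomial bound for the elements generated by a polynomial-time list -/
theorem gen_bound [PG U] {l : α → List U} (hl : PT l) :
    ∃ B : α → ℕ, PS B ∧ ∀ a, ∀ x ∈ gen (l a), size x ≤ B a := by
  obtain ⟨p, hp⟩ := PG.bdd (U := U)
  exact ⟨fun a => p.eval (size (l a)), hl.size_le.eval p, fun a x hx => hp _ x hx⟩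

@[fun_prop] theorem pt_gprod [PG U] {l : α → List U} (hl : PT l) : PT (fun a => (l a).prod) := by
  obtain ⟨B, hB, h⟩ := gen_bound hl
  refine (PT.foldl_inv (f := fun _ (t : U) x => t * x) (by fun_prop) hl (PT.const 1)
    (fun a t => t ∈ gen (l a)) (fun a => Subgroup.one_mem _)
    (fun a t x hx ht => Subgroup.mul_mem _ ht (mem_gen hx)) B hB h).of_eq (fun a => ?_)
  rw [List.prod_eq_foldl]

instance {V : Type} [Group V] [Enc V] [PG U] [PG V] : PG (U × V) where
  mul := by
    have : PT (fun p : (U × V) × (U × V) => (p.1.1 * p.2.1, p.1.2 * p.2.2)) := by fun_prop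
    exact this
  inv := by
    have : PT (fun p : U × V => (p.1⁻¹, p.2⁻¹)) := by fun_prop
    exact this
  bdd := by
    obtain ⟨p, hp⟩ := PG.bdd (U := U)
    obtain ⟨q, hq⟩ := PG.bdd (U := V)
    refine ⟨p + q + 1, fun l x hx => ?_⟩
    have h1 : x.1 ∈ gen (l.map Prod.fst) := by
      have : gen l ≤ (gen (l.map Prod.fst)).comap (MonoidHom.fst U V) :=
        gen_le.2 fun y hy => mem_gen (List.mem_map_of_mem hy)
      exact this hx
    have h2 : x.2 ∈ gen (l.map Prod.snd) := by
      have : gen l ≤ (gen (l.map Prod.snd)).comap (MonoidHom.snd U V) :=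
        gen_le.2 fun y hy => mem_gen (List.mem_map_of_mem hy)
      exact this hx
    have s1 : size (l.map Prod.fst) ≤ size l ∧ size (l.map Prod.snd) ≤ size l := by
      clear hx h1 h2
      induction l with
      | nil => simp
      | cons y l ih => simp only [List.map_cons, size_cons, size_prod y]; omega
    have := (hp _ _ h1).trans (eval_mono p s1.1)
    have := (hq _ _ h2).trans (eval_mono q s1.2)
    simp only [size_prod x, Polynomial.eval_add, Polynomial.eval_one]
    omega
end generic

/-! ### canonical sorting by the code -/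

section sort
variable {α : Type} [Enc α]

/-- the code of a datum as a number -/
def keyN (a : α) : ℕ := msb (Enc.toT a).enc 1

theorem msb_one_inj : ∀ (l m : List Bool), msb l 1 = msb m 1 → l = m := by
  have pos : ∀ l : List Bool, 0 < msb l 1 := by
    intro l
    induction l using List.reverseRecOn with
    | nil => simp [msb]
    | append_singleton l b ih =>
      rw [msb, List.foldl_append]
      change 0 < Nat.bit b (msb l 1)
      rw [Nat.bit_val]; omega
  have app : ∀ (l : List Bool) (b : Bool), msb (l ++ [b]) 1 = Nat.bit b (msb l 1) := fun l b => by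
    rw [msb, List.foldl_append]; rfl
  intro l
  induction l using List.reverseRecOn with
  | nil =>
    intro m h
    induction m using List.reverseRecOn with
    | nil => rfl
    | append_singleton m c _ =>
      rw [app, Nat.bit_val] at h
      have := pos m
      have e : msb [] 1 = 1 := rfl
      omega
  | append_singleton l b ih =>
    intro m h
    induction m using List.reverseRecOn with
    | nil =>
      rw [app, Nat.bit_val] at h
      have := pos l
      have e : msb [] 1 = 1 := rfl
      omega
    | append_singleton m c _ =>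
      rw [app, app] at h
      have h1 := congrArg Nat.bodd h
      have h2 := congrArg Nat.div2 h
      simp only [Nat.bodd_bit, Nat.div2_bit] at h1 h2
      rw [h1, ih m h2]

theorem keyN_inj : Function.Injective (keyN : α → ℕ) := fun _ _ h =>
  Enc.inj (T.enc_injective (msb_one_inj _ _ h))

@[fun_prop] theorem pt_keyN {β : Type} [Enc β] {f : β → α} (hf : PT f) :
    PT (fun b => keyN (f b)) := PT.msb (PT.comp PT.code hf) (PT.const 1)

/-- the order by the code -/
def leK (a b : α) : Prop := keyN a ≤ keyN b

instance : DecidableRel (leK : α → α → Prop) := fun _ _ => Nat.decLe _ _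
instance : IsTrans α leK := ⟨fun _ _ _ => Nat.le_trans⟩
instance : Std.Antisymm (leK : α → α → Prop) := ⟨fun _ _ h h' => keyN_inj (Nat.le_antisymm h h')⟩
instance : Std.Total (leK : α → α → Prop) := ⟨fun _ _ => Nat.le_total _ _⟩

/-- the canonical list of a finite set -/
def srt (s : Finset α) : List α := s.sort leK

theorem mem_srt {s : Finset α} {a : α} : a ∈ srt s ↔ a ∈ s := Finset.mem_sort _

theorem eq_srt {s : Finset α} {m : List α} (h1 : m.Pairwise (fun a b => keyN a < keyN b))
    (h2 : ∀ a, a ∈ m ↔ a ∈ s) : m = srt s := by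
  have hn : m.Nodup := h1.imp (fun h e => by rw [e] at h; exact lt_irrefl _ h)
  refine List.Perm.eq_of_pairwise' (r := leK) (h1.imp fun h => le_of_lt h)
    (Finset.pairwise_sort _ _) ?_
  exact (List.perm_ext_iff_of_nodup hn (Finset.sort_nodup _ _)).2
    (fun a => (h2 a).trans mem_srt.symm)

theorem srt_lt (s : Finset α) : (srt s).Pairwise (fun a b => keyN a < keyN b) :=
  ((Finset.pairwise_sort s leK).and (Finset.sort_nodup s leK)).imp
    (fun h => lt_of_le_of_ne h.1 (fun e => h.2 (keyN_inj e)))

theorem pt_srt [DecidableEq α] : PT (fun l : List α => srt l.toFinset) := by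
  let ins : List α → α → List α := fun t x =>
    t.filter (fun y => Nat.blt (keyN y) (keyN x)) ++ x :: t.filter (fun y => Nat.blt (keyN x) (keyN y))
  have hins : ∀ (s : Finset α) x, ins (srt s) x = srt (insert x s) := by
    intro s x
    refine eq_srt ?_ (fun a => ?_)
    · rw [List.pairwise_append, List.pairwise_cons]
      refine ⟨(srt_lt s).filter _, ⟨fun b hb => ?_, (srt_lt s).filter _⟩, fun a ha b hb => ?_⟩
      · simpa [Nat.blt_eq] using (List.mem_filter.1 hb).2
      · have h1 : keyN a < keyN x := by simpa [Nat.blt_eq] using (List.mem_filter.1 ha).2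
        rcases List.mem_cons.1 hb with rfl | hb
        · exact h1
        · exact h1.trans (by simpa [Nat.blt_eq] using (List.mem_filter.1 hb).2)
    · simp only [ins, List.mem_append, List.mem_filter, List.mem_cons, mem_srt, Nat.blt_eq,
        Finset.mem_insert]
      rcases lt_trichotomy (keyN a) (keyN x) with h | h | h
      · have : a ≠ x := fun e => by rw [e] at h; exact lt_irrefl _ h
        simp [h, this, h.le.not_gt]
      · simp [keyN_inj h]
      · have : a ≠ x := fun e => by rw [e] at h; exact lt_irrefl _ h
        simp [h, this, h.le.not_gt]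
  have hf : ∀ u : List α, u.foldl ins [] = srt u.toFinset := by
    intro u
    induction u using List.reverseRecOn with
    | nil => simp [srt]
    | append_singleton u x ih =>
      rw [List.foldl_append, ih, List.foldl_cons, List.foldl_nil, hins]
      congr 1
      ext a
      simp
  refine (PT.foldl (f := fun _ t x => ins t x) (by fun_prop) PT.id (PT.const [])
    (fun l => size l * (size l + 1) + 1)
    ((PB.self.mul (PB.self.add (PB.const 1))).add (PB.const 1)) (fun l u hu => ?_)).of_eq hf
  rw [hf]
  refine (size_list_le (B := size l) (fun x hx => ?_)).trans ?_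
  · exact (size_lt_of_mem (hu.subset (List.mem_toFinset.1 (mem_srt.1 hx)))).le
  · have h1 : (srt u.toFinset).length ≤ size l := by
      rw [srt, Finset.length_sort]
      exact (List.toFinset_card_le u).trans (hu.length_le.trans (length_lt_size l).le)
    nlinarith

/-- the table of `f` on the finite set `s` -/
def tbl {β : Type} (s : Finset α) (f : α → β) : List (α × β) := (srt s).map (fun a => (a, f a))

theorem mem_tbl {β : Type} {s : Finset α} {f : α → β} {p : α × β} :
    p ∈ tbl s f ↔ p.1 ∈ s ∧ f p.1 = p.2 := by
  simp only [tbl, List.mem_map, mem_srt]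
  exact ⟨fun ⟨a, ha, e⟩ => e ▸ ⟨ha, rfl⟩, fun h => ⟨p.1, h.1, Prod.ext rfl h.2⟩⟩

theorem pt_tbl {β γ : Type} [Enc β] [Enc γ] [DecidableEq α] {s : γ → Finset α} {f : γ → α → β}
    {c : γ → List α} {q : γ → α → Bool} (hc : PT c) (hq : PT (fun p : γ × α => q p.1 p.2))
    (hf : PT (fun p : γ × α => f p.1 p.2)) (h : ∀ g a, a ∈ s g ↔ a ∈ c g ∧ q g a = true) :
    PT (fun g => tbl (s g) (f g)) := by
  have h1 : PT (fun g => srt ((c g).filter (q g)).toFinset) := pt_srt.comp (PT.filter hq hc)
  refine (PT.map (g := fun g a => (a, f g a)) (PT.prodMk (by fun_prop) hf) h1).of_eq (fun g => ?_)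
  unfold tbl
  congr 2
  ext a
  simp [h]

theorem look_tbl {β : Type} [DecidableEq α] (s : Finset α) (f : α → β) (a : α) (d : β)
    (h : a ∉ s → f a = d) :
    (((tbl s f).find? (fun p => p.1 == a)).map Prod.snd).getD d = f a := by
  cases e : (tbl s f).find? (fun p => p.1 == a) with
  | none =>
    rw [List.find?_eq_none] at e
    have : a ∉ s := fun ha => e (a, f a) (mem_tbl.2 ⟨ha, rfl⟩) (by simp)
    simp [h this]
  | some p =>
    have h1 : p.1 = a := by simpa using List.find?_some e
    have h2 := (mem_tbl.1 (List.mem_of_find?_eq_some e)).2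
    simp [← h2, h1]

theorem size_tbl {β : Type} [Enc β] (s : Finset α) (f : α → β) {A B : ℕ}
    (h : ∀ a ∈ s, size a ≤ A ∧ size (f a) ≤ B) : size (tbl s f) ≤ s.card * (A + B + 2) + 1 := by
  have := size_list_le (l := tbl s f) (B := A + B + 1) (fun p hp => by
    obtain ⟨h1, h2⟩ := mem_tbl.1 hp
    have := h _ h1
    rw [size_prod, ← h2]; omega)
  rwa [tbl, List.length_map, srt, Finset.length_sort] at this

theorem size_flat {β γ : Type} [Enc β] [Enc γ] (l : List β) (c : β → List γ)
    (h : ∀ b, size (c b) ≤ size b) : size (l.flatMap c) ≤ size l := by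
  induction l with
  | nil => simp
  | cons b l ih =>
    have := size_append (c b) (l.flatMap c)
    have := h b
    simp only [List.flatMap_cons, size_cons]; omega

theorem size_map_le {β γ : Type} [Enc β] [Enc γ] (l : List β) (c : β → γ)
    (h : ∀ b, size (c b) ≤ size b) : size (l.map c) ≤ size l := by
  induction l with
  | nil => simp
  | cons b l ih => have := h b; simp only [List.map_cons, size_cons]; omega
end sort

/-! ### finitary permutations -/

/-- the group of permutations moving finitely many points -/
def FPsub (α : Type) : Subgroup (Equiv.Perm α) where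
  carrier := {σ | {a | σ a ≠ a}.Finite}
  one_mem' := by simp
  mul_mem' := fun {σ τ} h h' => (Set.Finite.union h h').subset (fun a ha => by
    by_contra hc
    simp only [Set.mem_union, Set.mem_ofPred_eq, not_or, not_not] at hc
    exact ha (by rw [Equiv.Perm.mul_apply, hc.2, hc.1]))
  inv_mem' := fun {σ} h => Set.Finite.subset h (fun a ha hc => ha (by
    rw [Equiv.Perm.inv_eq_iff_eq, hc]))

/-- finitary permutations -/
def FP (α : Type) : Type := FPsub α

namespace FP
variable {α : Type}

instance : Group (FP α) := inferInstanceAs (Group (FPsub α))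
noncomputable instance : DecidableEq (FP α) := Classical.decEq _

/-- the underlying permutation -/
def perm (σ : FP α) : Equiv.Perm α := Subtype.val σ
/-- application to a point -/
def app (σ : FP α) (a : α) : α := σ.perm a
/-- the set of moved points -/
noncomputable def supp (σ : FP α) : Finset α := Set.Finite.toFinset (Subtype.property σ)

theorem app_eq (σ : FP α) : σ.app = σ.perm := rfl
@[simp] theorem perm_apply (σ : FP α) (a : α) : σ.perm a = σ.app a := rfl
@[simp] theorem perm_one : (1 : FP α).perm = 1 := rfl
@[simp] theorem perm_mul (σ τ : FP α) : (σ * τ).perm = σ.perm * τ.perm := rfl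
@[simp] theorem perm_inv (σ : FP α) : σ⁻¹.perm = σ.perm⁻¹ := rfl
theorem perm_symm (σ : FP α) : σ.perm.symm = σ⁻¹.perm := rfl
@[simp] theorem app_one (a : α) : (1 : FP α).app a = a := rfl
theorem app_one' : (1 : FP α).app = id := rfl
@[simp] theorem app_mul (σ τ : FP α) (a : α) : (σ * τ).app a = σ.app (τ.app a) := rfl
@[simp] theorem app_inv_app (σ : FP α) (a : α) : σ⁻¹.app (σ.app a) = a := σ.perm.symm_apply_apply a
@[simp] theorem app_app_inv (σ : FP α) (a : α) : σ.app (σ⁻¹.app a) = a := σ.perm.apply_symm_apply a
theorem app_injective (σ : FP α) : Function.Injective σ.app := σ.perm.injective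
theorem ext {σ τ : FP α} (h : ∀ a, σ.app a = τ.app a) : σ = τ := Subtype.ext (Equiv.ext h)
theorem mem_supp {σ : FP α} {a : α} : a ∈ σ.supp ↔ σ.app a ≠ a := Set.Finite.mem_toFinset _
/-- the underlying permutation as a homomorphism -/
def permHom : FP α →* Equiv.Perm α := ⟨⟨perm, rfl⟩, fun _ _ => rfl⟩

instance : MulAction (FP α) α where
  smul σ a := σ.app a
  one_smul _ := rfl
  mul_smul _ _ _ := rfl

theorem smul_def (σ : FP α) (a : α) : σ • a = σ.app a := rfl

/-- transpositions -/
def swap [DecidableEq α] (a b : α) : FP α :=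
  (⟨Equiv.swap a b, (Set.toFinite {a, b}).subset (fun c hc => by
    by_contra h
    simp only [Set.mem_insert_iff, Set.mem_singleton_iff, not_or] at h
    exact hc (Equiv.swap_apply_of_ne_of_ne h.1 h.2))⟩ : FPsub α)

theorem app_swap [DecidableEq α] (a b c : α) : (swap a b).app c = Equiv.swap a b c := rfl

/-- a permutation with prescribed values -/
def ofList [DecidableEq α] (l : List (α × α)) : FP α :=
  l.foldl (fun σ p => swap (σ.app p.1) p.2 * σ) 1

/-- the points fixed by all generators are fixed -/
theorem app_fix {l : List (FP α)} {a : α} (h : ∀ τ ∈ l, τ.app a = a) {σ : FP α} (hσ : σ ∈ gen l) :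
    σ.app a = a :=
  (gen_le (Z := MulAction.stabilizer (FP α) a)).2 h hσ

theorem ofList_fix [DecidableEq α] {l : List (α × α)} {a : α} (h : ∀ p ∈ l, p.1 ≠ a ∧ p.2 ≠ a) :
    (ofList l).app a = a := by
  induction l using List.reverseRecOn with
  | nil => rfl
  | append_singleton l p ih =>
    have ih := ih (fun q hq => h q (by simp [hq]))
    have hp := h p (by simp)
    rw [ofList, List.foldl_append]
    change Equiv.swap ((ofList l).app p.1) p.2 ((ofList l).app a) = a
    rw [ih]
    refine Equiv.swap_apply_of_ne_of_ne (fun e => hp.1 ?_) hp.2.symm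
    exact (ofList l).app_injective (e.symm.trans ih.symm)

theorem ofList_app [DecidableEq α] {l : List (α × α)}
    (h : ∀ p ∈ l, ∀ q ∈ l, p.1 = q.1 ↔ p.2 = q.2) {p : α × α} (hp : p ∈ l) :
    (ofList l).app p.1 = p.2 := by
  induction l using List.reverseRecOn with
  | nil => simp at hp
  | append_singleton l q ih =>
    rw [ofList, List.foldl_append]
    change Equiv.swap ((ofList l).app q.1) q.2 ((ofList l).app p.1) = p.2
    have h1 := h p hp q (by simp)
    by_cases e : p.1 = q.1
    · rw [e, Equiv.swap_apply_left, h1.1 e]
    · have hp' : p ∈ l := by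
        rcases List.mem_append.1 hp with hp | hp
        · exact hp
        · exact absurd (by rw [List.mem_singleton.1 hp]) e
      have ih := ih (fun a ha b hb => h a (by simp [ha]) b (by simp [hb])) hp'
      rw [ih]
      refine Equiv.swap_apply_of_ne_of_ne (fun e' => e ?_) (fun e' => e (h1.2 e'))
      exact (ofList l).app_injective (ih.trans e')

/-- the permutation tabulating an injective map -/
theorem ofList_map [DecidableEq α] {l : List α} {f : α → α}
    (h : ∀ a ∈ l, ∀ b ∈ l, f a = f b → a = b) {a : α} (ha : a ∈ l) :
    (ofList (l.map (fun x => (x, f x)))).app a = f a := by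
  refine ofList_app (p := (a, f a)) (fun p hp q hq => ?_) (List.mem_map_of_mem ha)
  obtain ⟨x, hx, rfl⟩ := List.mem_map.1 hp
  obtain ⟨y, hy, rfl⟩ := List.mem_map.1 hq
  exact ⟨fun e => congrArg f e, h x hx y hy⟩

variable [Enc α]

/-- the canonical code -/
noncomputable def code (σ : FP α) : List (α × α) := tbl σ.supp σ.app

theorem look [DecidableEq α] (σ : FP α) (a : α) :
    ((σ.code.find? (fun p => p.1 == a)).map Prod.snd).getD a = σ.app a :=
  look_tbl _ _ _ _ (fun h => by simpa [mem_supp] using h)

theorem code_inj : Function.Injective (code : FP α → _) := fun σ τ h => by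
  classical
  exact ext fun a => by rw [← look, h, look]

noncomputable instance : Enc (FP α) := Enc.ofInj code code_inj

theorem pt_code : PT (code : FP α → _) := PT.id.cast (fun _ => rfl)

variable {β : Type} [Enc β]

@[fun_prop] theorem pt_app {f : β → FP α} {g : β → α} (hf : PT f) (hg : PT g) :
    PT (fun b => (f b).app (g b)) := by
  classical
  have h := pt_code.comp hf
  have : PT (fun b => (((f b).code.find? (fun p => p.1 == g b)).map Prod.snd).getD (g b)) := by
    fun_prop
  exact this.of_eq (fun b => look _ _)

theorem pt_mk {f : β → FP α} {c : β → List α} (hc : PT c)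
    (hf : PT (fun p : β × α => (f p.1).app p.2)) (h : ∀ b a, (f b).app a ≠ a → a ∈ c b) :
    PT f := by
  classical
  have := pt_tbl (s := fun b => (f b).supp) (f := fun b => (f b).app)
    (q := fun b a => (f b).app a != a) hc (by fun_prop) hf
    (fun b a => by simpa [mem_supp] using h b a)
  exact this.cast (fun _ => rfl)

theorem mem_keys {σ : FP α} {a : α} : a ∈ σ.code.map Prod.fst ↔ σ.app a ≠ a := by
  rw [← mem_supp, List.mem_map]
  exact ⟨fun ⟨p, hp, e⟩ => e ▸ (mem_tbl.1 hp).1, fun h => ⟨(a, σ.app a), mem_tbl.2 ⟨h, rfl⟩, rfl⟩⟩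

theorem size_le {σ : FP α} {c : List α} (h : ∀ a, σ.app a ≠ a → a ∈ c) :
    size σ ≤ size c * (2 * size c + 2) + 1 := by
  classical
  have h1 := size_tbl σ.supp σ.app (A := size c) (B := size c) (fun a ha => by
    have h2 := mem_supp.1 ha
    exact ⟨(size_lt_of_mem (h a h2)).le,
      (size_lt_of_mem (h _ (fun e => h2 (σ.app_injective e)))).le⟩)
  have h2 : σ.supp.card ≤ size c :=
    (Finset.card_le_card (t := c.toFinset)
      (fun a ha => List.mem_toFinset.2 (h a (mem_supp.1 ha)))).trans
      ((List.toFinset_card_le c).trans (length_lt_size c).le)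
  have h3 : size σ = size (tbl σ.supp σ.app) := rfl
  nlinarith

instance : PG (FP α) where
  mul := by
    have h1 := pt_code (α := α)
    refine pt_mk (c := fun p => p.1.code.map Prod.fst ++ p.2.code.map Prod.fst) (by fun_prop)
      (by simp only [app_mul]; fun_prop) (fun p a h => ?_)
    rw [List.mem_append, mem_keys, mem_keys]
    by_contra hc
    simp only [not_or, not_not] at hc
    exact h (by rw [app_mul, hc.2, hc.1])
  inv := by
    classical
    have h1 := pt_code (α := α)
    refine pt_mk (c := fun σ => σ.code.map Prod.fst) (by fun_prop) ?_ (fun σ a h => ?_)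
    · have : PT (fun p : FP α × α =>
          ((p.1.code.find? (fun q => q.2 == p.2)).map Prod.fst).getD p.2) := by fun_prop
      refine this.of_eq (fun p => ?_)
      cases e : p.1.code.find? (fun q => q.2 == p.2) with
      | none =>
        rw [List.find?_eq_none] at e
        by_contra hc
        have h2 : p.1.app (p.1⁻¹.app p.2) ≠ p.1⁻¹.app p.2 := by
          rw [app_app_inv]; simpa using hc
        exact e (p.1⁻¹.app p.2, p.2) (mem_tbl.2 ⟨mem_supp.2 h2, by simp⟩) (by simp)
      | some q =>
        have h2 : q.2 = p.2 := by simpa using List.find?_some e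
        have h3 := (mem_tbl.1 (List.mem_of_find?_eq_some e)).2
        simp [← h2, ← h3]
    · rw [mem_keys]
      intro e
      exact h (by conv_lhs => rw [← e]; exact app_inv_app σ a)
  bdd := by
    refine ⟨Polynomial.X * (2 * Polynomial.X + 2) + 1, fun l σ hσ => ?_⟩
    have h1 := size_le (σ := σ) (c := l.flatMap (fun τ => τ.code.map Prod.fst)) (fun a ha => by
      by_contra hc
      refine ha (app_fix (fun τ hτ => ?_) hσ)
      by_contra h
      exact hc (List.mem_flatMap.2 ⟨τ, hτ, mem_keys.2 h⟩))
    have h2 := size_flat l (fun τ : FP α => τ.code.map Prod.fst)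
      (fun τ => size_map_le τ.code Prod.fst (fun p => by rw [size_prod p]; omega))
    simp only [Polynomial.eval_add, Polynomial.eval_mul, Polynomial.eval_X, Polynomial.eval_one,
      Polynomial.eval_ofNat]
    nlinarith

instance : PA (FP α) α := ⟨by simp only [smul_def]; fun_prop⟩

@[fun_prop] theorem pt_swap [DecidableEq α] {f g : β → α} (hf : PT f) (hg : PT g) :
    PT (fun b => swap (f b) (g b)) := by
  refine pt_mk (c := fun b => [f b, g b]) (by fun_prop) ?_ (fun b a h => ?_)
  · have : PT (fun p : β × α => if p.2 == f p.1 then g p.1 else if p.2 == g p.1 then f p.1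
      else p.2) := by fun_prop
    refine this.of_eq (fun p => ?_)
    rw [app_swap, Equiv.swap_apply_def]
    simp
  · by_contra hc
    simp only [List.mem_cons, List.not_mem_nil, or_false, not_or] at hc
    exact h (Equiv.swap_apply_of_ne_of_ne hc.1 hc.2)

@[fun_prop] theorem pt_ofList [DecidableEq α] {l : β → List (α × α)} (hl : PT l) :
    PT (fun b => ofList (l b)) := by
  have hc : PT (fun b => (l b).map Prod.fst ++ (l b).map Prod.snd) := by fun_prop
  refine PT.foldl (f := fun _ (σ : FP α) (p : α × α) => swap (σ.app p.1) p.2 * σ) (by fun_prop) hl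
    (PT.const 1) (fun b => size ((l b).map Prod.fst ++ (l b).map Prod.snd) *
      (2 * size ((l b).map Prod.fst ++ (l b).map Prod.snd) + 2) + 1)
    ((hc.size_le.mul (((PB.const 2).mul hc.size_le).add (PB.const 2))).add (PB.const 1))
    (fun b u hu => size_le (σ := ofList u) (fun a ha => ?_))
  by_contra hn
  refine ha (ofList_fix (fun p hp => ⟨fun e => hn ?_, fun e => hn ?_⟩))
  · exact List.mem_append_left _ (List.mem_map.2 ⟨p, hu.subset hp, e⟩)
  · exact List.mem_append_right _ (List.mem_map.2 ⟨p, hu.subset hp, e⟩)
end FP

/-! ### finitely supported functions -/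

/-- the group of finitely supported functions under pointwise multiplication -/
def FFsub (α U : Type) [Group U] : Subgroup (α → U) where
  carrier := {f | {a | f a ≠ 1}.Finite}
  one_mem' := by simp
  mul_mem' := fun {f g} h h' => (Set.Finite.union h h').subset (fun a ha => by
    by_contra hc
    simp only [Set.mem_union, Set.mem_ofPred_eq, not_or, not_not] at hc
    exact ha (by rw [Pi.mul_apply, hc.2, hc.1, one_mul]))
  inv_mem' := fun {f} h => Set.Finite.subset h (fun a ha hc => ha (by
    rw [Pi.inv_apply, hc, inv_one]))

/-- finitely supported functions -/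
def FF (α U : Type) [Group U] : Type := FFsub α U

namespace FF
variable {α U : Type} [Group U]

instance : Group (FF α U) := inferInstanceAs (Group (FFsub α U))
noncomputable instance : DecidableEq (FF α U) := Classical.decEq _

/-- the underlying function -/
def app (f : FF α U) : α → U := Subtype.val f
/-- the support -/
noncomputable def supp (f : FF α U) : Finset α := Set.Finite.toFinset (Subtype.property f)

@[simp] theorem app_one (a : α) : (1 : FF α U).app a = 1 := rfl
@[simp] theorem app_mul (f g : FF α U) (a : α) : (f * g).app a = f.app a * g.app a := rfl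
@[simp] theorem app_inv (f : FF α U) (a : α) : f⁻¹.app a = (f.app a)⁻¹ := rfl
theorem ext {f g : FF α U} (h : ∀ a, f.app a = g.app a) : f = g := Subtype.ext (funext h)
theorem mem_supp {f : FF α U} {a : α} : a ∈ f.supp ↔ f.app a ≠ 1 := Set.Finite.mem_toFinset _
/-- evaluation at a point as a homomorphism -/
def evalHom (a : α) : FF α U →* U := ⟨⟨fun f => f.app a, rfl⟩, fun _ _ => rfl⟩

instance : MulAction (FF α U) (α × U) where
  smul f p := (p.1, f.app p.1 * p.2)
  one_smul _ := Prod.ext rfl (one_mul _)
  mul_smul _ _ _ := Prod.ext rfl (mul_assoc _ _ _)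

theorem smul_def (f : FF α U) (p : α × U) : f • p = (p.1, f.app p.1 * p.2) := rfl

/-- the function supported at one point -/
def single [DecidableEq α] (a : α) (u : U) : FF α U :=
  (⟨fun b => if b = a then u else 1, (Set.toFinite {a}).subset (fun c hc => by
    by_contra h
    exact hc (if_neg h))⟩ : FFsub α U)

theorem app_single [DecidableEq α] (a b : α) (u : U) :
    (single a u).app b = if b = a then u else 1 := rfl

/-- the restriction of `f` to the list `l` (without duplicates) -/
def tab [DecidableEq α] (l : List α) (f : α → U) : FF α U := (l.map (fun a => single a (f a))).prod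

theorem app_tab [DecidableEq α] {l : List α} (hl : l.Nodup) (f : α → U) (b : α) :
    (tab l f).app b = if b ∈ l then f b else 1 := by
  induction l with
  | nil => rfl
  | cons a l ih =>
    rw [List.nodup_cons] at hl
    have ih := ih hl.2
    unfold tab at ih ⊢
    rw [List.map_cons, List.prod_cons, app_mul, ih, app_single]
    by_cases e : b = a
    · subst e; simp [hl.1]
    · simp [e]

theorem app_mem {l : List (FF α U)} {a : α} {Z : Subgroup U} (h : ∀ g ∈ l, g.app a ∈ Z)
    {f : FF α U} (hf : f ∈ gen l) : f.app a ∈ Z :=
  (gen_le (Z := Z.comap (evalHom a))).2 h hf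

variable [Enc α] [Enc U]

/-- the canonical code -/
noncomputable def code (f : FF α U) : List (α × U) := tbl f.supp f.app

theorem look [DecidableEq α] (f : FF α U) (a : α) :
    ((f.code.find? (fun p => p.1 == a)).map Prod.snd).getD 1 = f.app a :=
  look_tbl _ _ _ _ (fun h => by simpa [mem_supp] using h)

theorem code_inj : Function.Injective (code : FF α U → _) := fun f g h => by
  classical
  exact ext fun a => by rw [← look, h, look]

noncomputable instance : Enc (FF α U) := Enc.ofInj code code_inj

theorem pt_code : PT (code : FF α U → _) := PT.id.cast (fun _ => rfl)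

variable {β : Type} [Enc β]

@[fun_prop] theorem pt_app {f : β → FF α U} {g : β → α} (hf : PT f) (hg : PT g) :
    PT (fun b => (f b).app (g b)) := by
  classical
  have h := pt_code.comp hf
  have : PT (fun b => (((f b).code.find? (fun p => p.1 == g b)).map Prod.snd).getD 1) := by
    fun_prop
  exact this.of_eq (fun b => look _ _)

theorem pt_mk {f : β → FF α U} {c : β → List α} (hc : PT c)
    (hf : PT (fun p : β × α => (f p.1).app p.2)) (h : ∀ b a, (f b).app a ≠ 1 → a ∈ c b) :
    PT f := by
  classical
  have := pt_tbl (s := fun b => (f b).supp) (f := fun b => (f b).app)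
    (q := fun b a => (f b).app a != 1) hc (by fun_prop) hf
    (fun b a => by simpa [mem_supp] using h b a)
  exact this.cast (fun _ => rfl)

theorem mem_keys {f : FF α U} {a : α} : a ∈ f.code.map Prod.fst ↔ f.app a ≠ 1 := by
  rw [← mem_supp, List.mem_map]
  exact ⟨fun ⟨p, hp, e⟩ => e ▸ (mem_tbl.1 hp).1, fun h => ⟨(a, f.app a), mem_tbl.2 ⟨h, rfl⟩, rfl⟩⟩

instance [PG U] : PG (FF α U) where
  mul := by
    have h1 := pt_code (α := α) (U := U)
    refine pt_mk (c := fun p => p.1.code.map Prod.fst ++ p.2.code.map Prod.fst) (by fun_prop)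
      (by simp only [app_mul]; fun_prop) (fun p a h => ?_)
    rw [List.mem_append, mem_keys, mem_keys]
    by_contra hc
    simp only [not_or, not_not] at hc
    exact h (by rw [app_mul, hc.2, hc.1, one_mul])
  inv := by
    have h1 := pt_code (α := α) (U := U)
    refine pt_mk (c := fun σ => σ.code.map Prod.fst) (by fun_prop)
      (by simp only [app_inv]; fun_prop) (fun σ a h => ?_)
    rw [mem_keys]
    intro e
    exact h (by rw [app_inv, e, inv_one])
  bdd := by
    classical
    obtain ⟨p, hp⟩ := PG.bdd (U := U)
    refine ⟨Polynomial.X * (Polynomial.X + p + 2) + 1, fun l f hf => ?_⟩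
    have hk : ∀ a ∈ f.supp, a ∈ l.flatMap (fun g => g.code.map Prod.fst) := fun a ha => by
      by_contra hc
      refine mem_supp.1 ha (Subgroup.mem_bot.1 (app_mem (fun g hg => ?_) hf))
      by_contra h
      exact hc (List.mem_flatMap.2 ⟨g, hg, mem_keys.2 (by simpa using h)⟩)
    have h2 := size_flat l (fun g : FF α U => g.code.map Prod.fst)
      (fun g => size_map_le g.code Prod.fst (fun p => by rw [size_prod p]; omega))
    have h3 := size_flat l (fun g : FF α U => g.code.map Prod.snd)
      (fun g => size_map_le g.code Prod.snd (fun p => by rw [size_prod p]; omega))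
    have h1 := size_tbl f.supp f.app (A := size l) (B := p.eval (size l)) (fun a ha => by
      refine ⟨(size_lt_of_mem (hk a ha)).le.trans h2, le_trans (hp _ _ ?_) (eval_mono p h3)⟩
      refine app_mem (fun g hg => ?_) hf
      by_cases e : g.app a = 1
      · rw [e]; exact Subgroup.one_mem _
      · exact mem_gen (List.mem_flatMap.2 ⟨g, hg, List.mem_map.2
          ⟨(a, g.app a), mem_tbl.2 ⟨mem_supp.2 e, rfl⟩, rfl⟩⟩))
    have h4 : f.supp.card ≤ size l :=
      (Finset.card_le_card (fun a ha => List.mem_toFinset.2 (hk a ha))).trans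
        ((List.toFinset_card_le _).trans ((length_lt_size _).le.trans h2))
    have h5 : size f = size (tbl f.supp f.app) := rfl
    simp only [Polynomial.eval_add, Polynomial.eval_mul, Polynomial.eval_X, Polynomial.eval_one,
      Polynomial.eval_ofNat]
    nlinarith

instance [PG U] : PA (FF α U) (α × U) := ⟨by simp only [smul_def]; fun_prop⟩

@[fun_prop] theorem pt_single [DecidableEq α] {f : β → α} {g : β → U} (hf : PT f) (hg : PT g) :
    PT (fun b => single (f b) (g b)) := by
  refine pt_mk (c := fun b => [f b]) (by fun_prop) ?_ (fun b a h => ?_)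
  · have : PT (fun p : β × α => if p.2 == f p.1 then g p.1 else 1) := by fun_prop
    refine this.of_eq (fun p => ?_)
    rw [app_single]
    simp
  · by_contra hc
    exact h (if_neg (by simpa using hc))

@[fun_prop] theorem pt_tab [PG U] [DecidableEq α] {l : β → List α} {f : β → α → U} (hl : PT l)
    (hf : PT (fun p : β × α => f p.1 p.2)) : PT (fun b => tab (l b) (f b)) :=
  pt_gprod (PT.map (g := fun b a => single a (f b a)) (pt_single (by fun_prop) hf) hl)
end FF

end Pool.Agent.P.MP_f1a348_lc.GI
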