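import Pool.Agent.P.MP_f1a348_lc.GI.QAlg
import Pool.Agent.P.MP_f1a348_lc.GI.FDefs

/-!
Group isomorphism in time `N ^ o(log N)`: the algorithm, on lists of elements of an ambient group,
and the exact statements `S_*` of its correctness.
-/

namespace Pool.Agent.P.MP_f1a348_lc.GI

open scoped commutatorElement

noncomputable section

/-! ### enumerations -/

section enum
variable {α β : Type}

/-- all pairs -/
def prodL (l : List α) (m : List β) : List (α × β) := l.flatMap (fun a => m.map (fun b => (a, b)))

/-- all lists over `l` of the same length as `u`, as long as there are at most `pad.length` -/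
def tuples (pad : List Unit) (l : List α) (u : List β) : List (List α) :=
  u.foldl (fun T _ => (T.flatMap (fun t => l.map (fun x => x :: t))).take pad.length) [[]]

/-- all sublists of `l`, as long as there are at most `pad.length` -/
def subl (pad : List Unit) (l : List α) : List (List α) :=
  (tuples pad [true, false] l).map (fun m => ((l.zip m).filter (fun p => p.2)).map (fun p => p.1))
end enum

/-! ### subgroups given by lists -/

section sub
variable {U : Type} [Group U] [DecidableEq U]

/-- the list `l` enumerates the subgroup `Z` -/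
structure Rep (l : List U) (Z : Subgroup U) : Prop where
  nodup : l.Nodup
  mem : ∀ x, x ∈ l ↔ x ∈ Z

/-- one round of the closure computation -/
def cloStep (el gs S : List U) : List U :=
  el.filter (fun x => S.contains x || gs.any (fun g => S.contains (x * g⁻¹)))

/-- the subgroup generated by `gs` inside the group enumerated by `el` -/
def clo (el gs : List U) : List U := (cloStep el gs)^[el.length] (el.filter (fun x => x == 1))

/-- a short generating list -/
def gensOf (Y : List U) : List U :=
  Y.foldl (fun l x => if (clo Y l).contains x then l else x :: l) []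

/-- the candidates for Schreier generators -/
def schTriples (R S : List U) : List U :=
  R.flatMap (fun r' => (1 :: (S ++ S.map (fun s => s⁻¹))).flatMap
    (fun s => R.map (fun r => r'⁻¹ * s * r)))

/-- a list of subgroups of `Y` containing all subgroups of index at most `ub.length` -/
def smallIdx (pad ub : List Unit) (Y : List U) : List (List U) :=
  (tuples pad Y ub).flatMap (fun T => (subl pad (schTriples (1 :: T) (gensOf Y))).map (clo Y))

/-- the generators of the graph -/
def graphGens (S : List U) (ι : FP U) (xs xs' : List U) : List (U × U) :=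
  xs.zip xs' ++ S.map (fun s => (s, ι.app s))

/-- the subgroup of `Z × Z'` generated by the pairs of pins and the graph of `ι` on `S` -/
def graphOf (S : List U) (ι : FP U) (Z Z' xs xs' : List U) : List (U × U) :=
  clo (prodL Z Z') (graphGens S ι xs xs')

/-- `V` is the graph of an equivariant isomorphism -/
def graphB (J : List U) (ι : FP U) (Z Z' : List U) (V : List (U × U)) : Bool :=
  Z.all (fun x => V.any (fun v => v.1 == x)) && Z'.all (fun y => V.any (fun v => v.2 == y)) &&
    V.all (fun v => (v.1 == 1) == (v.2 == 1)) &&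
    J.all (fun j => V.all (fun v => V.contains (j * v.1 * j⁻¹, ι.app j * v.2 * (ι.app j)⁻¹)))

/-- `xs ↦ xs'` and `ι` on `S` define an equivariant isomorphism of `Z` onto `Z'` -/
def matchB (J S : List U) (ι : FP U) (Z Z' xs xs' : List U) : Bool :=
  (graphGens S ι xs xs').all (fun p => Z.contains p.1 && Z'.contains p.2) &&
    graphB J ι Z Z' (graphOf S ι Z Z' xs xs')

/-- lists for the pinned data `J`, `K`, `E` -/
abbrev TL (U : Type) : Type := List U × List U × List U

/-- the lists enumerate the pinned data -/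
structure RepT (tl : TL U) (t : Tr U) : Prop where
  J : Rep tl.1 t.J
  K : Rep tl.2.1 t.K
  E : Rep tl.2.2 t.E

/-- commutators -/
def cm (a b : U) : U := a * b * a⁻¹ * b⁻¹

/-- inclusion -/
def subB (A B : List U) : Bool := A.all (fun x => B.contains x)

/-- `J` normalizes `A` -/
def normB (J A : List U) : Bool := J.all (fun j => A.all (fun x => A.contains (j * x * j⁻¹)))

/-- `A` and `B` commute -/
def commB (A B : List U) : Bool := A.all (fun a => B.all (fun b => a * b == b * a))

/-- the centralizer of `K` in `Y` -/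
def cenL (K Y : List U) : List U := Y.filter (fun d => K.all (fun k => d * k == k * d))

/-- the test for `Good` -/
def goodB (tl : TL U) (Y : List U) : Bool :=
  subB tl.2.1 tl.1 && subB tl.2.2 tl.2.1 && subB tl.2.1 Y && normB tl.1 Y && normB tl.1 tl.2.1 &&
    normB tl.1 tl.2.2 && Y.all (fun x => Y.all (fun y => tl.2.1.contains (cm x y))) &&
    commB tl.2.2 Y && (cenL tl.2.1 Y).all (fun d => Y.all (fun y => tl.2.2.contains (cm d y)))

/-- every element of `Y` is a product of an element of `A` and an element of `X` -/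
def coverB (Y A X : List U) : Bool := Y.all (fun y => A.any (fun a => X.contains (a⁻¹ * y)))

/-- the test for `Decomp` -/
def decompB (tl : TL U) (Y X Y₁ : List U) : Bool :=
  subB tl.2.2 X && subB X Y && subB tl.2.1 Y₁ && subB Y₁ Y &&
    X.all (fun x => !Y₁.contains x || tl.2.2.contains x) && coverB Y Y₁ X && commB Y₁ X &&
    normB tl.1 X && normB tl.1 Y₁

/-! ### removing duplicate summands -/

/-- small summands: generators over `E` and a complement -/
def summands (pad ub : List Unit) (tl : TL U) (Y : List U) : List (List U × List U) :=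
  (prodL (tuples pad Y ub) (smallIdx pad ub Y)).filter
    (fun c => decompB tl Y (clo Y (tl.2.2 ++ c.1)) c.2)

/-- the summand `c` of `Y'` is a copy of `X`, which is generated by `xs` over `E` -/
def copyB (tl tl' : TL U) (ι : FP U) (X xs Y' : List U) (c : List U × List U) : Bool :=
  matchB tl.1 tl.2.2 ι X (clo Y' (tl'.2.2 ++ c.1)) xs c.1

/-- a summand of `Y` that occurs twice -/
def findDup (pad ub : List Unit) (tl : TL U) (Y : List U) : Option (List U × List U) :=
  (summands pad ub tl Y).find? (fun c => Nat.blt c.2.length Y.length &&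
    Nat.ble Y.length (ub.length * c.2.length) &&
    (summands pad ub tl c.2).any (copyB tl tl 1 (clo Y (tl.2.2 ++ c.1)) c.1 c.2))

/-- the complement of a copy of `X` in `Y'` that contains a second copy -/
def twin (pad ub : List Unit) (tl tl' : TL U) (ι : FP U) (X xs Y' : List U) : Option (List U) :=
  ((summands pad ub tl' Y').find? (fun c => copyB tl tl' ι X xs Y' c &&
    (summands pad ub tl' c.2).any (copyB tl tl' ι X xs c.2))).map (fun c => c.2)

/-- remove one duplicate summand -/
def stepG (pad ub : List Unit) (tl : TL U) (Y : List U) : List U :=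
  ((findDup pad ub tl Y).map (fun c => c.2)).getD Y

/-- remove all duplicate summands -/
def finalG (pad ub : List Unit) (tl : TL U) (Y : List U) : List U :=
  (stepG pad ub tl)^[Y.length] Y

/-- remove one duplicate summand on both sides -/
def stepJ (pad ub : List Unit) (tl tl' : TL U) (ι : FP U) (s : List U × List U × Bool) :
    List U × List U × Bool :=
  (findDup pad ub tl s.1).elim s (fun c =>
    (twin pad ub tl tl' ι (clo s.1 (tl.2.2 ++ c.1)) c.1 s.2.1).elim (c.2, s.2.1, false)
      (fun Z => (c.2, Z, s.2.2)))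

/-- remove all duplicate summands on both sides -/
def finalJ (pad ub : List Unit) (tl tl' : TL U) (ι : FP U) (Y Y' : List U) :
    List U × List U × Bool :=
  (stepJ pad ub tl tl' ι)^[Y.length] (Y, Y', true)
end sub

/-! ### towers of subgroups -/

section tower
variable {G Ω τ : Type} [Group G] [DecidableEq G] [MulAction G Ω] [DecidableEq Ω]

/-- sift one generator through the base point `b` -/
def simsIn (b : Ω) (st : List G × List G) (g : G) : List G × List G :=
  (st.1.find? (fun r => r • b == g • b)).elim (g :: st.1, st.2) (fun r => (st.1, r⁻¹ * g :: st.2))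

/-- sift all remaining generators through the base point `b` -/
def simsStep (st : List G × List G) (b : Ω) : List G × List G :=
  ((st.2.foldl (simsIn b) ([], [])).1 ++ st.1, (st.2.foldl (simsIn b) ([], [])).2)

/-- the Sims filter: a short generating list of the group generated by `S` -/
def sims (pad : List Unit) (base : List Ω) (S : List G) : List G :=
  (base.foldl simsStep ([], S)).1.take pad.length

/-- add one new coset representative -/
def bfsStep (mem : G → Bool) (S R : List G) : List G :=
  (((S ++ S.map (fun s => s⁻¹)).flatMap (fun s => R.map (fun r => s * r))).find?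
    (fun x => R.all (fun r => !mem (r⁻¹ * x)))).toList ++ R

/-- coset representatives -/
def bfs (pad : List Unit) (mem : G → Bool) (S : List G) : List G :=
  (bfsStep mem S)^[pad.length] [1]

/-- one step down the tower -/
def towerStep (mem pass : τ → G → Bool) (pad : List Unit) (base : List Ω)
    (st : Option (G × List G)) (t : τ) : Option (G × List G) :=
  st.bind (fun s => (((bfs pad (mem t) s.2).map (fun r => s.1 * r)).find? (pass t)).map
    (fun g => (g, sims pad base ((schTriples (bfs pad (mem t) s.2) s.2).filter (mem t)))))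

/-- an element of the coset `g₀ ⟨S₀⟩` passing all tests, and generators of the subgroup cut out
by the tests -/
def tower (mem pass : τ → G → Bool) (pad : List Unit) (base : List Ω) (tests : List τ) (g₀ : G)
    (S₀ : List G) : Option (G × List G) :=
  tests.foldl (towerStep mem pass pad base) (some (g₀, S₀))
end tower

/-! ### the linear phase -/

section lin
variable {U : Type} [Group U] [DecidableEq U]

/-- pairs of maps `Y → Y'` (tag `false`) and `Y' → Y` (tag `true`) -/
abbrev FB (U : Type) [Group U] : Type := FF (Bool × U) U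

/-- the linear conditions; `h = true` is the homogeneous version -/
def linTest (h : Bool) (E E' : List U) (ι : FP U) (t : ℕ × Bool × U × U) (F : FB U) : Bool :=
  if t.1 == 0 then (bif t.2.1 then E else E').contains
    ((F.app (t.2.1, t.2.2.1 * t.2.2.2))⁻¹ * F.app (t.2.1, t.2.2.1) * F.app (t.2.1, t.2.2.2))
  else if t.1 == 1 then (bif t.2.1 then E else E').contains
    ((F.app (t.2.1, t.2.2.1 * t.2.2.2 * t.2.2.1⁻¹))⁻¹ *
      ((bif t.2.1 then ι⁻¹ else ι).app t.2.2.1 * F.app (t.2.1, t.2.2.2) *
        ((bif t.2.1 then ι⁻¹ else ι).app t.2.2.1)⁻¹))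
  else if t.1 == 2 then (bif t.2.1 then E else E').contains
    ((F.app (t.2.1, t.2.2.1))⁻¹ * (bif h then 1 else t.2.2.2))
  else ι.app (cm t.2.2.1 (F.app (true, t.2.2.2))) == cm (F.app (false, t.2.2.1)) t.2.2.2

/-- the list of linear conditions -/
def linTests (tl tl' : TL U) (ι : FP U) (Y Y' : List U) (Q : List (U × U)) :
    List (ℕ × Bool × U × U) :=
  (prodL Y Y).map (fun p => (0, false, p)) ++ (prodL Y' Y').map (fun p => (0, true, p)) ++
    (prodL tl.1 Y).map (fun p => (1, false, p)) ++ (prodL tl'.1 Y').map (fun p => (1, true, p)) ++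
    tl.2.1.map (fun k => (2, false, k, ι.app k)) ++ tl'.2.1.map (fun k => (2, true, k, ι⁻¹.app k)) ++
    Q.map (fun q => (2, false, q.1, q.2)) ++ Q.map (fun q => (2, true, q.2, q.1)) ++
    (prodL Y Y').map (fun p => (3, false, p))

/-- the common domain -/
def dom (Y Y' : List U) : List (Bool × U) :=
  Y.map (fun x => (false, x)) ++ Y'.map (fun x => (true, x))

/-- `y` acts on `ι K` as `x` acts on `K` -/
def sameAct (K : List U) (ι : FP U) (x y : U) : Bool :=
  K.all (fun k => ι.app (x * k * x⁻¹) == y * ι.app k * y⁻¹)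

/-- the starting point of the linear phase -/
def linStart (tl tl' : TL U) (ι : FP U) (Y Y' : List U) : FB U :=
  FF.tab (dom Y Y') (fun a => bif a.1 then (Y.find? (sameAct tl'.2.1 ι⁻¹ a.2)).getD 1
    else (Y'.find? (sameAct tl.2.1 ι a.2)).getD 1)

/-- generators of the group of all pairs of maps into the centralizers -/
def linGens (tl tl' : TL U) (Y Y' : List U) : List (FB U) :=
  (prodL Y (cenL tl'.2.1 Y')).map (fun p => FF.single (false, p.1) p.2) ++
    (prodL Y' (cenL tl.2.1 Y)).map (fun p => FF.single (true, p.1) p.2)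

/-- an adjoint pair and generators of the homogeneous solutions -/
def lin (pad : List Unit) (tl tl' : TL U) (ι : FP U) (Y Y' : List U) (Q : List (U × U)) :
    Option (FB U × List (FB U)) :=
  tower (linTest true tl.2.2 tl'.2.2 ι) (linTest false tl.2.2 tl'.2.2 ι) pad
    ((dom Y Y').map (fun a => (a, (1 : U)))) (linTests tl tl' ι Y Y' Q) (linStart tl tl' ι Y Y')
    (linGens tl tl' Y Y')

/-- generators of the ring -/
def ringGens (pad : List Unit) (tl : TL U) (Y P : List U) : List (FB U) :=
  ((lin pad tl tl 1 Y Y (P.zip P)).map (fun r => r.2)).getD []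

/-- the next term of the filtration -/
def filtStep (K Y : List U) (S : List (FB U)) (A : List U) : List U :=
  clo Y (K ++ S.flatMap (fun r => A.map (fun x => r.app (false, x))))

/-- the terms of the filtration, deepest first -/
def filtList (K Y : List U) (S : List (FB U)) : List (List U) :=
  Y.foldl (fun FL _ => filtStep K Y S (FL.headD []) :: FL) [Y]

/-- the test for `Nil` -/
def nilB (pad : List Unit) (tl : TL U) (Y P : List U) : Bool :=
  subB ((filtList tl.2.1 Y (ringGens pad tl Y P)).headD []) tl.2.1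

/-! ### the nilpotent phase -/

/-- composition of ring elements -/
def compF (Y : List U) (r s : FB U) : FB U :=
  FF.tab (Y.map (fun x => (false, x))) (fun a => r.app (false, s.app a))

/-- generators of the next power of the ring -/
def powStep (pad : List Unit) (Y : List U) (S L : List (FB U)) : List (FB U) :=
  sims pad (Y.map (fun x => ((false, x), (1 : U)))) (S.flatMap (fun r => L.map (compF Y r)))

/-- generators of all powers of the ring -/
def powList (pad : List Unit) (Y : List U) (S : List (FB U)) : List (FB U) :=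
  (Y.foldl (fun (st : List (FB U) × List (FB U)) _ => (powStep pad Y S st.1, st.1 ++ st.2))
    (S, [])).2

/-- the chosen representative of the coset `K x` -/
def rep (K Y : List U) (x : U) : U := (Y.find? (fun r => K.contains (x * r⁻¹))).getD 1

/-- the permutation attached to the map `F` (`h = false`) or `1 + F` (`h = true`) -/
def normP (K Y : List U) (ι : FP U) (h : Bool) (F : FB U) : FP U :=
  FP.ofList (Y.map (fun x => (x, ι.app (x * (rep K Y x)⁻¹) *
    ((bif h then rep K Y x else 1) * F.app (false, rep K Y x)))))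

/-- `g` is congruent modulo `E'` to an isomorphism -/
def liftB (pad : List Unit) (tl : TL U) (ι : FP U) (E' Y Y' : List U) (g : FP U) : Bool :=
  (tuples pad E' (gensOf Y)).any (fun es => matchB tl.1 tl.2.1 ι Y Y' (gensOf Y)
    (List.zipWith (fun x e => g.app x * e) (gensOf Y) es))

/-- the nonlinear conditions -/
def test2 (pad : List Unit) (tl : TL U) (ι : FP U) (E' Y Y' : List U) (t : Option (U × U))
    (g : FP U) : Bool :=
  t.elim (liftB pad tl ι E' Y Y' g) (fun p => cm (g.app p.1) (g.app p.2) == ι.app (cm p.1 p.2))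

/-- all pairs, deepest first -/
def pairTests (FL : List (List U)) : List (U × U) :=
  FL.flatMap (fun A => FL.flatMap (fun B => prodL A B))

/-- generators of the group `1 + R` -/
def unitGens (pad : List Unit) (tl : TL U) (Y P : List U) : List (FP U) :=
  (powList pad Y (ringGens pad tl Y P)).map (normP tl.2.1 Y 1 true)

/-- the isomorphism test in the nilpotent case -/
def p3 (pad : List Unit) (tl tl' : TL U) (ι : FP U) (Y Y' P P' : List U) : Bool :=
  (lin pad tl tl' ι Y Y' (P.zip P')).elim false (fun r =>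
    (tower (test2 pad tl 1 tl.2.2 Y Y) (test2 pad tl ι tl'.2.2 Y Y') pad Y
      ((pairTests (filtList tl.2.1 Y (ringGens pad tl Y P))).map some ++ [none])
      (normP tl.2.1 Y ι false r.1) (unitGens pad tl Y P)).isSome)

/-! ### plans and their execution -/

/-- a plan: pins `I`, the large subgroup `H`, the small subgroup `E`, further pins `P` -/
abbrev Plan (U : Type) : Type := List U × List U × List U × List U

/-- the pinned data of a plan -/
def tlOf (el I H E : List U) : TL U := (clo el I, (clo el I).filter (fun x => H.contains x), E)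

/-- the test of a plan -/
def planB (pad ub : List Unit) (el : List U) (p : Plan U) : Bool :=
  goodB (tlOf el p.1 p.2.1 p.2.2.1) p.2.1 && coverB el (clo el p.1) p.2.1 &&
    Nat.ble el.length (ub.length * p.2.1.length) && Nat.ble p.2.2.1.length ub.length &&
    Nat.ble (clo el p.1).length (ub.length * (tlOf el p.1 p.2.1 p.2.2.1).2.1.length) &&
    nilB pad (tlOf el p.1 p.2.1 p.2.2.1) (finalG pad ub (tlOf el p.1 p.2.1 p.2.2.1) p.2.1) p.2.2.2

/-- the candidates for a plan -/
def plans (pad uk ub : List Unit) (el : List U) : List (Plan U) :=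
  (tuples pad el uk).flatMap (fun I => (smallIdx pad ub el).flatMap (fun H =>
    ((tuples pad el ub).map (clo el)).flatMap (fun E =>
      (tuples pad (finalG pad ub (tlOf el I H E) H) uk).map (fun P => (I, H, E, P)))))

/-- a valid plan -/
def findPlan (pad uk ub : List Unit) (el : List U) : Option (Plan U) :=
  (plans pad uk ub el).find? (planB pad ub el)

/-- the isomorphism defined by the pins -/
def pinIso (el el' I I' : List U) : FP U :=
  FP.ofList (graphOf [] 1 (clo el I) (clo el' I') I I')

/-- the last stage of the execution -/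
def execEnd (pad uk : List Unit) (tl tl' : TL U) (ι : FP U) (P : List U)
    (s : List U × List U × Bool) : Bool :=
  s.2.2 && (tuples pad s.2.1 uk).any (fun P' => p3 pad tl tl' ι s.1 s.2.1 P P')

/-- the execution of a plan for given pinned data -/
def execMid (pad uk ub : List Unit) (el' : List U) (tl tl' : TL U) (ι : FP U) (H H' P : List U) :
    Bool :=
  tl.2.1.all (fun k => tl'.2.1.contains (ι.app k)) &&
    tl'.2.1.all (fun k => tl.2.1.contains (ι⁻¹.app k)) && goodB tl' H' && coverB el' tl'.1 H' &&
    execEnd pad uk tl tl' ι P (finalJ pad ub tl tl' ι H H')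

/-- the execution of a plan for given images of the pins and of `H` -/
def execOne (pad uk ub : List Unit) (el el' : List U) (p : Plan U) (I' H' : List U) : Bool :=
  matchB [] [] 1 (clo el p.1) (clo el' I') p.1 I' &&
    execMid pad uk ub el' (tlOf el p.1 p.2.1 p.2.2.1)
      (tlOf el' I' H' (p.2.2.1.map (pinIso el el' p.1 I').app)) (pinIso el el' p.1 I') p.2.1 H'
      p.2.2.2

/-- the execution of a plan -/
def exec (pad uk ub : List Unit) (el el' : List U) (p : Plan U) : Bool :=
  (tuples pad el' uk).any (fun I' => (smallIdx pad ub el').any (fun H' =>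
    execOne pad uk ub el el' p I' H'))
end lin

end

/-! ### correctness statements -/

/-- the padding is long enough for groups of order at most `N` and index bound `b` -/
def Big (N b : ℕ) (pad : List Unit) : Prop := (N + 1) ^ (3 * (b + 1) ^ 2) ≤ pad.length

/-- subgroups of small index -/
def S_SMALL : Prop :=
  ∀ (U : Type) [Group U] [DecidableEq U] (pad ub : List Unit) (Y : List U) (y : Subgroup U),
    Rep Y y → (∀ A ∈ smallIdx pad ub Y, ∃ a ≤ y, Rep A a) ∧
      ∀ N, Y.length ≤ N → Big N ub.length pad → ∀ a ≤ y, Nat.card y ≤ ub.length * Nat.card a →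
        ∃ A ∈ smallIdx pad ub Y, Rep A a

/-- the isomorphism test for given images of generators -/
def S_MATCH : Prop :=
  ∀ (U : Type) [Group U] [DecidableEq U] (J S : List U) (ι : FP U) (Z Z' xs xs' : List U)
    (j s z z' : Subgroup U), (∀ x ∈ j, x ≠ 1 → x ∈ J) → (∀ x ∈ J, x ∈ j) →
    (∀ x ∈ s, x ≠ 1 → x ∈ S) → (∀ x ∈ S, x ∈ s) → ι.app 1 = 1 → Rep Z z → Rep Z' z' →
    (matchB J S ι Z Z' xs xs' = true → ∃ γ, IsoOn j s ι.app z z' γ ∧
      (∀ p ∈ xs.zip xs', γ p.1 = p.2) ∧ ∀ v, v ∈ graphOf S ι Z Z' xs xs' ↔ v.1 ∈ z ∧ γ v.1 = v.2) ∧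
    ∀ γ, IsoOn j s ι.app z z' γ → z = s ⊔ gen xs → (∀ a ∈ j, ∀ x ∈ z, a * x * a⁻¹ ∈ z) →
      xs' = xs.map γ → matchB J S ι Z Z' xs xs' = true

/-- the tests for `Good` and `Decomp` -/
def S_CHECK : Prop :=
  ∀ (U : Type) [Group U] [DecidableEq U] (tl : TL U) (t : Tr U) (Y : List U) (y : Subgroup U),
    RepT tl t → Rep Y y → (goodB tl Y = true ↔ Good t y) ∧
      ∀ (X Y₁ : List U) (x y₁ : Subgroup U), Rep X x → Rep Y₁ y₁ →
        (decompB tl Y X Y₁ = true ↔ Decomp t y x y₁)

/-- the search for duplicate summands -/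
def S_DUP : Prop :=
  ∀ (U : Type) [Group U] [DecidableEq U] (pad ub : List Unit) (tl : TL U) (t : Tr U) (Y : List U)
    (y : Subgroup U) (N : ℕ), RepT tl t → Rep Y y → Good t y → Y.length ≤ N →
    Big N ub.length pad →
    (findDup pad ub tl Y = none → ¬ Dup t ub.length y) ∧
    ∀ c, findDup pad ub tl Y = some c → ∃ (x y₁ x₂ y₂ : Subgroup U) (γ : U → U),
      Rep (clo Y (tl.2.2 ++ c.1)) x ∧ x = t.E ⊔ gen c.1 ∧ c.1.length = ub.length ∧ Rep c.2 y₁ ∧
      c.2.length < Y.length ∧ Nat.card x ≤ ub.length * Nat.card t.E ∧ Decomp t y x y₁ ∧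
      Decomp t y₁ x₂ y₂ ∧ IsoOn t.J t.E id x x₂ γ

/-- the search for matching summands on the other side -/
def S_TWIN : Prop :=
  ∀ (U : Type) [Group U] [DecidableEq U] (pad ub : List Unit) (tl tl' : TL U) (t t' : Tr U)
    (ι : FP U) (X xs Y' : List U) (x y' : Subgroup U) (N : ℕ), RepT tl t → RepT tl' t' →
    Link t t' ι.perm → Rep X x → Rep Y' y' → Good t' y' → Y'.length ≤ N → Big N ub.length pad →
    (∀ Z, twin pad ub tl tl' ι X xs Y' = some Z → ∃ (x' y₁' x₂' y₂' : Subgroup U), Rep Z y₁' ∧
      Decomp t' y' x' y₁' ∧ Decomp t' y₁' x₂' y₂' ∧ (∃ γ, IsoOn t.J t.E ι.app x x' γ) ∧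
      ∃ γ, IsoOn t.J t.E ι.app x x₂' γ) ∧
    ∀ (y y₁ x₂ y₂ : Subgroup U), Good t y → x = t.E ⊔ gen xs → xs.length = ub.length →
      Nat.card x ≤ ub.length * Nat.card t.E → Decomp t y x y₁ → Decomp t y₁ x₂ y₂ →
      (∃ γ, IsoOn t.J t.E id x x₂ γ) → (∃ γ, IsoOn t.J t.K ι.app y y' γ) →
      twin pad ub tl tl' ι X xs Y' ≠ none

/-- the removal loops -/
def S_LOOP : Prop :=
  ∀ (U : Type) [Group U] [DecidableEq U] (pad ub : List Unit) (tl : TL U) (t : Tr U) (Y : List U)
    (y : Subgroup U) (N : ℕ), RepT tl t → Rep Y y → Good t y → Y.length ≤ N →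
    Big N ub.length pad → ∃ y₀ ≤ y, Rep (finalG pad ub tl Y) y₀ ∧ Good t y₀ ∧
      ¬ Dup t ub.length y₀ ∧
      ∀ (tl' : TL U) (t' : Tr U) (ι : FP U) (Y' : List U) (y' : Subgroup U), RepT tl' t' →
        Rep Y' y' → Good t' y' → Link t t' ι.perm → Y'.length ≤ N →
        (finalJ pad ub tl tl' ι Y Y').1 = finalG pad ub tl Y ∧
        ∃ y₀' ≤ y', Rep (finalJ pad ub tl tl' ι Y Y').2.1 y₀' ∧ Good t' y₀' ∧
          ((∃ γ, IsoOn t.J t.K ι.app y y' γ) ↔ (finalJ pad ub tl tl' ι Y Y').2.2 = true ∧
            ∃ γ, IsoOn t.J t.K ι.app y₀ y₀' γ)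

/-- the Sims filter -/
def S_SIMS : Prop :=
  ∀ (G Ω : Type) [Group G] [MulAction G Ω] [DecidableEq Ω] (pad : List Unit) (base : List Ω)
    (S : List G) (c : ℕ), (∀ u ∈ gen S, (∀ b ∈ base, u • b = b) → u = 1) →
    (∀ b ∈ base, ∃ T : Finset Ω, T.card ≤ c ∧ ∀ u ∈ gen S, u • b ∈ T) →
    base.length * c ≤ pad.length → gen (sims pad base S) = gen S

/-- the tower of subgroups -/
def S_TOWER : Prop :=
  ∀ (G Ω τ : Type) [Group G] [DecidableEq G] [MulAction G Ω] [DecidableEq Ω]
    (mem pass : τ → G → Bool) (pad : List Unit) (base : List Ω) (tests : List τ) (g₀ : G)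
    (S₀ : List G) (c : ℕ), (∀ u ∈ gen S₀, (∀ b ∈ base, u • b = b) → u = 1) →
    (∀ b ∈ base, ∃ T : Finset Ω, T.card ≤ c ∧ ∀ u ∈ gen S₀, u • b ∈ T) →
    base.length * c ≤ pad.length → (∀ t ∈ tests, mem t 1 = true) →
    (∀ (pre : List τ) t post, tests = pre ++ t :: post → ∀ u ∈ gen S₀, ∀ v ∈ gen S₀,
      (∀ s ∈ pre, mem s u = true) → (∀ s ∈ pre, mem s v = true) → mem t u = true →
      mem t v = true → mem t (u⁻¹ * v) = true) →
    (∀ (pre : List τ) t post, tests = pre ++ t :: post → ∀ l : List G,
      (∀ u ∈ l, u ∈ gen S₀ ∧ ∀ s ∈ pre, mem s u = true) →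
      l.Pairwise (fun u v => mem t (u⁻¹ * v) = false) → l.length ≤ pad.length) →
    (∀ (pre : List τ) t post, tests = pre ++ t :: post → ∀ g, g₀⁻¹ * g ∈ gen S₀ →
      (∀ s ∈ pre, pass s g = true) → pass t g = true → ∀ u ∈ gen S₀,
      (∀ s ∈ pre, mem s u = true) → pass t (g * u) = mem t u) →
    (∃ g, g₀⁻¹ * g ∈ gen S₀ ∧ ∀ t ∈ tests, pass t g = true) →
    ∃ g S, tower mem pass pad base tests g₀ S₀ = some (g, S) ∧ g₀⁻¹ * g ∈ gen S₀ ∧
      (∀ t ∈ tests, pass t g = true) ∧
      ∀ u, u ∈ gen S ↔ u ∈ gen S₀ ∧ ∀ t ∈ tests, mem t u = true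

/-- `S` generates the homogeneous solutions -/
structure GensH {U : Type} [Group U] (t t' : Tr U) (ι : Equiv.Perm U) (y y' : Subgroup U)
    (Q : List (U × U)) (S : List (FB U)) : Prop where
  sound : ∀ u ∈ gen S, HAdj t t' ι y y' Q (fun x => u.app (false, x)) (fun x => u.app (true, x))
  complete : ∀ f g, HAdj t t' ι y y' Q f g → ∃ u ∈ gen S,
    (∀ x ∈ y, u.app (false, x) = f x) ∧ ∀ x ∈ y', u.app (true, x) = g x

/-- the linear phase -/
def S_LIN : Prop :=
  ∀ (U : Type) [Group U] [DecidableEq U] (pad : List Unit) (tl tl' : TL U) (t t' : Tr U)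
    (ι : FP U) (Y Y' : List U) (y y' : Subgroup U) (Q : List (U × U)) (N : ℕ), RepT tl t →
    RepT tl' t' → Rep Y y → Rep Y' y' → Good t y → Good t' y' → Link t t' ι.perm →
    (∀ q ∈ Q, q.1 ∈ y ∧ q.2 ∈ y') → Y.length ≤ N → Y'.length ≤ N → (N + 1) ^ 3 ≤ pad.length →
    (∃ φ θ, Adj t t' ι.perm y y' Q φ θ) →
    ∃ F S, lin pad tl tl' ι Y Y' Q = some (F, S) ∧
      Adj t t' ι.perm y y' Q (fun x => F.app (false, x)) (fun x => F.app (true, x)) ∧
      GensH t t' ι.perm y y' Q S

/-- the ring generators, the filtration and the nilpotency test -/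
def S_FILT : Prop :=
  ∀ (U : Type) [Group U] [DecidableEq U] (pad : List Unit) (tl : TL U) (t : Tr U) (Y P : List U)
    (y : Subgroup U) (N : ℕ), RepT tl t → Rep Y y → Good t y → (∀ x ∈ P, x ∈ y) → Y.length ≤ N →
    (N + 1) ^ 3 ≤ pad.length → GensH t t 1 y y (P.zip P) (ringGens pad tl Y P) ∧
      (∃ A : ℕ → List U, (∀ i, Rep (A i) (Filt t y P i)) ∧
        filtList tl.2.1 Y (ringGens pad tl Y P) = (List.range (Y.length + 1)).reverse.map A) ∧
      (nilB pad tl Y P = true ↔ Nil t y P)

/-- the permutation attached to a quasi-homomorphism -/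
def S_NORM : Prop :=
  ∀ (U : Type) [Group U] [DecidableEq U] (K Y : List U) (t t' : Tr U) (ι : FP U)
    (y y' : Subgroup U) (h : Bool) (F : FB U), Rep K t.K → Rep Y y → Good t y → Good t' y' →
    Link t t' ι.perm → QHom t t' ι.app y y' (fun x => (bif h then x else 1) * F.app (false, x)) →
    (∀ x ∈ y, (bif h then x else 1) * F.app (false, x) ∈ t'.K → x ∈ t.K) →
    (∀ x ∈ y, Cg t'.E ((normP K Y ι h F).app x) ((bif h then x else 1) * F.app (false, x))) ∧
      ∀ a, a ∉ y → a ∉ y' → (normP K Y ι h F).app a = a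

/-- the group generated by `unitGens` is `1 + R` modulo `E` -/
def S_UNIT : Prop :=
  ∀ (U : Type) [Group U] [DecidableEq U] (pad : List Unit) (tl : TL U) (t : Tr U) (Y P : List U)
    (y : Subgroup U) (N : ℕ), RepT tl t → Rep Y y → Good t y → (∀ x ∈ P, x ∈ y) → Y.length ≤ N →
    (N + 1) ^ 3 ≤ pad.length → Nil t y P →
    (∀ σ ∈ gen (unitGens pad tl Y P), (∀ a, a ∉ y → σ.app a = a) ∧
      ∃ r r', RR t y P r r' ∧ ∀ x ∈ y, Cg t.E (σ.app x) (x * r x)) ∧
    ∀ r r', RR t y P r r' → ∃ σ ∈ gen (unitGens pad tl Y P), ∀ x ∈ y, Cg t.E (σ.app x) (x * r x)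

/-- the lifting test -/
def S_LIFT : Prop :=
  ∀ (U : Type) [Group U] [DecidableEq U] (pad : List Unit) (tl : TL U) (t t' : Tr U) (ι : FP U)
    (E' Y Y' : List U) (y y' : Subgroup U) (g : FP U), RepT tl t → Rep E' t'.E → Rep Y y →
    Rep Y' y' → Good t y → Good t' y' → Link t t' ι.perm →
    (liftB pad tl ι E' Y Y' g = true → ∃ γ, IsoOn t.J t.K ι.app y y' γ) ∧
    ∀ N b, Y.length ≤ N → E'.length ≤ b → Big N b pad → QHom t t' ι.app y y' g.app →
      (liftB pad tl ι E' Y Y' g = true ↔
        ∃ γ, IsoOn t.J t.K ι.app y y' γ ∧ ∀ x ∈ y, Cg t'.E (γ x) (g.app x))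

/-- the commutator defect at a pair only depends on the deeper pairs tested before -/
def S_DEEP : Prop :=
  ∀ (U : Type) [Group U] (t t' : Tr U) (ι : Equiv.Perm U) (y y' : Subgroup U) (P : List U)
    (A : ℕ → List U) (n : ℕ) (pre post : List (U × U)) (p : U × U) (φ w r r' : U → U),
    Good t y → Good t' y' → Link t t' ι → (∀ i, Rep (A i) (Filt t y P i)) → Filt t y P n ≤ t.K →
    pairTests ((List.range (n + 1)).reverse.map A) = pre ++ p :: post → QHom t t' ι y y' φ →
    (∀ q ∈ pre, cdef ι φ q.1 q.2 = 1) → RR t y P r r' → (∀ x ∈ y, Cg t.E (w x) (x * r x)) →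
    p.1 ∈ y ∧ p.2 ∈ y ∧ cdef ι φ (w p.1) (w p.2) = cdef ι φ p.1 p.2

/-- the isomorphism test in the nilpotent case -/
def S_P3 : Prop :=
  ∀ (U : Type) [Group U] [DecidableEq U] (pad : List Unit) (tl tl' : TL U) (t t' : Tr U)
    (ι : FP U) (Y Y' P P' : List U) (y y' : Subgroup U), RepT tl t → RepT tl' t' → Rep Y y →
    Rep Y' y' → Good t y → Good t' y' → Link t t' ι.perm →
    (p3 pad tl tl' ι Y Y' P P' = true → ∃ γ, IsoOn t.J t.K ι.app y y' γ) ∧
    ∀ N b, Y.length ≤ N → Big N b pad → Nat.card t.E ≤ b → Nat.card t.J ≤ b * Nat.card t.K →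
      (∀ x ∈ P, x ∈ y) → Nil t y P → ∀ γ, IsoOn t.J t.K ι.app y y' γ → P' = P.map γ →
      p3 pad tl tl' ι Y Y' P P' = true

/-- valid plans exist for small parameters -/
def S_PLAN : Prop :=
  ∀ M : ℕ, 2 ≤ M → ∃ B : ℕ, ∀ (U : Type) [Group U] [DecidableEq U] (pad uk ub : List Unit)
    (el : List U) (G : Subgroup U), Rep el G → 2 * Nat.log M el.length + B ≤ uk.length →
    B ≤ ub.length → Big el.length ub.length pad → el.length ^ uk.length ≤ pad.length →
    (findPlan pad uk ub el).isSome = true

/-- executing a valid plan decides isomorphism -/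
def S_EXEC : Prop :=
  ∀ (U : Type) [Group U] [DecidableEq U] (pad uk ub : List Unit) (el el' : List U)
    (G G' : Subgroup U) (p : Plan U), Rep el G → Rep el' G' → el'.length = el.length →
    Big el.length ub.length pad → el.length ^ uk.length ≤ pad.length →
    findPlan pad uk ub el = some p → (exec pad uk ub el el' p = true ↔ Nonempty (G ≃* G'))

end Pool.Agent.P.MP_f1a348_lc.GI
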