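import Pool.Agent.P.MP_f1a348_lc.GI.MDefs

/-!
Cancellation in the integral group ring of a finite abelian group, and inversion over subsets.
-/

namespace Pool.Agent.P.MP_f1a348_lc.GI

namespace CancA

variable {A : Type} [CommGroup A] [Fintype A]

/-- convolution -/
def conv (f g : A → ℤ) : A → ℤ := fun a => ∑ c, f c * g (c⁻¹ * a)

/-- the involution -/
def st (f : A → ℤ) : A → ℤ := fun a => f a⁻¹

theorem conv_comm (f g : A → ℤ) : conv f g = conv g f := by
  funext a
  refine Fintype.sum_equiv ((Equiv.inv A).trans (Equiv.mulRight a)) _ _ fun c => ?_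
  simp [mul_comm]

theorem conv_assoc (f g h : A → ℤ) : conv (conv f g) h = conv f (conv g h) := by
  funext a
  simp only [conv, Finset.sum_mul, Finset.mul_sum]
  rw [Finset.sum_comm]
  refine Finset.sum_congr rfl fun c _ => ?_
  refine Fintype.sum_equiv (Equiv.mulLeft c⁻¹) _ _ fun b => ?_
  simp only [Equiv.coe_mulLeft, mul_assoc]
  congr 3
  simp [mul_assoc]

theorem conv_st (f g : A → ℤ) : conv (st f) (st g) = st (conv f g) := by
  funext a
  refine Fintype.sum_equiv (Equiv.inv A) _ _ fun c => ?_
  simp [st, mul_comm]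

theorem conv_zero (f : A → ℤ) : conv f 0 = 0 := by
  funext a
  simp [conv]

theorem eq_zero (f : A → ℤ) (h : conv f (st f) = 0) : f = 0 := by
  have h1 := congrFun h 1
  simp only [conv, st, mul_one, inv_inv, Pi.zero_apply] at h1
  rw [Finset.sum_eq_zero_iff_of_nonneg fun c _ => mul_self_nonneg (f c)] at h1
  funext c
  exact mul_self_eq_zero.mp (h1 c (Finset.mem_univ c))

theorem reduced (d : A → ℤ) (h : conv d d = 0) : d = 0 := by
  refine eq_zero d (eq_zero _ ?_)
  have h1 : st (conv d (st d)) = conv d (st d) := by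
    rw [← conv_st, conv_comm]
    congr 1
    funext a
    simp [st]
  rw [h1, conv_assoc, conv_comm (st d), conv_assoc, ← conv_assoc, h, conv_comm, conv_zero]

theorem sub_conv (f g h : A → ℤ) : conv (f - g) h = conv f h - conv g h := by
  funext a
  simp [conv, sub_mul, Finset.sum_sub_distrib]

theorem card_split {T Φ : Type} [Finite T] [Finite Φ] (κ : Φ → Set T) (L : Set T) :
    Nat.card {a : Φ // L ⊆ κ a} = Nat.card {a : Φ // κ a = L} +
      ∑ᶠ L' ∈ {L' | L ⊂ L'}, Nat.card {a : Φ // κ a = L'} := by
  classical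
  have := Fintype.ofFinite T
  have := Fintype.ofFinite Φ
  have h1 : {L' | L ⊂ L'} = ((Finset.univ.filter fun L' => L ⊂ L' : Finset (Set T)) : Set (Set T)) := by
    ext L'
    simp
  rw [h1, finsum_mem_coe_finset]
  simp only [Nat.card_eq_fintype_card, Fintype.card_subtype]
  rw [Finset.card_eq_sum_card_fiberwise (f := κ)
    (t := insert L (Finset.univ.filter fun L' => L ⊂ L')), Finset.sum_insert (by simp)]
  · congr 1
    · congr 1
      ext a
      simp only [Finset.mem_filter, Finset.mem_univ, true_and]
      exact ⟨fun h => h.2, fun h => ⟨h.ge, h⟩⟩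
    · refine Finset.sum_congr rfl fun L' hL' => ?_
      congr 1
      ext a
      simp only [Finset.mem_filter, Finset.mem_univ, true_and] at hL' ⊢
      exact ⟨fun h => h.2, fun h => ⟨h ▸ hL'.le, h⟩⟩
  · intro a ha
    simp only [Finset.coe_filter, Finset.mem_univ, true_and, Set.mem_ofPred_eq, Finset.coe_insert,
      Set.mem_insert_iff] at ha ⊢
    rcases ha.eq_or_ssubset with h | h
    · exact Or.inl h.symm
    · exact Or.inr h

end CancA

open CancA in
theorem canc : S_CANC := by
  intro A _ _ f g ν h a
  have h1 : conv (conv f ν) ν = conv (conv g ν) ν := funext h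
  have h2 : conv (conv (f - g) ν) ν = 0 := by rw [sub_conv, sub_conv, h1, sub_self]
  have h3 : conv (f - g) ν = 0 := by
    refine reduced _ ?_
    rw [conv_assoc, conv_comm ν, h2, conv_zero]
  rw [sub_conv, sub_eq_zero] at h3
  exact congrFun h3 a

open CancA in
theorem mob : S_MOB := by
  intro T Φ Ψ _ _ _ κ μ h L
  induction L using WellFoundedGT.induction with
  | ind L ih =>
    have h1 := h L
    rw [card_split κ L, card_split μ L,
      finsum_mem_congr rfl fun L' (hL' : L' ∈ {L' | L ⊂ L'}) => ih L' hL'] at h1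
    exact Nat.add_right_cancel h1

end Pool.Agent.P.MP_f1a348_lc.GI
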