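import Pool.Agent.P.MP_f1a348_lc.GI.ABasic

/-!
Correctness of the search for duplicate summands and for matching summands on the other side.
-/

namespace Pool.Agent.P.MP_f1a348_lc.GI

namespace DupA
variable {U : Type} [Group U] [DecidableEq U] {pad ub : List Unit} {tl tl' : TL U} {t t' : Tr U}
  {Y X xs : List U} {y x x' y₁ : Subgroup U} {ι : FP U} {N : ℕ} {γ : U → U}

theorem summ_sound (hs : S_SMALL) (hc : S_CHECK) (ht : RepT tl t) (hY : Rep Y y) (g : Good t y)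
    {c : List U × List U} (h : c ∈ summands pad ub tl Y) :
    c.1.length = ub.length ∧ Rep (clo Y (tl.2.2 ++ c.1)) (t.E ⊔ gen c.1) ∧
      ∃ y₁, Rep c.2 y₁ ∧ Decomp t y (t.E ⊔ gen c.1) y₁ := by
  obtain ⟨h1, h2⟩ := List.mem_filter.1 h
  obtain ⟨h3, h4⟩ := mem_prodL.1 h1
  obtain ⟨h5, h6⟩ := tuples_sound h3
  have hr := clo_over hY ht.E g.EY (fun a ha => (hY.mem a).1 (h6 a ha))
  obtain ⟨a, _, ha⟩ := (hs U pad ub Y y hY).1 _ h4
  exact ⟨h5, hr, a, ha, ((hc U tl t Y y ht hY).2 _ _ _ _ hr ha).1 h2⟩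

omit [DecidableEq U] in
theorem card_le (hE : Finite t.E) (g : Good t y) (d : Decomp t y x y₁) {b : ℕ}
    (hb : Nat.card x ≤ b * Nat.card t.E) : Nat.card y ≤ b * Nat.card y₁ := by
  refine Nat.le_of_mul_le_mul_right ?_ (Nat.card_pos (α := t.E))
  rw [d.card g, mul_comm b, mul_assoc]
  exact Nat.mul_le_mul_left _ hb

theorem summ_complete (hs : S_SMALL) (hc : S_CHECK) (ht : RepT tl t) (hY : Rep Y y) (g : Good t y)
    (hN : Y.length ≤ N) (hB : Big N ub.length pad) (d : Decomp t y x y₁) (hx : x = t.E ⊔ gen xs)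
    (hl : xs.length = ub.length) (hb : Nat.card x ≤ ub.length * Nat.card t.E) :
    ∃ A, (xs, A) ∈ summands pad ub tl Y ∧ Rep A y₁ := by
  obtain ⟨A, hA, hr⟩ := (hs U pad ub Y y hY).2 N hN hB y₁ d.YY (card_le ht.E.finite g d hb)
  have hxs : ∀ a ∈ xs, a ∈ y := fun a ha =>
    d.XY (hx ▸ (le_sup_right : gen xs ≤ t.E ⊔ gen xs) (mem_gen ha))
  refine ⟨A, List.mem_filter.2 ⟨mem_prodL.2 ⟨tuples_complete (hB.tuples hN) hl
    (fun a ha => (hY.mem a).2 (hxs a ha)), hA⟩, ?_⟩, hr⟩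
  exact ((hc U tl t Y y ht hY).2 _ _ _ _ (clo_over hY ht.E g.EY hxs) hr).2 (hx ▸ d)

theorem img_eq (ht : RepT tl t) (hl : Link t t' ι.perm) (h : IsoOn t.J t.E ι.app x x' γ)
    (hx : x = t.E ⊔ gen xs) : x' = t'.E ⊔ gen (xs.map γ) := by
  have e1 : x' = img γ x :=
    le_antisymm (fun a ha => (h.mem_img le_rfl).2 (h.surj ha)) (h.img_le le_rfl)
  have e2 : x = gen (tl.2.2 ++ xs) := by rw [gen_append, ht.E.gen_eq, hx]
  have e3 : gen (tl.2.2.map γ) = t'.E := by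
    refine le_antisymm (gen_le.2 fun a ha => ?_) (fun a ha => mem_gen ?_)
    · obtain ⟨e, he, rfl⟩ := List.mem_map.1 ha
      rw [h.fix e ((ht.E.mem e).1 he)]
      exact (hl.E e).1 ((ht.E.mem e).1 he)
    · have h1 := (hl.symm.E a).1 ha
      refine List.mem_map.2 ⟨_, (ht.E.mem _).2 h1, ?_⟩
      rw [h.fix _ h1]
      exact ι.perm.apply_symm_apply a
  have e4 := h.img_gen (l := tl.2.2 ++ xs) (fun a ha => e2 ▸ mem_gen ha)
  rw [← e2, ← e1, List.map_append, gen_append, e3] at e4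
  exact e4

omit [DecidableEq U] in
theorem card_E (hl : Link t t' ι.perm) : Nat.card t.E = Nat.card t'.E :=
  Nat.card_congr (ι.perm.subtypeEquiv hl.E)

theorem copy_sound (hm : S_MATCH) (ht : RepT tl t) (hl : Link t t' ι.perm) (hX : Rep X x)
    {c : List U × List U} (hr : Rep (clo Y (tl'.2.2 ++ c.1)) x')
    (h : copyB tl tl' ι X xs Y c = true) : ∃ γ, IsoOn t.J t.E ι.app x x' γ := by
  obtain ⟨γ, hγ, _⟩ := (hm U tl.1 tl.2.2 ι X _ xs c.1 t.J t.E x x'
    (fun a ha _ => (ht.J.mem a).2 ha) (fun a ha => (ht.J.mem a).1 ha)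
    (fun a ha _ => (ht.E.mem a).2 ha) (fun a ha => (ht.E.mem a).1 ha) hl.one hX hr).1 h
  exact ⟨γ, hγ⟩

theorem copy_complete (hs : S_SMALL) (hm : S_MATCH) (hc : S_CHECK) (ht : RepT tl t)
    (ht' : RepT tl' t') (hl : Link t t' ι.perm) (hX : Rep X x) (hY : Rep Y y) (g : Good t' y)
    (hN : Y.length ≤ N) (hB : Big N ub.length pad) (d : Decomp t' y x' y₁)
    (h : IsoOn t.J t.E ι.app x x' γ) (hx : x = t.E ⊔ gen xs) (hlen : xs.length = ub.length)
    (hb : Nat.card x ≤ ub.length * Nat.card t.E) (hn : ∀ j ∈ t.J, ∀ a ∈ x, j * a * j⁻¹ ∈ x) :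
    ∃ c ∈ summands pad ub tl' Y, copyB tl tl' ι X xs Y c = true ∧ Rep c.2 y₁ := by
  have hx' := img_eq ht hl h hx
  obtain ⟨A, hA, hr⟩ := summ_complete hs hc ht' hY g hN hB d hx' (by simpa using hlen)
    (by rw [← h.card_eq, ← card_E hl]; exact hb)
  refine ⟨_, hA, ?_, hr⟩
  have hr' := (summ_sound hs hc ht' hY g hA).2.1
  rw [← hx'] at hr'
  exact (hm U tl.1 tl.2.2 ι X _ xs _ t.J t.E x x'
    (fun a ha _ => (ht.J.mem a).2 ha) (fun a ha => (ht.J.mem a).1 ha)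
    (fun a ha _ => (ht.E.mem a).2 ha) (fun a ha => (ht.E.mem a).1 ha) hl.one hX hr').2 γ h hx hn rfl

end DupA

open DupA

theorem dup : S_SMALL → S_MATCH → S_CHECK → S_DUP := by
  intro hs hm hc U _ _ pad ub tl t Y y N ht hY g hN hB
  have hl : Link t t (1 : FP U).perm := Link.refl t
  have hE := ht.E.finite
  have hy := hY.finite
  refine ⟨fun hnone ⟨x, y₁, x₂, y₂, γ, d, d₂, hne, hb, hγ⟩ => ?_, fun c hsome => ?_⟩
  · have hxf := finite_of_le d.XY
    obtain ⟨xs, hlen, hx⟩ := exists_gens_over d.EX hb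
    obtain ⟨A, hA, hr⟩ := summ_complete hs hc ht hY g hN hB d hx hlen hb
    have hX := (summ_sound hs hc ht hY g hA).2.1
    rw [← hx] at hX
    have hAY : A.length ≤ Y.length := hr.length_le hY d.YY
    obtain ⟨c, hc1, hc2, _⟩ := copy_complete (ι := 1) hs hm hc ht ht hl hX hr (d.good g)
      (hAY.trans hN) hB d₂ hγ hx hlen hb d.nX
    have h1 := List.find?_eq_none.1 hnone _ hA
    refine h1 ?_
    simp only [Bool.and_eq_true, Nat.blt_eq, Nat.ble_eq, List.any_eq_true]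
    refine ⟨⟨?_, ?_⟩, c, hc1, hc2⟩
    · rw [← hr.card, ← hY.card]
      have h2 : Nat.card t.E < Nat.card x := by
        refine lt_of_le_of_ne (Subgroup.card_le_of_le d.EX) (fun e => hne ?_)
        exact (Subgroup.eq_of_le_of_card_ge d.EX e.ge).ge
      have h3 := d.card g
      have h4 : 0 < Nat.card y₁ := by rw [hr.card]; exact hr.length_pos
      have h5 : Nat.card y₁ * Nat.card t.E < Nat.card y * Nat.card t.E := by
        rw [h3]; exact Nat.mul_lt_mul_of_pos_left h2 h4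
      exact Nat.lt_of_mul_lt_mul_right h5
    · rw [← hr.card, ← hY.card]
      exact card_le hE g d hb
  · have h1 := List.find?_some hsome
    have h2 := List.mem_of_find?_eq_some hsome
    simp only [Bool.and_eq_true, Nat.blt_eq, Nat.ble_eq, List.any_eq_true] at h1
    obtain ⟨⟨h3, h4⟩, c₂, h5, h6⟩ := h1
    obtain ⟨hlen, hX, y₁, hr, d⟩ := summ_sound hs hc ht hY g h2
    obtain ⟨_, hX₂, y₂, _, d₂⟩ := summ_sound hs hc ht hr (d.good g) h5
    obtain ⟨γ, hγ⟩ := copy_sound (ι := 1) hm ht hl hX hX₂ h6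
    refine ⟨_, y₁, _, y₂, γ, hX, rfl, hlen, hr, h3, ?_, d, d₂, hγ⟩
    rw [← hr.card, ← hY.card] at h4
    have h7 : 0 < Nat.card y₁ := by rw [hr.card]; exact hr.length_pos
    refine Nat.le_of_mul_le_mul_left ?_ h7
    rw [← d.card g, ← mul_assoc, mul_comm _ ub.length]
    exact Nat.mul_le_mul_right _ h4

theorem twinLemma : S_SMALL → S_MATCH → S_CHECK → S_TWIN := by
  intro hs hm hc U _ _ pad ub tl tl' t t' ι X xs Y' x y' N ht ht' hl hX hY g hN hB
  refine ⟨fun Z hZ => ?_, fun y y₁ x₂ y₂ g₀ hx hlen hb d d₂ ⟨γ₂, h₂⟩ ⟨γ, h⟩ hnone => ?_⟩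
  · obtain ⟨c, hsome, rfl⟩ := Option.map_eq_some_iff.1 hZ
    have h1 := List.find?_some hsome
    have h2 := List.mem_of_find?_eq_some hsome
    simp only [Bool.and_eq_true, List.any_eq_true] at h1
    obtain ⟨h3, c₂, h5, h6⟩ := h1
    obtain ⟨_, hX₁, y₁, hr, d⟩ := summ_sound hs hc ht' hY g h2
    obtain ⟨_, hX₂, y₂, _, d₂⟩ := summ_sound hs hc ht' hr (d.good g) h5
    exact ⟨_, y₁, _, y₂, hr, d, d₂, copy_sound hm ht hl hX hX₁ h3, copy_sound hm ht hl hX hX₂ h6⟩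
  · have d' := d.img hl g₀ h
    have d₂' := d₂.img hl (d.good g₀) (h.restrict d.YY)
    obtain ⟨c, hc1, hc2, hr⟩ := copy_complete hs hm hc ht ht' hl hX hY g hN hB d'
      ((h.restrict d.XY).mono g₀.EK) hx hlen hb d.nX
    obtain ⟨c₂, hc3, hc4, _⟩ := copy_complete hs hm hc ht ht' hl hX hr (d'.good g)
      ((hr.length_le hY d'.YY).trans hN) hB d₂'
      (h₂.id_trans (((h.restrict d.YY).restrict d₂.XY).mono g₀.EK)) hx hlen hb d.nX
    have h1 := List.find?_eq_none.1 (Option.map_eq_none_iff.1 hnone) _ hc1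
    refine h1 ?_
    simp only [Bool.and_eq_true, List.any_eq_true]
    exact ⟨hc2, c₂, hc3, hc4⟩

end Pool.Agent.P.MP_f1a348_lc.GI
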