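import Pool.Agent.P.MP_f1a348_lc.GI.ABasic

/-!
Executing a valid plan decides isomorphism.
-/

namespace Pool.Agent.P.MP_f1a348_lc.GI

open scoped commutatorElement

set_option linter.unusedSectionVars false

namespace ExecA
variable {U : Type} [Group U] [DecidableEq U]

/-- plain isomorphisms -/
theorem plain {Z Z' : Subgroup U} {γ : U → U} (hb : Set.BijOn γ Z Z')
    (hm : ∀ x ∈ Z, ∀ y ∈ Z, γ (x * y) = γ x * γ y) : IsoOn ⊥ ⊥ id Z Z' γ := by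
  refine ⟨hb, hm, fun j hj x _ => ?_, fun s hs => ?_⟩
  · rw [Subgroup.mem_bot.1 hj]; simp
  · rw [Subgroup.mem_bot.1 hs]
    have := hm 1 Z.one_mem 1 Z.one_mem
    simpa using this

theorem plain_congr {J S Z Z' : Subgroup U} {κ γ δ : U → U} (h : IsoOn J S κ Z Z' γ)
    (e : ∀ x ∈ Z, δ x = γ x) : IsoOn ⊥ ⊥ id Z Z' δ :=
  plain (h.bij.congr fun x hx => (e x hx).symm) fun x hx y hy => by
    rw [e _ hx, e _ hy, e _ (Z.mul_mem hx hy), h.mul x hx y hy]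

/-- two multiplicative maps that agree on generators -/
theorem agree {J S J' S' Z Z' W W' : Subgroup U} {κ κ' γ δ : U → U} {l : List U}
    (h : IsoOn J S κ Z Z' γ) (h' : IsoOn J' S' κ' W W' δ) (hZ : gen l ≤ Z) (hW : gen l ≤ W)
    (e : ∀ x ∈ l, γ x = δ x) : ∀ x ∈ gen l, γ x = δ x := by
  intro x hx
  induction hx using Subgroup.closure_induction with
  | mem x hx => exact e x hx
  | one => rw [h.one, h'.one]
  | mul a b ha hb iha ihb => rw [h.mul a (hZ ha) b (hZ hb), h'.mul a (hW ha) b (hW hb), iha, ihb]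
  | inv a ha iha => rw [h.inv (hZ ha), h'.inv (hW ha), iha]

/-- the isomorphism defined by the pins -/
theorem pin (hM : S_MATCH) {el el' I I' : List U} {G G' : Subgroup U} (hG : Rep el G)
    (hG' : Rep el' G') (hI : ∀ x ∈ I, x ∈ G) (hI' : ∀ x ∈ I', x ∈ G')
    (h : matchB [] [] 1 (clo el I) (clo el' I') I I' = true) :
    IsoOn ⊥ ⊥ id (gen I) (gen I') (pinIso el el' I I').app ∧
      ∀ p ∈ I.zip I', (pinIso el el' I I').app p.1 = p.2 := by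
  obtain ⟨γ, h1, h2, h3⟩ := (hM U [] [] 1 (clo el I) (clo el' I') I I' ⊥ ⊥ (gen I) (gen I')
    (fun x hx hn => absurd (Subgroup.mem_bot.1 hx) hn) (by simp)
    (fun x hx hn => absurd (Subgroup.mem_bot.1 hx) hn) (by simp) rfl (clo_rep hG hI)
    (clo_rep hG' hI')).1 h
  have e : ∀ x ∈ gen I, (pinIso el el' I I').app x = γ x := fun x hx =>
    FP.ofList_app (p := (x, γ x)) (fun p hp q hq => by
      obtain ⟨a1, a2⟩ := (h3 p).1 hp
      obtain ⟨b1, b2⟩ := (h3 q).1 hq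
      rw [← a2, ← b2]
      exact ⟨fun e => congrArg γ e, h1.inj a1 b1⟩) ((h3 _).2 ⟨hx, rfl⟩)
  exact ⟨plain_congr h1 e, fun p hp => by
    rw [e _ (mem_gen (List.of_mem_zip hp).1), h2 p hp]⟩

theorem link {J J' K K' E : Subgroup U} {ι : FP U} (h : IsoOn ⊥ ⊥ id J J' ι.app) (hE : E ≤ J)
    (h1 : ∀ k ∈ K, ι.app k ∈ K') (h2 : ∀ k ∈ K', ι⁻¹.app k ∈ K) :
    Link ⟨J, K, E⟩ ⟨J', K', img ι.app E⟩ ι.perm := by
  refine ⟨h.mul, fun x => ⟨fun hx => h.maps hx, fun hx => ?_⟩,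
    fun x => ⟨h1 x, fun hx => by simpa using h2 _ hx⟩,
    fun x => ⟨fun hx => (h.mem_img hE).2 ⟨x, hx, rfl⟩, fun hx => ?_⟩⟩
  · obtain ⟨y, hy, e⟩ := h.surj hx
    exact ι.app_injective e ▸ hy
  · obtain ⟨y, hy, e⟩ := (h.mem_img hE).1 hx
    exact ι.app_injective e ▸ hy

theorem repT {el I H E : List U} {G h e : Subgroup U} (hG : Rep el G) (hI : ∀ x ∈ I, x ∈ G)
    (hH : Rep H h) (hE : Rep E e) : RepT (tlOf el I H E) ⟨gen I, gen I ⊓ h, e⟩ :=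
  ⟨clo_rep hG hI, (clo_rep hG hI).filter fun x => by rw [hH.contains, Subgroup.mem_inf], hE⟩

theorem rep_map {J J' e : Subgroup U} {E : List U} {ι : FP U} (h : IsoOn ⊥ ⊥ id J J' ι.app)
    (he : e ≤ J) (hE : Rep E e) : Rep (E.map ι.app) (img ι.app e) :=
  ⟨hE.nodup.map ι.app_injective, fun y => by
    rw [h.mem_img he, List.mem_map]
    exact exists_congr fun x => by rw [hE.mem]⟩

theorem cover_iff {el A H : List U} {G a h : Subgroup U} (hG : Rep el G) (hA : Rep A a)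
    (hH : Rep H h) : coverB el A H = true ↔ ∀ g ∈ G, ∃ j ∈ a, ∃ x ∈ h, g = j * x := by
  simp only [coverB_iff, hG.mem, hA.mem, hH.mem]

/-- the standing hypotheses are transported by isomorphisms -/
theorem good_img {t t' : Tr U} {G G' Y Y' : Subgroup U} {γ : U → U} (h : IsoOn ⊥ ⊥ id G G' γ)
    (g : Good t Y) (hJG : t.J ≤ G) (hYG : Y ≤ G) (hJ : ∀ y, y ∈ t'.J ↔ ∃ x ∈ t.J, γ x = y)
    (hK : ∀ y, y ∈ t'.K ↔ ∃ x ∈ t.K, γ x = y) (hE : ∀ y, y ∈ t'.E ↔ ∃ x ∈ t.E, γ x = y)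
    (hY : ∀ y, y ∈ Y' ↔ ∃ x ∈ Y, γ x = y) : Good t' Y' := by
  have hKG : t.K ≤ G := g.KJ.trans hJG
  have hEG : t.E ≤ G := g.EK.trans hKG
  refine ⟨fun y hy => ?_, fun y hy => ?_, fun y hy => ?_, fun j hj y hy => ?_,
    fun j hj y hy => ?_, fun j hj y hy => ?_, fun x hx y hy => ?_, fun x hx y hy => ?_,
    fun d hd hc y hy => ?_⟩
  · obtain ⟨x, hx, rfl⟩ := (hK y).1 hy
    exact (hJ _).2 ⟨x, g.KJ hx, rfl⟩
  · obtain ⟨x, hx, rfl⟩ := (hE y).1 hy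
    exact (hK _).2 ⟨x, g.EK hx, rfl⟩
  · obtain ⟨x, hx, rfl⟩ := (hK y).1 hy
    exact (hY _).2 ⟨x, g.KY hx, rfl⟩
  · obtain ⟨a, ha, rfl⟩ := (hJ j).1 hj
    obtain ⟨x, hx, rfl⟩ := (hY y).1 hy
    exact (hY _).2 ⟨_, g.nY a ha x hx, h.conj (hJG ha) (hYG hx)⟩
  · obtain ⟨a, ha, rfl⟩ := (hJ j).1 hj
    obtain ⟨x, hx, rfl⟩ := (hK y).1 hy
    exact (hK _).2 ⟨_, g.nK a ha x hx, h.conj (hJG ha) (hKG hx)⟩
  · obtain ⟨a, ha, rfl⟩ := (hJ j).1 hj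
    obtain ⟨x, hx, rfl⟩ := (hE y).1 hy
    exact (hE _).2 ⟨_, g.nE a ha x hx, h.conj (hJG ha) (hEG hx)⟩
  · obtain ⟨a, ha, rfl⟩ := (hY x).1 hx
    obtain ⟨b, hb, rfl⟩ := (hY y).1 hy
    exact (hK _).2 ⟨_, g.comm a ha b hb, h.comm (hYG ha) (hYG hb)⟩
  · obtain ⟨a, ha, rfl⟩ := (hE x).1 hx
    obtain ⟨b, hb, rfl⟩ := (hY y).1 hy
    rw [← h.mul a (hEG ha) b (hYG hb), ← h.mul b (hYG hb) a (hEG ha), g.cen a ha b hb]
  · obtain ⟨a, ha, rfl⟩ := (hY d).1 hd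
    obtain ⟨b, hb, rfl⟩ := (hY y).1 hy
    refine (hE _).2 ⟨_, g.DE a ha (fun k hk => ?_) b hb, h.comm (hYG ha) (hYG hb)⟩
    refine h.inj (G.mul_mem (hYG ha) (hKG hk)) (G.mul_mem (hKG hk) (hYG ha)) ?_
    rw [h.mul a (hYG ha) k (hKG hk), h.mul k (hKG hk) a (hYG ha)]
    exact hc _ ((hK _).2 ⟨k, hk, rfl⟩)

/-- an abstract isomorphism as a map of the ambient group -/
theorem exists_plain {G G' : Subgroup U} (f : G ≃* G') : ∃ γ, IsoOn ⊥ ⊥ id G G' γ := by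
  classical
  have e : ∀ x (hx : x ∈ G), (fun x => if hx : x ∈ G then (f ⟨x, hx⟩ : U) else x) x =
      f ⟨x, hx⟩ := fun x hx => dif_pos hx
  refine ⟨fun x => if hx : x ∈ G then (f ⟨x, hx⟩ : U) else x, plain ⟨fun x hx => ?_,
    fun x hx y hy h => ?_, fun y hy => ?_⟩ fun x hx y hy => ?_⟩
  · rw [e x hx]; exact (f _).2
  · rw [e x hx, e y hy] at h
    exact congrArg Subtype.val (f.injective (Subtype.ext h))
  · refine ⟨f.symm ⟨y, hy⟩, (f.symm ⟨y, hy⟩).2, ?_⟩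
    rw [e _ (f.symm ⟨y, hy⟩).2]
    simp
  · rw [dif_pos hx, dif_pos hy, dif_pos (G.mul_mem hx hy), ← Subgroup.coe_mul, ← map_mul]
    rfl

/-- the content of a valid plan -/
theorem unpack (hS : S_SMALL) (hC : S_CHECK) {pad uk ub : List Unit} {el I H E P : List U}
    {G : Subgroup U} (hG : Rep el G) (hp : findPlan pad uk ub el = some (I, H, E, P)) :
    ∃ h e : Subgroup U, I.length = uk.length ∧ (∀ x ∈ I, x ∈ G) ∧ h ≤ G ∧ Rep H h ∧ Rep E e ∧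
      Good ⟨gen I, gen I ⊓ h, e⟩ h ∧ (∀ g ∈ G, ∃ j ∈ gen I, ∃ x ∈ h, g = j * x) ∧
      Nat.card G ≤ ub.length * Nat.card h ∧ Nat.card e ≤ ub.length ∧
      Nat.card (gen I) ≤ ub.length * Nat.card (gen I ⊓ h : Subgroup U) ∧
      P.length = uk.length ∧ (∀ x ∈ P, x ∈ finalG pad ub (tlOf el I H E) H) ∧
      nilB pad (tlOf el I H E) (finalG pad ub (tlOf el I H E) H) P = true := by
  have h1 := List.mem_of_find?_eq_some hp
  have h2 := List.find?_some hp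
  simp only [plans, List.mem_flatMap, List.mem_map, Prod.mk.injEq] at h1
  obtain ⟨I₀, hI, H₀, hH, E₀, ⟨T, hT, hE⟩, P₀, hP, rfl, rfl, rfl, rfl⟩ := h1
  obtain ⟨hI1, hI2⟩ := tuples_sound hI
  obtain ⟨hP1, hP2⟩ := tuples_sound hP
  obtain ⟨h, hh, rH⟩ := (hS U pad ub el G hG).1 H₀ hH
  have hIG : ∀ x ∈ I₀, x ∈ G := fun x hx => (hG.mem x).1 (hI2 x hx)
  have rE : Rep E₀ (gen T) :=
    hE ▸ clo_rep hG fun x hx => (hG.mem x).1 ((tuples_sound hT).2 x hx)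
  have rT := repT hG hIG rH rE
  simp only [planB, Bool.and_eq_true, Nat.ble_eq] at h2
  obtain ⟨⟨⟨⟨⟨a1, a2⟩, a3⟩, a4⟩, a5⟩, a6⟩ := h2
  refine ⟨h, gen T, hI1, hIG, hh, rH, rE, (hC U _ _ _ _ rT rH).1.1 a1,
    (cover_iff hG (clo_rep hG hIG) rH).1 a2, ?_, ?_, ?_, hP1, hP2, a6⟩
  · rwa [hG.card, rH.card]
  · rwa [rE.card]
  · rw [(clo_rep hG hIG).card]
    have := rT.K.card
    exact this ▸ a5
end ExecA

open ExecA in
theorem execLemma : S_GLUE0 → S_SMALL → S_MATCH → S_CHECK → S_LOOP → S_FILT → S_P3 → S_EXEC := by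
  intro hGl hS hM hC hL hF hP3 U _ _ pad uk ub el el' G G' ⟨I, H, E, P⟩ hG hG' hlen hbig hpow hp
  obtain ⟨h, e, hI1, hIG, hh, rH, rE, g, cov, c1, c2, c3, hP1, hP2, hnil⟩ := unpack hS hC hG hp
  have rT := repT hG hIG rH rE
  have hHN : H.length ≤ el.length := rH.length_le hG hh
  have hJG : gen I ≤ G := gen_le.2 hIG
  obtain ⟨y₀, hy₀, rY, g₀, -, hloop⟩ := hL U pad ub _ _ H h el.length rT rH g hHN hbig
  have hYN : (finalG pad ub (tlOf el I H E) H).length ≤ el.length := rY.length_le hG (hy₀.trans hh)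
  have hPy : ∀ x ∈ P, x ∈ y₀ := fun x hx => (rY.mem x).1 (hP2 x hx)
  have hNil := ((hF U pad _ _ _ P y₀ el.length rT rY g₀ hPy hYN hbig.cube).2.2).1 hnil
  simp only [exec, execOne, execMid, execEnd, List.any_eq_true, Bool.and_eq_true,
    List.all_eq_true]
  constructor
  · rintro ⟨I', hI', H', hH', hm, ⟨⟨⟨k1, k2⟩, hg'⟩, hc'⟩, hok, P', -, hp3⟩
    have hIG' : ∀ x ∈ I', x ∈ G' := fun x hx => (hG'.mem x).1 ((tuples_sound hI').2 x hx)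
    obtain ⟨h', hh', rH'⟩ := (hS U pad ub el' G' hG').1 H' hH'
    obtain ⟨hι, -⟩ := pin hM hG hG' hIG hIG' hm
    have rT' := repT hG' hIG' rH' (rep_map hι g.EJ rE)
    have hl := link (K := gen I ⊓ h) (K' := gen I' ⊓ h') hι g.EJ
      (fun k hk => (rT'.K.contains _).1 (k1 k ((rT.K.mem k).2 hk)))
      (fun k hk => (rT.K.contains _).1 (k2 k ((rT'.K.mem k).2 hk)))
    have g' := (hC U _ _ _ _ rT' rH').1.1 hg'
    obtain ⟨e1, y₀', -, rY', g₀', hiff⟩ :=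
      hloop _ _ _ H' h' rT' rH' g' hl (hlen ▸ rH'.length_le hG' hh')
    rw [e1] at hp3
    exact hGl U _ _ _ G G' h h' hl g g' le_rfl le_rfl hJG hh (gen_le.2 hIG') hh' cov
      ((cover_iff hG' rT'.J rH').1 hc')
      (hiff.2 ⟨hok, (hP3 U pad _ _ _ _ _ _ _ P P' y₀ y₀' rT rT' rY rY' g₀ g₀' hl).1 hp3⟩)
  · rintro ⟨f⟩
    obtain ⟨γ, hγ⟩ := exists_plain f
    have hIG' : ∀ x ∈ I.map γ, x ∈ G' := fun y hy => by
      obtain ⟨x, hx, rfl⟩ := List.mem_map.1 hy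
      exact hγ.maps (hIG x hx)
    have hh' : img γ h ≤ G' := hγ.img_le hh
    obtain ⟨H', hH', rH'⟩ := (hS U pad ub el' G' hG').2 el.length hlen.le hbig (img γ h) hh'
      (by rwa [← hγ.card_eq, ← (hγ.restrict hh).card_eq])
    have hγI : IsoOn ⊥ ⊥ id (gen I) (gen (I.map γ)) γ := hγ.img_gen hIG ▸ hγ.restrict hJG
    have hm := (hM U [] [] 1 (clo el I) (clo el' (I.map γ)) I (I.map γ) ⊥ ⊥ (gen I)
      (gen (I.map γ)) (fun x hx hn => absurd (Subgroup.mem_bot.1 hx) hn) (by simp)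
      (fun x hx hn => absurd (Subgroup.mem_bot.1 hx) hn) (by simp) rfl (clo_rep hG hIG)
      (clo_rep hG' hIG')).2 γ hγI (by simp)
      (fun a ha x hx => by rw [Subgroup.mem_bot.1 ha]; simpa using hx) rfl
    obtain ⟨hι, hz⟩ := pin hM hG hG' hIG hIG' hm
    set ι := pinIso el el' I (I.map γ) with hιdef
    have ea : ∀ x ∈ gen I, ι.app x = γ x := agree hι hγ le_rfl hJG fun x hx =>
      hz (x, γ x) (by rw [List.zip_map_right]; simpa [List.zip_eq_zipWith] using hx)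
    have rT' := repT hG' hIG' rH' (rep_map hι g.EJ rE)
    have mJ : ∀ y, y ∈ gen (I.map γ) ↔ ∃ x ∈ gen I, γ x = y := fun y => by
      rw [← hγ.img_gen hIG, hγ.mem_img hJG]
    have mK : ∀ y, y ∈ gen (I.map γ) ⊓ img γ h ↔ ∃ x ∈ gen I ⊓ h, γ x = y := fun y => by
      rw [Subgroup.mem_inf, mJ, hγ.mem_img hh]
      refine ⟨fun ⟨⟨a, ha, e1⟩, b, hb, e2⟩ => ⟨a, ⟨ha, ?_⟩, e1⟩,
        fun ⟨a, ha, e1⟩ => ⟨⟨a, ha.1, e1⟩, a, ha.2, e1⟩⟩
      exact hγ.inj (hh hb) (hJG ha) (e2.trans e1.symm) ▸ hb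
    have k1 : ∀ k ∈ gen I ⊓ h, ι.app k ∈ gen (I.map γ) ⊓ img γ h := fun k hk =>
      (mK _).2 ⟨k, hk, (ea k hk.1).symm⟩
    have k2 : ∀ k ∈ gen (I.map γ) ⊓ img γ h, ι⁻¹.app k ∈ gen I ⊓ h := fun k hk => by
      obtain ⟨x, hx, rfl⟩ := (mK k).1 hk
      rw [← ea x hx.1, FP.app_inv_app]
      exact hx
    have hl := link hι g.EJ k1 k2
    have g' : Good ⟨gen (I.map γ), gen (I.map γ) ⊓ img γ h, img ι.app e⟩ (img γ h) :=
      good_img hγ g hJG hh mJ mK (fun y => by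
        rw [hι.mem_img g.EJ]
        exact exists_congr fun x => and_congr_right fun hx => by rw [ea x (g.EJ hx)])
        fun y => hγ.mem_img hh
    have hiso : IsoOn (gen I) (gen I ⊓ h) ι.app h (img γ h) γ :=
      ⟨(hγ.restrict hh).bij, (hγ.restrict hh).mul, fun j hj x hx => by
        rw [ea j hj, hγ.conj (hJG hj) (hh hx)], fun s hs => (ea s hs.1).symm⟩
    obtain ⟨e1, y₀', hy₀', rY', g₀', hiff⟩ :=
      hloop _ _ _ H' _ rT' rH' g' hl (hlen ▸ rH'.length_le hG' hh')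
    obtain ⟨hok, δ, hδ⟩ := hiff.1 ⟨γ, hiso⟩
    refine ⟨I.map γ, tuples_complete (hlen ▸ hpow) (by simpa using hI1)
      (fun x hx => (hG'.mem x).2 (hIG' x hx)), H', hH', hm,
      ⟨⟨⟨fun k hk => (rT'.K.contains _).2 (k1 k ((rT.K.mem k).1 hk)),
        fun k hk => (rT.K.contains _).2 (k2 k ((rT'.K.mem k).1 hk))⟩,
        (hC U _ _ _ _ rT' rH').1.2 g'⟩, (cover_iff hG' rT'.J rH').2 fun y hy => ?_⟩, hok,
      P.map δ, tuples_complete ?_ (by simpa using hP1) fun y hy => ?_, ?_⟩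
    · obtain ⟨x, hx, rfl⟩ := hγ.surj hy
      obtain ⟨j, hj, a, ha, rfl⟩ := cov x hx
      exact ⟨γ j, (mJ _).2 ⟨j, hj, rfl⟩, γ a, (hγ.mem_img hh).2 ⟨a, ha, rfl⟩,
        hγ.mul j (hJG hj) a (hh ha)⟩
    · exact (Nat.pow_le_pow_left (hlen ▸ rY'.length_le hG' (hy₀'.trans hh')) _).trans hpow
    · obtain ⟨x, hx, rfl⟩ := List.mem_map.1 hy
      exact (rY'.mem _).2 (hδ.maps (hPy x hx))
    · rw [e1]
      exact (hP3 U pad _ _ _ _ _ _ _ P (P.map δ) y₀ y₀' rT rT' rY rY' g₀ g₀' hl).2 el.length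
        ub.length hYN hbig c2 c3 hPy hNil δ hδ rfl

end Pool.Agent.P.MP_f1a348_lc.GI
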