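import Pool.Agent.P.MP_f1a348_lc.GI.QAlg

/-!
Few classes of commutator preserving quasi-automorphisms modulo the liftable ones.
-/

namespace Pool.Agent.P.MP_f1a348_lc.GI

open Subgroup
open scoped commutatorElement

namespace ExtA

/-- a subgroup of a free group of rank `d` above the derived group has `d` generators modulo
the derived group -/
theorem gens (d : ℕ) (N : Subgroup (FreeGroup (Fin d))) :
    ∃ w : Fin d → FreeGroup (Fin d), (∀ i, w i ∈ N) ∧ ∀ S : Subgroup (FreeGroup (Fin d)),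
      commutator (FreeGroup (Fin d)) ≤ S → (∀ i, w i ∈ S) → N ≤ S := by
  classical
  let sub : Subgroup (FreeGroup (Fin d)) → Submodule ℤ (FreeAbelianGroup (Fin d)) := fun S =>
    AddSubgroup.toIntSubmodule (Subgroup.toAddSubgroup (S.map Abelianization.of))
  have hsub : ∀ (S : Subgroup (FreeGroup (Fin d))) (a : FreeAbelianGroup (Fin d)),
      a ∈ sub S ↔ ∃ x ∈ S, Additive.ofMul (Abelianization.of x) = a := fun S a => Iff.rfl
  obtain ⟨n, ⟨b⟩⟩ := Submodule.nonempty_basis_of_pid (FreeAbelianGroup.basis (Fin d)) (sub N)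
  have hn : n ≤ d := by
    haveI := Module.Finite.of_basis (FreeAbelianGroup.basis (Fin d))
    have h1 := Submodule.finrank_le (sub N)
    rw [Module.finrank_eq_card_basis b,
      Module.finrank_eq_card_basis (FreeAbelianGroup.basis (Fin d))] at h1
    simpa using h1
  have hb : ∀ i, ∃ x ∈ N, Additive.ofMul (Abelianization.of x) = (b i : FreeAbelianGroup (Fin d)) :=
    fun i => (hsub N _).1 (b i).2
  choose w hw hwb using hb
  refine ⟨fun i => if h : (i : ℕ) < n then w ⟨i, h⟩ else 1, fun i => ?_, fun S hS hwS x hx => ?_⟩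
  · by_cases h : (i : ℕ) < n
    · simp only [h, dif_pos]; exact hw _
    · simp only [h, dif_neg, not_false_eq_true]; exact N.one_mem
  · have hw' : ∀ i, w i ∈ S := fun i => by
      have := hwS ⟨i, lt_of_lt_of_le i.2 hn⟩
      simpa using this
    have hle : ∀ a : sub N, (a : FreeAbelianGroup (Fin d)) ∈ sub S := by
      intro a
      have h1 : Submodule.span ℤ (Set.range b) ≤ (sub S).comap (sub N).subtype := by
        rw [Submodule.span_le]
        rintro _ ⟨i, rfl⟩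
        exact (hsub S _).2 ⟨w i, hw' i, hwb i⟩
      exact h1 (b.mem_span a)
    obtain ⟨s, hs, e⟩ := (hsub S _).1 (hle ⟨_, (hsub N _).2 ⟨x, hx, rfl⟩⟩)
    have e' : Abelianization.of s = Abelianization.of x := e
    have h2 : s⁻¹ * x ∈ commutator (FreeGroup (Fin d)) := by
      rw [← Abelianization.ker_of, MonoidHom.mem_ker, map_mul, map_inv, e', inv_mul_cancel]
    simpa using S.mul_mem hs (hS h2)

variable {U : Type} [Group U]

/-- coset representatives -/
theorem reps (J K : Subgroup U) [Finite J] (hKJ : K ≤ J) (b : ℕ)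
    (h : Nat.card J ≤ b * Nat.card K) :
    ∃ ρ : Fin b → U, (∀ s, ρ s ∈ J) ∧ ∀ j ∈ J, ∃ s, ∃ k ∈ K, j = ρ s * k := by
  classical
  have h1 := Subgroup.card_eq_card_quotient_mul_card_subgroup (K.subgroupOf J)
  have h2 : Nat.card (K.subgroupOf J) = Nat.card K :=
    Nat.card_congr (Subgroup.subgroupOfEquivOfLe hKJ).toEquiv
  have h3 : 0 < Nat.card (K.subgroupOf J) := Nat.card_pos
  have h4 : Nat.card (J ⧸ K.subgroupOf J) ≤ b := by
    rw [h1, ← h2] at h
    exact Nat.le_of_mul_le_mul_right h h3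
  haveI := Fintype.ofFinite (J ⧸ K.subgroupOf J)
  obtain ⟨e⟩ : Nonempty ((J ⧸ K.subgroupOf J) ↪ Fin b) :=
    Function.Embedding.nonempty_of_card_le (by simpa using h4)
  refine ⟨fun s => ((Function.invFun e s).out : J), fun s => ((Function.invFun e s).out).2,
    fun j hj => ?_⟩
  obtain ⟨k, hk⟩ := QuotientGroup.mk_out_eq_mul (K.subgroupOf J) (⟨j, hj⟩ : J)
  refine ⟨e (QuotientGroup.mk ⟨j, hj⟩), ((k : J) : U)⁻¹, K.inv_mem k.2, ?_⟩
  simp only [Function.leftInverse_invFun e.injective _, hk]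
  simp

variable {t : Tr U} {Y : Subgroup U} {d : ℕ} {h : Fin d → U} {u v : U → U}

/-- evaluation of words at the images of the generators -/
def ev (h : Fin d → U) (u : U → U) : FreeGroup (Fin d) →* U := FreeGroup.lift fun i => u (h i)

theorem ev_of (h : Fin d → U) (u : U → U) (i : Fin d) : ev h u (FreeGroup.of i) = u (h i) := by
  simp [ev]

theorem ev_mem (hh : ∀ i, u (h i) ∈ Y) (w : FreeGroup (Fin d)) : ev h u w ∈ Y := by
  induction w using FreeGroup.induction_on with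
  | C1 => simp
  | of i => rw [ev_of]; exact hh i
  | inv_of i ih => rw [map_inv]; exact Y.inv_mem ih
  | mul a b iha ihb => rw [map_mul]; exact Y.mul_mem iha ihb

theorem ev_cg (g : Good t Y) (hh : ∀ i, h i ∈ Y) (q : QHom t t id Y Y u)
    (w : FreeGroup (Fin d)) : Cg t.E (u (ev h id w)) (ev h u w) := by
  have m0 : ∀ w, ev h id w ∈ Y := ev_mem hh
  induction w using FreeGroup.induction_on with
  | C1 => simpa using (Cg.one_iff.2 q.one_mem).symm
  | of i => rw [ev_of, ev_of]; exact Cg.refl _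
  | inv_of i ih =>
    rw [map_inv, map_inv]
    exact (q.inv' (m0 _)).trans (ih.inv (g.nmE (Y.inv_mem (q.maps _ (m0 _)))))
  | mul a b iha ihb =>
    rw [map_mul, map_mul]
    exact (q.mul' (m0 _) (m0 _)).trans (iha.mul (g.nmE (q.maps _ (m0 _))) ihb)

theorem ev_conj (g : Good t Y) (hh : ∀ i, h i ∈ Y) (q : QHom t t id Y Y u)
    (w : FreeGroup (Fin d)) {k : U} (hk : k ∈ t.K) :
    ev h u w * k * (ev h u w)⁻¹ = ev h id w * k * (ev h id w)⁻¹ := by
  obtain ⟨e, he, e1⟩ := (ev_cg g hh q w).exists_eq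
  have h1 : ev h id w * k * (ev h id w)⁻¹ = u (ev h id w) * k * (u (ev h id w))⁻¹ :=
    q.act _ (ev_mem hh w) k hk
  rw [h1, e1, mul_assoc (u _) e k, g.cen e he k (g.KY hk)]
  group

theorem ev_comm (g : Good t Y) (hh : ∀ i, h i ∈ Y) (c : CP t Y u) (a b : FreeGroup (Fin d)) :
    ev h u ⁅a, b⁆ = ⁅ev h id a, ev h id b⁆ := by
  have m0 : ∀ w, ev h id w ∈ Y := ev_mem hh
  have m1 : ∀ w, ev h u w ∈ Y := ev_mem fun i => c.q.maps _ (hh i)
  rw [map_commutatorElement, ← g.comm_left (m1 b) (ev_cg g hh c.q a),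
    ← g.comm_right (c.q.maps _ (m0 a)) (ev_cg g hh c.q b), c.comm _ (m0 a) _ (m0 b)]

theorem ev_onto (g : Good t Y) (hh : ∀ i, h i ∈ Y) (hs : ∀ y ∈ Y, ∃ w, ev h id w = y)
    (c : CP t Y u) {y : U} (hy : y ∈ Y) : ∃ k ∈ t.K, ∃ w, y = k * ev h u w := by
  obtain ⟨x, hx, hxy⟩ := c.surj y hy
  obtain ⟨w, rfl⟩ := hs x hx
  have h1 : Cg t.K (ev h u w) y := ((ev_cg g hh c.q w).symm.mono g.EK).trans hxy
  have m1 : ev h u w ∈ Y := ev_mem (fun i => c.q.maps _ (hh i)) w
  refine ⟨y * (ev h u w)⁻¹, ?_, w, by simp⟩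
  have := g.conjK m1 h1
  simpa using this

theorem ev_K (g : Good t Y) (hh : ∀ i, h i ∈ Y) (c : CP t Y u) {w : FreeGroup (Fin d)}
    (hw : ev h u w ∈ t.K) : ev h id w ∈ t.K :=
  c.inj _ (ev_mem hh w) (((ev_cg g hh c.q w).mem_iff g.EK).2 hw)

/-- the graph of the isomorphism relating `u` and `v` -/
def graph (g : Good t Y) (hh : ∀ i, h i ∈ Y) (q : QHom t t id Y Y u) (q' : QHom t t id Y Y v) :
    Subgroup (U × U) where
  carrier := {p | ∃ k ∈ t.K, ∃ w, p = (k * ev h u w, k * ev h v w)}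
  one_mem' := ⟨1, t.K.one_mem, 1, by simp; rfl⟩
  mul_mem' := by
    rintro _ _ ⟨k, hk, w, rfl⟩ ⟨k', hk', w', rfl⟩
    refine ⟨k * (ev h id w * k' * (ev h id w)⁻¹),
      t.K.mul_mem hk (g.conjK (ev_mem hh w) hk'), w * w', Prod.ext ?_ ?_⟩
    · simp only [Prod.fst_mul, map_mul]
      rw [← ev_conj g hh q w hk']
      group
    · simp only [Prod.snd_mul, map_mul]
      rw [← ev_conj g hh q' w hk']
      group
  inv_mem' := by
    rintro _ ⟨k, hk, w, rfl⟩
    refine ⟨ev h id w⁻¹ * k⁻¹ * (ev h id w⁻¹)⁻¹,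
      g.conjK (ev_mem hh w⁻¹) (t.K.inv_mem hk), w⁻¹, Prod.ext ?_ ?_⟩
    · simp only [Prod.fst_inv]
      rw [← ev_conj g hh q w⁻¹ (t.K.inv_mem hk), map_inv]
      group
    · simp only [Prod.snd_inv]
      rw [← ev_conj g hh q' w⁻¹ (t.K.inv_mem hk), map_inv]
      group

theorem key (g : Good t Y) (hh : ∀ i, h i ∈ Y) (hs : ∀ y ∈ Y, ∃ w, ev h id w = y)
    (c : CP t Y u) (c' : CP t Y v) (hN : ∀ w, ev h id w ∈ t.K → ev h u w = ev h v w)
    {b : ℕ} (ρ : Fin b → U) (hρ : ∀ s, ρ s ∈ t.J)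
    (hρ' : ∀ j ∈ t.J, ∃ s, ∃ k ∈ t.K, j = ρ s * k)
    (hν : ∀ s i, ∃ w, ∃ e ∈ t.K, ρ s * u (h i) * (ρ s)⁻¹ = ev h u w * e ∧
      ρ s * v (h i) * (ρ s)⁻¹ = ev h v w * e) :
    ∃ α, IsoOn t.J t.K id Y Y α ∧ ∀ x ∈ Y, (α (u x))⁻¹ * v x ∈ t.E := by
  have m1 : ∀ w, ev h u w ∈ Y := ev_mem fun i => c.q.maps _ (hh i)
  have m2 : ∀ w, ev h v w ∈ Y := ev_mem fun i => c'.q.maps _ (hh i)
  set V := graph g hh c.q c'.q with hV
  have hmem : ∀ p, p ∈ V ↔ ∃ k ∈ t.K, ∃ w, p = (k * ev h u w, k * ev h v w) := fun p => Iff.rfl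
  have hK : ∀ k ∈ t.K, (k, k) ∈ V := fun k hk => (hmem _).2 ⟨k, hk, 1, by simp⟩
  have hW : ∀ w, (ev h u w, ev h v w) ∈ V := fun w => (hmem _).2 ⟨1, t.K.one_mem, w, by simp⟩
  obtain ⟨α, hbij, hmul, hα, hα'⟩ := exists_of_graph V Y Y
    (by
      rintro _ ⟨k, hk, w, rfl⟩
      exact ⟨Y.mul_mem (g.KY hk) (m1 w), Y.mul_mem (g.KY hk) (m2 w)⟩)
    (by
      intro x hx
      obtain ⟨k, hk, w, rfl⟩ := ev_onto g hh hs c hx
      exact ⟨_, ⟨k, hk, w, rfl⟩, rfl⟩)
    (by
      intro x hx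
      obtain ⟨k, hk, w, rfl⟩ := ev_onto g hh hs c' hx
      exact ⟨_, ⟨k, hk, w, rfl⟩, rfl⟩)
    (by
      rintro _ ⟨k, hk, w, rfl⟩
      constructor
      · intro e
        have e1 : k * ev h u w = 1 := e
        have h1 : ev h u w ∈ t.K := by
          rw [eq_inv_of_mul_eq_one_right e1]; exact t.K.inv_mem hk
        show k * ev h v w = 1
        rw [← hN w (ev_K g hh c h1), e1]
      · intro e
        have e1 : k * ev h v w = 1 := e
        have h1 : ev h v w ∈ t.K := by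
          rw [eq_inv_of_mul_eq_one_right e1]; exact t.K.inv_mem hk
        show k * ev h u w = 1
        rw [hN w (ev_K g hh c' h1), e1])
  have hconj : ∀ s w, (ρ s * ev h u w * (ρ s)⁻¹, ρ s * ev h v w * (ρ s)⁻¹) ∈ V := by
    intro s w
    induction w using FreeGroup.induction_on with
    | C1 => simpa using hK 1 t.K.one_mem
    | of i =>
      obtain ⟨w, e, he, e1, e2⟩ := hν s i
      rw [ev_of, ev_of, e1, e2]
      exact V.mul_mem (hW w) (hK e he)
    | inv_of i ih =>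
      have := V.inv_mem ih
      simpa [mul_assoc] using this
    | mul a b iha ihb =>
      have := V.mul_mem iha ihb
      simpa [mul_assoc] using this
  have hnorm : ∀ s, ∀ p ∈ V, (ρ s * p.1 * (ρ s)⁻¹, ρ s * p.2 * (ρ s)⁻¹) ∈ V := by
    rintro s _ ⟨k, hk, w, rfl⟩
    have := V.mul_mem (hK _ (g.nK _ (hρ s) k hk)) (hconj s w)
    simpa [mul_assoc] using this
  refine ⟨α, ⟨hbij, hmul, fun j hj x hx => ?_, fun k hk => hα _ (hK k hk)⟩, fun x hx => ?_⟩
  · obtain ⟨s, k, hk, rfl⟩ := hρ' j hj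
    have h1 := hnorm s _ (V.mul_mem (V.mul_mem (hK k hk) (hα' x hx)) (V.inv_mem (hK k hk)))
    have h2 := hα _ h1
    simpa [mul_assoc] using h2
  · obtain ⟨w, rfl⟩ := hs x hx
    obtain ⟨e, he, e1⟩ := (ev_cg g hh c.q w).symm.exists_eq
    have h1 : α (ev h u w * e) = ev h v w * e := hα _ (V.mul_mem (hW w) (hK e (g.EK he)))
    rw [e1, h1]
    exact (Cg.mul_mem he _).symm.trans (ev_cg g hh c'.q w).symm

end ExtA

open ExtA

theorem ext : S_EXT := by
  classical
  intro U _ t Y _ _ b h g hE hJ hgen l hl hp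
  let hf : Fin h.length → U := h.get
  have hh : ∀ i, hf i ∈ Y := fun i => hgen ▸ mem_gen (List.get_mem h i)
  have hs : ∀ y ∈ Y, ∃ w, ev hf id w = y := by
    intro y hy
    have h1 : (ev hf id).range = Y := by
      rw [← hgen, ev, FreeGroup.range_lift_eq_closure, gen]
      congr 1
      ext x
      simp only [id, Set.mem_range, Set.mem_setOf_eq]
      exact List.mem_iff_get.symm
    rw [← h1] at hy
    exact hy
  obtain ⟨w, hw, hwS⟩ := gens h.length (t.K.comap (ev hf id))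
  obtain ⟨ρ, hρ, hρ'⟩ := reps t.J t.K g.KJ b hJ
  choose z hz using fun (s : Fin b) (i : Fin h.length) => hs _ (g.nY _ (hρ s) _ (hh i))
  haveI : Finite t.E := Finite.of_injective _ (Subgroup.inclusion_injective g.EY)
  haveI := Fintype.ofFinite t.E
  let toE : U → t.E := fun x => if hx : x ∈ t.E then ⟨x, hx⟩ else 1
  have htoE : ∀ x ∈ t.E, ∀ y ∈ t.E, toE x = toE y → x = y := by
    intro x hx y hy e
    simp only [toE, hx, hy, dif_pos] at e
    exact congrArg Subtype.val e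
  let c : (U → U) → (Fin h.length → t.E) × (Fin b → Fin h.length → t.E) := fun u =>
    (fun i => toE ((ev hf id (w i))⁻¹ * ev hf u (w i)),
      fun s i => toE ((ev hf u (z s i))⁻¹ * (ρ s * u (hf i) * (ρ s)⁻¹)))
  have hlam : ∀ u, CP t Y u → ∀ i, (ev hf id (w i))⁻¹ * ev hf u (w i) ∈ t.E := fun u hu i =>
    (hu.q.fix' (hw i)).symm.trans (ev_cg g hh hu.q (w i))
  have hnu : ∀ u, CP t Y u → ∀ s i,
      (ev hf u (z s i))⁻¹ * (ρ s * u (hf i) * (ρ s)⁻¹) ∈ t.E := fun u hu s i => by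
    have h1 := (ev_cg g hh hu.q (z s i)).symm
    rw [hz] at h1
    exact h1.trans (hu.q.equi' (hρ s) (hh i))
  have hnd : (l.map c).Nodup := by
    rw [List.Nodup, List.pairwise_map]
    refine hp.imp_of_mem fun {u v} hu hv hne e => hne ?_
    have cu := hl u hu
    have cv := hl v hv
    have e1 : ∀ i, ev hf u (w i) = ev hf v (w i) := fun i =>
      mul_left_cancel (htoE _ (hlam u cu i) _ (hlam v cv i) (congrFun (congrArg Prod.fst e) i))
    have e2 : ∀ s i, (ev hf u (z s i))⁻¹ * (ρ s * u (hf i) * (ρ s)⁻¹) =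
        (ev hf v (z s i))⁻¹ * (ρ s * v (hf i) * (ρ s)⁻¹) := fun s i =>
      htoE _ (hnu u cu s i) _ (hnu v cv s i) (congrFun (congrFun (congrArg Prod.snd e) s) i)
    refine key g hh hs cu cv (fun x hx => ?_) ρ hρ hρ' fun s i =>
      ⟨z s i, _, g.EK (hnu u cu s i), by simp, by rw [e2]; simp⟩
    refine hwS ((ev hf u).eqLocus (ev hf v)) ?_ e1 hx
    refine Subgroup.commutator_le.2 fun a _ a' _ => ?_
    show ev hf u ⁅a, a'⁆ = ev hf v ⁅a, a'⁆
    rw [ev_comm g hh cu, ev_comm g hh cv]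
  have h1 := hnd.length_le_card
  rw [List.length_map] at h1
  refine h1.trans ?_
  rw [Nat.card_eq_fintype_card] at hE
  simp only [Fintype.card_prod, Fintype.card_fun, Fintype.card_fin]
  rw [← pow_mul, ← pow_add, show h.length + h.length * b = h.length * (1 + b) by ring]
  exact Nat.pow_le_pow_left hE _

end Pool.Agent.P.MP_f1a348_lc.GI
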