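import Pool.Agent.P.MP_f1a348_lc.GI.ABasic

/-!
The ring generators, the filtration and the nilpotency test.
-/

namespace Pool.Agent.P.MP_f1a348_lc.GI

namespace FiltA
variable {U : Type} [Group U] [DecidableEq U]

omit [DecidableEq U] in
theorem adj_id {t : Tr U} {y : Subgroup U} (g : Good t y) (P : List U) :
    Adj t t 1 y y (P.zip P) id id := by
  refine ⟨QHom.id g, QHom.id g, fun q hq => ?_, fun _ _ _ _ => rfl⟩
  rw [List.zip_eq_zipWith, List.zipWith_self] at hq
  obtain ⟨x, _, rfl⟩ := List.mem_map.1 hq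
  simp

theorem step_rep {K Y P A : List U} {t : Tr U} {y : Subgroup U} {S : List (FB U)} {i : ℕ}
    (hK : Rep K t.K) (hY : Rep Y y) (g : Good t y) (hS : GensH t t 1 y y (P.zip P) S)
    (hA : Rep A (Filt t y P i)) : Rep (filtStep K Y S A) (Filt t y P (i + 1)) := by
  have hm : ∀ z ∈ S.flatMap (fun r => A.map (fun x => r.app (false, x))),
      z ∈ Filt t y P (i + 1) := by
    intro z hz
    obtain ⟨r, hr, hz⟩ := List.mem_flatMap.1 hz
    obtain ⟨x, hx, rfl⟩ := List.mem_map.1 hz
    exact (rr_iff.2 (hS.sound r (mem_gen hr))).map_filt ((hA.mem x).1 hx)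
  have h := clo_over hY hK g.KY (fun z hz => filt_le g _ (hm z hz))
  have e : t.K ⊔ gen (S.flatMap (fun r => A.map (fun x => r.app (false, x)))) =
      Filt t y P (i + 1) := by
    refine le_antisymm (sup_le (le_filt g _) (gen_le.2 hm)) (sup_le_sup_left ?_ _)
    refine (Subgroup.closure_le _).2 ?_
    rintro _ ⟨r, r', hr, x, hx, rfl⟩
    obtain ⟨u, hu, e, _⟩ := hS.complete r r' (rr_iff.1 hr)
    have hz : u.app (false, x) ∈ gen (S.flatMap (fun r => A.map (fun x => r.app (false, x)))) :=
      FF.app_mem (a := (false, x)) (fun s hs => mem_gen (List.mem_flatMap.2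
        ⟨s, hs, List.mem_map.2 ⟨x, (hA.mem x).2 hx, rfl⟩⟩)) hu
    rw [e x (filt_le g i hx)] at hz
    exact hz
  rwa [e] at h

theorem foldl_eq {α β : Type} (f : List α → List α) (a : List α) (u : List β) :
    u.foldl (fun FL _ => f (FL.headD []) :: FL) [a] =
      (List.range (u.length + 1)).reverse.map (fun i => f^[i] a) := by
  induction u using List.reverseRecOn with
  | nil => simp
  | append_singleton u b ih =>
    rw [List.foldl_append, ih, List.length_append, List.length_singleton,
      List.range_succ (n := u.length + 1), List.range_succ]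
    simp [Function.iterate_succ_apply']

end FiltA

theorem filt : S_LIN → S_FILT := by
  intro hlin U _ _ pad tl t Y P y N ht hY g hP hN hpad
  obtain ⟨F, S, e, _, hS⟩ := hlin U pad tl tl t t 1 Y Y y y (P.zip P) N ht ht hY hY g g
    (Link.refl t) (fun q hq => ⟨hP _ (List.of_mem_zip hq).1, hP _ (List.of_mem_zip hq).2⟩) hN hN
    hpad ⟨id, id, FiltA.adj_id g P⟩
  have eS : ringGens pad tl Y P = S := by rw [ringGens, e]; rfl
  have hA : ∀ i, Rep ((filtStep tl.2.1 Y S)^[i] Y) (Filt t y P i) := by
    intro i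
    induction i with
    | zero => exact hY
    | succ i ih =>
      rw [Function.iterate_succ_apply']
      exact FiltA.step_rep ht.K hY g hS ih
  have hL : filtList tl.2.1 Y S =
      (List.range (Y.length + 1)).reverse.map (fun i => (filtStep tl.2.1 Y S)^[i] Y) :=
    FiltA.foldl_eq _ _ _
  rw [nilB, eS]
  refine ⟨hS, ⟨_, hA, hL⟩, ?_⟩
  have hh : (filtList tl.2.1 Y S).headD [] = (filtStep tl.2.1 Y S)^[Y.length] Y := by
    rw [hL, List.range_succ]
    simp
  rw [hh, subB_iff]
  have := hY.finite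
  refine ⟨fun h => ⟨Y.length, fun x hx => (ht.K.mem x).1 (h x (((hA _).mem x).2 hx))⟩,
    fun h x hx => (ht.K.mem x).2 (h.filt_card g hY.card.le (((hA _).mem x).1 hx))⟩

end Pool.Agent.P.MP_f1a348_lc.GI
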