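import Pool.Agent.P.MP_f1a348_lc.GI.QAlg

/-!
Generators of the group `1 + R` modulo `E`.
-/

namespace Pool.Agent.P.MP_f1a348_lc.GI

open Subgroup

namespace GenA

variable {U : Type} [Group U] {t : Tr U} {Y : Subgroup U} {P : List U}

/-- `a` lies in the ring -/
def IsR (t : Tr U) (Y : Subgroup U) (P : List U) (a : U → U) : Prop := ∃ a', RR t Y P a a'

/-- `σ` represents `1 + a` modulo `E` -/
def Sim (t : Tr U) (Y : Subgroup U) (σ : Equiv.Perm U) (a : U → U) : Prop :=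
  ∀ x ∈ Y, Cg t.E (σ x) (x * a x)

theorem IsR.l {a : U → U} (h : IsR t Y P a) : LHom t t id Y Y a := by
  obtain ⟨a', h⟩ := h
  exact h.l

theorem IsR.one (g : Good t Y) : IsR t Y P 1 := ⟨_, RR.one g⟩

theorem IsR.mul {a b : U → U} (h : IsR t Y P a) (h' : IsR t Y P b) (g : Good t Y) :
    IsR t Y P (a * b) := by
  obtain ⟨a', h⟩ := h
  obtain ⟨b', h'⟩ := h'
  exact ⟨_, h.pmul h' g⟩

theorem IsR.inv {a : U → U} (h : IsR t Y P a) (g : Good t Y) : IsR t Y P a⁻¹ := by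
  obtain ⟨a', h⟩ := h
  exact ⟨_, h.pinv g⟩

theorem IsR.comp {a b : U → U} (h : IsR t Y P a) (h' : IsR t Y P b) (g : Good t Y) :
    IsR t Y P (fun x => a (b x)) := by
  obtain ⟨a', h⟩ := h
  obtain ⟨b', h'⟩ := h'
  exact ⟨_, h.comp h' g⟩

theorem closure_R (g : Good t Y) {S : Set (U → U)} (hS : ∀ s ∈ S, IsR t Y P s) {q : U → U}
    (hq : q ∈ closure S) : IsR t Y P q := by
  induction hq using closure_induction with
  | mem s hs => exact hS s hs
  | one => exact IsR.one g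
  | mul a b _ _ ha hb => exact ha.mul hb g
  | inv a _ ha => exact ha.inv g

theorem Sim.congr {σ : Equiv.Perm U} {a b : U → U} (h : Sim t Y σ a)
    (e : ∀ x ∈ Y, Cg t.E (a x) (b x)) : Sim t Y σ b :=
  fun x hx => (h x hx).trans ((e x hx).left x)

theorem comp0 (g : Good t Y) {S S' : Set (U → U)} (hS : ∀ s ∈ S, IsR t Y P s)
    (hS' : ∀ s ∈ S', IsR t Y P s) {r : U → U} (hr : IsR t Y P r)
    (h : ∀ s ∈ S, ∃ q ∈ closure S', ∀ x ∈ Y, q x = r (s x)) {q : U → U} (hq : q ∈ closure S) :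
    ∃ q2 ∈ closure S', ∀ x ∈ Y, Cg t.E (q2 x) (r (q x)) := by
  induction hq using closure_induction with
  | mem s hs =>
    obtain ⟨q, hq, e⟩ := h s hs
    exact ⟨q, hq, fun x hx => Cg.of_eq (e x hx)⟩
  | one => exact ⟨1, one_mem _, fun x _ => Cg.one_iff.2 hr.l.one_mem⟩
  | mul a b ha hb iha ihb =>
    obtain ⟨qa, hqa, ea⟩ := iha
    obtain ⟨qb, hqb, eb⟩ := ihb
    refine ⟨qa * qb, mul_mem hqa hqb, fun x hx => ?_⟩
    exact ((ea x hx).mul (g.nmE ((closure_R g hS' hqb).l.maps x hx)) (eb x hx)).trans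
      (hr.l.mul' ((closure_R g hS ha).l.maps x hx) ((closure_R g hS hb).l.maps x hx)).symm
  | inv a ha iha =>
    obtain ⟨qa, hqa, ea⟩ := iha
    refine ⟨qa⁻¹, inv_mem hqa, fun x hx => ?_⟩
    exact ((ea x hx).inv (g.nmE (Y.inv_mem ((closure_R g hS' hqa).l.maps x hx)))).trans
      (hr.l.inv' g ((closure_R g hS ha).l.maps x hx)).symm

theorem comp1 (g : Good t Y) {S0 S S' : Set (U → U)} (hS0 : ∀ s ∈ S0, IsR t Y P s)
    (hS : ∀ s ∈ S, IsR t Y P s) (hS' : ∀ s ∈ S', IsR t Y P s)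
    (h : ∀ r ∈ S0, ∀ s ∈ S, ∃ q ∈ closure S', ∀ x ∈ Y, q x = r (s x)) {q : U → U}
    (hq : q ∈ closure S) {p : U → U} (hp : p ∈ closure S0) :
    ∃ q2 ∈ closure S', ∀ x ∈ Y, Cg t.E (q2 x) (p (q x)) := by
  induction hp using closure_induction with
  | mem r hr => exact comp0 g hS hS' (hS0 r hr) (h r hr) hq
  | one => exact ⟨1, one_mem _, fun x _ => Cg.refl _⟩
  | mul a b ha hb iha ihb =>
    obtain ⟨qa, hqa, ea⟩ := iha
    obtain ⟨qb, hqb, eb⟩ := ihb
    exact ⟨qa * qb, mul_mem hqa hqb, fun x hx =>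
      (ea x hx).mul (g.nmE ((closure_R g hS' hqb).l.maps x hx)) (eb x hx)⟩
  | inv a ha iha =>
    obtain ⟨qa, hqa, ea⟩ := iha
    exact ⟨qa⁻¹, inv_mem hqa, fun x hx =>
      (ea x hx).inv (g.nmE (Y.inv_mem ((closure_R g hS' hqa).l.maps x hx)))⟩

theorem Sim.mul (g : Good t Y) {σ τ : Equiv.Perm U} {a b : U → U} (h : Sim t Y σ a)
    (h' : Sim t Y τ b) (ha : IsR t Y P a) (hb : IsR t Y P b) (hτ : ∀ x ∈ Y, τ x ∈ Y)
    (hσ : ∀ x ∈ Y, ∀ e ∈ t.E, (σ x)⁻¹ * σ (x * e) ∈ t.E) :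
    Sim t Y (σ * τ) (a * b * fun x => a (b x)) := by
  intro x hx
  have hbx := hb.l.maps x hx
  have hax := ha.l.maps x hx
  obtain ⟨e, he, ee⟩ := (h' x hx).exists_eq
  have h1 : Cg t.E (σ (τ x)) (σ (x * b x)) := by
    rw [ee]
    exact hσ _ (hτ x hx) e he
  calc Cg t.E ((σ * τ) x) (σ (x * b x)) := h1
    Cg t.E _ (x * b x * a (x * b x)) := h _ (Y.mul_mem hx hbx)
    Cg t.E _ (x * b x * (a x * a (b x))) := (ha.l.mul' hx hbx).left _
    _ = x * (b x * a x * a (b x)) := by group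
    Cg t.E _ (x * (a x * b x * a (b x))) :=
      ((ha.l.swap g hx hbx).right (g.nmE (ha.l.maps _ hbx))).left _

end GenA

open GenA in
theorem genLemma : S_GEN := by
  intro U _ t Y P W L m g h1 h2 h3 h4 h5 h6 h7 r r' hr
  have hL : ∀ i, ∀ s ∈ L i, IsR t Y P s := h3
  have hC : ∀ i a, IsR t Y P a → ∀ q ∈ closure (L i),
      ∃ q2 ∈ closure (L (i + 1)), ∀ x ∈ Y, Cg t.E (q2 x) (a (q x)) := by
    rintro i a ⟨a', ha⟩ q hq
    obtain ⟨p, hp, e⟩ := h4 a a' ha
    obtain ⟨q2, hq2, e2⟩ := comp1 g (hL 0) (hL i) (hL (i + 1)) (h5 i) hq hp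
    refine ⟨q2, hq2, fun x hx => ?_⟩
    rw [← e _ ((closure_R g (hL i) hq).l.maps x hx)]
    exact e2 x hx
  have hD : ∀ k i, i + k = m → ∀ q ∈ closure (L i), ∀ a, IsR t Y P a → (∃ σ ∈ W, Sim t Y σ a) →
      ∃ σ ∈ W, Sim t Y σ (a * q) := by
    intro k
    induction k with
    | zero =>
      rintro i hi q hq a _ ⟨σ, hσ, hs⟩
      have hi' : i = m := by omega
      subst hi'
      have hE : ∀ x ∈ Y, q x ∈ t.E := by
        induction hq using closure_induction with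
        | mem s hs => exact h7 s hs
        | one => exact fun x _ => t.E.one_mem
        | mul a b _ _ ha hb => exact fun x hx => t.E.mul_mem (ha x hx) (hb x hx)
        | inv a _ ha => exact fun x hx => t.E.inv_mem (ha x hx)
      exact ⟨σ, hσ, hs.congr (fun x hx => Cg.mul_mem (hE x hx) _)⟩
    | succ k ih =>
      intro i hi q hq
      have ih' := ih (i + 1) (by omega)
      induction hq using closure_induction'' with
      | mem b hb =>
        rintro a ha ⟨σ, hσ, hs⟩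
        obtain ⟨τ, hτ, ht⟩ := h6 i (by omega) b hb
        have hbR := hL i b hb
        have hm := Sim.mul g hs ht ha hbR (h1 τ hτ) (h2 σ hσ)
        obtain ⟨q2, hq2, e2⟩ := hC i a ha b (subset_closure hb)
        obtain ⟨ρ, hρ, hs2⟩ := ih' q2⁻¹ (inv_mem hq2) _ ((ha.mul hbR g).mul (ha.comp hbR g) g)
          ⟨σ * τ, mul_mem hσ hτ, hm⟩
        refine ⟨ρ, hρ, hs2.congr (fun x hx => ?_)⟩
        have hy := (closure_R g (hL (i + 1)) hq2).l.maps x hx
        calc (((a * b * fun x => a (b x)) * q2⁻¹) x)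
            = a x * b x * (a (b x) * (q2 x)⁻¹) := by simp [mul_assoc]
          Cg t.E _ (a x * b x * (q2 x * (q2 x)⁻¹)) :=
            ((e2 x hx).symm.right (g.nmE (Y.inv_mem hy))).left _
          _ = (a * b) x := by simp
      | inv_mem b hb =>
        rintro a ha ⟨σ, hσ, hs⟩
        obtain ⟨τ, hτ, ht⟩ := h6 i (by omega) b hb
        have hbR := hL i b hb
        have hc : IsR t Y P (a * b⁻¹) := ha.mul (hbR.inv g) g
        obtain ⟨q2, hq2, e2⟩ := hC i _ hc b (subset_closure hb)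
        obtain ⟨ρ, hρ, hs2⟩ := ih' q2 hq2 a ha ⟨σ, hσ, hs⟩
        refine ⟨ρ * τ⁻¹, mul_mem hρ (inv_mem hτ), fun y hy => ?_⟩
        have hx : τ⁻¹ y ∈ Y := h1 _ (inv_mem hτ) y hy
        set x := τ⁻¹ y with hxd
        have hyx : τ x = y := by simp [hxd]
        have hbx := hbR.l.maps x hx
        have hax := ha.l.maps x hx
        have e3 : Cg t.E y (x * b x) := by
          have : Cg t.E (τ x) (x * b x) := ht x hx
          rwa [hyx] at this
        set c := a * b⁻¹ with hcd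
        have hcx : c x = a x * (b x)⁻¹ := rfl
        have e4 : Cg t.E (y * c y) (x * (a x * c (b x))) := by
          calc Cg t.E (y * c y) (x * b x * c (x * b x)) :=
              e3.mul (g.nmE (hc.l.maps y hy)) (hc.l.congrK g hy (e3.mono g.EK))
            Cg t.E _ (x * b x * (c x * c (b x))) := (hc.l.mul' hx hbx).left _
            _ = x * (b x * a x * ((b x)⁻¹ * c (b x))) := by rw [hcx]; group
            Cg t.E _ (x * (a x * b x * ((b x)⁻¹ * c (b x)))) :=
              ((ha.l.swap g hx hbx).right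
                (g.nmE (Y.mul_mem (Y.inv_mem hbx) (hc.l.maps _ hbx)))).left _
            _ = x * (a x * c (b x)) := by group
        calc Cg t.E ((ρ * τ⁻¹) y) (x * (a x * q2 x)) := hs2 x hx
          Cg t.E _ (x * (a x * c (b x))) := ((e2 x hx).left _).left _
          Cg t.E _ (y * c y) := e4.symm
      | one =>
        intro a _ h
        simpa using h
      | mul p q hp hq ihp ihq =>
        intro a ha h
        have := ihq _ (ha.mul (closure_R g (hL i) hp) g) (ihp a ha h)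
        rwa [mul_assoc] at this
  obtain ⟨q, hq, e⟩ := h4 r r' hr
  obtain ⟨σ, hσ, hs⟩ := hD m 0 (by omega) q hq 1 (IsR.one g)
    ⟨1, one_mem _, fun x _ => Cg.of_eq (by simp)⟩
  refine ⟨σ, hσ, fun x hx => ?_⟩
  have := hs x hx
  simp only [one_mul, e x hx] at this
  exact this

end Pool.Agent.P.MP_f1a348_lc.GI
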