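import Pool.Agent.P.MP_f1a348_lc.GI.MDefs

/-!
Gluing isomorphisms along products of subgroups.
-/

namespace Pool.Agent.P.MP_f1a348_lc.GI

namespace GlueA

variable {U : Type} [Group U]

theorem map_one' {Z : Subgroup U} {γ : U → U}
    (h : ∀ x ∈ Z, ∀ y ∈ Z, γ (x * y) = γ x * γ y) : γ 1 = 1 := by
  have h1 := h 1 Z.one_mem 1 Z.one_mem
  rw [mul_one] at h1
  exact (mul_eq_left.mp h1.symm)

theorem map_inv' {Z : Subgroup U} {γ : U → U}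
    (h : ∀ x ∈ Z, ∀ y ∈ Z, γ (x * y) = γ x * γ y) {x : U} (hx : x ∈ Z) :
    γ x⁻¹ = (γ x)⁻¹ := by
  have h1 := h x⁻¹ (Z.inv_mem hx) x hx
  rw [inv_mul_cancel, map_one' h] at h1
  exact eq_inv_of_mul_eq_one_left h1.symm

/-- a map on a product of two subgroups defined factor by factor -/
theorem exists_prod (A B : Subgroup U) (f g : U → U)
    (h : ∀ a ∈ A, ∀ b ∈ B, ∀ a' ∈ A, ∀ b' ∈ B, a * b = a' * b' → f a * g b = f a' * g b') :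
    ∃ F : U → U, ∀ a ∈ A, ∀ b ∈ B, F (a * b) = f a * g b := by
  classical
  refine ⟨fun y => if hy : ∃ p : U × U, p.1 ∈ A ∧ p.2 ∈ B ∧ p.1 * p.2 = y then
    f hy.choose.1 * g hy.choose.2 else 1, fun a ha b hb => ?_⟩
  have hy : ∃ p : U × U, p.1 ∈ A ∧ p.2 ∈ B ∧ p.1 * p.2 = a * b := ⟨(a, b), ha, hb, rfl⟩
  have hs := hy.choose_spec
  simp only [dif_pos hy]
  exact h _ hs.1 _ hs.2.1 a ha b hb hs.2.2

/-- compatibility from agreement on the intersection -/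
theorem compat (A B : Subgroup U) (f g : U → U)
    (hf : ∀ x ∈ A, ∀ y ∈ A, f (x * y) = f x * f y)
    (hg : ∀ x ∈ B, ∀ y ∈ B, g (x * y) = g x * g y)
    (hfg : ∀ x ∈ A, x ∈ B → f x = g x) :
    ∀ a ∈ A, ∀ b ∈ B, ∀ a' ∈ A, ∀ b' ∈ B, a * b = a' * b' → f a * g b = f a' * g b' := by
  intro a ha b hb a' ha' b' hb' hab
  have e1 : a'⁻¹ * a = b' * b⁻¹ := by
    rw [inv_mul_eq_iff_eq_mul, ← mul_assoc, ← hab]; group
  have eA : a'⁻¹ * a ∈ A := A.mul_mem (A.inv_mem ha') ha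
  have eB : a'⁻¹ * a ∈ B := e1 ▸ B.mul_mem hb' (B.inv_mem hb)
  have h1 : f a = f a' * f (a'⁻¹ * a) := by
    rw [← hf _ ha' _ eA]; congr 1; group
  have h2 : g b' = g (a'⁻¹ * a) * g b := by
    rw [← hg _ eB _ hb, e1]; congr 1; group
  rw [h1, h2, hfg _ eA eB, mul_assoc]

/-- injectivity on the product -/
theorem inj (A B A' B' : Subgroup U) (f g : U → U)
    (hf : ∀ x ∈ A, ∀ y ∈ A, f (x * y) = f x * f y)
    (hg : ∀ x ∈ B, ∀ y ∈ B, g (x * y) = g x * g y)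
    (fm : ∀ x ∈ A, f x ∈ A') (gm : ∀ x ∈ B, g x ∈ B')
    (fi : Set.InjOn f A) (gi : Set.InjOn g B)
    (hfg : ∀ z ∈ A', z ∈ B' → ∃ e, e ∈ A ∧ e ∈ B ∧ f e = z ∧ g e = z) :
    ∀ a ∈ A, ∀ b ∈ B, ∀ a' ∈ A, ∀ b' ∈ B, f a * g b = f a' * g b' → a * b = a' * b' := by
  intro a ha b hb a' ha' b' hb' hab
  have e1 : (f a')⁻¹ * f a = g b' * (g b)⁻¹ := by
    rw [inv_mul_eq_iff_eq_mul, ← mul_assoc, ← hab]; group
  have eA : (f a')⁻¹ * f a ∈ A' := A'.mul_mem (A'.inv_mem (fm _ ha')) (fm _ ha)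
  have eB : (f a')⁻¹ * f a ∈ B' := e1 ▸ B'.mul_mem (gm _ hb') (B'.inv_mem (gm _ hb))
  obtain ⟨e, heA, heB, h1, h2⟩ := hfg _ eA eB
  have h3 : a' * e = a := by
    apply fi (A.mul_mem ha' heA) ha
    rw [hf _ ha' _ heA, h1]; group
  have h4 : e * b = b' := by
    apply gi (B.mul_mem heB hb) hb'
    rw [hg _ heB _ hb, h2, e1]; group
  rw [← h3, ← h4, mul_assoc]

end GlueA

open GlueA

theorem glue1 : S_GLUE1 := by
  intro U _ t t' ι Y Y' X X' Y₁ Y₁' hL hG hG' hD hD' ⟨g, hg⟩ ⟨f, hf⟩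
  have hfg : ∀ x ∈ Y₁, x ∈ X → f x = g x := fun x h1 h2 => by
    have he := hD.inter x h2 h1
    rw [hf.fix x (hG.EK he), hg.fix x he]
  obtain ⟨F, hF⟩ := exists_prod Y₁ X f g (compat Y₁ X f g hf.mul hg.mul hfg)
  have fm : ∀ x ∈ Y₁, f x ∈ Y₁' := fun x hx => hf.bij.mapsTo hx
  have gm : ∀ x ∈ X, g x ∈ X' := fun x hx => hg.bij.mapsTo hx
  have hback : ∀ z ∈ Y₁', z ∈ X' → ∃ e, e ∈ Y₁ ∧ e ∈ X ∧ f e = z ∧ g e = z := by
    intro z h1 h2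
    have hz := hD'.inter z h2 h1
    have he : ι.symm z ∈ t.E := by
      rw [hL.E, Equiv.apply_symm_apply]; exact hz
    refine ⟨ι.symm z, hD.KY (hG.EK he), hD.EX he, ?_, ?_⟩
    · rw [hf.fix _ (hG.EK he), Equiv.apply_symm_apply]
    · rw [hg.fix _ he, Equiv.apply_symm_apply]
  refine ⟨F, ⟨?_, ?_, ?_⟩, ?_, ?_, ?_⟩
  · intro y hy
    obtain ⟨a, ha, x, hx, rfl⟩ := hD.prod y hy
    rw [hF a ha x hx]
    exact Y'.mul_mem (hD'.YY (fm a ha)) (hD'.XY (gm x hx))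
  · intro y hy y' hy' hyy
    obtain ⟨a, ha, x, hx, rfl⟩ := hD.prod y hy
    obtain ⟨a', ha', x', hx', rfl⟩ := hD.prod y' hy'
    rw [hF a ha x hx, hF a' ha' x' hx'] at hyy
    exact inj Y₁ X Y₁' X' f g hf.mul hg.mul fm gm hf.bij.injOn hg.bij.injOn hback
      a ha x hx a' ha' x' hx' hyy
  · intro y hy
    obtain ⟨a', ha', x', hx', rfl⟩ := hD'.prod y hy
    obtain ⟨a, ha, rfl⟩ := hf.bij.surjOn ha'
    obtain ⟨x, hx, rfl⟩ := hg.bij.surjOn hx'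
    exact ⟨a * x, Y.mul_mem (hD.YY ha) (hD.XY hx), hF a ha x hx⟩
  · intro y hy y' hy'
    obtain ⟨a, ha, x, hx, rfl⟩ := hD.prod y hy
    obtain ⟨a', ha', x', hx', rfl⟩ := hD.prod y' hy'
    have e1 : a * x * (a' * x') = (a * a') * (x * x') := by
      rw [mul_assoc, ← mul_assoc x, ← hD.comm a' ha' x hx]; group
    rw [e1, hF _ (Y₁.mul_mem ha ha') _ (X.mul_mem hx hx'), hF a ha x hx, hF a' ha' x' hx',
      hf.mul a ha a' ha', hg.mul x hx x' hx', mul_assoc, ← mul_assoc (f a'),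
      hD'.comm _ (fm a' ha') _ (gm x hx)]
    group
  · intro j hj y hy
    obtain ⟨a, ha, x, hx, rfl⟩ := hD.prod y hy
    have e1 : j * (a * x) * j⁻¹ = (j * a * j⁻¹) * (j * x * j⁻¹) := by group
    rw [e1, hF _ (hD.nY j hj a ha) _ (hD.nX j hj x hx), hF a ha x hx, hf.equi j hj a ha,
      hg.equi j hj x hx]
    group
  · intro k hk
    have h1 := hF k (hD.KY hk) 1 X.one_mem
    rw [mul_one, map_one' hg.mul, mul_one] at h1
    rw [h1, hf.fix k hk]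

theorem glue0 : S_GLUE0 := by
  intro U _ t t' ι G G' H H' hL hG hG' hK hK' hJG hHG hJG' hHG' hp hp' ⟨g, hg⟩
  have hfg : ∀ x ∈ t.J, x ∈ H → ι x = g x := fun x h1 h2 =>
    (hg.fix x (hK ⟨h1, h2⟩)).symm
  obtain ⟨F, hF⟩ := exists_prod t.J H ι g (compat t.J H ι g hL.mul hg.mul hfg)
  have fm : ∀ x ∈ t.J, ι x ∈ t'.J := fun x hx => (hL.J x).1 hx
  have gm : ∀ x ∈ H, g x ∈ H' := fun x hx => hg.bij.mapsTo hx
  have hback : ∀ z ∈ t'.J, z ∈ H' → ∃ e, e ∈ t.J ∧ e ∈ H ∧ ι e = z ∧ g e = z := by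
    intro z h1 h2
    have he : ι.symm z ∈ t.K := by
      rw [hL.K, Equiv.apply_symm_apply]; exact hK' ⟨h1, h2⟩
    refine ⟨ι.symm z, hG.KJ he, hG.KY he, ι.apply_symm_apply z, ?_⟩
    rw [hg.fix _ he, Equiv.apply_symm_apply]
  have hm : ∀ y ∈ G, F y ∈ G' := by
    intro y hy
    obtain ⟨a, ha, x, hx, rfl⟩ := hp y hy
    rw [hF a ha x hx]
    exact G'.mul_mem (hJG' (fm a ha)) (hHG' (gm x hx))
  have hmul : ∀ y ∈ G, ∀ y' ∈ G, F (y * y') = F y * F y' := by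
    intro y hy y' hy'
    obtain ⟨a, ha, x, hx, rfl⟩ := hp y hy
    obtain ⟨a', ha', x', hx', rfl⟩ := hp y' hy'
    have e1 : a * x * (a' * x') = (a * a') * ((a'⁻¹ * x * a'⁻¹⁻¹) * x') := by group
    have hx2 := hG.nY _ (t.J.inv_mem ha') x hx
    rw [e1, hF _ (t.J.mul_mem ha ha') _ (H.mul_mem hx2 hx'), hF a ha x hx, hF a' ha' x' hx',
      hL.mul a ha a' ha', hg.mul _ hx2 x' hx', hg.equi _ (t.J.inv_mem ha') x hx,
      map_inv' hL.mul ha']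
    group
  let φ : G →* G' := MonoidHom.mk' (fun y => ⟨F y, hm y y.2⟩)
    (fun y y' => Subtype.ext (hmul y y.2 y' y'.2))
  refine ⟨MulEquiv.ofBijective φ ⟨?_, ?_⟩⟩
  · rintro ⟨y, hy⟩ ⟨y', hy'⟩ hyy
    have h1 : F y = F y' := congrArg Subtype.val hyy
    obtain ⟨a, ha, x, hx, rfl⟩ := hp y hy
    obtain ⟨a', ha', x', hx', rfl⟩ := hp y' hy'
    rw [hF a ha x hx, hF a' ha' x' hx'] at h1
    exact Subtype.ext (inj t.J H t'.J H' ι g hL.mul hg.mul fm gm ι.injective.injOn hg.bij.injOn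
      hback a ha x hx a' ha' x' hx' h1)
  · rintro ⟨y, hy⟩
    obtain ⟨a', ha', x', hx', rfl⟩ := hp' y hy
    obtain ⟨x, hx, rfl⟩ := hg.bij.surjOn hx'
    have ha : ι.symm a' ∈ t.J := by
      rw [hL.J, Equiv.apply_symm_apply]; exact ha'
    refine ⟨⟨ι.symm a' * x, G.mul_mem (hJG ha) (hHG hx)⟩, Subtype.ext ?_⟩
    change F (ι.symm a' * x) = a' * g x
    rw [hF _ ha x hx, Equiv.apply_symm_apply]

end Pool.Agent.P.MP_f1a348_lc.GI
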