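import Pool.Agent.P.MP_f1a348_lc.GI.MDefs

/-! The halving lemma, through families of cocycles with large kernels. -/

namespace Pool.Agent.P.MP_f1a348_lc.GI

open Subgroup
open scoped commutatorElement

namespace HalfA

section
variable {A Z : Type} [Group A] [Group Z]

/-- symmetric cocycles for a family of endomorphisms -/
structure Coc (ρ : A → Z →* Z) (c : A → Z) : Prop where
  one : c 1 = 1
  mul : ∀ x y, c (x * y) = c x * ρ x (c y)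
  comm : ∀ x y, c (x * y) = c (y * x)

variable {ρ : A → Z →* Z} {c : A → Z}

theorem Coc.right (h : Coc ρ c) {s : A} (hs : c s = 1) (x : A) : c (x * s) = c x := by
  rw [h.mul, hs, map_one, mul_one]

theorem Coc.left (h : Coc ρ c) {s : A} (hs : c s = 1) (x : A) : c (s * x) = c x := by
  rw [h.comm, h.right hs]

theorem Coc.fix (h : Coc ρ c) {s : A} (hs : c s = 1) (x : A) : ρ s (c x) = c x := by
  have e := h.left hs x
  rwa [h.mul, hs, one_mul] at e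

theorem Coc.st (h : Coc ρ c) : ∃ S : Subgroup A, S.Normal ∧ ∀ x, x ∈ S ↔ c x = 1 := by
  refine ⟨⟨⟨⟨{x | c x = 1}, fun {x y} hx hy => ?_⟩, h.one⟩, fun {x} hx => ?_⟩,
    ⟨fun x hx g => ?_⟩, fun _ => Iff.rfl⟩
  · exact (h.right hy x).trans hx
  · exact (h.right hx x⁻¹).symm.trans (by rw [inv_mul_cancel, h.one])
  · change c (g * x * g⁻¹) = 1
    rw [h.comm, inv_mul_cancel_left]
    exact hx

theorem big [Finite A] {m : ℕ} (G S : Subgroup A) [S.Normal] (h1 : S.index ≤ m + 1)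
    (h2 : m < S.relIndex G) (x : A) : ∃ g ∈ G, ∃ s ∈ S, g * s = x := by
  have h3 := relIndex_mul_index (le_sup_right : S ≤ G ⊔ S)
  rw [relIndex_sup_right] at h3
  have h4 : (G ⊔ S).index ≠ 0 := index_ne_zero_of_finite
  have h5 : (G ⊔ S).index = 1 := by
    by_contra h6
    have : S.relIndex G * 2 ≤ S.relIndex G * (G ⊔ S).index := Nat.mul_le_mul_left _ (by omega)
    omega
  exact mem_sup_of_normal_right.1 (index_eq_one.1 h5 ▸ mem_top x)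

end

/-- the statement proved by induction on `m` -/
def PP (m B : ℕ) : Prop :=
  ∀ (A Z : Type) [Group A] [Finite A] [Group Z] [Finite Z] (ρ : A → Z →* Z) (T : Set (A → Z)),
    (∀ x y : Z, x * y = y * x) → (∀ c ∈ T, Coc ρ c) → (∀ c ∈ T, ∀ d ∈ T, c * d ∈ T) →
    (∀ c ∈ T, ∀ S : Subgroup A, (∀ x, x ∈ S ↔ c x = 1) → S.index ≤ m) →
    ∃ (Γ : Subgroup A) (F : Subgroup Z), Γ.index ≤ B ∧ Nat.card F ≤ B ∧
      (∀ x, (∀ c ∈ T, c x = 1) → x ∈ Γ) ∧ ∀ c ∈ T, ∀ x ∈ Γ, c x ∈ F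

theorem descend {m B n : ℕ} (ih : PP m B) {A Z : Type} [Group A] [Finite A] [Group Z] [Finite Z]
    {ρ : A → Z →* Z} {T : Set (A → Z)} (hZ : ∀ x y : Z, x * y = y * x) (h1 : ∀ c ∈ T, Coc ρ c)
    (h2 : ∀ c ∈ T, ∀ d ∈ T, c * d ∈ T) (G : Subgroup A) (F : Subgroup Z) (hG : G.index ≤ n)
    (hF : Nat.card F ≤ n) (hN : ∀ x, (∀ c ∈ T, c x = 1) → x ∈ G)
    (hρ : ∀ g ∈ G, ∀ z ∈ F, ρ g z ∈ F)
    (h3 : ∀ c ∈ T, ∀ S : Subgroup G, (∀ x : G, x ∈ S ↔ c x ∈ F) → S.index ≤ m) :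
    ∃ (Γ : Subgroup A) (F : Subgroup Z), Γ.index ≤ n * B ∧ Nat.card F ≤ n * B ∧
      (∀ x, (∀ c ∈ T, c x = 1) → x ∈ Γ) ∧ ∀ c ∈ T, ∀ x ∈ Γ, c x ∈ F := by
  have : F.Normal := ⟨fun z hz g => by rwa [hZ g, mul_inv_cancel_right]⟩
  obtain ⟨Γ, F', g1, g2, g3, g4⟩ := ih G (Z ⧸ F)
    (fun g => QuotientGroup.map F F (ρ g) (hρ g g.2))
    ((fun (c : A → Z) (g : G) => (c g : Z ⧸ F)) '' T)
    (fun x y => by
      obtain ⟨x, rfl⟩ := QuotientGroup.mk_surjective x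
      obtain ⟨y, rfl⟩ := QuotientGroup.mk_surjective y
      rw [← QuotientGroup.mk_mul, hZ, QuotientGroup.mk_mul])
    (by
      rintro _ ⟨c, hc, rfl⟩
      refine ⟨?_, fun x y => ?_, fun x y => ?_⟩
      · simp [(h1 c hc).one]
      · simp only [Subgroup.coe_mul, (h1 c hc).mul]
        rfl
      · simp only [Subgroup.coe_mul, (h1 c hc).comm x y])
    (by
      rintro _ ⟨c, hc, rfl⟩ _ ⟨d, hd, rfl⟩
      exact ⟨c * d, h2 c hc d hd, rfl⟩)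
    (by
      rintro _ ⟨c, hc, rfl⟩ S hS
      exact h3 c hc S fun x => (hS x).trans (QuotientGroup.eq_one_iff _))
  refine ⟨Γ.map G.subtype, F'.comap (QuotientGroup.mk' F), ?_, ?_, fun x hx => ?_, ?_⟩
  · rw [index_map_subtype, mul_comm]
    exact Nat.mul_le_mul hG g1
  · exact (QuotientGroup.card_preimage_mk F (F' : Set (Z ⧸ F))).trans_le (Nat.mul_le_mul hF g2)
  · refine ⟨⟨x, hN x hx⟩, g3 _ ?_, rfl⟩
    rintro _ ⟨c, hc, rfl⟩
    simp [hx c hc]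
  · rintro c hc _ ⟨x, hx, rfl⟩
    exact g4 _ ⟨c, hc, rfl⟩ x hx

theorem step {m B : ℕ} (hB : 1 ≤ B) (ih : PP m B) : PP (m + 1) ((m + 1) * B) := by
  intro A Z _ _ _ _ ρ T hZ h1 h2 h3
  by_cases h0 : ∀ c ∈ T, ∀ x, c x = 1
  · have : 1 ≤ (m + 1) * B := Nat.mul_pos (by omega) hB
    exact ⟨⊤, ⊥, by simpa using this, by simpa using this, fun _ _ => mem_top _,
      fun c hc x _ => h0 c hc x⟩
  push Not at h0
  obtain ⟨a, ha, x0, hx0⟩ := h0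
  have ca := h1 a ha
  obtain ⟨G, -, hG⟩ := ca.st
  have hGi := h3 a ha G hG
  have hN : ∀ x, (∀ c ∈ T, c x = 1) → x ∈ G := fun x hx => (hG x).2 (hx a ha)
  by_cases hb : ∀ c ∈ T, ∀ S : Subgroup A, (∀ x, x ∈ S ↔ c x = 1) → S.relIndex G ≤ m
  · refine descend ih hZ h1 h2 G ⊥ hGi (by simp) hN (fun g _ z hz => by simp [mem_bot.1 hz]) ?_
    intro c hc S hS
    obtain ⟨S0, -, hS0⟩ := (h1 c hc).st
    have : S = S0.subgroupOf G := by
      ext x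
      rw [hS, mem_bot, mem_subgroupOf, hS0]
    exact this ▸ hb c hc S0 hS0
  have key : ∀ c ∈ T, ∀ S : Subgroup A, (∀ x, x ∈ S ↔ c x = 1) → m < S.relIndex G →
      (∀ x, ∃ g ∈ G, ∃ s ∈ S, g * s = x) ∧ ∀ x, ∃ s, c s * a s = 1 ∧ a s = a x := by
    intro c hc S hS hm
    obtain ⟨S0, n0, hS0⟩ := (h1 c hc).st
    obtain rfl : S = S0 := Subgroup.ext fun x => (hS x).trans (hS0 x).symm
    refine ⟨big G S (h3 c hc S hS) hm, fun x => ?_⟩
    obtain ⟨S1, n1, hS1⟩ := (h1 _ (h2 c hc a ha)).st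
    have e : S1.subgroupOf G = S.subgroupOf G := by
      ext x
      rw [mem_subgroupOf, mem_subgroupOf, hS1, hS, Pi.mul_apply, (hG x).1 x.2, mul_one]
    obtain ⟨g, hg, s, hs, rfl⟩ := big G S1 (h3 _ (h2 c hc a ha) S1 hS1)
      (by rwa [relIndex, e]) x
    exact ⟨s, (hS1 s).1 hs, (ca.left ((hG g).1 hg) s).symm⟩
  push Not at hb
  obtain ⟨c0, hc0, S0, hS0, hm0⟩ := hb
  obtain ⟨k1, k2⟩ := key c0 hc0 S0 hS0 hm0
  have hom : ∀ x y, a (x * y) = a x * a y := by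
    intro x y
    obtain ⟨g, hg, s, hs, rfl⟩ := k1 x
    obtain ⟨u, hu, e⟩ := k2 y
    rw [mul_assoc, ca.left ((hG g).1 hg), ca.left ((hG g).1 hg), ca.mul, ← e,
      eq_inv_of_mul_eq_one_right hu, map_inv, (h1 c0 hc0).fix ((hS0 s).1 hs)]
  obtain ⟨f, hf⟩ : ∃ f : A →* Z, ∀ x, f x = a x := ⟨MonoidHom.mk' a hom, fun _ => rfl⟩
  have hker : f.ker = G := Subgroup.ext fun x => by rw [MonoidHom.mem_ker, hf, hG]
  refine descend ih hZ h1 h2 G f.range hGi (by rwa [← index_ker, hker]) hN ?_ ?_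
  · rintro g hg _ ⟨x, rfl⟩
    exact ⟨x, by rw [hf, ca.fix ((hG g).1 hg)]⟩
  intro c hc S hS
  obtain ⟨S1, n1, hS1⟩ := (h1 c hc).st
  have hle : S1.subgroupOf G ≤ S := fun x hx => by
    rw [hS, (hS1 x).1 hx]
    exact one_mem _
  by_cases hm : S1.relIndex G ≤ m
  · exact (index_antitone hle).trans hm
  obtain ⟨k3, k4⟩ := key c hc S1 hS1 (not_le.1 hm)
  obtain ⟨u, hu, e⟩ := k4 x0
  obtain ⟨g, hg, s, hs, rfl⟩ := k3 u
  rw [(h1 c hc).right ((hS1 s).1 hs), e] at hu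
  have hlt : S1.subgroupOf G < S := by
    refine lt_of_le_of_ne hle fun h => ?_
    have e1 : (⟨g, hg⟩ : G) ∈ S := (hS _).2 ⟨x0⁻¹, by
      rw [map_inv, hf]
      exact (eq_inv_of_mul_eq_one_left hu).symm⟩
    rw [← h, mem_subgroupOf, hS1] at e1
    rw [show c g = 1 from e1, one_mul] at hu
    exact hx0 hu
  have e2 := index_strictAnti hlt
  have e3 : S1.relIndex G ≤ S1.index :=
    Nat.le_of_dvd (Nat.pos_of_ne_zero index_ne_zero_of_finite) (relIndex_dvd_index_of_normal _ _)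
  have e4 := h3 c hc S1 hS1
  rw [relIndex] at e3
  omega

theorem exists_PP (m : ℕ) : ∃ B, 1 ≤ B ∧ PP m B := by
  induction m with
  | zero =>
    refine ⟨1, le_rfl, fun A Z _ _ _ _ ρ T _ h1 _ h3 => ⟨⊤, ⊥, by simp, by simp,
      fun _ _ => mem_top _, fun c hc => ?_⟩⟩
    obtain ⟨S, -, hS⟩ := (h1 c hc).st
    exact absurd (Nat.le_zero.1 (h3 c hc S hS)) index_ne_zero_of_finite
  | succ m ih =>
    obtain ⟨B, hB, h⟩ := ih
    exact ⟨(m + 1) * B, Nat.mul_pos (by omega) hB, step hB h⟩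

end HalfA

open HalfA in
theorem half : S_HALF := by
  intro m
  obtain ⟨B, -, hB⟩ := exists_PP m
  refine ⟨B, fun G _ _ H K hKH hHK hm => ?_⟩
  have hc : ∀ x ∈ H, ∀ y ∈ H, ⁅x, y⁆ ∈ K := fun x hx y hy =>
    hHK (commutator_mem_commutator hx hy)
  have hn : ∀ x ∈ H, ∀ k ∈ K, x * k * x⁻¹ ∈ K := fun x hx k hk => by
    have := mul_mem (hc x hx k (hKH hk)) hk
    rwa [commutatorElement_def, inv_mul_cancel_right] at this
  have hn' : ∀ x ∈ H, ∀ d, (∀ k ∈ K, Commute d k) → ∀ k ∈ K, Commute (x * d * x⁻¹) k := by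
    intro x hx d hd k hk
    have h1 := (hd _ (hn x⁻¹ (inv_mem hx) k hk)).eq
    calc x * d * x⁻¹ * k = x * (d * (x⁻¹ * k * x⁻¹⁻¹)) * x⁻¹ := by group
      _ = k * (x * d * x⁻¹) := by rw [h1]; group
  obtain ⟨Z, hZ⟩ : ∃ Z : Subgroup G, ∀ z, z ∈ Z ↔ z ∈ K ∧ ∀ k ∈ K, Commute z k :=
    ⟨K ⊓ centralizer K, fun z => and_congr_right fun _ =>
      ⟨fun h k hk => (h k hk).symm, fun h k hk => (h k hk).symm⟩⟩
  have hZn : ∀ x ∈ H, ∀ z ∈ Z, x * z * x⁻¹ ∈ Z := fun x hx z hz =>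
    (hZ _).2 ⟨hn x hx z ((hZ z).1 hz).1, hn' x hx z ((hZ z).1 hz).2⟩
  have hZc : ∀ c ∈ H, (∀ k ∈ K, Commute c k) → ∀ x ∈ H, ⁅c, x⁆ ∈ Z := by
    intro c hcH hcK x hx
    refine (hZ _).2 ⟨hc c hcH x hx, fun k hk => ?_⟩
    have e : ⁅c, x⁆ = c * (x * c⁻¹ * x⁻¹) := by rw [commutatorElement_def]; group
    rw [e]
    exact (hcK k hk).mul_left (hn' x hx c⁻¹ (fun k hk => (hcK k hk).inv_left) k hk)
  obtain ⟨ρ, hρ⟩ : ∃ ρ : H → Z →* Z, ∀ x z, (ρ x z : G) = x * z * (x : G)⁻¹ :=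
    ⟨fun x => MonoidHom.mk' (fun z => ⟨x * z * (x : G)⁻¹, hZn x x.2 z z.2⟩) fun z w =>
      Subtype.ext (by simp only [Subgroup.coe_mul]; group), fun _ _ => rfl⟩
  obtain ⟨Γ, F, g1, g2, g3, g4⟩ := hB H Z ρ
    {β | ∃ c ∈ H, (∀ k ∈ K, Commute c k) ∧ ∀ x : H, (β x : G) = ⁅c, (x : G)⁆}
    (fun x y => Subtype.ext (((hZ x).1 x.2).2 y ((hZ y).1 y.2).1).eq)
    (by
      rintro β ⟨c, hcH, hcK, hβ⟩
      refine ⟨Subtype.ext ?_, fun x y => Subtype.ext ?_, fun x y => Subtype.ext ?_⟩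
      · simp [hβ]
      · simp only [Subgroup.coe_mul, hβ, hρ, commutatorElement_def]
        group
      · have h1 := (hcK _ (hc _ (inv_mem x.2) _ (inv_mem y.2))).eq
        simp only [Subgroup.coe_mul, hβ, commutatorElement_def] at h1 ⊢
        calc c * (x * y) * c⁻¹ * (x * y : G)⁻¹
            = c * (y * x) * c⁻¹ * (c * ((x : G)⁻¹ * (y : G)⁻¹ * (x : G)⁻¹⁻¹ * (y : G)⁻¹⁻¹)) * c⁻¹ *
              (x * y : G)⁻¹ := by group
          _ = _ := by rw [h1]; group)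
    (by
      rintro β ⟨c, hcH, hcK, hβ⟩ γ ⟨d, hdH, hdK, hγ⟩
      refine ⟨d * c, mul_mem hdH hcH, fun k hk => (hdK k hk).mul_left (hcK k hk), fun x => ?_⟩
      have h1 := (hdK _ (hc c hcH x x.2)).eq
      simp only [Pi.mul_apply, Subgroup.coe_mul, hβ, hγ, commutatorElement_def] at h1 ⊢
      calc c * x * c⁻¹ * (x : G)⁻¹ * (d * x * d⁻¹ * (x : G)⁻¹)
          = c * x * c⁻¹ * (x : G)⁻¹ * d * x * d⁻¹ * (x : G)⁻¹ := by group
        _ = _ := by rw [← h1]; group)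
    (by
      rintro β ⟨c, hcH, hcK, hβ⟩ S hS
      have : S = (centralizer {c}).subgroupOf H := by
        ext x
        rw [hS, mem_subgroupOf, mem_centralizer_singleton_iff, Subtype.ext_iff, hβ,
          Subgroup.coe_one, commutatorElement_eq_one_iff_mul_comm, eq_comm]
      exact this ▸ hm c hcH hcK)
  refine ⟨Γ.map H.subtype, F.map Z.subtype, fun k hk => ⟨⟨k, hKH hk⟩, g3 _ ?_, rfl⟩,
    map_subtype_le _, ?_, (card_subtype Z F).trans_le g2, ?_⟩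
  · rintro β ⟨c, -, hcK, hβ⟩
    exact Subtype.ext ((hβ _).trans (commutatorElement_eq_one_iff_commute.2 (hcK k hk)))
  · rwa [relIndex, subgroupOf, comap_map_eq_self_of_injective H.subtype_injective]
  · rintro c hcH hcK _ ⟨x, hx, rfl⟩
    exact ⟨⟨⁅c, (x : G)⁆, hZc c hcH hcK x x.2⟩,
      g4 (fun x => ⟨⁅c, (x : G)⁆, hZc c hcH hcK x x.2⟩) ⟨c, hcH, hcK, fun _ => rfl⟩ x hx, rfl⟩

end Pool.Agent.P.MP_f1a348_lc.GI
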