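import Pool.Agent.P.MP_f1a348_lc.GI.ABasic

/-!
Correctness of the lifting test.
-/

namespace Pool.Agent.P.MP_f1a348_lc.GI

namespace LiftA

theorem exists_mem_zip {α β : Type} (f : α → β → α) (h : List α) (es : List β)
    (hl : es.length = h.length) {x : α} (hx : x ∈ h) :
    ∃ e ∈ es, (x, f x e) ∈ h.zip (List.zipWith f h es) := by
  induction h generalizing es with
  | nil => simp at hx
  | cons a h ih =>
    obtain ⟨e, es, rfl⟩ : ∃ e s, es = e :: s := List.exists_cons_of_length_pos (by simp [hl])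
    rcases List.mem_cons.1 hx with rfl | hx
    · exact ⟨e, by simp, by simp⟩
    · obtain ⟨e', he', h'⟩ := ih es (by simpa using hl) hx
      exact ⟨e', by simp [he'], by simp [h']⟩

theorem zipWith_map_self {α β γ : Type} (f : α → β → γ) (k : α → β) (h : List α) :
    List.zipWith f h (h.map k) = h.map (fun x => f x (k x)) := by
  induction h with
  | nil => rfl
  | cons a h ih => simp [ih]

end LiftA

theorem lift : S_MATCH → S_LIFT := by
  intro hM U _ _ pad tl t t' ι E' Y Y' y y' g ht hE hY hY' gy gy' hl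
  obtain ⟨hgen, hlen⟩ := gensOf_spec hY
  have hm := fun xs' => hM U tl.1 tl.2.1 ι Y Y' (gensOf Y) xs' t.J t.K y y'
    (fun x hx _ => (ht.J.mem x).2 hx) (fun x hx => (ht.J.mem x).1 hx)
    (fun x hx _ => (ht.K.mem x).2 hx) (fun x hx => (ht.K.mem x).1 hx) hl.one hY hY'
  have hsup : y = t.K ⊔ gen (gensOf Y) := by rw [hgen, sup_eq_right.2 gy.KY]
  have hin : ∀ x ∈ gensOf Y, x ∈ y := fun x hx => hgen ▸ mem_gen hx
  refine ⟨fun h => ?_, fun N b hN hb hbig hq => ⟨fun h => ?_, ?_⟩⟩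
  · obtain ⟨es, _, h⟩ := List.any_eq_true.1 h
    obtain ⟨γ, hγ, _⟩ := (hm _).1 h
    exact ⟨γ, hγ⟩
  · obtain ⟨es, hes, h⟩ := List.any_eq_true.1 h
    obtain ⟨γ, hγ, hz, _⟩ := (hm _).1 h
    obtain ⟨h1, h2⟩ := tuples_sound hes
    refine ⟨γ, hγ, fun x hx => (QHom.of_isoOn hγ gy).ext_gen hq gy gy'
      (S := {x | x ∈ gensOf Y}) hin (fun a ha => ?_) (hsup ▸ hx)⟩
    obtain ⟨e, he, hp⟩ := LiftA.exists_mem_zip (fun x e => g.app x * e) _ es h1 ha
    have h3 : γ a = g.app a * e := hz _ hp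
    refine Cg.symm ?_
    rw [h3, Cg, inv_mul_cancel_left]
    exact (hE.mem e).1 (h2 e he)
  · rintro ⟨γ, hγ, hc⟩
    refine List.any_eq_true.2 ⟨(gensOf Y).map (fun x => (g.app x)⁻¹ * γ x),
      tuples_complete ?_ (List.length_map _) fun e he => ?_, (hm _).2 γ hγ hsup gy.nY ?_⟩
    · simpa using hbig.log_pow (e := 1) hb (hlen.trans hN) (Nat.le_add_right 1 b)
    · obtain ⟨x, hx, rfl⟩ := List.mem_map.1 he
      exact (hE.mem _).2 (hc x (hin x hx)).symm
    · rw [LiftA.zipWith_map_self]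
      simp

end Pool.Agent.P.MP_f1a348_lc.GI
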