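import Pool.Agent.P.MP_f1a348_lc.GI.ABasic

/-!
The linear phase.
-/

namespace Pool.Agent.P.MP_f1a348_lc.GI

open scoped commutatorElement

set_option linter.unusedSectionVars false

namespace LinA

variable {U : Type} [Group U] [DecidableEq U]

/-! ### the group of all pairs of maps into the centralizers -/

/-- the centralizer of `K` in `y` -/
def cz (K y : Subgroup U) : Subgroup U := y ⊓ Subgroup.centralizer K

theorem mem_cz {K y : Subgroup U} {d : U} : d ∈ cz K y ↔ d ∈ y ∧ ∀ k ∈ K, d * k = k * d := by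
  rw [cz, Subgroup.mem_inf, Subgroup.mem_centralizer_iff]
  exact and_congr_right fun _ => forall₂_congr fun _ _ => eq_comm

theorem mem_cenL_iff {K Y : List U} {k y : Subgroup U} (hK : Rep K k) (hY : Rep Y y) {d : U} :
    d ∈ cenL K Y ↔ d ∈ cz k y := by
  simp only [mem_cenL, mem_cz, hK.mem, hY.mem]

theorem mem_dom {Y Y' : List U} {a : Bool × U} :
    a ∈ dom Y Y' ↔ (a.1 = false ∧ a.2 ∈ Y) ∨ (a.1 = true ∧ a.2 ∈ Y') := by
  obtain ⟨b, x⟩ := a
  cases b <;> simp [dom]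

theorem nodup_dom {Y Y' : List U} (h : Y.Nodup) (h' : Y'.Nodup) : (dom Y Y').Nodup := by
  refine List.nodup_append.2 ⟨h.map fun _ _ e => (Prod.ext_iff.1 e).2,
    h'.map fun _ _ e => (Prod.ext_iff.1 e).2, fun a ha b hb e => ?_⟩
  obtain ⟨x, -, rfl⟩ := List.mem_map.1 ha
  obtain ⟨z, -, rfl⟩ := List.mem_map.1 hb
  exact Bool.false_ne_true (Prod.ext_iff.1 e).1

theorem tab_false {Y Y' : List U} {y y' : Subgroup U} (h : Rep Y y) (h' : Rep Y' y')
    (f : Bool × U → U) {x : U} (hx : x ∈ y) : (FF.tab (dom Y Y') f).app (false, x) = f (false, x) := by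
  rw [FF.app_tab (nodup_dom h.nodup h'.nodup), if_pos (mem_dom.2 (Or.inl ⟨rfl, (h.mem x).2 hx⟩))]

theorem tab_true {Y Y' : List U} {y y' : Subgroup U} (h : Rep Y y) (h' : Rep Y' y')
    (f : Bool × U → U) {x : U} (hx : x ∈ y') : (FF.tab (dom Y Y') f).app (true, x) = f (true, x) := by
  rw [FF.app_tab (nodup_dom h.nodup h'.nodup), if_pos (mem_dom.2 (Or.inr ⟨rfl, (h'.mem x).2 hx⟩))]

theorem tab_out {Y Y' : List U} {y y' : Subgroup U} (h : Rep Y y) (h' : Rep Y' y')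
    (f : Bool × U → U) {a : Bool × U} (ha : a ∉ dom Y Y') : (FF.tab (dom Y Y') f).app a = 1 := by
  rw [FF.app_tab (nodup_dom h.nodup h'.nodup), if_neg ha]

/-- maps in both directions -/
structure MM (y y' : Subgroup U) (g : FB U) : Prop where
  l : ∀ x ∈ y, g.app (false, x) ∈ y'
  r : ∀ x ∈ y', g.app (true, x) ∈ y

/-- maps into the centralizers -/
structure DD (t t' : Tr U) (y y' : Subgroup U) (u : FB U) : Prop where
  l : ∀ x ∈ y, u.app (false, x) ∈ cz t'.K y'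
  r : ∀ x ∈ y', u.app (true, x) ∈ cz t.K y

theorem DD.mm {t t' : Tr U} {y y' : Subgroup U} {u : FB U} (h : DD t t' y y' u) : MM y y' u :=
  ⟨fun x hx => (mem_cz.1 (h.l x hx)).1, fun x hx => (mem_cz.1 (h.r x hx)).1⟩

theorem MM.mul {y y' : Subgroup U} {g u : FB U} (h : MM y y' g) (h' : MM y y' u) :
    MM y y' (g * u) :=
  ⟨fun x hx => y'.mul_mem (h.l x hx) (h'.l x hx), fun x hx => y.mul_mem (h.r x hx) (h'.r x hx)⟩

theorem mem_gen_iff {tl tl' : TL U} {t t' : Tr U} {Y Y' : List U} {y y' : Subgroup U}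
    (ht : RepT tl t) (ht' : RepT tl' t') (h : Rep Y y) (h' : Rep Y' y') {u : FB U} :
    u ∈ gen (linGens tl tl' Y Y') ↔ DD t t' y y' u ∧ ∀ a, a ∉ dom Y Y' → u.app a = 1 := by
  have hm : ∀ g, g ∈ linGens tl tl' Y Y' ↔ (∃ x ∈ y, ∃ d ∈ cz t'.K y', g = FF.single (false, x) d) ∨
      ∃ x ∈ y', ∃ d ∈ cz t.K y, g = FF.single (true, x) d := by
    intro g
    simp only [linGens, List.mem_append, List.mem_map, mem_prodL, h.mem, h'.mem,
      mem_cenL_iff ht.K h, mem_cenL_iff ht'.K h', Prod.exists]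
    refine or_congr ⟨?_, ?_⟩ ⟨?_, ?_⟩
    · rintro ⟨x, d, ⟨h1, h2⟩, rfl⟩
      exact ⟨x, h1, d, h2, rfl⟩
    · rintro ⟨x, h1, d, h2, rfl⟩
      exact ⟨x, d, ⟨h1, h2⟩, rfl⟩
    · rintro ⟨x, d, ⟨h1, h2⟩, rfl⟩
      exact ⟨x, h1, d, h2, rfl⟩
    · rintro ⟨x, h1, d, h2, rfl⟩
      exact ⟨x, d, ⟨h1, h2⟩, rfl⟩
  constructor
  · intro hu
    refine ⟨⟨fun x _ => FF.app_mem (fun g hg => ?_) hu, fun x _ => FF.app_mem (fun g hg => ?_) hu⟩,
      fun a ha => Subgroup.mem_bot.1 (FF.app_mem (fun g hg => ?_) hu)⟩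
    · rcases (hm g).1 hg with ⟨z, -, d, hd, rfl⟩ | ⟨z, -, d, -, rfl⟩
      · rw [FF.app_single]
        split_ifs
        · exact hd
        · exact Subgroup.one_mem _
      · rw [FF.app_single, if_neg (by simp)]
        exact Subgroup.one_mem _
    · rcases (hm g).1 hg with ⟨z, -, d, -, rfl⟩ | ⟨z, -, d, hd, rfl⟩
      · rw [FF.app_single, if_neg (by simp)]
        exact Subgroup.one_mem _
      · rw [FF.app_single]
        split_ifs
        · exact hd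
        · exact Subgroup.one_mem _
    · rcases (hm g).1 hg with ⟨z, hz, d, -, rfl⟩ | ⟨z, hz, d, -, rfl⟩
      · rw [FF.app_single, if_neg]
        · exact Subgroup.one_mem _
        · rintro rfl
          exact ha (mem_dom.2 (Or.inl ⟨rfl, (h.mem z).2 hz⟩))
      · rw [FF.app_single, if_neg]
        · exact Subgroup.one_mem _
        · rintro rfl
          exact ha (mem_dom.2 (Or.inr ⟨rfl, (h'.mem z).2 hz⟩))
  · rintro ⟨hd, hs⟩
    have e : u = FF.tab (dom Y Y') u.app := FF.ext fun a => by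
      rw [FF.app_tab (nodup_dom h.nodup h'.nodup)]
      split_ifs with ha
      · rfl
      · exact hs a ha
    rw [e, FF.tab]
    refine Subgroup.list_prod_mem _ fun g hg => mem_gen ((hm g).2 ?_)
    obtain ⟨⟨b, x⟩, ha, rfl⟩ := List.mem_map.1 hg
    rcases mem_dom.1 ha with ⟨rfl, hx⟩ | ⟨rfl, hx⟩
    · exact Or.inl ⟨x, (h.mem x).1 hx, _, hd.l x ((h.mem x).1 hx), rfl⟩
    · exact Or.inr ⟨x, (h'.mem x).1 hx, _, hd.r x ((h'.mem x).1 hx), rfl⟩

/-! ### every test is the kernel of a crossed homomorphism -/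

/-- the test is described by a word that is multiplicative modulo `Z` -/
def Ok (M D : FB U → Prop) (N : ℕ) (T : Bool → FB U → Bool) : Prop :=
  ∃ (Z : Subgroup U) (L : List U) (W : Bool → FB U → U), L.length ≤ N ∧
    (∀ u, M u → W true u ∈ L) ∧ (∀ h g, T h g = true ↔ W h g ∈ Z) ∧
    ∀ h g u, M g → D u → Cg Z (W h (g * u)) (W h g * W true u)

section kinds
variable {M D : FB U → Prop} {N : ℕ} {E E' L : List U} {ι : FP U} {b : Bool} {s : Tr U}
  {zs zt : Subgroup U}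

theorem ok0 (g : Good s zt) (hE : Rep (bif b then E else E') s.E) (hL : Rep L zt)
    (hN : L.length ≤ N) (hM : ∀ u, M u → ∀ x ∈ zs, u.app (b, x) ∈ zt)
    (hD : ∀ u, D u → ∀ x ∈ zs, u.app (b, x) ∈ cz s.K zt) {x z : U} (hx : x ∈ zs) (hz : z ∈ zs) :
    Ok M D N (fun h => linTest h E E' ι (0, b, x, z)) := by
  have hxz := zs.mul_mem hx hz
  refine ⟨s.E, L, fun _ F => (F.app (b, x * z))⁻¹ * F.app (b, x) * F.app (b, z), hN,
    fun u hu => (hL.mem _).2 (zt.mul_mem (zt.mul_mem (zt.inv_mem (hM u hu _ hxz)) (hM u hu _ hx))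
      (hM u hu _ hz)), fun h F => hE.contains _, fun h F u hF hu => ?_⟩
  simp only [FF.app_mul]
  have a1 := hM F hF _ hxz
  have a2 := hM F hF _ hx
  have a3 := hM F hF _ hz
  have d1 := hD u hu _ hxz
  have d2 := hD u hu _ hx
  have d3 := hD u hu _ hz
  generalize F.app (b, x * z) = a at *
  generalize F.app (b, x) = a' at *
  generalize F.app (b, z) = a'' at *
  generalize u.app (b, x * z) = d at *
  generalize u.app (b, x) = d' at *
  generalize u.app (b, z) = d'' at *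
  have e1 := mem_cz.1 (Subgroup.inv_mem _ d1)
  have e2 := mem_cz.1 (Subgroup.mul_mem _ (Subgroup.inv_mem _ d1) d2)
  have e3 := mem_cz.1 d3
  calc (a * d)⁻¹ * (a' * d') * (a'' * d'') = d⁻¹ * (a⁻¹ * a') * (d' * a'' * d'') := by group
    Cg s.E _ (a⁻¹ * a' * d⁻¹ * (d' * a'' * d'')) :=
      (g.swapE e1.1 e1.2 (zt.mul_mem (zt.inv_mem a1) a2)).symm.right
        (g.nmE (zt.mul_mem (zt.mul_mem (mem_cz.1 d2).1 a3) e3.1))
    _ = a⁻¹ * a' * (d⁻¹ * d' * a'' * d'') := by group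
    Cg s.E _ (a⁻¹ * a' * (a'' * (d⁻¹ * d') * d'')) :=
      ((g.swapE e2.1 e2.2 a3).symm.right (g.nmE e3.1)).left _
    _ = a⁻¹ * a' * a'' * (d⁻¹ * d' * d'') := by group

theorem ok1 (g : Good s zt) (hE : Rep (bif b then E else E') s.E) (hL : Rep L zt)
    (hN : L.length ≤ N) (hM : ∀ u, M u → ∀ x ∈ zs, u.app (b, x) ∈ zt)
    (hD : ∀ u, D u → ∀ x ∈ zs, u.app (b, x) ∈ cz s.K zt) {j z : U} (hx : j * z * j⁻¹ ∈ zs)
    (hz : z ∈ zs) (hj : (bif b then ι⁻¹ else ι).app j ∈ s.J) :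
    Ok M D N (fun h => linTest h E E' ι (1, b, j, z)) := by
  refine ⟨s.E, L, fun _ F => (F.app (b, j * z * j⁻¹))⁻¹ * ((bif b then ι⁻¹ else ι).app j *
    F.app (b, z) * ((bif b then ι⁻¹ else ι).app j)⁻¹), hN,
    fun u hu => (hL.mem _).2 (zt.mul_mem (zt.inv_mem (hM u hu _ hx)) (g.nY _ hj _ (hM u hu _ hz))),
    fun h F => hE.contains _, fun h F u hF hu => ?_⟩
  simp only [FF.app_mul]
  have a1 := hM F hF _ hx
  have a2 := g.nY _ hj _ (hM F hF _ hz)
  have d1 := mem_cz.1 (Subgroup.inv_mem _ (hD u hu _ hx))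
  have d2 := g.nY _ hj _ (mem_cz.1 (hD u hu _ hz)).1
  generalize (bif b then ι⁻¹ else ι).app j = i at *
  generalize F.app (b, j * z * j⁻¹) = a at *
  generalize F.app (b, z) = a' at *
  generalize u.app (b, j * z * j⁻¹) = d at *
  generalize u.app (b, z) = d' at *
  calc (a * d)⁻¹ * (i * (a' * d') * i⁻¹) = d⁻¹ * (a⁻¹ * (i * a' * i⁻¹)) * (i * d' * i⁻¹) := by group
    Cg s.E _ (a⁻¹ * (i * a' * i⁻¹) * d⁻¹ * (i * d' * i⁻¹)) :=
      (g.swapE d1.1 d1.2 (zt.mul_mem (zt.inv_mem a1) a2)).symm.right (g.nmE d2)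
    _ = a⁻¹ * (i * a' * i⁻¹) * (d⁻¹ * (i * d' * i⁻¹)) := by group

theorem ok2 (g : Good s zt) (hE : Rep (bif b then E else E') s.E) (hL : Rep L zt)
    (hN : L.length ≤ N) (hM : ∀ u, M u → ∀ x ∈ zs, u.app (b, x) ∈ zt)
    (hD : ∀ u, D u → ∀ x ∈ zs, u.app (b, x) ∈ cz s.K zt) {x c : U} (hx : x ∈ zs) (hc : c ∈ zt) :
    Ok M D N (fun h => linTest h E E' ι (2, b, x, c)) := by
  refine ⟨s.E, L, fun h F => (F.app (b, x))⁻¹ * (bif h then 1 else c), hN,
    fun u hu => (hL.mem _).2 (zt.mul_mem (zt.inv_mem (hM u hu _ hx)) zt.one_mem),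
    fun h F => hE.contains _, fun h F u hF hu => ?_⟩
  simp only [FF.app_mul]
  have a1 := hM F hF _ hx
  have a2 : (bif h then 1 else c) ∈ zt := by
    cases h
    · exact hc
    · exact zt.one_mem
  have d1 := mem_cz.1 (Subgroup.inv_mem _ (hD u hu _ hx))
  generalize (bif h then 1 else c) = c' at *
  generalize F.app (b, x) = a at *
  generalize u.app (b, x) = d at *
  calc (a * d)⁻¹ * c' = d⁻¹ * (a⁻¹ * c') := by group
    Cg s.E _ (a⁻¹ * c' * d⁻¹) := (g.swapE d1.1 d1.2 (zt.mul_mem (zt.inv_mem a1) a2)).symm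
    _ = a⁻¹ * c' * (d⁻¹ * bif true then 1 else c) := by simp

theorem ok3 {t t' : Tr U} {y y' : Subgroup U} (g : Good t y) (g' : Good t' y')
    (hl : Link t t' ι.perm) (hL : Rep L y') (hN : L.length ≤ N) {x z : U} (hx : x ∈ y)
    (hz : z ∈ y') :
    Ok (MM y y') (DD t t' y y') N (fun h => linTest h E E' ι (3, false, x, z)) := by
  have hk : ∀ u, MM y y' u → ι.perm ⁅x, u.app (true, z)⁆ ∈ y' := fun u hu =>
    g'.KY ((hl.K _).1 (g.comm _ hx _ (hu.r z hz)))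
  refine ⟨⊥, L, fun _ F => (ι.perm ⁅x, F.app (true, z)⁆)⁻¹ * ⁅F.app (false, x), z⁆, hN,
    fun u hu => (hL.mem _).2 (y'.mul_mem (y'.inv_mem (hk u hu))
      (g'.KY (g'.comm _ (hu.l x hx) _ hz))), fun h F => ?_, fun h F u hF hu => Cg.of_eq ?_⟩
  · rw [Subgroup.mem_bot, inv_mul_eq_one]
    exact beq_iff_eq
  have d1 := mem_cz.1 (hu.l x hx)
  have d2 := mem_cz.1 (hu.r z hz)
  have m1 := g'.DE _ d1.1 d1.2 z hz
  have m2 := g.DE' d2.1 d2.2 hx
  have k1 := hk F hF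
  have k2 := g'.KY (g'.comm _ (hF.l x hx) _ hz)
  simp only [FF.app_mul]
  rw [g.comm_mul_right (hF.r z hz) m2, g'.comm_mul_left (hF.l x hx) m1,
    hl.mul _ (g.KJ (g.comm _ hx _ (hF.r z hz))) _ (g.EJ m2)]
  have m3 := (hl.E _).1 m2
  generalize ι.perm ⁅x, F.app (true, z)⁆ = A at *
  generalize ι.perm ⁅x, u.app (true, z)⁆ = B at *
  generalize ⁅F.app (false, x), z⁆ = C at *
  generalize ⁅u.app (false, x), z⁆ = P at *
  calc (A * B)⁻¹ * (P * C) = B⁻¹ * (A⁻¹ * (P * C)) := by group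
    _ = A⁻¹ * (C * P) * B⁻¹ := by
      rw [g'.cen _ (t'.E.inv_mem m3) _ (y'.mul_mem (y'.inv_mem k1) (y'.mul_mem (g'.EY m1) k2)),
        g'.cen _ m1 _ k2]
    _ = A⁻¹ * C * (P * B⁻¹) := by group
    _ = _ := by rw [g'.Ecomm m1 (t'.E.inv_mem m3)]
end kinds

section tests
variable {tl tl' : TL U} {t t' : Tr U} {ι : FP U} {Y Y' : List U} {y y' : Subgroup U}
  {Q : List (U × U)} {N : ℕ}

theorem forall_tests (ht : RepT tl t) (ht' : RepT tl' t') (h : Rep Y y) (h' : Rep Y' y')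
    (p : ℕ × Bool × U × U → Prop) : (∀ τ ∈ linTests tl tl' ι Y Y' Q, p τ) ↔
      ((∀ x ∈ y, ∀ z ∈ y, p (0, false, x, z)) ∧ (∀ j ∈ t.J, ∀ z ∈ y, p (1, false, j, z)) ∧
        ∀ k ∈ t.K, p (2, false, k, ι.app k)) ∧
      ((∀ x ∈ y', ∀ z ∈ y', p (0, true, x, z)) ∧ (∀ j ∈ t'.J, ∀ z ∈ y', p (1, true, j, z)) ∧
        ∀ k ∈ t'.K, p (2, true, k, ι⁻¹.app k)) ∧
      (∀ q ∈ Q, p (2, false, q.1, q.2) ∧ p (2, true, q.2, q.1)) ∧
      ∀ x ∈ y, ∀ z ∈ y', p (3, false, x, z) := by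
  simp only [linTests, List.forall_mem_append, List.forall_mem_map, mem_prodL, h.mem, h'.mem,
    ht.J.mem, ht.K.mem, ht'.J.mem, ht'.K.mem, Prod.forall, and_imp]
  constructor
  · rintro ⟨⟨⟨⟨⟨⟨⟨⟨h1, h2⟩, h3⟩, h4⟩, h5⟩, h6⟩, h7⟩, h8⟩, h9⟩
    exact ⟨⟨fun x hx z hz => h1 x z hx hz, fun x hx z hz => h3 x z hx hz, h5⟩,
      ⟨fun x hx z hz => h2 x z hx hz, fun x hx z hz => h4 x z hx hz, h6⟩,
      fun a b hq => ⟨h7 a b hq, h8 a b hq⟩, fun x hx z hz => h9 x z hx hz⟩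
  · rintro ⟨⟨h1, h3, h5⟩, ⟨h2, h4, h6⟩, h7, h9⟩
    exact ⟨⟨⟨⟨⟨⟨⟨⟨fun x z hx hz => h1 x hx z hz, fun x z hx hz => h2 x hx z hz⟩,
      fun x z hx hz => h3 x hx z hz⟩, fun x z hx hz => h4 x hx z hz⟩, h5⟩, h6⟩,
      fun a b hq => (h7 a b hq).1⟩, fun a b hq => (h7 a b hq).2⟩, fun x z hx hz => h9 x hx z hz⟩

theorem ok_all (ht : RepT tl t) (ht' : RepT tl' t') (h : Rep Y y) (h' : Rep Y' y') (g : Good t y)
    (g' : Good t' y') (hl : Link t t' ι.perm) (hQ : ∀ q ∈ Q, q.1 ∈ y ∧ q.2 ∈ y')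
    (hN : Y.length ≤ N) (hN' : Y'.length ≤ N) : ∀ τ ∈ linTests tl tl' ι Y Y' Q,
      Ok (MM y y') (DD t t' y y') N (fun b => linTest b tl.2.2 tl'.2.2 ι τ) := by
  rw [forall_tests ht ht' h h']
  have e : Rep (bif true then tl.2.2 else tl'.2.2) t.E := ht.E
  have e' : Rep (bif false then tl.2.2 else tl'.2.2) t'.E := ht'.E
  exact ⟨⟨fun x hx z hz => ok0 g' e' h' hN' (fun _ => MM.l) (fun _ => DD.l) hx hz,
    fun j hj z hz => ok1 g' e' h' hN' (fun _ => MM.l) (fun _ => DD.l) (g.nY j hj z hz) hz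
      ((hl.J j).1 hj),
    fun k hk => ok2 g' e' h' hN' (fun _ => MM.l) (fun _ => DD.l) (g.KY hk)
      (g'.KY ((hl.K k).1 hk))⟩,
    ⟨fun x hx z hz => ok0 g e h hN (fun _ => MM.r) (fun _ => DD.r) hx hz,
    fun j hj z hz => ok1 g e h hN (fun _ => MM.r) (fun _ => DD.r) (g'.nY j hj z hz) hz
      ((hl.symm.J j).1 hj),
    fun k hk => ok2 g e h hN (fun _ => MM.r) (fun _ => DD.r) (g'.KY hk)
      (g.KY ((hl.symm.K k).1 hk))⟩,
    fun q hq => ⟨ok2 g' e' h' hN' (fun _ => MM.l) (fun _ => DD.l) (hQ q hq).1 (hQ q hq).2,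
      ok2 g e h hN (fun _ => MM.r) (fun _ => DD.r) (hQ q hq).2 (hQ q hq).1⟩,
    fun x hx z hz => ok3 g g' hl h' hN' hx hz⟩

theorem tests_iff (ht : RepT tl t) (ht' : RepT tl' t') (h : Rep Y y) (h' : Rep Y' y') (b : Bool)
    (F : FB U) : (∀ τ ∈ linTests tl tl' ι Y Y' Q, linTest b tl.2.2 tl'.2.2 ι τ F = true) ↔
      ((∀ x ∈ y, ∀ z ∈ y, (F.app (false, x * z))⁻¹ * F.app (false, x) * F.app (false, z) ∈ t'.E) ∧
        (∀ j ∈ t.J, ∀ z ∈ y, (F.app (false, j * z * j⁻¹))⁻¹ *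
          (ι.app j * F.app (false, z) * (ι.app j)⁻¹) ∈ t'.E) ∧
        ∀ k ∈ t.K, (F.app (false, k))⁻¹ * (bif b then 1 else ι.app k) ∈ t'.E) ∧
      ((∀ x ∈ y', ∀ z ∈ y', (F.app (true, x * z))⁻¹ * F.app (true, x) * F.app (true, z) ∈ t.E) ∧
        (∀ j ∈ t'.J, ∀ z ∈ y', (F.app (true, j * z * j⁻¹))⁻¹ *
          (ι⁻¹.app j * F.app (true, z) * (ι⁻¹.app j)⁻¹) ∈ t.E) ∧
        ∀ k ∈ t'.K, (F.app (true, k))⁻¹ * (bif b then 1 else ι⁻¹.app k) ∈ t.E) ∧
      (∀ q ∈ Q, (F.app (false, q.1))⁻¹ * (bif b then 1 else q.2) ∈ t'.E ∧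
        (F.app (true, q.2))⁻¹ * (bif b then 1 else q.1) ∈ t.E) ∧
      ∀ x ∈ y, ∀ z ∈ y', ι.app ⁅x, F.app (true, z)⁆ = ⁅F.app (false, x), z⁆ := by
  rw [forall_tests ht ht' h h']
  exact and_congr (and_congr (forall₄_congr fun _ _ _ _ => ht'.E.contains _)
    (and_congr (forall₄_congr fun _ _ _ _ => ht'.E.contains _)
      (forall₂_congr fun _ _ => ht'.E.contains _)))
    (and_congr (and_congr (forall₄_congr fun _ _ _ _ => ht.E.contains _)
      (and_congr (forall₄_congr fun _ _ _ _ => ht.E.contains _)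
        (forall₂_congr fun _ _ => ht.E.contains _)))
      (and_congr (forall₂_congr fun _ _ => and_congr (ht'.E.contains _) (ht.E.contains _))
        (forall₄_congr fun _ _ _ _ => beq_iff_eq)))

/-- the homogeneous tests -/
theorem mem_iff (ht : RepT tl t) (ht' : RepT tl' t') (h : Rep Y y) (h' : Rep Y' y') {u : FB U}
    (hu : DD t t' y y' u) :
    (∀ τ ∈ linTests tl tl' ι Y Y' Q, linTest true tl.2.2 tl'.2.2 ι τ u = true) ↔
      HAdj t t' ι.perm y y' Q (fun x => u.app (false, x)) (fun x => u.app (true, x)) := by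
  rw [tests_iff ht ht' h h']
  simp only [cond_true, mul_one, inv_mem_iff]
  exact ⟨fun ⟨⟨h1, h2, h3⟩, ⟨h4, h5, h6⟩, h7, h8⟩ =>
    ⟨⟨hu.mm.l, fun x hx => (mem_cz.1 (hu.l x hx)).2, h1, h2, h3⟩,
      ⟨hu.mm.r, fun x hx => (mem_cz.1 (hu.r x hx)).2, h4, h5, h6⟩, h7, h8⟩,
    fun a => ⟨⟨a.l.mul, a.l.equi, a.l.fix⟩, ⟨a.l'.mul, a.l'.equi, a.l'.fix⟩, a.pin, a.adj⟩⟩

/-- `c` acts on `ι K` as `x` acts on `K` -/
def Act (K : Subgroup U) (ι : FP U) (x c : U) : Prop :=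
  ∀ k ∈ K, ι.app (x * k * x⁻¹) = c * ι.app k * c⁻¹

theorem Act.mul {x c d : U} {K K' z : Subgroup U} (a : Act K ι x c) (hd : d ∈ cz K' z)
    (hK : ∀ k ∈ K, ι.app k ∈ K') : Act K ι x (c * d) := fun k hk => by
  rw [a k hk, mul_assoc c d, (mem_cz.1 hd).2 _ (hK k hk)]
  group

theorem Act.div {x c d : U} {K K' z : Subgroup U} (a : Act K ι x c) (a' : Act K ι x d)
    (hc : c ∈ z) (hd : d ∈ z) (hK : ∀ k ∈ K', ι⁻¹.app k ∈ K) : c⁻¹ * d ∈ cz K' z := by
  refine mem_cz.2 ⟨z.mul_mem (z.inv_mem hc) hd, fun k hk => ?_⟩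
  have e := (a _ (hK k hk)).symm.trans (a' _ (hK k hk))
  rw [FP.app_app_inv] at e
  calc c⁻¹ * d * k = c⁻¹ * (d * k * d⁻¹) * d := by group
    _ = _ := by rw [← e]; group

theorem find_act {K L : List U} {k z : Subgroup U} (hK : Rep K k) (hL : Rep L z) {x c : U}
    (hc : c ∈ z) (a : Act k ι x c) : (L.find? (sameAct K ι x)).getD 1 ∈ z ∧
      Act k ι x ((L.find? (sameAct K ι x)).getD 1) := by
  have e : ∀ d, sameAct K ι x d = true ↔ Act k ι x d := fun d => by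
    simp only [sameAct, List.all_eq_true, beq_iff_eq, hK.mem, Act]
  cases hf : L.find? (sameAct K ι x) with
  | none => exact absurd ((e c).2 a) (List.find?_eq_none.1 hf c ((hL.mem c).2 hc))
  | some d => exact ⟨(hL.mem d).1 (List.mem_of_find?_eq_some hf), (e d).1 (List.find?_some hf)⟩

/-- maps in both directions respecting the action on `K` -/
structure CC (t t' : Tr U) (ι : FP U) (y y' : Subgroup U) (g : FB U) : Prop where
  mm : MM y y' g
  l : ∀ x ∈ y, Act t.K ι x (g.app (false, x))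
  r : ∀ x ∈ y', Act t'.K ι⁻¹ x (g.app (true, x))

theorem CC.mul {g u : FB U} (c : CC t t' ι y y' g) (d : DD t t' y y' u)
    (hl : Link t t' ι.perm) : CC t t' ι y y' (g * u) :=
  ⟨c.mm.mul d.mm, fun x hx => (c.l x hx).mul (d.l x hx) fun k hk => (hl.K k).1 hk,
    fun x hx => (c.r x hx).mul (d.r x hx) fun k hk => (hl.symm.K k).1 hk⟩

theorem CC.div {g u : FB U} (c : CC t t' ι y y' g) (d : CC t t' ι y y' u)
    (hl : Link t t' ι.perm) : DD t t' y y' (g⁻¹ * u) :=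
  ⟨fun x hx => (c.l x hx).div (d.l x hx) (c.mm.l x hx) (d.mm.l x hx)
      fun k hk => (hl.symm.K k).1 hk,
    fun x hx => (c.r x hx).div (d.r x hx) (c.mm.r x hx) (d.mm.r x hx)
      fun k hk => by rw [inv_inv]; exact (hl.K k).1 hk⟩

/-- the inhomogeneous tests -/
theorem pass_iff (ht : RepT tl t) (ht' : RepT tl' t') (h : Rep Y y) (h' : Rep Y' y') {u : FB U}
    (hu : CC t t' ι y y' u) :
    (∀ τ ∈ linTests tl tl' ι Y Y' Q, linTest false tl.2.2 tl'.2.2 ι τ u = true) ↔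
      Adj t t' ι.perm y y' Q (fun x => u.app (false, x)) (fun x => u.app (true, x)) := by
  rw [tests_iff ht ht' h h']
  exact ⟨fun ⟨⟨h1, h2, h3⟩, ⟨h4, h5, h6⟩, h7, h8⟩ =>
    ⟨⟨hu.mm.l, hu.l, h1, h2, h3⟩, ⟨hu.mm.r, hu.r, h4, h5, h6⟩, h7, h8⟩,
    fun a => ⟨⟨a.l.mul, a.l.equi, a.l.fix⟩, ⟨a.l'.mul, a.l'.equi, a.l'.fix⟩, a.pin, a.adj⟩⟩

theorem cc_start (ht : RepT tl t) (ht' : RepT tl' t') (h : Rep Y y) (h' : Rep Y' y')
    {φ θ : U → U} (a : Adj t t' ι.perm y y' Q φ θ) : CC t t' ι y y' (linStart tl tl' ι Y Y') := by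
  have l := fun x hx => find_act (ι := ι) ht.K h' (a.l.maps x hx) (a.l.act x hx)
  have r := fun x hx => find_act (ι := ι⁻¹) ht'.K h (a.l'.maps x hx) (a.l'.act x hx)
  refine ⟨⟨fun x hx => ?_, fun x hx => ?_⟩, fun x hx => ?_, fun x hx => ?_⟩
  · rw [linStart, tab_false h h' _ hx]
    exact (l x hx).1
  · rw [linStart, tab_true h h' _ hx]
    exact (r x hx).1
  · rw [linStart, tab_false h h' _ hx]
    exact (l x hx).2
  · rw [linStart, tab_true h h' _ hx]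
    exact (r x hx).2

theorem adj_congr {φ θ ψ η : U → U} (a : Adj t t' ι.perm y y' Q φ θ) (g : Good t y)
    (g' : Good t' y') (hl : Link t t' ι.perm) (hQ : ∀ q ∈ Q, q.1 ∈ y ∧ q.2 ∈ y')
    (e : ∀ x ∈ y, ψ x = φ x) (e' : ∀ x ∈ y', η x = θ x) : Adj t t' ι.perm y y' Q ψ η :=
  ⟨a.l.congr g g' (fun j hj => (hl.J j).1 hj) (fun j hj => (hl.K j).1 hj)
      fun x hx => Cg.of_eq (e x hx).symm,
    a.l'.congr g' g (fun j hj => (hl.symm.J j).1 hj) (fun j hj => (hl.symm.K j).1 hj)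
      fun x hx => Cg.of_eq (e' x hx).symm,
    fun q hq => by rw [e _ (hQ q hq).1, e' _ (hQ q hq).2]; exact a.pin q hq,
    fun x hx z hz => by rw [e x hx, e' z hz]; exact a.adj x hx z hz⟩

theorem hadj_congr {φ θ ψ η : U → U} (a : HAdj t t' ι.perm y y' Q φ θ) (g : Good t y)
    (g' : Good t' y') (hl : Link t t' ι.perm) (hQ : ∀ q ∈ Q, q.1 ∈ y ∧ q.2 ∈ y')
    (e : ∀ x ∈ y, ψ x = φ x) (e' : ∀ x ∈ y', η x = θ x) : HAdj t t' ι.perm y y' Q ψ η :=
  ⟨a.l.congr g g' (fun j hj => (hl.J j).1 hj) fun x hx => Cg.of_eq (e x hx).symm,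
    a.l'.congr g' g (fun j hj => (hl.symm.J j).1 hj) fun x hx => Cg.of_eq (e' x hx).symm,
    fun q hq => by rw [e _ (hQ q hq).1, e' _ (hQ q hq).2]; exact a.pin q hq,
    fun x hx z hz => by rw [e x hx, e' z hz]; exact a.adj x hx z hz⟩
end tests

end LinA

open LinA in
theorem linLemma : S_TOWER → S_LIN := by
  intro hT U _ _ pad tl tl' t t' ι Y Y' y y' Q N ht ht' h h' g g' hl hQ hN hN' hp ⟨φ, θ, a⟩
  have hg := fun u => mem_gen_iff ht ht' h h' (u := u)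
  have hok := ok_all ht ht' h h' g g' hl hQ hN hN'
  have c0 := cc_start ht ht' h h' a
  have hc : ∀ F, (linStart tl tl' ι Y Y')⁻¹ * F ∈ gen (linGens tl tl' Y Y') →
      CC t t' ι y y' F := fun F hF => by
    have := c0.mul ((hg _).1 hF).1 hl
    rwa [mul_inv_cancel_left] at this
  have hin : ∀ (pre : List (ℕ × Bool × U × U)) τ post, linTests tl tl' ι Y Y' Q = pre ++ τ :: post →
      τ ∈ linTests tl tl' ι Y Y' Q := fun pre τ post e => by rw [e]; simp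
  have hNp : N ≤ pad.length := le_trans (by nlinarith [Nat.zero_le (N ^ 3), Nat.zero_le (N ^ 2)]) hp
  obtain ⟨F, S, e1, e2, e3, e4⟩ := hT (FB U) ((Bool × U) × U) _ (linTest true tl.2.2 tl'.2.2 ι)
    (linTest false tl.2.2 tl'.2.2 ι) pad ((dom Y Y').map (fun a => (a, (1 : U))))
    (linTests tl tl' ι Y Y' Q) (linStart tl tl' ι Y Y') (linGens tl tl' Y Y') N
    (fun u hu hb => FF.ext fun a => by
      by_cases ha : a ∈ dom Y Y'
      · simpa [FF.smul_def] using hb _ (List.mem_map_of_mem ha)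
      · exact ((hg u).1 hu).2 a ha)
    (fun b hb => by
      obtain ⟨⟨c, x⟩, ha, rfl⟩ := List.mem_map.1 hb
      rcases mem_dom.1 ha with ⟨rfl, hx⟩ | ⟨rfl, hx⟩
      · refine ⟨Y'.toFinset.image fun c => ((false, x), c),
          Finset.card_image_le.trans ((List.toFinset_card_le _).trans hN'), fun u hu => ?_⟩
        rw [FF.smul_def, mul_one]
        exact Finset.mem_image_of_mem _ (List.mem_toFinset.2
          ((h'.mem _).2 (((hg u).1 hu).1.mm.l x ((h.mem x).1 hx))))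
      · refine ⟨Y.toFinset.image fun c => ((true, x), c),
          Finset.card_image_le.trans ((List.toFinset_card_le _).trans hN), fun u hu => ?_⟩
        rw [FF.smul_def, mul_one]
        exact Finset.mem_image_of_mem _ (List.mem_toFinset.2
          ((h.mem _).2 (((hg u).1 hu).1.mm.r x ((h'.mem x).1 hx)))))
    (by
      refine le_trans ?_ hp
      simp only [dom, List.length_map, List.length_append]
      nlinarith [Nat.zero_le (N ^ 3), Nat.mul_le_mul_right N (Nat.add_le_add hN hN')])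
    (fun τ hτ => by
      obtain ⟨Z, L, W, -, -, w1, w2⟩ := hok τ hτ
      have d1 := ((hg 1).1 (Subgroup.one_mem _)).1
      have := w2 true 1 1 d1.mm d1
      rw [mul_one, Cg, inv_mul_cancel_left] at this
      exact (w1 true 1).2 this)
    (fun pre τ post e u hu v hv _ _ mu mv => by
      obtain ⟨Z, L, W, -, -, w1, w2⟩ := hok τ (hin _ _ _ e)
      have := w2 true u (u⁻¹ * v) ((hg u).1 hu).1.mm
        ((hg _).1 (Subgroup.mul_mem _ (Subgroup.inv_mem _ hu) hv)).1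
      rw [mul_inv_cancel_left] at this
      exact (w1 true _).2 ((Z.mul_mem_cancel_left ((w1 true u).1 mu)).1
        ((this.mem_iff le_rfl).1 ((w1 true v).1 mv))))
    (fun pre τ post e l hl1 hl2 => by
      obtain ⟨Z, L, W, w0, w3, w1, w2⟩ := hok τ (hin _ _ _ e)
      refine le_trans (length_le_of_invariant (W true) L
        (fun u hu => w3 u ((hg u).1 (hl1 u hu).1).1.mm) hl2 fun u hu v hv euv hf => ?_)
        (w0.trans hNp)
      have := w2 true u (u⁻¹ * v) ((hg u).1 (hl1 u hu).1).1.mm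
        ((hg _).1 (Subgroup.mul_mem _ (Subgroup.inv_mem _ (hl1 u hu).1) (hl1 v hv).1)).1
      rw [mul_inv_cancel_left, euv, Cg, inv_mul_cancel_left] at this
      exact Bool.false_ne_true (hf.symm.trans ((w1 true _).2 this)))
    (fun pre τ post e F hF _ pF u hu _ => by
      obtain ⟨Z, L, W, -, -, w1, w2⟩ := hok τ (hin _ _ _ e)
      have := w2 false F u (hc F hF).mm ((hg u).1 hu).1
      exact Bool.eq_iff_iff.2 ((w1 false _).trans (((this.mem_iff le_rfl).trans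
        (Z.mul_mem_cancel_left ((w1 false F).1 pF))).trans (w1 true u).symm)))
    (by
      have a' := adj_congr a g g' hl hQ
        (fun x hx => tab_false h h' (fun a => bif a.1 then θ a.2 else φ a.2) hx)
        (fun x hx => tab_true h h' (fun a => bif a.1 then θ a.2 else φ a.2) hx)
      have c1 : CC t t' ι y y' (FF.tab (dom Y Y') fun a => bif a.1 then θ a.2 else φ a.2) :=
        ⟨⟨a'.l.maps, a'.l'.maps⟩, a'.l.act, a'.l'.act⟩
      refine ⟨_, (hg _).2 ⟨c0.div c1 hl, fun b hb => ?_⟩, (pass_iff ht ht' h h' c1).2 a'⟩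
      rw [FF.app_mul, FF.app_inv, linStart, tab_out h h' _ hb, tab_out h h' _ hb, inv_one, mul_one])
  refine ⟨F, S, e1, (pass_iff ht ht' h h' (hc F e2)).1 e3, fun u hu => ?_, fun f f' b => ?_⟩
  · obtain ⟨u1, u2⟩ := (e4 u).1 hu
    exact (mem_iff ht ht' h h' ((hg u).1 u1).1).1 u2
  · have l := fun x hx => tab_false h h' (fun a => bif a.1 then f' a.2 else f a.2) (x := x) hx
    have r := fun x hx => tab_true h h' (fun a => bif a.1 then f' a.2 else f a.2) (x := x) hx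
    have b' := hadj_congr b g g' hl hQ l r
    have d : DD t t' y y' (FF.tab (dom Y Y') fun a => bif a.1 then f' a.2 else f a.2) :=
      ⟨fun x hx => mem_cz.2 ⟨b'.l.maps x hx, b'.l.cen x hx⟩,
        fun x hx => mem_cz.2 ⟨b'.l'.maps x hx, b'.l'.cen x hx⟩⟩
    exact ⟨_, (e4 _).2 ⟨(hg _).2 ⟨d, fun c hc => tab_out h h' _ hc⟩,
      (mem_iff ht ht' h h' d).2 b'⟩, l, r⟩

end Pool.Agent.P.MP_f1a348_lc.GI
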