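import Pool.Agent.P.MP_f1a348_lc.GI.ABasic

/-!
Correctness of the isomorphism test for given images of generators.
-/

namespace Pool.Agent.P.MP_f1a348_lc.GI

namespace MatchA
variable {U : Type} [Group U] [DecidableEq U] {J S Z Z' xs xs' : List U} {ι : FP U}

theorem graphB_iff {V : List (U × U)} : graphB J ι Z Z' V = true ↔
    (∀ x ∈ Z, ∃ v ∈ V, v.1 = x) ∧ (∀ y ∈ Z', ∃ v ∈ V, v.2 = y) ∧ (∀ v ∈ V, v.1 = 1 ↔ v.2 = 1) ∧
      ∀ j ∈ J, ∀ v ∈ V, (j * v.1 * j⁻¹, ι.app j * v.2 * (ι.app j)⁻¹) ∈ V := by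
  have e : ∀ a b : U, (a == 1) = (b == 1) ↔ (a = 1 ↔ b = 1) := fun a b => by
    rw [Bool.eq_iff_iff, beq_iff_eq, beq_iff_eq]
  simp only [graphB, Bool.and_eq_true, List.all_eq_true, List.any_eq_true, beq_iff_eq,
    List.contains_iff_mem, and_assoc, e]

theorem matchB_iff : matchB J S ι Z Z' xs xs' = true ↔
    (∀ p ∈ graphGens S ι xs xs', p.1 ∈ Z ∧ p.2 ∈ Z') ∧
      graphB J ι Z Z' (graphOf S ι Z Z' xs xs') = true := by
  simp only [matchB, Bool.and_eq_true, List.all_eq_true, List.contains_iff_mem]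

omit [Group U] [DecidableEq U] in
theorem mem_gens {p : U × U} : p ∈ graphGens S ι xs xs' ↔
    p ∈ xs.zip xs' ∨ ∃ a ∈ S, (a, ι.app a) = p := by
  rw [graphGens, List.mem_append, List.mem_map]

/-- the graph of an isomorphism -/
def graph {j s z z' : Subgroup U} {κ γ : U → U} (h : IsoOn j s κ z z' γ) : Subgroup (U × U) where
  carrier := {v | v.1 ∈ z ∧ γ v.1 = v.2}
  mul_mem' ha hb := ⟨z.mul_mem ha.1 hb.1, (h.mul _ ha.1 _ hb.1).trans (congrArg₂ _ ha.2 hb.2)⟩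
  one_mem' := ⟨z.one_mem, h.one⟩
  inv_mem' ha := ⟨z.inv_mem ha.1, (h.inv ha.1).trans (congrArg _ ha.2)⟩

end MatchA

open MatchA in
theorem matchLemma : S_MATCH := by
  intro U _ _ J S ι Z Z' xs xs' j s z z' hj hJ hs hS h1 hZ hZ'
  have rep := fun h : gen (graphGens S ι xs xs') ≤ z.prod z' =>
    (clo_rep (hZ.prod hZ') (gen_le.1 h)).mem
  refine ⟨fun h => ?_, fun γ h hz hn hx => ?_⟩
  · obtain ⟨hg, h⟩ := matchB_iff.1 h
    have hle : gen (graphGens S ι xs xs') ≤ z.prod z' :=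
      gen_le.2 fun p hp => ⟨(hZ.mem _).1 (hg p hp).1, (hZ'.mem _).1 (hg p hp).2⟩
    simp only [graphB_iff, graphOf, rep hle, hZ.mem, hZ'.mem] at h ⊢
    obtain ⟨h2, h3, h4, h5⟩ := h
    obtain ⟨γ, hb, hm, hγ, hv⟩ := exists_of_graph _ z z' (fun v hv => hle hv) h2 h3 h4
    refine ⟨γ, ⟨hb, hm, fun a ha x hx => ?_, fun a ha => ?_⟩,
      fun p hp => hγ p (mem_gen (mem_gens.2 (Or.inl hp))),
      fun v => ⟨fun e => ⟨(hle e).1, hγ v e⟩, fun e => ?_⟩⟩
    · by_cases e : a = 1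
      · simp [e, h1]
      · exact hγ _ (h5 a (hj a ha e) _ (hv x hx))
    · by_cases e : a = 1
      · rw [e, h1]
        exact hγ 1 (Subgroup.one_mem _)
      · exact hγ _ (mem_gen (mem_gens.2 (Or.inr ⟨a, hs a ha e, rfl⟩)))
    · have := hv _ e.1
      rwa [e.2] at this
  · have hzip : xs.zip xs' = xs.map fun a => (a, γ a) := by
      simpa [hx] using List.zip_map' (f := id) (g := γ) (l := xs)
    have hΓ : gen (graphGens S ι xs xs') ≤ graph h := gen_le.2 fun p hp => by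
      rcases mem_gens.1 hp with hp | ⟨a, ha, rfl⟩
      · obtain ⟨a, ha, rfl⟩ := List.mem_map.1 (hzip ▸ hp)
        exact ⟨hz.ge (Subgroup.mem_sup_right (mem_gen ha)), rfl⟩
      · exact ⟨hz.ge (Subgroup.mem_sup_left (hS a ha)), h.fix a (hS a ha)⟩
    have hle : gen (graphGens S ι xs xs') ≤ z.prod z' := fun v hv =>
      ⟨(hΓ hv).1, (hΓ hv).2 ▸ h.maps (hΓ hv).1⟩
    have h2 : z ≤ (gen (graphGens S ι xs xs')).map (MonoidHom.fst U U) :=
      hz.le.trans (sup_le (fun a ha => by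
        by_cases e : a = 1
        · exact e ▸ Subgroup.one_mem _
        · exact ⟨_, mem_gen (mem_gens.2 (Or.inr ⟨a, hs a ha e, rfl⟩)), rfl⟩)
        (gen_le.2 fun a ha => ⟨(a, γ a), mem_gen (mem_gens.2 (Or.inl
          (hzip ▸ List.mem_map_of_mem ha))), rfl⟩))
    have hv : ∀ x ∈ z, (x, γ x) ∈ gen (graphGens S ι xs xs') := fun x hx => by
      obtain ⟨w, hw, rfl⟩ := h2 hx
      rwa [MonoidHom.coe_fst, (hΓ hw).2]
    rw [matchB_iff]
    simp only [graphB_iff, graphOf, rep hle, hZ.mem, hZ'.mem]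
    refine ⟨fun p hp => hle (mem_gen hp), fun x hx => ⟨_, hv x hx, rfl⟩, fun y hy => ?_,
      fun v e => ?_, fun a ha v e => ?_⟩
    · obtain ⟨x, hx, rfl⟩ := h.surj hy
      exact ⟨_, hv x hx, rfl⟩
    · rw [← (hΓ e).2]
      exact ⟨fun e' => e' ▸ h.one, fun e' => h.inj (hΓ e).1 z.one_mem (e'.trans h.one.symm)⟩
    · rw [← (hΓ e).2, ← h.equi a (hJ a ha) _ (hΓ e).1]
      exact hv _ (hn a (hJ a ha) _ (hΓ e).1)

end Pool.Agent.P.MP_f1a348_lc.GI
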