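import Pool.Agent.P.MP_f1a348_lc.GI.MDefs

/-! A large commuting probability gives a large normal subgroup with small conjugacy classes. -/

namespace Pool.Agent.P.MP_f1a348_lc.GI

open Subgroup
open scoped Pointwise Classical

namespace NeuA

variable {G : Type} [Group G]

theorem sub_succ {X : Finset G} (h1 : (1 : G) ∈ X) (i : ℕ) : X ^ i ⊆ X ^ (i + 1) := fun x hx => by
  rw [pow_succ]
  exact Finset.mem_mul.2 ⟨x, hx, 1, h1, mul_one x⟩

theorem grow {X : Finset G} (h1 : (1 : G) ∈ X) (hi : ∀ x ∈ X, x⁻¹ ∈ X) (j : ℕ)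
    (h : ∀ i ≤ 3 * j, X ^ i ≠ X ^ (i + 1)) : (j + 1) * X.card ≤ (X ^ (3 * j + 1)).card := by
  induction j with
  | zero => simp
  | succ j ih =>
    have h2 := ih fun i hij => h i (by omega)
    obtain ⟨x, hx, hn⟩ : ∃ x ∈ X ^ (3 * j + 3), x ∉ X ^ (3 * j + 2) := by
      by_contra hc
      push Not at hc
      exact h (3 * j + 2) (by omega) (Finset.Subset.antisymm (sub_succ h1 _) hc)
    have hd : Disjoint (X ^ (3 * j + 1)) (x • X) := by
      rw [Finset.disjoint_left]
      intro z hz hz'
      obtain ⟨y, hy, rfl⟩ := Finset.mem_smul_finset.1 hz'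
      apply hn
      rw [pow_succ]
      exact Finset.mem_mul.2 ⟨_, hz, y⁻¹, hi y hy, by simp⟩
    have hs : X ^ (3 * j + 1) ∪ x • X ⊆ X ^ (3 * (j + 1) + 1) := by
      refine Finset.union_subset
        ((sub_succ h1 _).trans ((sub_succ h1 _).trans (sub_succ h1 _))) fun z hz => ?_
      obtain ⟨y, hy, rfl⟩ := Finset.mem_smul_finset.1 hz
      rw [pow_succ]
      exact Finset.mem_mul.2 ⟨x, hx, y, hy, rfl⟩
    have h3 := Finset.card_le_card hs
    rw [Finset.card_union_of_disjoint hd, Finset.card_smul_finset] at h3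
    rw [add_mul (j + 1), one_mul]
    omega

theorem closure_sub {X : Finset G} (h1 : (1 : G) ∈ X) (hi : ∀ x ∈ X, x⁻¹ ∈ X) {i : ℕ}
    (h : X ^ i = X ^ (i + 1)) {x : G} (hx : x ∈ closure (X : Set G)) : x ∈ X ^ i := by
  have key : ∀ a ∈ X ^ i, ∀ y ∈ X, a * y ∈ X ^ i := fun a ha y hy => by
    rw [h, pow_succ]
    exact Finset.mul_mem_mul ha hy
  induction hx using closure_induction_right with
  | one => exact Finset.one_mem_pow h1
  | mul_right a _ y hy ha => exact key a ha y hy
  | mul_inv_cancel a _ y hy ha => exact key a ha _ (hi y hy)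

theorem index_pow [Finite G] {X : Finset G} {c : ℕ} (h : ∀ x ∈ X, (centralizer {x}).index ≤ c)
    (k : ℕ) : ∀ x ∈ X ^ k, (centralizer {x}).index ≤ c ^ k := by
  induction k with
  | zero =>
    intro x hx
    rw [pow_zero, Finset.mem_one] at hx
    subst hx
    have : centralizer ({1} : Set G) = ⊤ := by
      ext g; simp [mem_centralizer_singleton_iff]
    rw [this, index_top, pow_zero]
  | succ k ih =>
    intro x hx
    rw [pow_succ] at hx
    obtain ⟨a, ha, y, hy, rfl⟩ := Finset.mem_mul.1 hx
    have hle : centralizer {a} ⊓ centralizer {y} ≤ centralizer {a * y} := fun g hg => by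
      rw [mem_inf, mem_centralizer_singleton_iff, mem_centralizer_singleton_iff] at hg
      rw [mem_centralizer_singleton_iff, ← mul_assoc, hg.1, mul_assoc, hg.2, mul_assoc]
    exact (index_antitone hle).trans (index_inf_le.trans
      (pow_succ c k ▸ Nat.mul_le_mul (ih a ha) (h y hy)))

theorem index_conj (g x : G) :
    (centralizer {g * x * g⁻¹}).index = (centralizer ({x} : Set G)).index := by
  rw [← index_comap_of_surjective (centralizer {g * x * g⁻¹})
    (f := (MulAut.conj g).toMonoidHom) (MulAut.conj g).surjective]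
  congr 1
  ext y
  simp only [mem_comap, mem_centralizer_singleton_iff, MulEquiv.coe_toMonoidHom,
    MulAut.conj_apply]
  constructor
  · intro h
    calc y * x = g⁻¹ * (g * y * g⁻¹ * (g * x * g⁻¹)) * g := by group
      _ = x * y := by rw [h]; group
  · intro h
    calc g * y * g⁻¹ * (g * x * g⁻¹) = g * (y * x) * g⁻¹ := by group
      _ = _ := by rw [h]; group

theorem card_comm [Fintype G] :
    Nat.card {p : G × G // Commute p.1 p.2} = ∑ x : G, Nat.card (centralizer ({x} : Set G)) := by
  rw [← Nat.card_sigma]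
  exact Nat.card_congr
    { toFun := fun p => ⟨p.1.1, p.1.2, mem_centralizer_singleton_iff.2 p.2.symm⟩
      invFun := fun s => ⟨(s.1, s.2.1), (mem_centralizer_singleton_iff.1 s.2.2).symm⟩
      left_inv := fun _ => rfl
      right_inv := fun _ => rfl }

end NeuA

open NeuA

theorem neu : S_NEU := by
  intro q
  refine ⟨max (2 * q) ((2 * q) ^ (6 * q)), fun G _ _ h => ?_⟩
  have := Fintype.ofFinite G
  have hn : 0 < Nat.card G := Nat.card_pos
  have hq : 0 < q := Nat.pos_of_ne_zero fun h0 => by
    rw [h0, zero_mul] at h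
    exact absurd h (not_le.2 (pow_pos hn 2))
  set X : Finset G := Finset.univ.filter fun x => (centralizer {x}).index ≤ 2 * q with hX
  have mX : ∀ x, x ∈ X ↔ (centralizer {x}).index ≤ 2 * q := fun x => by simp [hX]
  have h1 : (1 : G) ∈ X := by
    have : centralizer ({1} : Set G) = ⊤ := by
      ext g; simp [mem_centralizer_singleton_iff]
    rw [mX, this, index_top]; omega
  have hi : ∀ x ∈ X, x⁻¹ ∈ X := fun x hx => by
    have : centralizer ({x⁻¹} : Set G) = centralizer {x} := by
      ext g
      rw [mem_centralizer_singleton_iff, mem_centralizer_singleton_iff]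
      exact Commute.inv_right_iff
    rwa [mX, this, ← mX]
  have hc : Nat.card G ≤ 2 * q * X.card := by
    have h2 : ∀ x : G, 2 * q * Nat.card (centralizer ({x} : Set G)) ≤
        (if x ∈ X then 2 * q * Nat.card G else 0) + Nat.card G := fun x => by
      have h3 := (centralizer ({x} : Set G)).index_mul_card
      split_ifs with hx
      · exact (Nat.mul_le_mul_left _ (card_le_card_group _)).trans (Nat.le_add_right _ _)
      · rw [zero_add, ← h3]
        exact Nat.mul_le_mul_right _ (by rw [mX] at hx; omega)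
    have h3 := Finset.sum_le_sum fun x (_ : x ∈ Finset.univ) => h2 x
    rw [← Finset.mul_sum, ← card_comm, Finset.sum_add_distrib, Finset.sum_ite_mem,
      Finset.univ_inter, Finset.sum_const, Finset.sum_const, Finset.card_univ,
      ← Nat.card_eq_fintype_card, smul_eq_mul, smul_eq_mul] at h3
    refine Nat.le_of_mul_le_mul_right ?_ hn
    nlinarith
  obtain ⟨i, hi6, he⟩ : ∃ i ≤ 3 * (2 * q), X ^ i = X ^ (i + 1) := by
    by_contra hcon
    push Not at hcon
    have h2 := (grow h1 hi (2 * q) hcon).trans (Finset.card_le_univ _)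
    rw [← Nat.card_eq_fintype_card, add_mul] at h2
    have := Finset.card_pos.2 ⟨1, h1⟩
    omega
  refine ⟨closure (X : Set G), ⟨fun x hx g => ?_⟩, le_max_of_le_left ?_, fun x hx =>
    le_max_of_le_right ((index_pow (fun x hx => (mX x).1 hx) i x (closure_sub h1 hi he hx)).trans
      (Nat.pow_le_pow_right (by omega) (by omega)))⟩
  · induction hx using closure_induction with
    | mem x hx => exact subset_closure ((mX _).2 (by rw [index_conj]; exact (mX x).1 hx))
    | one => simp
    | mul x y _ _ hx hy =>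
      rw [show g * (x * y) * g⁻¹ = g * x * g⁻¹ * (g * y * g⁻¹) by group]
      exact mul_mem hx hy
    | inv x _ hx =>
      rw [show g * x⁻¹ * g⁻¹ = (g * x * g⁻¹)⁻¹ by group]
      exact inv_mem hx
  · have h2 : X.card ≤ Nat.card (closure (X : Set G)) := by
      rw [← Set.ncard_coe_finset]
      exact Set.ncard_le_ncard subset_closure
    refine Nat.le_of_mul_le_mul_right ?_ (Nat.card_pos (α := closure (X : Set G)))
    rw [index_mul_card]
    exact hc.trans (Nat.mul_le_mul_left _ h2)

end Pool.Agent.P.MP_f1a348_lc.GI
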