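import Pool.Agent.P.MP_f1a348_lc.GI.ABasic

/-!
The permutation attached to a quasi-homomorphism, and the order of the commutator tests.
-/

namespace Pool.Agent.P.MP_f1a348_lc.GI

open scoped commutatorElement

namespace NormA

theorem rep_spec {U : Type} [Group U] [DecidableEq U] {K Y : List U} {k y : Subgroup U}
    (hK : Rep K k) (hY : Rep Y y) {x : U} (hx : x ∈ y) :
    rep K Y x ∈ y ∧ x * (rep K Y x)⁻¹ ∈ k := by
  have h1 : (Y.find? (fun r => K.contains (x * r⁻¹))).isSome = true :=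
    List.find?_isSome.2 ⟨x, (hY.mem x).2 hx, (hK.contains _).2 (by simp)⟩
  obtain ⟨r, hr⟩ := Option.isSome_iff_exists.1 h1
  have h2 : rep K Y x = r := by rw [rep, hr]; rfl
  rw [h2]
  have h3 := List.find?_some hr
  exact ⟨(hY.mem r).1 (List.mem_of_find?_eq_some hr), (hK.contains _).1 h3⟩

theorem rep_congr {U : Type} [Group U] [DecidableEq U] {K Y : List U} {k : Subgroup U}
    (hK : Rep K k) {x x' : U} (h : x' * x⁻¹ ∈ k) : rep K Y x = rep K Y x' := by
  have h1 : (fun r => K.contains (x * r⁻¹)) = fun r => K.contains (x' * r⁻¹) := by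
    funext r
    rw [Bool.eq_iff_iff, hK.contains, hK.contains, ← k.mul_mem_cancel_left h]
    simp [mul_assoc]
  rw [rep, rep, h1]

theorem flat_split {α β : Type} {l : List α} {f : α → List β} {pre post : List β} {p : β}
    (h : l.flatMap f = pre ++ p :: post) :
    ∃ l₁ a l₂ m₁ m₂, l = l₁ ++ a :: l₂ ∧ f a = m₁ ++ p :: m₂ ∧ pre = l₁.flatMap f ++ m₁ := by
  induction l generalizing pre with
  | nil => simp at h
  | cons a l ih =>
    rw [List.flatMap_cons] at h
    have key : ∀ s, pre = f a ++ s → l.flatMap f = s ++ p :: post →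
        ∃ l₁ b l₂ m₁ m₂, a :: l = l₁ ++ b :: l₂ ∧ f b = m₁ ++ p :: m₂ ∧
          pre = l₁.flatMap f ++ m₁ := by
      intro s h1 h2
      obtain ⟨l₁, b, l₂, m₁, m₂, e1, e2, e3⟩ := ih h2
      exact ⟨a :: l₁, b, l₂, m₁, m₂, by rw [e1]; rfl, e2, by
        rw [h1, e3, List.flatMap_cons, List.append_assoc]⟩
    rcases List.append_eq_append_iff.1 h with ⟨s, h1, h2⟩ | ⟨s, h1, h2⟩
    · exact key s h1 h2
    · cases s with
      | nil => exact key [] (by simpa using h1.symm) (by simpa using h2.symm)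
      | cons q s =>
        obtain ⟨rfl, -⟩ := List.cons.inj h2
        exact ⟨[], a, l, pre, s, rfl, h1, rfl⟩

theorem range_split {n i : ℕ} {l₁ l₂ : List ℕ} (h : (List.range (n + 1)).reverse = l₁ ++ i :: l₂) :
    i ≤ n ∧ (i < n → i + 1 ∈ l₁) := by
  have hm : ∀ j, j ∈ l₁ ++ i :: l₂ ↔ j ≤ n := fun j => by
    rw [← h, List.mem_reverse, List.mem_range, Nat.lt_succ_iff]
  refine ⟨(hm i).1 (by simp), fun hi => ?_⟩
  have hp : (l₁ ++ i :: l₂).Pairwise (fun a b => b < a) := by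
    rw [← h, List.pairwise_reverse]
    exact List.pairwise_lt_range
  have h1 := (List.pairwise_cons.1 (List.pairwise_append.1 hp).2.1).1
  rcases List.mem_append.1 ((hm (i + 1)).2 hi) with h2 | h2
  · exact h2
  · rcases List.mem_cons.1 h2 with h3 | h3
    · omega
    · have := h1 _ h3
      omega

end NormA

theorem norm : S_NORM := by
  intro U _ _ K Y t t' ι y y' h F hK hY g g' hl hq hinj
  set φ : U → U := fun x => (bif h then x else 1) * F.app (false, x) with hφ
  set ψ : U → U := fun x => ι.app (x * (rep K Y x)⁻¹) * φ (rep K Y x) with hψ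
  have hP : normP K Y ι h F = FP.ofList (Y.map (fun x => (x, ψ x))) := rfl
  have h1 : ∀ x ∈ y, Cg t'.E (φ x) (ψ x) := by
    intro x hx
    obtain ⟨h2, h3⟩ := NormA.rep_spec hK hY hx
    have h4 := hq.Kmul g g' h2 h3
    rwa [inv_mul_cancel_right] at h4
  have h2 : ∀ a ∈ Y, ∀ b ∈ Y, ψ a = ψ b → a = b := by
    intro a ha b hb e
    have ha' := (hY.mem a).1 ha
    have hb' := (hY.mem b).1 hb
    have h3 : Cg t'.E (φ a) (φ b) := (h1 a ha').trans (e ▸ (h1 b hb').symm)
    have h4 : Cg t'.E (φ (a⁻¹ * b)) ((φ a)⁻¹ * φ b) :=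
      (hq.mul' (y.inv_mem ha') hb').trans ((hq.inv' ha').right (g'.nmE (hq.maps b hb')))
    have h5 : φ (a⁻¹ * b) ∈ t'.K := (h4.mem_iff g'.EK).2 (g'.EK h3)
    have h6 : a⁻¹ * b ∈ t.K := hinj _ (y.mul_mem (y.inv_mem ha') hb') h5
    have h7 : b * a⁻¹ ∈ t.K := by simpa using g.conjK ha' h6
    have h8 := NormA.rep_congr (Y := Y) hK h7
    simp only [hψ, h8] at e
    exact mul_right_cancel (ι.app_injective (mul_right_cancel e))
  refine ⟨fun x hx => ?_, fun a ha ha' => ?_⟩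
  · rw [hP, FP.ofList_map h2 ((hY.mem x).2 hx)]
    exact (h1 x hx).symm
  · rw [hP]
    refine FP.ofList_fix fun p hp => ?_
    obtain ⟨x, hx, rfl⟩ := List.mem_map.1 hp
    have hx' := (hY.mem x).1 hx
    refine ⟨fun e => ha (e ▸ hx'), fun e => ha' ?_⟩
    rw [← e]
    exact ((h1 x hx').mem_iff g'.EY).1 (hq.maps x hx')

theorem deep : S_DEEP := by
  intro U _ t t' ι y y' P A n pre post p φ w r r' g g' hl hA hn hp hq hpre hr hw
  have hp' : (List.range (n + 1)).reverse.flatMap (fun i => (List.range (n + 1)).reverse.flatMap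
      (fun j => prodL (A i) (A j))) = pre ++ p :: post := by
    rw [← hp, pairTests, List.flatMap_map]
    simp only [List.flatMap_map]
  obtain ⟨l₁, i, l₂, m₁, m₂, e1, e2, e3⟩ := NormA.flat_split hp'
  obtain ⟨k₁, j, k₂, s₁, s₂, e4, e5, e6⟩ := NormA.flat_split e2
  obtain ⟨hi, hi'⟩ := NormA.range_split e1
  obtain ⟨hj, hj'⟩ := NormA.range_split e4
  have hmem : p ∈ prodL (A i) (A j) := by rw [e5]; simp
  have ha : p.1 ∈ Filt t y P i := ((hA i).mem _).1 (mem_prodL.1 hmem).1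
  have hb : p.2 ∈ Filt t y P j := ((hA j).mem _).1 (mem_prodL.1 hmem).2
  have H1 : ∀ u ∈ Filt t y P (i + 1), ∀ v ∈ Filt t y P j, cdef ι φ u v = 1 := by
    intro u hu v hv
    rcases hi.lt_or_eq with h | rfl
    · refine hpre (u, v) ?_
      rw [e3]
      refine List.mem_append_left _ (List.mem_flatMap.2 ⟨i + 1, hi' h, List.mem_flatMap.2
        ⟨j, ?_, mem_prodL.2 ⟨((hA _).mem _).2 hu, ((hA _).mem _).2 hv⟩⟩⟩)
      rw [e4]
      simp
    · exact hq.cdef_K_left hl g g' (hn (filt_succ_le g _ hu)) (filt_le g _ hv)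
  have H2 : ∀ u ∈ Filt t y P i, ∀ v ∈ Filt t y P (j + 1), cdef ι φ u v = 1 := by
    intro u hu v hv
    rcases hj.lt_or_eq with h | rfl
    · refine hpre (u, v) ?_
      rw [e3, e6]
      exact List.mem_append_right _ (List.mem_append_left _ (List.mem_flatMap.2 ⟨j + 1, hj' h,
        mem_prodL.2 ⟨((hA _).mem _).2 hu, ((hA _).mem _).2 hv⟩⟩))
    · exact hq.cdef_K_right hl g g' (filt_le g _ hu) (hn (filt_succ_le g _ hv))
  have key : ∀ m, ∀ x ∈ Filt t y P m, ∃ d ∈ Filt t y P (m + 1), w x = x * d := by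
    intro m x hx
    obtain ⟨e, he, h⟩ := (hw x (filt_le g _ hx)).symm.exists_eq
    exact ⟨r x * e, Subgroup.mul_mem _ (hr.map_filt hx) (le_filt g _ (g.EK he)), by
      rw [h, mul_assoc]⟩
  have ha' := filt_le g _ ha
  have hb' := filt_le g _ hb
  refine ⟨ha', hb', ?_⟩
  obtain ⟨d, hd, h1⟩ := key i _ ha
  obtain ⟨d', hd', h2⟩ := key j _ hb
  have hbd : p.2 * d' ∈ Filt t y P j := Subgroup.mul_mem _ hb (filt_succ_le g _ hd')
  rw [h1, h2, hq.cdef_mul_left hl g g' ha' (filt_le g _ hd) (filt_le g _ hbd), H1 d hd _ hbd,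
    one_mul, hq.cdef_mul_right hl g g' ha' hb' (filt_le g _ hd'), H2 _ ha d' hd', mul_one]

end Pool.Agent.P.MP_f1a348_lc.GI
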