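import Pool.Agent.P.MP_f1a348_lc.GI.Basic

/-!
Stable cancellation of a summand that occurs twice, by counting maps with prescribed defects.
-/

namespace Pool.Agent.P.MP_f1a348_lc.GI

open Subgroup

namespace P1A

/-- counting along a partition -/
theorem card_fib {α A : Type} [Finite α] [Fintype A] (Q : α → Prop) (R : A → α → Prop)
    (h1 : ∀ x, Q x ↔ ∃ c, R c x) (h2 : ∀ c c' x, R c x → R c' x → c = c') :
    Nat.card {x // Q x} = ∑ c, Nat.card {x // R c x} := by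
  rw [← Nat.card_sigma]
  symm
  refine Nat.card_congr (Equiv.ofBijective
    (fun p : Σ c, {x // R c x} => (⟨p.2.1, (h1 _).2 ⟨p.1, p.2.2⟩⟩ : {x // Q x})) ⟨?_, ?_⟩)
  · rintro ⟨c, x, h⟩ ⟨c', x', h'⟩ e
    have e1 : x = x' := congrArg Subtype.val e
    subst e1
    have e2 := h2 c c' x h h'
    subst e2
    rfl
  · rintro ⟨x, hx⟩
    obtain ⟨c, hc⟩ := (h1 x).1 hx
    exact ⟨⟨c, x, hc⟩, rfl⟩

variable {U : Type} [Group U]

/-- the factorizations in a central product -/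
theorem exists_equiv {t : Tr U} {Y X Y₁ : Subgroup U} (d : Decomp t Y X Y₁) (g : Good t Y) :
    ∃ e : Y × t.E ≃ Y₁ × X, ∀ p, ((e p).1 : U) * (e p).2 = p.1 := by
  classical
  choose! a ha x hx hy using d.prod
  have hE1 : t.E ≤ Y₁ := g.EK.trans d.KY
  refine ⟨Equiv.ofBijective (fun p : Y × t.E =>
    ((⟨a p.1 * p.2, Y₁.mul_mem (ha _ p.1.2) (hE1 p.2.2)⟩ : Y₁),
      (⟨(p.2 : U)⁻¹ * x p.1, X.mul_mem (X.inv_mem (d.EX p.2.2)) (hx _ p.1.2)⟩ : X))) ⟨?_, ?_⟩, ?_⟩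
  · rintro ⟨y, e⟩ ⟨y', e'⟩ h
    simp only [Prod.mk.injEq, Subtype.mk.injEq] at h
    have h1 : (y : U) = y' := by
      rw [hy y y.2, hy y' y'.2]
      calc a y * x y = (a y * e) * ((e : U)⁻¹ * x y) := by group
        _ = (a y' * e') * ((e' : U)⁻¹ * x y') := by rw [h.1, h.2]
        _ = _ := by group
    have h2 : (e : U) = e' := by
      have := h.1
      rw [h1] at this
      exact mul_left_cancel this
    exact Prod.ext (Subtype.ext h1) (Subtype.ext h2)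
  · rintro ⟨b, z⟩
    have hbz : (b : U) * z ∈ Y := Y.mul_mem (d.YY b.2) (d.XY z.2)
    have e1 := hy _ hbz
    have e2 : (a (b * z))⁻¹ * b = x (b * z) * (z : U)⁻¹ := by
      rw [inv_mul_eq_iff_eq_mul, ← mul_assoc, ← e1]; simp
    have hE : (a (b * z))⁻¹ * b ∈ t.E :=
      d.inter _ (e2 ▸ X.mul_mem (hx _ hbz) (X.inv_mem z.2))
        (Y₁.mul_mem (Y₁.inv_mem (ha _ hbz)) b.2)
    refine ⟨(⟨_, hbz⟩, ⟨_, hE⟩), Prod.ext (Subtype.ext ?_) (Subtype.ext ?_)⟩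
    · simp
    · simp only [e2]; simp
  · rintro ⟨y, e⟩
    show a y * e * ((e : U)⁻¹ * x y) = y
    rw [mul_assoc, mul_inv_cancel_left]
    exact (hy y y.2).symm

/-- the index set of the defects -/
abbrev Ix (t : Tr U) (T : Subgroup U) (L : Set T) : Type := (T × T) ⊕ (t.J × T) ⊕ t.K ⊕ L

/-- the defects of a map -/
def D {t : Tr U} {T : Subgroup U} (g : Good t T) (L : Set T) (ι κ : U → U) (σ : T → U) :
    Ix t T L → U
  | Sum.inl p => (σ (p.1 * p.2))⁻¹ * (σ p.1 * σ p.2)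
  | Sum.inr (Sum.inl p) => (σ ⟨p.1 * p.2 * (p.1 : U)⁻¹, g.nY _ p.1.2 _ p.2.2⟩)⁻¹ *
      (ι p.1 * σ p.2 * (ι p.1)⁻¹)
  | Sum.inr (Sum.inr (Sum.inl k)) => (κ k)⁻¹ * σ ⟨k, g.KY k.2⟩
  | Sum.inr (Sum.inr (Sum.inr l)) => σ l

/-- the number of maps with given defects -/
noncomputable def cnt {t : Tr U} {T : Subgroup U} (g : Good t T) (L : Set T) (ι κ : U → U)
    (Z : Subgroup U) (a : Ix t T L → t.E) : ℕ :=
  Nat.card {σ : T → Z // ∀ i, D g L ι κ (fun h => σ h) i = ι (a i)}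

variable {t t' : Tr U} {T : Subgroup U} (g : Good t T) (L : Set T)

theorem D_mem {ι κ : U → U} {Z : Subgroup U} (hn : ∀ j ∈ t.J, ∀ z ∈ Z, ι j * z * (ι j)⁻¹ ∈ Z)
    (hκ : ∀ k ∈ t.K, κ k ∈ Z) {σ : T → U} (hσ : ∀ h, σ h ∈ Z) (i : Ix t T L) :
    D g L ι κ σ i ∈ Z := by
  rcases i with p | p | k | l
  · exact Z.mul_mem (Z.inv_mem (hσ _)) (Z.mul_mem (hσ _) (hσ _))
  · exact Z.mul_mem (Z.inv_mem (hσ _)) (hn _ p.1.2 _ (hσ _))
  · exact Z.mul_mem (Z.inv_mem (hκ _ k.2)) (hσ _)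
  · exact hσ _

theorem D_mul {ι : U → U} {Z X : Subgroup U} (hc : ∀ a ∈ Z, ∀ x ∈ X, a * x = x * a)
    (hn : ∀ j ∈ t.J, ∀ z ∈ Z, ι j * z * (ι j)⁻¹ ∈ Z) {σ τ : T → U} (hσ : ∀ h, σ h ∈ Z)
    (hτ : ∀ h, τ h ∈ X) (i : Ix t T L) :
    D g L ι ι (fun h => σ h * τ h) i = D g L ι ι σ i * D g L ι (fun _ => 1) τ i := by
  rcases i with p | p | k | l
  · simp only [D]
    have e1 := hc _ (hσ p.2) _ (hτ p.1)
    have e2 := hc _ (Z.mul_mem (Z.inv_mem (hσ (p.1 * p.2))) (Z.mul_mem (hσ p.1) (hσ p.2))) _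
      (X.inv_mem (hτ (p.1 * p.2)))
    calc (σ (p.1 * p.2) * τ (p.1 * p.2))⁻¹ * (σ p.1 * τ p.1 * (σ p.2 * τ p.2))
        = (τ (p.1 * p.2))⁻¹ * (σ (p.1 * p.2))⁻¹ * σ p.1 * (τ p.1 * σ p.2) * τ p.2 := by group
      _ = (τ (p.1 * p.2))⁻¹ * ((σ (p.1 * p.2))⁻¹ * (σ p.1 * σ p.2)) * (τ p.1 * τ p.2) := by
        rw [← e1]; group
      _ = _ := by rw [← e2]; group
  · simp only [D]
    generalize (⟨p.1 * p.2 * (p.1 : U)⁻¹, g.nY _ p.1.2 _ p.2.2⟩ : T) = q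
    have e2 := hc _ (Z.mul_mem (Z.inv_mem (hσ q)) (hn _ p.1.2 _ (hσ p.2))) _ (X.inv_mem (hτ q))
    calc (σ q * τ q)⁻¹ * (ι p.1 * (σ p.2 * τ p.2) * (ι p.1)⁻¹)
        = (τ q)⁻¹ * ((σ q)⁻¹ * (ι p.1 * σ p.2 * (ι p.1)⁻¹)) * (ι p.1 * τ p.2 * (ι p.1)⁻¹) := by
          group
      _ = _ := by rw [← e2]; group
  · simp only [D, inv_one, one_mul, mul_assoc]
  · simp only [D]

theorem D_map {ι κ κ' γ : U → U} {S Z Z' : Subgroup U} (h : IsoOn t.J S ι Z Z' γ)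
    (hn : ∀ j ∈ t.J, ∀ z ∈ Z, j * z * j⁻¹ ∈ Z) (hκ : ∀ k ∈ t.K, κ k ∈ Z ∧ γ (κ k) = κ' k)
    {σ : T → U} (hσ : ∀ h, σ h ∈ Z) (i : Ix t T L) :
    D g L ι κ' (fun x => γ (σ x)) i = γ (D g L id κ σ i) := by
  rcases i with p | p | k | l
  · simp only [D]
    rw [h.mul _ (Z.inv_mem (hσ _)) _ (Z.mul_mem (hσ _) (hσ _)), h.inv (hσ _),
      h.mul _ (hσ _) _ (hσ _)]
  · simp only [D, id]
    rw [h.mul _ (Z.inv_mem (hσ _)) _ (hn _ p.1.2 _ (hσ _)), h.inv (hσ _),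
      h.equi _ p.1.2 _ (hσ _)]
  · simp only [D]
    rw [h.mul _ (Z.inv_mem (hκ _ k.2).1) _ (hσ _), h.inv (hκ _ k.2).1, (hκ _ k.2).2]
  · simp only [D]

/-- invariance of the counts under isomorphisms -/
theorem cnt_iso {ι κ κ' γ : U → U} {S Z Z' : Subgroup U} (h : IsoOn t.J S ι Z Z' γ)
    (hn : ∀ j ∈ t.J, ∀ z ∈ Z, j * z * j⁻¹ ∈ Z) (hκ : ∀ k ∈ t.K, κ k ∈ Z ∧ γ (κ k) = κ' k)
    (hES : t.E ≤ S) (hEZ : t.E ≤ Z) (a : Ix t T L → t.E) :
    cnt g L id κ Z a = cnt g L ι κ' Z' a := by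
  let e : Z ≃ Z' := h.bij.equiv γ
  have he : ∀ z : Z, (e z : U) = γ z := fun _ => rfl
  refine Nat.card_congr (Equiv.subtypeEquiv (Equiv.arrowCongr (Equiv.refl T) e) fun σ => ?_)
  refine forall_congr' fun i => ?_
  have e1 : (fun x => ((Equiv.arrowCongr (Equiv.refl T) e σ x : Z') : U)) =
      fun x => γ (σ x) := rfl
  rw [e1, D_map g L h hn hκ (fun x => (σ x).2), ← h.fix _ (hES (a i).2)]
  refine ⟨fun e2 => by rw [e2]; rfl, fun e2 => ?_⟩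
  exact h.inj (D_mem g L (ι := id) hn (fun k hk => (hκ k hk).1) (fun x => (σ x).2) i)
    (hEZ (a i).2) e2

/-- the convolution formula for a central product -/
theorem conv [Finite T] [Fintype (Ix t T L → t.E)] {ι : Equiv.Perm U} (hl : Link t t' ι)
    {Z X Z₀ : Subgroup U} [Finite Z] (g' : Good t' Z) (d : Decomp t' Z X Z₀)
    (a : Ix t T L → t.E) :
    ∑ c : Ix t T L → t.E, cnt g L ι ι Z₀ c * cnt g L ι (fun _ => 1) X (c⁻¹ * a) =
      cnt g L ι ι Z a * Nat.card (T → t'.E) := by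
  have : Finite Z₀ := Finite.of_injective _ (Subgroup.inclusion_injective d.YY)
  have : Finite X := Finite.of_injective _ (Subgroup.inclusion_injective d.XY)
  have hn0 : ∀ j ∈ t.J, ∀ z ∈ Z₀, ι j * z * (ι j)⁻¹ ∈ Z₀ := fun j hj =>
    d.nY _ ((hl.J j).1 hj)
  have hnX : ∀ j ∈ t.J, ∀ z ∈ X, ι j * z * (ι j)⁻¹ ∈ X := fun j hj =>
    d.nX _ ((hl.J j).1 hj)
  have hK0 : ∀ k ∈ t.K, ι k ∈ Z₀ := fun k hk => d.KY ((hl.K k).1 hk)
  have hE0 : t'.E ≤ Z₀ := g'.EK.trans d.KY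
  have hι : ∀ c : Ix t T L → t.E, ∀ i, ι ((c⁻¹ * a) i) = (ι (c i))⁻¹ * ι (a i) := by
    intro c i
    show ι (((c i : U))⁻¹ * a i) = _
    rw [hl.mul _ (t.J.inv_mem (g.EJ (c i).2)) _ (g.EJ (a i).2), hl.inv (g.EJ (c i).2)]
  have h1 := card_fib
    (fun p : (T → Z₀) × (T → X) => ∀ i, D g L ι ι (fun h => (p.1 h : U) * p.2 h) i = ι (a i))
    (fun (c : Ix t T L → t.E) p => (∀ i, D g L ι ι (fun h => p.1 h) i = ι (c i)) ∧
      ∀ i, D g L ι (fun _ => 1) (fun h => p.2 h) i = ι ((c⁻¹ * a) i)) ?_ ?_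
  · have h2 : ∀ c : Ix t T L → t.E, Nat.card {p : (T → Z₀) × (T → X) //
        (∀ i, D g L ι ι (fun h => p.1 h) i = ι (c i)) ∧
        ∀ i, D g L ι (fun _ => 1) (fun h => p.2 h) i = ι ((c⁻¹ * a) i)} =
        cnt g L ι ι Z₀ c * cnt g L ι (fun _ => 1) X (c⁻¹ * a) := by
      intro c
      rw [cnt, cnt, ← Nat.card_prod]
      exact Nat.card_congr (Equiv.subtypeProdEquivProd
        (p := fun σ : T → Z₀ => ∀ i, D g L ι ι (fun h => σ h) i = ι (c i))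
        (q := fun τ : T → X => ∀ i, D g L ι (fun _ => 1) (fun h => τ h) i = ι ((c⁻¹ * a) i)))
    rw [Finset.sum_congr rfl fun c _ => h2 c] at h1
    rw [← h1, cnt, ← Nat.card_prod]
    obtain ⟨e, he⟩ := exists_equiv d g'
    symm
    refine Nat.card_congr ((Equiv.prodSubtypeFstEquivSubtypeProd
      (p := fun σ : T → Z => ∀ i, D g L ι ι (fun h => σ h) i = ι (a i))).symm.trans ?_)
    refine Equiv.subtypeEquiv ((Equiv.arrowProdEquivProdArrow T _ _).symm.trans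
      ((Equiv.arrowCongr (Equiv.refl T) e).trans (Equiv.arrowProdEquivProdArrow T _ _))) ?_
    intro q
    have e1 : (fun h => (q.1 h : U)) = fun h => ((e (q.1 h, q.2 h)).1 : U) * (e (q.1 h, q.2 h)).2 :=
      funext fun h => (he (q.1 h, q.2 h)).symm
    rw [e1]
    exact Iff.rfl
  · rintro ⟨σ, τ⟩
    have hm := D_mul g L (ι := ι) d.comm hn0 (fun h => (σ h).2) (fun h => (τ h).2)
    have m0 := D_mem g L hn0 hK0 (fun h => (σ h).2)
    have mX := D_mem g L (κ := fun _ => 1) hnX (fun _ _ => X.one_mem) (fun h => (τ h).2)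
    constructor
    · intro h
      have hE : ∀ i, D g L ι ι (fun h => σ h) i ∈ t'.E := by
        intro i
        have e1 : D g L ι ι (fun h => σ h) i =
            ι (a i) * (D g L ι (fun _ => 1) (fun h => τ h) i)⁻¹ := by
          rw [← h i, hm, mul_inv_cancel_right]
        refine d.inter _ ?_ (m0 i)
        rw [e1]
        exact X.mul_mem (d.EX ((hl.E _).1 (a i).2)) (X.inv_mem (mX i))
      refine ⟨fun i => ⟨ι.symm (D g L ι ι (fun h => σ h) i), (hl.symm.E _).1 (hE i)⟩,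
        fun i => by simp, fun i => ?_⟩
      rw [hι, ← h i, hm]
      simp
    · rintro ⟨c, h1, h2⟩ i
      rw [hm, h1, h2, hι, mul_inv_cancel_left]
  · rintro c c' ⟨σ, τ⟩ h h'
    funext i
    exact Subtype.ext (ι.injective ((h.1 i).symm.trans (h'.1 i)))

/-- equivariant homomorphisms that extend the pinned map -/
def H (ι : U → U) (σ : T → U) : Prop :=
  (∀ x y, σ (x * y) = σ x * σ y) ∧
  (∀ j (hj : j ∈ t.J) (x : T), σ ⟨j * x * j⁻¹, g.nY _ hj _ x.2⟩ = ι j * σ x * (ι j)⁻¹) ∧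
  ∀ k (hk : k ∈ t.K), σ ⟨k, g.KY hk⟩ = ι k

theorem cnt_one {ι : U → U} (h1 : ι 1 = 1) (Z : Subgroup U) :
    cnt g L ι ι Z 1 = Nat.card {a : {σ : T → Z // H g ι fun x => σ x} //
      L ⊆ {x | (a.1 x : U) = 1}} := by
  symm
  refine Nat.card_congr ((Equiv.subtypeSubtypeEquivSubtypeInter _
    (fun σ : T → Z => L ⊆ {x | (σ x : U) = 1})).trans (Equiv.subtypeEquivRight fun σ => ?_))
  have e : ∀ i : Ix t T L, ι ((1 : Ix t T L → t.E) i) = 1 := fun _ => h1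
  simp only [e]
  constructor
  · rintro ⟨⟨a1, a2, a3⟩, a4⟩ i
    rcases i with p | p | k | l
    · exact inv_mul_eq_one.2 (a1 p.1 p.2)
    · exact inv_mul_eq_one.2 (a2 _ p.1.2 p.2)
    · exact inv_mul_eq_one.2 (a3 _ k.2).symm
    · exact a4 l.2
  · intro h
    refine ⟨⟨fun x y => ?_, fun j hj x => ?_, fun k hk => ?_⟩, fun l hl => ?_⟩
    · exact inv_mul_eq_one.1 (h (Sum.inl (x, y)))
    · exact inv_mul_eq_one.1 (h (Sum.inr (Sum.inl (⟨j, hj⟩, x))))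
    · exact (inv_mul_eq_one.1 (h (Sum.inr (Sum.inr (Sum.inl ⟨k, hk⟩))))).symm
    · exact h (Sum.inr (Sum.inr (Sum.inr ⟨l, hl⟩)))

end P1A

open P1A in
theorem p1 : S_CANC → S_MOB → S_P1 := by
  intro hC hM U _ t t' ι Y Y' X X' Y₁ Y₁' X₂ X₂' Y₂ Y₂' _ _ _ hl gY gY' d d₂ d' d₂'
    ⟨γ₂, h₂⟩ ⟨γX, hX⟩ ⟨γX₂, hX₂⟩ ⟨γ, hγ⟩
  classical
  have g := d.good gY
  have g' := d'.good gY'
  have : Finite Y₁ := Finite.of_injective _ (Subgroup.inclusion_injective d.YY)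
  have : Finite Y₁' := Finite.of_injective _ (Subgroup.inclusion_injective d'.YY)
  have : Finite X := Finite.of_injective _ (Subgroup.inclusion_injective d.XY)
  have : Finite t.K := Finite.of_injective _ (Subgroup.inclusion_injective g.KJ)
  have : Finite t.E := Finite.of_injective _ (Subgroup.inclusion_injective g.EJ)
  have hE : Nat.card t.E = Nat.card t'.E := Nat.card_congr (Equiv.subtypeEquiv ι hl.E)
  have hw : Nat.card (Y₁ → t'.E) = Nat.card (Y₁ → t.E) := by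
    rw [Nat.card_fun, Nat.card_fun, hE]
  have hw0 : 0 < Nat.card (Y₁ → t.E) := Nat.card_pos
  have key : ∀ L : Set Y₁, cnt g L id id Y₁ 1 = cnt g L ι ι Y₁' 1 := by
    intro L
    let _ : CommGroup t.E :=
      { (inferInstance : Group t.E) with
        mul_comm := fun a b => Subtype.ext (g.Ecomm a.2 b.2) }
    let _ : Fintype (Ix t Y₁ L → t.E) := Fintype.ofFinite _
    have n2 := cnt_iso g L (κ := fun _ => 1) (κ' := fun _ => 1) h₂ d.nX
      (fun _ _ => ⟨X.one_mem, h₂.one⟩) le_rfl d.EX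
    have n1' := cnt_iso g L (κ := fun _ => 1) (κ' := fun _ => 1) hX d.nX
      (fun _ _ => ⟨X.one_mem, hX.one⟩) le_rfl d.EX
    have n2' := cnt_iso g L (κ := fun _ => 1) (κ' := fun _ => 1) hX₂ d.nX
      (fun _ _ => ⟨X.one_mem, hX₂.one⟩) le_rfl d.EX
    have nY := cnt_iso g L (κ := id) (κ' := ι) hγ gY.nY
      (fun k hk => ⟨gY.KY hk, hγ.fix k hk⟩) gY.EK gY.EY
    have c1 : ∀ a, ∑ c, cnt g L id id Y₁ c * cnt g L id (fun _ => 1) X (c⁻¹ * a) =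
        cnt g L id id Y a * Nat.card (Y₁ → t.E) := conv g L (Link.refl t) gY d
    have c2 : ∀ a, ∑ c, cnt g L id id Y₂ c * cnt g L id (fun _ => 1) X₂ (c⁻¹ * a) =
        cnt g L id id Y₁ a * Nat.card (Y₁ → t.E) := conv g L (Link.refl t) g d₂
    have c1' := conv g L hl gY' d'
    have c2' := conv g L hl g' d₂'
    simp only [← n2] at c2
    simp only [← n1', ← nY, hw] at c1'
    simp only [← n2', hw] at c2'
    have h := hC (Ix t Y₁ L → t.E) (fun c => (cnt g L id id Y₂ c : ℤ))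
      (fun c => (cnt g L ι ι Y₂' c : ℤ)) (fun c => (cnt g L id (fun _ => 1) X c : ℤ)) ?_ 1
    · have h' : ∑ c, cnt g L id id Y₂ c * cnt g L id (fun _ => 1) X (c⁻¹ * 1) =
          ∑ c, cnt g L ι ι Y₂' c * cnt g L id (fun _ => 1) X (c⁻¹ * 1) := by
        exact_mod_cast h
      rw [c2, c2'] at h'
      exact Nat.eq_of_mul_eq_mul_right hw0 h'
    · intro a
      have h' : ∑ b, (∑ c, cnt g L id id Y₂ c * cnt g L id (fun _ => 1) X (c⁻¹ * b)) *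
            cnt g L id (fun _ => 1) X (b⁻¹ * a) =
          ∑ b, (∑ c, cnt g L ι ι Y₂' c * cnt g L id (fun _ => 1) X (c⁻¹ * b)) *
            cnt g L id (fun _ => 1) X (b⁻¹ * a) := by
        simp only [c2, c2', mul_right_comm _ (Nat.card (Y₁ → t.E)), ← Finset.sum_mul, c1, c1']
      exact_mod_cast h'
  have hm := hM Y₁ {σ : Y₁ → Y₁ // H g id fun x => σ x} {σ : Y₁ → Y₁' // H g ι fun x => σ x}
    (fun a => {x | (a.1 x : U) = 1}) (fun a => {x | (a.1 x : U) = 1})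
    (fun L => by rw [← cnt_one g L rfl, ← cnt_one g L hl.one, key]) {1}
  have hne : Nonempty {a : {σ : Y₁ → Y₁ // H g id fun x => σ x} //
      {x | (a.1 x : U) = 1} = {1}} :=
    ⟨⟨⟨id, fun _ _ => rfl, fun _ _ _ => rfl, fun _ _ => rfl⟩, by
      ext x
      simp⟩⟩
  have hpos := Nat.card_pos (α := {a : {σ : Y₁ → Y₁ // H g id fun x => σ x} //
      {x | (a.1 x : U) = 1} = {1}})
  rw [hm] at hpos
  obtain ⟨⟨⟨σ, s1, s2, s3⟩, s4⟩⟩ := (Nat.card_pos_iff.1 hpos).1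
  let F : Y₁ →* Y₁' := MonoidHom.mk' σ fun x y => Subtype.ext (s1 x y)
  have hinj : Function.Injective F := by
    rw [injective_iff_map_eq_one]
    intro x hx
    have : x ∈ {x | (σ x : U) = 1} := congrArg Subtype.val hx
    rw [s4] at this
    exact this
  have hcard : Nat.card Y₁ = Nat.card Y₁' := by
    have e1 := d.card gY
    have e2 := d'.card gY'
    rw [← hγ.card_eq, ← hE, ← hX.card_eq, e1] at e2
    exact Nat.eq_of_mul_eq_mul_right Nat.card_pos e2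
  have hbij : Function.Bijective F := (Nat.bijective_iff_injective_and_card F).2 ⟨hinj, hcard⟩
  obtain ⟨δ, hv⟩ : ∃ δ : U → U, ∀ (x : U) (hx : x ∈ Y₁), δ x = σ ⟨x, hx⟩ :=
    ⟨fun u => if h : u ∈ Y₁ then (σ ⟨u, h⟩ : U) else 1, fun x hx => dif_pos hx⟩
  refine ⟨δ, ⟨fun x hx => ?_, fun x hx y hy e => ?_,
    fun y hy => ?_⟩, fun x hx y hy => ?_, fun j hj x hx => ?_, fun k hk => ?_⟩
  · rw [hv x hx]
    exact (σ _).2
  · rw [hv x hx, hv y hy] at e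
    exact congrArg Subtype.val (hinj (a₁ := ⟨x, hx⟩) (a₂ := ⟨y, hy⟩) (Subtype.ext e))
  · obtain ⟨x, hx⟩ := hbij.2 ⟨y, hy⟩
    exact ⟨x, x.2, (hv x x.2).trans (congrArg Subtype.val hx)⟩
  · rw [hv x hx, hv y hy, hv _ (Y₁.mul_mem hx hy)]
    exact s1 ⟨x, hx⟩ ⟨y, hy⟩
  · rw [hv x hx, hv _ (g.nY j hj x hx)]
    exact s2 j hj ⟨x, hx⟩
  · rw [hv k (g.KY hk)]
    exact s3 k hk

end Pool.Agent.P.MP_f1a348_lc.GI
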