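import Pool.Agent.P.MP_f1a348_lc.GI.QAlg

/-!
Without duplicate summands few pins make the ring of adjoint pairs nilpotent.
-/

namespace Pool.Agent.P.MP_f1a348_lc.GI

open Subgroup
open scoped commutatorElement

namespace P2A

variable {U : Type} [Group U] {t : Tr U} {Y : Subgroup U}

/-- `π` presents the abelian group `M` as the quotient `Y / K` -/
structure Quo (t : Tr U) (Y : Subgroup U) (M : Type) [AddCommGroup M] (π : U → M) : Prop where
  mul : ∀ x ∈ Y, ∀ y ∈ Y, π (x * y) = π x + π y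
  ker : ∀ x ∈ Y, π x = 0 ↔ x ∈ t.K
  surj : ∀ m, ∃ y ∈ Y, π y = m

theorem exists_quo (g : Good t Y) :
    ∃ (M : Type) (_ : AddCommGroup M) (π : U → M), Quo t Y M π := by
  classical
  haveI hN : (t.K.subgroupOf Y).Normal := ⟨fun k hk y => by
    rw [mem_subgroupOf] at hk ⊢
    exact g.conjK y.2 hk⟩
  letI : CommGroup (Y ⧸ t.K.subgroupOf Y) :=
    { (inferInstance : Group (Y ⧸ t.K.subgroupOf Y)) with
      mul_comm := fun a b => by
        obtain ⟨x, rfl⟩ := QuotientGroup.mk_surjective a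
        obtain ⟨y, rfl⟩ := QuotientGroup.mk_surjective b
        rw [← QuotientGroup.mk_mul, ← QuotientGroup.mk_mul, QuotientGroup.eq, mem_subgroupOf]
        exact g.swapK x.2 y.2 }
  refine ⟨Additive (Y ⧸ t.K.subgroupOf Y), inferInstance,
    fun u => if h : u ∈ Y then Additive.ofMul (QuotientGroup.mk ⟨u, h⟩) else 0, ?_, ?_, ?_⟩
  · intro x hx y hy
    rw [dif_pos hx, dif_pos hy, dif_pos (Y.mul_mem hx hy), ← ofMul_mul, ← QuotientGroup.mk_mul]
    rfl
  · intro x hx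
    rw [dif_pos hx, ofMul_eq_zero, QuotientGroup.eq_one_iff, mem_subgroupOf]
  · intro m
    obtain ⟨y, hy⟩ := QuotientGroup.mk_surjective (Additive.toMul m)
    refine ⟨y, y.2, ?_⟩
    rw [dif_pos y.2]
    exact congrArg Additive.ofMul hy

variable {M : Type} [AddCommGroup M] {π : U → M}

theorem Quo.one (q : Quo t Y M π) : π 1 = 0 := (q.ker 1 Y.one_mem).2 t.K.one_mem

theorem Quo.inv (q : Quo t Y M π) {x : U} (hx : x ∈ Y) : π x⁻¹ = -π x := by
  have := q.mul _ (Y.inv_mem hx) _ hx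
  rw [inv_mul_cancel, q.one] at this
  exact eq_neg_of_add_eq_zero_left this.symm

theorem Quo.eq_iff (q : Quo t Y M π) {x y : U} (hx : x ∈ Y) (hy : y ∈ Y) :
    π x = π y ↔ Cg t.K x y := by
  unfold Cg
  rw [← q.ker _ (Y.mul_mem (Y.inv_mem hx) hy), q.mul _ (Y.inv_mem hx) _ hy, q.inv hx,
    neg_add_eq_zero]

theorem Quo.finite [Finite Y] (q : Quo t Y M π) : Finite M :=
  Finite.of_surjective (fun y : Y => π y) fun m => by
    obtain ⟨y, hy, e⟩ := q.surj m
    exact ⟨⟨y, hy⟩, e⟩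

/-- the induced endomorphism -/
theorem Quo.induced (q : Quo t Y M π) (g : Good t Y) {r : U → U} (h : LHom t t id Y Y r) :
    ∃ φ : Module.End ℤ M, ∀ y ∈ Y, φ (π y) = π (r y) := by
  choose s hs hs' using q.surj
  have key : ∀ y ∈ Y, π (r (s (π y))) = π (r y) := fun y hy =>
    (q.eq_iff (h.maps _ (hs _)) (h.maps _ hy)).2
      ((h.congrK g (hs _) ((q.eq_iff (hs _) hy).1 (hs' _))).mono g.EK)
  refine ⟨(AddMonoidHom.mk' (fun m => π (r (s m))) fun a b => ?_).toIntLinearMap, key⟩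
  have e : a + b = π (s a * s b) := by rw [q.mul _ (hs a) _ (hs b), hs', hs']
  rw [e, key _ (Y.mul_mem (hs a) (hs b)), ← q.mul _ (h.maps _ (hs a)) _ (h.maps _ (hs b))]
  exact (q.eq_iff (h.maps _ (Y.mul_mem (hs a) (hs b)))
    (Y.mul_mem (h.maps _ (hs a)) (h.maps _ (hs b)))).2 ((h.mul' (hs a) (hs b)).mono g.EK)

/-- the ring with involution -/
abbrev TT (M : Type) [AddCommGroup M] : Type := Module.End ℤ M × (Module.End ℤ M)ᵐᵒᵖ

/-- the involution -/
def sg (s : TT M) : TT M := (s.2.unop, MulOpposite.op s.1)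

/-- the action through the first coordinate -/
@[reducible] def act (M : Type) [AddCommGroup M] : Module (TT M) M :=
  Module.compHom M (RingHom.fst (Module.End ℤ M) (Module.End ℤ M)ᵐᵒᵖ)

/-- the ring of induced pairs -/
def SS (q : Quo t Y M π) (g : Good t Y) : NonUnitalSubring (TT M) where
  carrier := {s | ∃ r r', RR t Y [] r r' ∧
    ∀ y ∈ Y, s.1 (π y) = π (r y) ∧ s.2.unop (π y) = π (r' y)}
  zero_mem' := ⟨_, _, RR.one g, fun y _ => ⟨by simpa using q.one.symm, by simpa using q.one.symm⟩⟩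
  add_mem' := by
    rintro a b ⟨r, r', h, e⟩ ⟨s, s', h', e'⟩
    refine ⟨_, _, h.pmul h' g, fun y hy => ⟨?_, ?_⟩⟩
    · rw [q.mul _ (h.l.maps y hy) _ (h'.l.maps y hy), ← (e y hy).1, ← (e' y hy).1]; rfl
    · rw [q.mul _ (h.l'.maps y hy) _ (h'.l'.maps y hy), ← (e y hy).2, ← (e' y hy).2]; rfl
  neg_mem' := by
    rintro a ⟨r, r', h, e⟩
    refine ⟨_, _, h.pinv g, fun y hy => ⟨?_, ?_⟩⟩
    · rw [q.inv (h.l.maps y hy), ← (e y hy).1]; rfl
    · rw [q.inv (h.l'.maps y hy), ← (e y hy).2]; rfl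
  mul_mem' := by
    rintro a b ⟨r, r', h, e⟩ ⟨s, s', h', e'⟩
    refine ⟨_, _, h.comp h' g, fun y hy => ⟨?_, ?_⟩⟩
    · rw [← (e _ (h'.l.maps y hy)).1, ← (e' y hy).1]; rfl
    · rw [← (e' _ (h.l'.maps y hy)).2, ← (e y hy).2]; rfl

theorem mem_SS (q : Quo t Y M π) (g : Good t Y) (s : TT M) : s ∈ SS q g ↔
    ∃ r r', RR t Y [] r r' ∧ ∀ y ∈ Y, s.1 (π y) = π (r y) ∧ s.2.unop (π y) = π (r' y) := Iff.rfl

theorem sg_mem (q : Quo t Y M π) (g : Good t Y) (s : TT M) (hs : s ∈ SS q g) : sg s ∈ SS q g := by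
  obtain ⟨r, r', h, e⟩ := hs
  exact ⟨r', r, h.swap, fun y hy => ⟨(e y hy).2, (e y hy).1⟩⟩

theorem eq_zero {e : TT M} (h : sg e = e) (h0 : ∀ m, e.1 m = 0) : e = 0 := by
  have h1 : e.1 = 0 := LinearMap.ext h0
  have h2 : e.2 = MulOpposite.op e.1 := (congrArg Prod.snd h).symm
  refine Prod.ext h1 ?_
  rw [h2, h1]; rfl

/-- orthogonal self-adjoint idempotents of the ring come from orthogonal families on `Y` -/
theorem family (q : Quo t Y M π) (g : Good t Y) {ρ : ℕ}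
    (H : ∀ (n : ℕ) (e : Fin n → U → U),
      (∀ i, RR t Y [] (e i) (e i) ∧ (∀ y ∈ Y, (e i (e i y))⁻¹ * e i y ∈ t.K) ∧
        (∀ y ∈ Y, e i y ∈ t.K → e i y ∈ t.E) ∧ ∃ y ∈ Y, e i y ∉ t.K) →
      (∀ i j, i ≠ j → ∀ y ∈ Y, e i (e j y) ∈ t.K) → n ≤ ρ)
    (n : ℕ) (e : Fin n → TT M)
    (h1 : ∀ i, e i ∈ SS q g ∧ sg (e i) = e i ∧ e i * e i = e i ∧ e i ≠ 0)
    (h2 : ∀ i j, i ≠ j → e i * e j = 0) : n ≤ ρ := by
  choose r r' hr he using fun i => (mem_SS q g _).1 (h1 i).1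
  have hs : ∀ i, (e i).2.unop = (e i).1 := fun i => congrArg Prod.fst (h1 i).2.1
  have hid : ∀ i m, (e i).1 ((e i).1 m) = (e i).1 m := fun i m =>
    LinearMap.congr_fun (congrArg Prod.fst (h1 i).2.2.1) m
  have hR : ∀ i, RR t Y [] (fun x => r i (r' i x)) (fun x => r i (r' i x)) := fun i =>
    (hr i).comp (hr i).swap g
  have hf : ∀ i, ∀ y ∈ Y, π (r i (r' i y)) = (e i).1 (π y) := fun i y hy => by
    rw [← (he i _ ((hr i).l'.maps y hy)).1, ← (he i y hy).2, hs, hid]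
  refine H n (fun i x => r i (r' i x)) (fun i => ⟨hR i, fun y hy => ?_, fun y hy hk => ?_, ?_⟩)
    (fun i j hij y hy => ?_)
  · have hm := (hR i).l.maps y hy
    refine (q.eq_iff ((hR i).l.maps _ hm) hm).1 ?_
    rw [hf i _ hm, hf i y hy, hid]
  · refine (hr i).l.fix _ ((q.ker _ ((hr i).l'.maps y hy)).1 ?_)
    rw [← (he i y hy).2, hs, ← hf i y hy]
    exact (q.ker _ ((hR i).l.maps y hy)).2 hk
  · by_contra hc
    push Not at hc
    refine (h1 i).2.2.2 (eq_zero (h1 i).2.1 fun m => ?_)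
    obtain ⟨y, hy, rfl⟩ := q.surj m
    rw [← hf i y hy]
    exact (q.ker _ ((hR i).l.maps y hy)).2 (hc y hy)
  · have hm := (hR j).l.maps y hy
    refine (q.ker _ ((hR i).l.maps _ hm)).1 ?_
    rw [hf i _ hm, hf j y hy]
    exact LinearMap.congr_fun (congrArg Prod.fst (h2 i j hij)) (π y)

/-- the images of the products of length `i` -/
def CC (G : TT M → Prop) (i : ℕ) : AddSubgroup M :=
  AddSubgroup.closure {m | ∃ w : List (TT M), w.length = i ∧ (∀ s ∈ w, G s) ∧ ∃ a, m = w.prod.1 a}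

theorem CC_step {G : TT M → Prop} {i : ℕ} {s : TT M} (hs : G s) {m : M} (hm : m ∈ CC G i) :
    s.1 m ∈ CC G (i + 1) := by
  induction hm using AddSubgroup.closure_induction with
  | mem m hm =>
    obtain ⟨w, hw, hG, a, rfl⟩ := hm
    refine AddSubgroup.subset_closure ⟨s :: w, by simp [hw], ?_, a, ?_⟩
    · intro s' hs'
      rcases List.mem_cons.1 hs' with rfl | h
      · exact hs
      · exact hG _ h
    · rw [List.prod_cons]; rfl
  | zero => rw [map_zero]; exact AddSubgroup.zero_mem _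
  | add a b _ _ ha hb => rw [map_add]; exact AddSubgroup.add_mem _ ha hb
  | neg a _ ha => rw [map_neg]; exact AddSubgroup.neg_mem _ ha

theorem filt_CC (q : Quo t Y M π) (g : Good t Y) (P : List U) (G : TT M → Prop)
    (hG : ∀ r r', RR t Y P r r' → ∃ s, G s ∧ ∀ y ∈ Y, s.1 (π y) = π (r y)) :
    ∀ i, ∀ y ∈ Filt t Y P i, π y ∈ CC G i
  | 0 => fun y _ => AddSubgroup.subset_closure ⟨[], rfl, by simp, π y, rfl⟩
  | i + 1 => by
    let Z : Subgroup U :=
      { carrier := {y | y ∈ Y ∧ π y ∈ CC G (i + 1)}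
        one_mem' := ⟨Y.one_mem, by rw [q.one]; exact AddSubgroup.zero_mem _⟩
        mul_mem' := fun {a b} ha hb => ⟨Y.mul_mem ha.1 hb.1, by
          rw [q.mul _ ha.1 _ hb.1]; exact AddSubgroup.add_mem _ ha.2 hb.2⟩
        inv_mem' := fun {a} ha => ⟨Y.inv_mem ha.1, by
          rw [q.inv ha.1]; exact AddSubgroup.neg_mem _ ha.2⟩ }
    have hZ : Filt t Y P (i + 1) ≤ Z := by
      refine sup_le (fun k hk => ⟨g.KY hk, ?_⟩) ((closure_le _).2 ?_)
      · rw [(q.ker k (g.KY hk)).2 hk]; exact AddSubgroup.zero_mem _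
      · rintro _ ⟨r, r', h, x, hx, rfl⟩
        have hxY := filt_le g i hx
        obtain ⟨s, hs, e⟩ := hG r r' h
        refine ⟨h.l.maps x hxY, ?_⟩
        rw [← e x hxY]
        exact CC_step hs (filt_CC q g P G hG i x hx)
    exact fun y hy => (hZ hy).2

end P2A

open P2A in
theorem p2 : S_RING → S_RHO → S_P2 := by
  intro hRing hRho B b hb
  obtain ⟨τ, hτ⟩ := hRho B b hb
  refine ⟨τ, fun U _ t Y _ _ g hE hJ hD => ?_⟩
  obtain ⟨M, _, π, q⟩ := exists_quo g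
  haveI : Finite M := q.finite
  haveI : Finite (Module.End ℤ M) :=
    Finite.of_injective (fun f : Module.End ℤ M => (f : M → M)) DFunLike.coe_injective
  haveI : Finite (Module.End ℤ M)ᵐᵒᵖ := Finite.of_equiv _ MulOpposite.opEquiv
  letI : Module (TT M) M := act M
  have hsm : ∀ (s : TT M) (m : M), s • m = s.1 m := fun _ _ => rfl
  obtain ⟨l, hl, n, hn⟩ := hRing (TT M) M sg (SS q g) (τ + Nat.log b (Nat.card Y))
    (fun _ _ => rfl) (fun _ _ => rfl) (fun _ => rfl) (sg_mem q g)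
    (fun e _ h h0 => eq_zero h h0) (family q g (hτ U t Y g hE hJ hD))
  choose s hs hs' using q.surj
  refine ⟨l.map s, fun x hx => ?_, by simpa using hl, n, fun y hy => ?_⟩
  · obtain ⟨m, _, rfl⟩ := List.mem_map.1 hx
    exact hs m
  have key := filt_CC q g (l.map s)
    (fun a => a ∈ SS q g ∧ ∀ x ∈ l, a • x = 0 ∧ sg a • x = 0) (fun r r' h => by
      obtain ⟨φ, hφ⟩ := q.induced g h.l
      obtain ⟨φ', hφ'⟩ := q.induced g h.l'
      refine ⟨(φ, MulOpposite.op φ'), ⟨⟨r, r', h.mono (by simp), fun y hy => ⟨hφ y hy, hφ' y hy⟩⟩,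
        fun x hx => ?_⟩, hφ⟩
      have hp := h.pin (s x) (List.mem_map_of_mem hx)
      constructor
      · show φ x = 0
        rw [← hs' x, hφ _ (hs x)]
        exact (q.ker _ (h.l.maps _ (hs x))).2 (g.EK hp.1)
      · show φ' x = 0
        rw [← hs' x, hφ' _ (hs x)]
        exact (q.ker _ (h.l'.maps _ (hs x))).2 (g.EK hp.2)) n y hy
  refine (q.ker y (filt_le g n hy)).1 ?_
  have hbot : CC (fun a => a ∈ SS q g ∧ ∀ x ∈ l, a • x = 0 ∧ sg a • x = 0) n ≤ ⊥ := by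
    refine (AddSubgroup.closure_le _).2 ?_
    rintro _ ⟨w, hw, hG, a, rfl⟩
    rw [hn w hw hG]
    rfl
  exact hbot key

end Pool.Agent.P.MP_f1a348_lc.GI
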