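import Pool.Agent.P.MP_f1a348_lc.GI.ABasic

/-!
Correctness of the isomorphism test in the nilpotent case.
-/

namespace Pool.Agent.P.MP_f1a348_lc.GI

open scoped commutatorElement

namespace P3A

theorem split {α : Type} {l : List α} {pre post : List (Option α)} {s : Option α}
    (h : l.map some ++ [none] = pre ++ s :: post) :
    (s = none ∧ pre = l.map some) ∨
      ∃ p pre' post', s = some p ∧ pre = pre'.map some ∧ l = pre' ++ p :: post' := by
  induction l generalizing pre with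
  | nil =>
    cases pre with
    | nil => simp at h; exact Or.inl ⟨h.1.symm, rfl⟩
    | cons a pre => simp at h
  | cons a l ih =>
    cases pre with
    | nil =>
      simp only [List.map_cons, List.cons_append, List.nil_append, List.cons.injEq] at h
      exact Or.inr ⟨a, [], l, h.1.symm, rfl, rfl⟩
    | cons c pre =>
      simp only [List.map_cons, List.cons_append, List.cons.injEq] at h
      obtain ⟨rfl, h⟩ := h
      rcases ih h with ⟨h1, h2⟩ | ⟨p, pre', post', h1, h2, h3⟩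
      · exact Or.inl ⟨h1, by rw [h2]; rfl⟩
      · exact Or.inr ⟨p, a :: pre', post', h1, by rw [h2]; rfl, by rw [h3]; rfl⟩

variable {U : Type} [Group U] {t t' : Tr U} {y y' : Subgroup U} {P : List U}

omit [Group U] in
theorem mem_pairTests {FL : List (List U)} {p : U × U} :
    p ∈ pairTests FL ↔ (∃ A ∈ FL, p.1 ∈ A) ∧ ∃ B ∈ FL, p.2 ∈ B := by
  simp only [pairTests, List.mem_flatMap, mem_prodL]
  exact ⟨fun ⟨A, hA, B, hB, h1, h2⟩ => ⟨⟨A, hA, h1⟩, B, hB, h2⟩,
    fun ⟨⟨A, hA, h1⟩, B, hB, h2⟩ => ⟨A, hA, B, hB, h1, h2⟩⟩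

theorem cdef_comp {ι : Equiv.Perm U} {φ w : U → U} (hl : Link t t' ι) (g : Good t y)
    (hw : ∀ x ∈ y, w x ∈ y) {a b : U} (ha : a ∈ y) (hb : b ∈ y) :
    cdef ι (fun x => φ (w x)) a b = cdef ι φ (w a) (w b) * ι (cdef id w a b) := by
  have h1 := g.KJ (g.comm _ (hw a ha) _ (hw b hb))
  have h2 := g.KJ (g.comm _ ha _ hb)
  simp only [cdef, id]
  rw [hl.mul _ h1 _ (t.J.inv_mem h2), hl.inv h2]
  group

/-- the elements of `W` are units `1 + r` -/
def Units (t : Tr U) (y : Subgroup U) (P : List U) (W : Subgroup (FP U)) : Prop :=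
  ∀ σ ∈ W, ∃ r r', RR t y P r r' ∧ ∀ x ∈ y, Cg t.E (σ.app x) (x * r x)

variable {W : Subgroup (FP U)} {u g : FP U} {ι : FP U}

theorem Units.qhom (hW : Units t y P W) (G : Good t y) (hu : u ∈ W) : QHom t t id y y u.app := by
  obtain ⟨r, r', hr, h⟩ := hW u hu
  exact (QHom.one_add hr.l G).congr G G (fun _ hj => hj) (fun _ hk => hk)
    fun x hx => (h x hx).symm

theorem Units.qhom_mul (hW : Units t y P W) (G : Good t y) (hl : Link t t' ι.perm)
    (hg : QHom t t' ι.app y y' g.app) (hu : u ∈ W) : QHom t t' ι.app y y' (g * u).app :=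
  hg.comp (hW.qhom G hu) G G (fun _ hj => hj) (fun _ hk => hk) fun e he => (hl.E e).1 he

/-- `g` is congruent to an isomorphism -/
def Lifts (t t' : Tr U) (ι : FP U) (y y' : Subgroup U) (g : FP U) : Prop :=
  ∃ γ, IsoOn t.J t.K ι.app y y' γ ∧ ∀ x ∈ y, Cg t'.E (γ x) (g.app x)

theorem lifts_one (t : Tr U) (y : Subgroup U) : Lifts t t 1 y y 1 :=
  ⟨id, IsoOn.refl _ _ _, fun _ _ => Cg.refl _⟩

theorem Lifts.mul_iff (h : Lifts t t' ι y y' g) (G : Good t y) (G' : Good t' y')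
    (hl : Link t t' ι.perm) (hu : ∀ x ∈ y, u.app x ∈ y) :
    Lifts t t' ι y y' (g * u) ↔ Lifts t t 1 y y u := by
  obtain ⟨γ, hγ, h⟩ := h
  constructor
  · rintro ⟨γ', hγ', h'⟩
    obtain ⟨δ, hδ, e1, -⟩ := hγ.symm (J' := t'.J) (S' := t'.K) (κ := ι.perm.symm) G.nY G.KY
      (fun j hj => ⟨(hl.symm.J j).1 hj, ι.perm.apply_symm_apply j⟩)
      (fun j hj => ⟨(hl.symm.K j).1 hj, ι.perm.apply_symm_apply j⟩)
    refine ⟨δ ∘ γ', (hγ'.trans hδ (fun j hj => (hl.J j).1 hj) (fun j hj => (hl.K j).1 hj)).congr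
      (fun j _ => ι.perm.symm_apply_apply j) (fun j _ => ι.perm.symm_apply_apply j),
      fun x hx => ?_⟩
    have h1 := (QHom.of_isoOn hδ G').congrE G' (fun e he => (hl.symm.E e).1 he) (hγ'.maps hx)
      ((h' x hx).trans (h _ (hu x hx)).symm)
    rwa [e1 _ (hu x hx)] at h1
  · rintro ⟨α, hα, h'⟩
    refine ⟨γ ∘ α, IsoOn.id_trans hα hγ, fun x hx => ?_⟩
    exact ((QHom.of_isoOn hγ G).congrE G (fun e he => (hl.E e).1 he) (hα.maps hx)
      (h' x hx)).trans (h _ (hu x hx))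

/-- the defect of a product at a pair whose deeper pairs have been tested -/
theorem cdef_mul (hD : S_DEEP) (hW : Units t y P W) (G : Good t y) (G' : Good t' y')
    (hl : Link t t' ι.perm) {A : ℕ → List U} {n : ℕ} (hA : ∀ i, Rep (A i) (Filt t y P i))
    (hn : Filt t y P n ≤ t.K) {pre post : List (U × U)} {p : U × U}
    (hp : pairTests ((List.range (n + 1)).reverse.map A) = pre ++ p :: post)
    (hg : QHom t t' ι.app y y' g.app) (hpre : ∀ q ∈ pre, cdef ι.app g.app q.1 q.2 = 1)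
    (hu : u ∈ W) : p.1 ∈ y ∧ p.2 ∈ y ∧ cdef ι.app (g * u).app p.1 p.2 =
      cdef ι.app g.app p.1 p.2 * ι.app (cdef id u.app p.1 p.2) := by
  obtain ⟨r, r', hr, h⟩ := hW u hu
  obtain ⟨h1, h2, h3⟩ := hD U t t' ι.perm y y' P A n pre post p g.app u.app r r' G G' hl hA hn hp
    hg hpre hr h
  refine ⟨h1, h2, ?_⟩
  have h4 := cdef_comp (φ := g.app) hl G (hW.qhom G hu).maps h1 h2
  rw [h3] at h4
  exact h4

variable [DecidableEq U] {pad : List Unit} {tl : TL U} {E' Y Y' : List U}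

theorem test_some {p : U × U} :
    test2 pad tl ι E' Y Y' (some p) g = true ↔ cdef ι.app g.app p.1 p.2 = 1 := by
  rw [cdef_eq_one]
  exact beq_iff_eq

theorem test_none (hL : S_LIFT) (T : RepT tl t) (hE : Rep E' t'.E) (hY : Rep Y y)
    (hY' : Rep Y' y') (G : Good t y) (G' : Good t' y') (hl : Link t t' ι.perm) {N b : ℕ}
    (hN : Y.length ≤ N) (hb : E'.length ≤ b) (hB : Big N b pad)
    (hg : QHom t t' ι.app y y' g.app) :
    test2 pad tl ι E' Y Y' none g = true ↔ Lifts t t' ι y y' g :=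
  (hL U pad tl t t' ι E' Y Y' y y' g T hE hY hY' G G' hl).2 N b hN hb hB hg

/-- multiplying an element that passes a test by a unit -/
theorem test_mul (hL : S_LIFT) (hD : S_DEEP) (hW : Units t y P W) (T : RepT tl t)
    (hE : Rep E' t'.E) (hY : Rep Y y) (hY' : Rep Y' y') (G : Good t y) (G' : Good t' y')
    (hl : Link t t' ι.perm) {N b : ℕ} (hN : Y.length ≤ N) (hb : tl.2.2.length ≤ b)
    (hb' : E'.length ≤ b) (hB : Big N b pad) {A : ℕ → List U} {n : ℕ}
    (hA : ∀ i, Rep (A i) (Filt t y P i)) (hn : Filt t y P n ≤ t.K)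
    {pre post : List (Option (U × U))} {s : Option (U × U)}
    (hs : (pairTests ((List.range (n + 1)).reverse.map A)).map some ++ [none] = pre ++ s :: post)
    (hg : QHom t t' ι.app y y' g.app) (hpre : ∀ q ∈ pre, test2 pad tl ι E' Y Y' q g = true)
    (hgs : test2 pad tl ι E' Y Y' s g = true) (hu : u ∈ W) :
    test2 pad tl ι E' Y Y' s (g * u) = test2 pad tl 1 tl.2.2 Y Y s u := by
  rw [Bool.eq_iff_iff]
  rcases split hs with ⟨rfl, -⟩ | ⟨p, pre', post', rfl, rfl, hp⟩
  · rw [test_none hL T hE hY hY' G G' hl hN hb' hB hg] at hgs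
    rw [test_none hL T hE hY hY' G G' hl hN hb' hB (hW.qhom_mul G hl hg hu),
      test_none (ι := 1) hL T T.E hY hY G G (Link.refl t) hN hb hB (hW.qhom G hu)]
    exact hgs.mul_iff G G' hl (hW.qhom G hu).maps
  · rw [test_some] at hgs
    obtain ⟨-, -, h⟩ := cdef_mul hD hW G G' hl hA hn hp hg
      (fun q hq => test_some.1 (hpre _ (List.mem_map_of_mem hq))) hu
    rw [test_some, test_some, h, hgs, one_mul]
    refine ⟨fun h1 => ι.app_injective (h1.trans hl.one.symm), fun h1 => ?_⟩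
    exact (congrArg ι.app h1).trans hl.one

/-- few classes of units -/
theorem length_le (hX : S_EXT) (hL : S_LIFT) (hD : S_DEEP) (hW : Units t y P W) (T : RepT tl t)
    (hY : Rep Y y) (G : Good t y) {N b : ℕ} (hN : Y.length ≤ N) (hb : Nat.card t.E ≤ b)
    (hJ : Nat.card t.J ≤ b * Nat.card t.K) (hB : Big N b pad) {A : ℕ → List U} {n : ℕ}
    (hA : ∀ i, Rep (A i) (Filt t y P i)) (hn : Filt t y P n ≤ t.K)
    {pre post : List (Option (U × U))} {s : Option (U × U)}
    (hs : (pairTests ((List.range (n + 1)).reverse.map A)).map some ++ [none] = pre ++ s :: post)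
    {l : List (FP U)} (hl : ∀ u ∈ l, u ∈ W ∧ ∀ q ∈ pre, test2 pad tl 1 tl.2.2 Y Y q u = true)
    (hp : l.Pairwise fun u v => test2 pad tl 1 tl.2.2 Y Y s (u⁻¹ * v) = false) :
    l.length ≤ pad.length := by
  have hb' : tl.2.2.length ≤ b := T.E.card ▸ hb
  rcases split hs with ⟨rfl, rfl⟩ | ⟨p, pre', post', rfl, rfl, hp'⟩
  · have := T.J.finite
    have := hY.finite
    obtain ⟨h1, h2⟩ := gensOf_spec hY
    have key := hX U t y b (gensOf Y) G hb hJ h1 (l.map fun u => u⁻¹.app) ?_ ?_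
    · rw [List.length_map] at key
      exact key.trans (hB.log_pow le_rfl (h2.trans hN) le_rfl)
    · intro w hw
      obtain ⟨u, hu, rfl⟩ := List.mem_map.1 hw
      obtain ⟨hu, hc⟩ := hl u hu
      have q1 := hW.qhom G hu
      have q2 := hW.qhom G (W.inv_mem hu)
      refine ⟨q2, fun a ha c hc' => ?_, fun a ha => ⟨u.app a, q1.maps a ha, ?_⟩, fun a _ hk => ?_⟩
      · have h0 : A 0 ∈ (List.range (n + 1)).reverse.map A := List.mem_map_of_mem (by simp)
        have h3 := cdef_eq_one.1 (test_some.1 (hc (some (u⁻¹.app a, u⁻¹.app c))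
          (List.mem_map_of_mem (mem_pairTests.2 ⟨⟨_, h0, ((hA 0).mem _).2 (q2.maps a ha)⟩,
            _, h0, ((hA 0).mem _).2 (q2.maps c hc')⟩))))
        simpa using h3.symm
      · simp
      · have h3 := ((q1.fix' hk).mem_iff G.EK).2 hk
        simpa using h3
    · rw [List.pairwise_map]
      refine List.Pairwise.imp_of_mem ?_ hp
      rintro u v hu hv h ⟨α, hα, h'⟩
      have hu' := (hl u hu).1
      have hv' := (hl v hv).1
      have h3 : Lifts t t 1 y y (v⁻¹ * u) := ⟨α, hα, fun x hx => by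
        simpa [Cg] using h' _ ((hW.qhom G hu').maps x hx)⟩
      have q := hW.qhom G (W.mul_mem (W.inv_mem hu') hv')
      have h4 := (h3.mul_iff G G (Link.refl t) q.maps).1 (by simpa using lifts_one t y)
      rw [← test_none (ι := 1) hL T T.E hY hY G G (Link.refl t) hN hb' hB q, h] at h4
      exact Bool.false_ne_true h4
  · have h1 : ∀ u ∈ l, ∀ w ∈ W, p.1 ∈ y ∧ p.2 ∈ y ∧ cdef id (u * w).app p.1 p.2 =
        cdef id u.app p.1 p.2 * cdef id w.app p.1 p.2 := fun u hu w hw =>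
      cdef_mul (ι := 1) hD hW G G (Link.refl t) hA hn hp' (hW.qhom G (hl u hu).1)
        (fun q hq => test_some.1 ((hl u hu).2 _ (List.mem_map_of_mem hq))) hw
    refine (length_le_of_invariant (fun u : FP U => cdef id u.app p.1 p.2) tl.2.2
      (fun u hu => ?_) hp fun u hu v hv e h => ?_).trans ?_
    · obtain ⟨h2, h3, -⟩ := h1 u hu 1 W.one_mem
      exact (T.E.mem _).2 (QHom.cdef_mem (ι := 1) (hW.qhom G (hl u hu).1) (Link.refl t) G G h2 h3)
    · obtain ⟨-, -, h2⟩ := h1 u hu _ (W.mul_mem (W.inv_mem (hl u hu).1) (hl v hv).1)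
      rw [mul_inv_cancel_left] at h2
      have h3 : cdef id (u⁻¹ * v).app p.1 p.2 = 1 := by
        rw [← e] at h2
        exact left_eq_mul.1 h2
      rw [(test_some (ι := 1)).2 h3] at h
      exact Bool.false_ne_true h.symm
    · refine ((T.E.length_le hY G.EY).trans hN).trans (le_trans ?_ hB.cube)
      exact (Nat.le_succ N).trans (Nat.le_self_pow (by norm_num) _)

end P3A

open P3A in
theorem p3c : S_EXT → S_TOWER → S_LIN → S_FILT → S_NORM → S_UNIT → S_LIFT → S_DEEP → S_P3 := by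
  intro hX hT hLin hF hNo hU hL hD U _ _ pad tl tl' t t' ι Y Y' P P' y y' T T' hY hY' G G' hl
  refine ⟨fun h => ?_, fun N b hN hB hb hJ hP hnil γ hγ hP' => ?_⟩
  · unfold p3 at h
    cases e : lin pad tl tl' ι Y Y' (P.zip P') with
    | none => rw [e] at h; exact absurd h Bool.false_ne_true
    | some r =>
      rw [e] at h
      obtain ⟨g, hg⟩ := tower_last h
      exact (hL U pad tl t t' ι tl'.2.2 Y Y' y y' g T T'.E hY hY' G G' hl).1 hg
  have := hY.finite
  have hN' : Y'.length ≤ N := by rw [← hY'.card, ← hγ.card_eq, hY.card]; exact hN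
  have hb₁ : tl.2.2.length ≤ b := T.E.card ▸ hb
  have hb₂ : tl'.2.2.length ≤ b := by
    rw [← T'.E.card, ← Nat.card_congr (Equiv.subtypeEquiv ι.perm hl.E)]
    exact hb
  have hQ : ∀ q ∈ P.zip P', q.1 ∈ y ∧ q.2 ∈ y' ∧ Cg t'.E (γ q.1) q.2 := by
    intro q hq
    rw [hP', List.zip_map_right, List.zip_eq_zipWith, List.zipWith_self, List.map_map] at hq
    obtain ⟨x, hx, rfl⟩ := List.mem_map.1 hq
    exact ⟨hP x hx, hγ.maps (hP x hx), Cg.refl _⟩
  obtain ⟨δ, adj, hδ, e1, e2⟩ := Adj.of_isoOn (ι := ι.perm) hγ hl G G' hQ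
  obtain ⟨F, S, hlin, adjF, -⟩ := hLin U pad tl tl' t t' ι Y Y' y y' (P.zip P') N T T' hY hY' G G'
    hl (fun q hq => ⟨(hQ q hq).1, (hQ q hq).2.1⟩) hN hN' hB.cube ⟨γ, δ, adj⟩
  have hr := adjF.rr hγ hδ e1 e2 hl G G' (by rw [hP', List.length_map]) hQ
  have hinj : ∀ x ∈ y, F.app (false, x) ∈ t'.K → x ∈ t.K := fun x hx hk =>
    hnil.inj G hr hx (by
      rw [mul_inv_cancel_left, hδ.fix _ hk]
      exact (hl.symm.K _).1 hk)
  obtain ⟨hg₀, -⟩ := hNo U tl.2.1 Y t t' ι y y' false F T.K hY G G' hl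
    (by simp only [cond_false, one_mul]; exact adjF.l) (by simpa using hinj)
  simp only [cond_false, one_mul] at hg₀
  obtain ⟨hW₀, hW₁⟩ := hU U pad tl t Y P y N T hY G hP hN hB.cube hnil
  obtain ⟨-, ⟨A, hA, hFL⟩, -⟩ := hF U pad tl t Y P y N T hY G hP hN hB.cube
  have hn : Filt t y P Y.length ≤ t.K := hnil.filt_card G hY.card.le
  have hW : P3A.Units t y P (gen (unitGens pad tl Y P)) := fun σ hσ => (hW₀ σ hσ).2
  unfold p3
  rw [hlin, hFL]
  change (tower _ _ pad Y _ (normP tl.2.1 Y ι false F) _).isSome = true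
  generalize normP tl.2.1 Y ι false F = g₀ at hg₀ ⊢
  have q₀ : QHom t t' ι.app y y' g₀.app := adjF.l.congr G G' (fun j hj => (hl.J j).1 hj)
    (fun j hj => (hl.K j).1 hj) fun x hx => (hg₀ x hx).symm
  have qg : ∀ g, g₀⁻¹ * g ∈ gen (unitGens pad tl Y P) → QHom t t' ι.app y y' g.app := by
    intro g hg
    have := hW.qhom_mul G hl q₀ hg
    rwa [mul_inv_cancel_left] at this
  refine Exists.elim (hT (FP U) U (Option (U × U)) (test2 pad tl 1 tl.2.2 Y Y)
    (test2 pad tl ι tl'.2.2 Y Y') pad Y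
    ((pairTests ((List.range (Y.length + 1)).reverse.map A)).map some ++ [none]) g₀
    (unitGens pad tl Y P) N ?_ ?_ ?_ ?_ ?_ ?_ ?_ ?_) (fun g ⟨S', h, _⟩ => by rw [h]; rfl)
  · intro u hu h
    refine FP.ext fun a => ?_
    by_cases ha : a ∈ y
    · exact h a ((hY.mem a).2 ha)
    · exact (hW₀ u hu).1 a ha
  · intro a ha
    exact ⟨Y.toFinset, (List.toFinset_card_le Y).trans hN, fun u hu => List.mem_toFinset.2
      ((hY.mem _).2 ((hW.qhom G hu).maps a ((hY.mem a).1 ha)))⟩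
  · refine le_trans ?_ hB.cube
    calc Y.length * N ≤ (N + 1) * (N + 1) := Nat.mul_le_mul (hN.trans N.le_succ) N.le_succ
      _ = (N + 1) ^ 2 := (sq _).symm
      _ ≤ _ := Nat.pow_le_pow_right N.succ_pos (by norm_num)
  · intro s _
    cases s with
    | none =>
      exact (test_none (ι := 1) (g := 1) hL T T.E hY hY G G (Link.refl t) hN hb₁ hB (QHom.id G)).2
        (lifts_one t y)
    | some p => exact test_some.2 (cdef_eq_one.2 rfl)
  · intro pre s post hs u hu v hv hpu _ h1 h2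
    have := test_mul (ι := 1) hL hD hW T T.E hY hY G G (Link.refl t) hN hb₁ hb₁ hB hA hn hs
      (hW.qhom G hu) hpu h1 (Subgroup.mul_mem _ (Subgroup.inv_mem _ hu) hv)
    rwa [mul_inv_cancel_left, h2, eq_comm] at this
  · intro pre s post hs l h1 h2
    exact length_le hX hL hD hW T hY G hN hb hJ hB hA hn hs h1 h2
  · intro pre s post hs g hg hpre h1 u hu _
    exact test_mul hL hD hW T T'.E hY hY' G G' hl hN hb₁ hb₂ hB hA hn hs (qg g hg) hpre h1 hu
  · obtain ⟨σ, hσ, h⟩ := hW₁ _ _ hr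
    have hσ' : g₀⁻¹ * (g₀ * σ⁻¹) ∈ gen (unitGens pad tl Y P) := by
      rw [inv_mul_cancel_left]
      exact Subgroup.inv_mem _ hσ
    have key : ∀ x ∈ y, Cg t'.E (γ x) ((g₀ * σ⁻¹).app x) := by
      intro x hx
      have hz := (hW.qhom G (Subgroup.inv_mem _ hσ)).maps x hx
      have h1 := h _ hz
      rw [FP.app_app_inv, mul_inv_cancel_left] at h1
      have h2 := (QHom.of_isoOn (t' := t') hγ G).congrE G (fun e he => (hl.E e).1 he) hx h1
      rw [e2 _ (adjF.l.maps _ hz)] at h2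
      exact h2.trans (hg₀ _ hz).symm
    refine ⟨g₀ * σ⁻¹, hσ', fun s hs => ?_⟩
    cases s with
    | none =>
      exact (test_none hL T T'.E hY hY' G G' hl hN hb₂ hB (qg _ hσ')).2 ⟨γ, hγ, key⟩
    | some p =>
      have hp : p ∈ pairTests ((List.range (Y.length + 1)).reverse.map A) := by simpa using hs
      obtain ⟨⟨_, h1, h2⟩, _, h3, h4⟩ := mem_pairTests.1 hp
      obtain ⟨i, -, rfl⟩ := List.mem_map.1 h1
      obtain ⟨j, -, rfl⟩ := List.mem_map.1 h3
      have ha := filt_le G i (((hA i).mem _).1 h2)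
      have hc := filt_le G j (((hA j).mem _).1 h4)
      rw [test_some, cdef_eq_one, ← G'.comm_left ((qg _ hσ').maps _ hc) (key _ ha),
        ← G'.comm_right (hγ.maps ha) (key _ hc), ← hγ.comm ha hc, hγ.fix _ (G.comm _ ha _ hc)]

end Pool.Agent.P.MP_f1a348_lc.GI
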