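import Pool.Agent.P.MP_f1a348_lc.GI.MDefs

/-! Few pins kill all elements with large classes. -/

namespace Pool.Agent.P.MP_f1a348_lc.GI

open Subgroup Finset

namespace PinA

variable {G : Type} [Group G] [Fintype G]

open Classical in
/-- the elements of `H` with large class that commute with the list -/
noncomputable def S (H : Subgroup G) (m : ℕ) (l : List G) : Finset G :=
  univ.filter fun c => c ∈ H ∧ (∀ x ∈ l, Commute c x) ∧ m < (centralizer {c}).relIndex H

open Classical in
theorem card_cent (H : Subgroup G) (c : G) :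
    (univ.filter fun x : H => Commute c (x : G)).card * (centralizer {c}).relIndex H =
      Nat.card H := by
  rw [← card_mul_index ((centralizer {c}).subgroupOf H), relIndex]
  congr 1
  rw [Nat.card_eq_fintype_card, Fintype.card_subtype]
  congr 1
  ext x
  simp [mem_subgroupOf, mem_centralizer_iff, commute_iff_eq]

open Classical in
theorem S_cons (H : Subgroup G) (m : ℕ) (l : List G) (x : G) :
    S H m (x :: l) = (S H m l).filter fun c => Commute c x := by
  ext c
  simp only [S, mem_filter, mem_univ, true_and, List.mem_cons, forall_eq_or_imp]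
  tauto

theorem step (H : Subgroup G) (m : ℕ) (l : List G) :
    ∃ x ∈ H, m * (S H m (x :: l)).card ≤ (S H m l).card := by
  classical
  by_contra hcon
  push Not at hcon
  have h1 : ∑ x : H, (S H m ((x : G) :: l)).card =
      ∑ c ∈ S H m l, (univ.filter fun x : H => Commute c (x : G)).card := by
    simp only [S_cons, card_filter]
    exact sum_comm
  have h2 : ∀ c ∈ S H m l,
      m * (univ.filter fun x : H => Commute c (x : G)).card ≤ Nat.card H := by
    intro c hc
    have hm : m < (centralizer {c}).relIndex H := (mem_filter.1 hc).2.2.2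
    rw [← card_cent H c, mul_comm]
    exact Nat.mul_le_mul_left _ hm.le
  have h3 : ∑ x : H, m * (S H m ((x : G) :: l)).card ≤ (S H m l).card * Nat.card H := by
    rw [← mul_sum, h1, mul_sum]
    simpa using sum_le_card_nsmul _ _ _ h2
  have h4 : ∑ _x : H, (S H m l).card < ∑ x : H, m * (S H m ((x : G) :: l)).card :=
    sum_lt_sum_of_nonempty univ_nonempty fun x _ => hcon x x.2
  rw [sum_const, card_univ, smul_eq_mul, ← Nat.card_eq_fintype_card, mul_comm] at h4
  omega

theorem iter (H : Subgroup G) (m j : ℕ) : ∃ l : List G, (∀ x ∈ l, x ∈ H) ∧ l.length = j ∧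
    m ^ j * (S H m l).card ≤ Nat.card G := by
  induction j with
  | zero =>
    refine ⟨[], by simp, rfl, ?_⟩
    rw [pow_zero, one_mul, Nat.card_eq_fintype_card]
    exact card_le_univ _
  | succ j ih =>
    obtain ⟨l, h1, h2, h3⟩ := ih
    obtain ⟨x, hx, h4⟩ := step H m l
    refine ⟨x :: l, ?_, by simp [h2], ?_⟩
    · intro y hy
      rcases List.mem_cons.1 hy with rfl | hy
      · exact hx
      · exact h1 y hy
    · rw [pow_succ, mul_assoc]
      exact (Nat.mul_le_mul_left _ h4).trans h3

end PinA

theorem pin : S_PIN := by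
  intro G _ _ H m hm
  classical
  have := Fintype.ofFinite G
  obtain ⟨l, h1, h2, h3⟩ := PinA.iter H m (Nat.log m (Nat.card G) + 1)
  refine ⟨l, h1, h2.le, fun c hc hl => ?_⟩
  by_contra hcon
  have h4 : 0 < (PinA.S H m l).card :=
    card_pos.2 ⟨c, mem_filter.2 ⟨mem_univ _, hc, hl, not_le.1 hcon⟩⟩
  have h5 := Nat.lt_pow_succ_log_self (show 1 < m by omega) (Nat.card G)
  have h6 := (Nat.le_mul_of_pos_right _ h4).trans h3
  exact absurd h5 (not_lt.2 h6)

end Pool.Agent.P.MP_f1a348_lc.GI
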