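import Pool.Agent.P.MP_f1a348_lc.GI.ABasic

/-! A valid plan exists and is found. -/

namespace Pool.Agent.P.MP_f1a348_lc.GI

namespace PlanA
variable {U : Type} [Group U]

theorem pad_gen {l : List U} {n : ℕ} (h : l.length ≤ n) :
    ∃ m : List U, m.length = n ∧ (∀ x ∈ l, x ∈ m) ∧ gen m = gen l := by
  obtain ⟨m, h1, h2, h3⟩ := exists_pad l 1 h
  refine ⟨m, h1, h2, le_antisymm (gen_le.2 fun x hx => ?_) (gen_mono h2)⟩
  rcases h3 x hx with h4 | rfl
  · exact mem_gen h4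
  · exact Subgroup.one_mem _

theorem dup_mono {t : Tr U} {b b' : ℕ} {Y : Subgroup U} (h : Dup t b Y) (hb : b ≤ b') :
    Dup t b' Y := by
  obtain ⟨X, Y₁, X₂, Y₂, γ, h1, h2, h3, h4, h5⟩ := h
  exact ⟨X, Y₁, X₂, Y₂, γ, h1, h2, h3, h4.trans (Nat.mul_le_mul_right _ hb), h5⟩

end PlanA

theorem plan : S_ST → S_P2 → S_SMALL → S_CHECK → S_LOOP → S_FILT → S_PLAN := by
  intro hST hP2 hSM hCH hLP hFI M hM
  obtain ⟨B, h1⟩ := hST M hM
  obtain ⟨τ, h2⟩ := hP2 B M hM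
  refine ⟨B + τ + M, fun U _ _ pad uk ub el G hel hk hb hbig hpad => ?_⟩
  have := hel.finite
  obtain ⟨I₀, H, E, hI, hIl, hHG, hGH, hcov, hE, hJ, hgood⟩ := h1 U G
  have hB : B ≤ ub.length := by omega
  have hcard := hel.card
  obtain ⟨I, hI1, -, hI2⟩ := PlanA.pad_gen (l := I₀) (n := uk.length) (by rw [hcard] at hIl; omega)
  have hJG : gen I₀ ≤ G := gen_le.2 hI
  have hIG : ∀ x ∈ I, x ∈ G := fun x hx => hJG (hI2 ▸ mem_gen hx)
  have hGH' := hGH.trans (Nat.mul_le_mul_right _ hB)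
  obtain ⟨HL, hHL, rH⟩ := (hSM U pad ub el G hel).2 el.length le_rfl hbig H hHG hGH'
  have hEG : E ≤ G := (hgood.EK.trans hgood.KY).trans hHG
  have := finite_of_le hEG
  have := finite_of_le hJG
  obtain ⟨T, hT, hTE⟩ := exists_gens_over (A := ⊥) (Z := E) bot_le (b := ub.length)
    (by rw [Subgroup.card_bot, mul_one]; exact hE.trans hB)
  rw [bot_sup_eq] at hTE
  have hTG : ∀ x ∈ T, x ∈ G := fun x hx => hEG (hTE ▸ mem_gen hx)
  have rE : Rep (clo el T) E := hTE ▸ clo_rep hel hTG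
  have rJ : Rep (clo el I) (gen I₀) := hI2 ▸ clo_rep hel hIG
  have rK : Rep ((clo el I).filter fun x => HL.contains x) (gen I₀ ⊓ H) :=
    rJ.filter fun x => by rw [rH.contains, Subgroup.mem_inf]
  have rT : RepT (tlOf el I HL (clo el T)) ⟨gen I₀, gen I₀ ⊓ H, E⟩ := ⟨rJ, rK, rE⟩
  obtain ⟨y, hy, rY, gY, nd, -⟩ :=
    hLP U pad ub _ _ HL H el.length rT rH hgood (rH.length_le hel hHG) hbig
  have hyG : y ≤ G := hy.trans hHG
  have := finite_of_le hyG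
  obtain ⟨P₀, hP, hPl, hnil⟩ := h2 U _ y gY hE hJ fun h => nd (PlanA.dup_mono h (by omega))
  have hlen := rY.length_le hel hyG
  have hlog : Nat.log M (Nat.card y) ≤ Nat.log M el.length :=
    Nat.log_mono_right (rY.card ▸ hlen)
  obtain ⟨P, hP1, hP2, hP3⟩ := PlanA.pad_gen (l := P₀) (n := uk.length) (by omega)
  have hPy : ∀ x ∈ P, x ∈ y := fun x hx => gen_le.2 hP (hP3 ▸ mem_gen hx)
  have hn := (hFI U pad _ _ _ P y el.length rT rY gY hPy hlen hbig.cube).2.2.2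
    (hnil.mono fun x hx => Or.inl (hP2 x hx))
  refine List.find?_isSome.2 ⟨(I, HL, clo el T, P), ?_, ?_⟩
  · refine List.mem_flatMap.2 ⟨I, tuples_complete hpad hI1 fun x hx => (hel.mem x).2 (hIG x hx),
      List.mem_flatMap.2 ⟨HL, hHL, List.mem_flatMap.2 ⟨clo el T, List.mem_map_of_mem
        (tuples_complete (hbig.tuples le_rfl) hT fun x hx => (hel.mem x).2 (hTG x hx)),
        List.mem_map_of_mem (tuples_complete ((Nat.pow_le_pow_left hlen _).trans hpad) hP1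
          fun x hx => (rY.mem x).2 (hPy x hx))⟩⟩⟩
  · simp only [planB, Bool.and_eq_true, Nat.ble_eq]
    refine ⟨⟨⟨⟨⟨(hCH U _ _ HL H rT rH).1.2 hgood, coverB_iff.2 fun g hg => ?_⟩, ?_⟩, ?_⟩, ?_⟩, hn⟩
    · obtain ⟨j, hj, h, hh, e⟩ := hcov g ((hel.mem g).1 hg)
      exact ⟨j, (rJ.mem j).2 hj, h, (rH.mem h).2 hh, e⟩
    · rw [← hcard, ← rH.card]
      exact hGH'
    · rw [← rE.card]
      exact hE.trans hB
    · rw [← rJ.card, ← rT.K.card]
      exact hJ.trans (Nat.mul_le_mul_right _ hB)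

end Pool.Agent.P.MP_f1a348_lc.GI
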