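import Pool.Agent.P.MP_f1a348_lc.GI.MDefs

/-!
Small subgroups force a large commuting probability (permuted products).
-/

namespace Pool.Agent.P.MP_f1a348_lc.GI

open Subgroup

namespace RewA

variable {G : Type} [Group G]

/-- the solutions of `α U β U' = β V α V'` inject into the commuting pairs -/
theorem pairs (U U' V V' : G) : ∃ f : G × G → G × G,
    (∀ p : G × G, p.1 * U * p.2 * U' = p.2 * V * p.1 * V' → Commute (f p).1 (f p).2) ∧
    ∀ p q : G × G, f p = f q → p = q := by
  classical
  have h0 : ∀ β : G, ∃ a0 : G, ∀ α : G, α * U * β * U' = β * V * α * V' →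
      a0 * U * β * U' = β * V * a0 * V' := by
    intro β
    by_cases h : ∃ α : G, α * U * β * U' = β * V * α * V'
    · obtain ⟨α, hα⟩ := h
      exact ⟨α, fun _ _ => hα⟩
    · exact ⟨1, fun α hα => absurd ⟨α, hα⟩ h⟩
  choose a0 ha0 using h0
  refine ⟨fun p => (p.2 * V, p.1 * (a0 p.2)⁻¹), ?_, ?_⟩
  · rintro ⟨α, β⟩ h
    have h1 := ha0 β α h
    simp only at h h1 ⊢
    have e1 : β * V * α = α * (U * β * U' * V'⁻¹) := by
      calc β * V * α = (β * V * α * V') * V'⁻¹ := by group
        _ = (α * U * β * U') * V'⁻¹ := by rw [h]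
        _ = _ := by group
    have e2 : β * V * a0 β = a0 β * (U * β * U' * V'⁻¹) := by
      calc β * V * a0 β = (β * V * a0 β * V') * V'⁻¹ := by group
        _ = (a0 β * U * β * U') * V'⁻¹ := by rw [h1]
        _ = _ := by group
    have e3 : (U * β * U' * V'⁻¹) * (a0 β)⁻¹ = (a0 β)⁻¹ * (β * V) := by
      calc (U * β * U' * V'⁻¹) * (a0 β)⁻¹
          = (a0 β)⁻¹ * (a0 β * (U * β * U' * V'⁻¹)) * (a0 β)⁻¹ := by group
        _ = (a0 β)⁻¹ * (β * V * a0 β) * (a0 β)⁻¹ := by rw [e2]
        _ = _ := by group
    show β * V * (α * (a0 β)⁻¹) = α * (a0 β)⁻¹ * (β * V)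
    calc β * V * (α * (a0 β)⁻¹) = (β * V * α) * (a0 β)⁻¹ := by group
      _ = α * ((U * β * U' * V'⁻¹) * (a0 β)⁻¹) := by rw [e1]; group
      _ = _ := by rw [e3]; group
  · rintro ⟨α, β⟩ ⟨α', β'⟩ h
    simp only [Prod.mk.injEq, mul_left_inj] at h
    obtain ⟨h1, h2⟩ := h
    subst h1
    simp only [mul_left_inj] at h2
    rw [h2]

/-- the count for two lists with different heads -/
theorem heads [Finite G] {ι : Type} [Fintype ι] (a b : ι) (u u' v v' : List ι) (hab : a ≠ b)
    (ha : ∀ i, i ∈ u ∨ i ∈ u' ∨ i ∈ v ∨ i ∈ v' → i ≠ a ∧ i ≠ b) :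
    Nat.card {y : ι → G // ((a :: (u ++ b :: u')).map y).prod =
      ((b :: (v ++ a :: v')).map y).prod} * Nat.card G ^ 2 ≤
      Nat.card G ^ Fintype.card ι * Nat.card {p : G × G // Commute p.1 p.2} := by
  classical
  have h0 := fun x : ι → G => pairs (u.map x).prod (u'.map x).prod (v.map x).prod (v'.map x).prod
  choose f hf1 hf2 using h0
  let X : (ι → G) → G → G → ι → G := fun y p q => Function.update (Function.update y a p) b q
  have hX : ∀ y p q i, i ≠ a ∧ i ≠ b → X y p q i = y i := by
    intro y p q i hi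
    simp only [X]
    rw [Function.update_of_ne hi.2, Function.update_of_ne hi.1]
  have hXa : ∀ y p q, X y p q a = p := by
    intro y p q
    simp only [X]
    rw [Function.update_of_ne hab, Function.update_self]
  have hXb : ∀ y p q, X y p q b = q := by
    intro y p q
    simp only [X]
    rw [Function.update_self]
  have hm : ∀ y p q (l : List ι), (∀ i ∈ l, i ≠ a ∧ i ≠ b) → l.map (X y p q) = l.map y :=
    fun y p q l hl => List.map_congr_left fun i hi => hX y p q i (hl i hi)
  have hc : ∀ y : {y : ι → G // ((a :: (u ++ b :: u')).map y).prod =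
      ((b :: (v ++ a :: v')).map y).prod}, ∀ p q,
      Commute (f (X y p q) (y.1 a, y.1 b)).1 (f (X y p q) (y.1 a, y.1 b)).2 := by
    rintro ⟨y, hy⟩ p q
    apply hf1
    rw [hm y p q u fun i hi => ha i (Or.inl hi),
      hm y p q u' fun i hi => ha i (Or.inr (Or.inl hi)),
      hm y p q v fun i hi => ha i (Or.inr (Or.inr (Or.inl hi))),
      hm y p q v' fun i hi => ha i (Or.inr (Or.inr (Or.inr hi)))]
    simp only [List.map_cons, List.map_append, List.prod_cons, List.prod_append] at hy
    simpa only [mul_assoc] using hy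
  let F : {y : ι → G // ((a :: (u ++ b :: u')).map y).prod =
      ((b :: (v ++ a :: v')).map y).prod} × (G × G) →
      (ι → G) × {p : G × G // Commute p.1 p.2} :=
    fun z => (X z.1 z.2.1 z.2.2, ⟨_, hc z.1 z.2.1 z.2.2⟩)
  have hF : Function.Injective F := by
    rintro ⟨⟨y, hy⟩, p, q⟩ ⟨⟨y', hy'⟩, p', q'⟩ h
    simp only [F, Prod.mk.injEq, Subtype.mk.injEq] at h
    obtain ⟨h1, h2⟩ := h
    rw [← h1] at h2
    have h3 := hf2 _ _ _ h2
    simp only [Prod.mk.injEq] at h3
    have hp : p = p' := by rw [← hXa y p q, h1, hXa]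
    have hq : q = q' := by rw [← hXb y p q, h1, hXb]
    have hy : y = y' := by
      funext i
      by_cases hi : i = a
      · rw [hi]; exact h3.1
      by_cases hi' : i = b
      · rw [hi']; exact h3.2
      rw [← hX y p q i ⟨hi, hi'⟩, h1, hX y' p' q' i ⟨hi, hi'⟩]
    subst hy hp hq
    rfl
  have h := Nat.card_le_card_of_injective F hF
  rw [Nat.card_prod, Nat.card_prod, Nat.card_prod, Nat.card_fun, Nat.card_eq_fintype_card (α := ι)]
    at h
  rw [sq]
  exact h

/-- the count for two different orderings of the same indices -/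
theorem key [Finite G] {ι : Type} [Fintype ι] (l : List ι) : ∀ l' : List ι, l.Nodup → l.Perm l' →
    l ≠ l' → Nat.card {y : ι → G // (l.map y).prod = (l'.map y).prod} * Nat.card G ^ 2 ≤
      Nat.card G ^ Fintype.card ι * Nat.card {p : G × G // Commute p.1 p.2} := by
  induction l with
  | nil =>
    intro l' _ hp hne
    exact absurd hp.nil_eq hne
  | cons a r ih =>
    intro l' hn hp hne
    cases l' with
    | nil => exact absurd hp.eq_nil (List.cons_ne_nil _ _)
    | cons b r' =>
      by_cases hab : a = b
      · subst hab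
        have h := ih r' hn.of_cons (List.Perm.cons_inv hp) (fun e => hne (by rw [e]))
        simpa only [List.map_cons, List.prod_cons, mul_right_inj] using h
      · have hn' : (b :: r').Nodup := hp.nodup_iff.1 hn
        have hb : b ∈ r := by
          have : b ∈ a :: r := hp.mem_iff.2 List.mem_cons_self
          rcases List.mem_cons.1 this with h | h
          · exact absurd h.symm hab
          · exact h
        have ha : a ∈ r' := by
          have : a ∈ b :: r' := hp.mem_iff.1 List.mem_cons_self
          rcases List.mem_cons.1 this with h | h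
          · exact absurd h hab
          · exact h
        obtain ⟨u, u', rfl⟩ := List.append_of_mem hb
        obtain ⟨v, v', rfl⟩ := List.append_of_mem ha
        apply heads a b u u' v v' hab
        intro i hi
        simp only [List.nodup_cons, List.mem_append, List.mem_cons, List.nodup_append] at hn hn'
        constructor
        · rintro rfl
          rcases hi with hi | hi | hi | hi
          · exact hn.1 (Or.inl hi)
          · exact hn.1 (Or.inr (Or.inr hi))
          · exact hn'.2.2.2 _ hi _ (Or.inl rfl) rfl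
          · exact hn'.2.2.1.1 hi
        · rintro rfl
          rcases hi with hi | hi | hi | hi
          · exact hn.2.2.2 _ hi _ (Or.inl rfl) rfl
          · exact hn.2.2.1.1 hi
          · exact hn'.1 (Or.inl hi)
          · exact hn'.1 (Or.inr (Or.inr hi))

end RewA

theorem rew : S_REW := by
  intro t G _ _ h
  classical
  have := Fintype.ofFinite G
  let L : Equiv.Perm (Fin t) → List (Fin t) := fun s => (List.finRange t).map s
  have hLn : ∀ s, (L s).Nodup := fun s => (List.nodup_finRange t).map s.injective
  have hLp : ∀ s s', (L s).Perm (L s') := fun s s' =>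
    (Equiv.Perm.map_finRange_perm s).trans (Equiv.Perm.map_finRange_perm s').symm
  have hLi : ∀ s s', L s = L s' → s = s' := by
    intro s s' e
    ext i
    have := List.map_inj_left.1 e i (List.mem_finRange i)
    rw [this]
  let S : Equiv.Perm (Fin t) × Equiv.Perm (Fin t) → Finset (Fin t → G) := fun p =>
    Finset.univ.filter fun y => ((L p.1).map y).prod = ((L p.2).map y).prod
  let P : Finset (Equiv.Perm (Fin t) × Equiv.Perm (Fin t)) := Finset.univ.filter fun p => p.1 ≠ p.2
  have hcov : (Finset.univ : Finset (Fin t → G)) ⊆ P.biUnion S := by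
    intro y _
    have hw : ∀ s, ((L s).map y).prod ∈ closure (Set.range y) := by
      intro s
      apply Subgroup.list_prod_mem
      intro x hx
      obtain ⟨i, _, rfl⟩ := List.mem_map.1 hx
      exact subset_closure ⟨i, rfl⟩
    by_contra hy
    have hinj : Function.Injective fun s => (⟨_, hw s⟩ : closure (Set.range y)) := by
      intro s s' e
      by_contra hne
      apply hy
      simp only [Finset.mem_biUnion, P, S, Finset.mem_filter, Finset.mem_univ, true_and]
      exact ⟨(s, s'), hne, congrArg Subtype.val e⟩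
    have h1 := Nat.card_le_card_of_injective _ hinj
    rw [Nat.card_eq_fintype_card, Fintype.card_perm, Fintype.card_fin] at h1
    exact absurd (h y) (not_lt.2 h1)
  set n := Nat.card G with hn
  set C := Nat.card {p : G × G // Commute p.1 p.2} with hC
  have h1 : n ^ t ≤ ∑ p ∈ P, (S p).card := by
    have := (Finset.card_le_card hcov).trans Finset.card_biUnion_le
    rwa [Finset.card_univ, Fintype.card_fun, Fintype.card_fin, ← Nat.card_eq_fintype_card] at this
  have h2 : ∀ p ∈ P, (S p).card * n ^ 2 ≤ n ^ t * C := by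
    intro p hp
    have hne : p.1 ≠ p.2 := (Finset.mem_filter.1 hp).2
    have := RewA.key (G := G) (L p.1) (L p.2) (hLn _) (hLp _ _) fun e => hne (hLi _ _ e)
    rwa [Fintype.card_fin, Nat.card_eq_fintype_card, Fintype.card_subtype] at this
  have h3 : P.card ≤ t.factorial ^ 2 := by
    have := Finset.card_le_univ P
    rwa [Fintype.card_prod, Fintype.card_perm, Fintype.card_fin, ← sq] at this
  have h4 : n ^ t * n ^ 2 ≤ n ^ t * (t.factorial ^ 2 * C) := by
    calc n ^ t * n ^ 2 ≤ (∑ p ∈ P, (S p).card) * n ^ 2 := Nat.mul_le_mul_right _ h1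
      _ = ∑ p ∈ P, (S p).card * n ^ 2 := Finset.sum_mul _ _ _
      _ ≤ P.card • (n ^ t * C) := Finset.sum_le_card_nsmul _ _ _ h2
      _ = P.card * (n ^ t * C) := smul_eq_mul _ _
      _ ≤ t.factorial ^ 2 * (n ^ t * C) := Nat.mul_le_mul_right _ h3
      _ = _ := by ring
  exact Nat.le_of_mul_le_mul_left h4 (pow_pos Nat.card_pos t)

end Pool.Agent.P.MP_f1a348_lc.GI
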