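import Pool.Agent.P.MP_f1a348_lc.GI.QAlg

/-!
Without duplicates there are few orthogonal self-adjoint idempotents.
-/

namespace Pool.Agent.P.MP_f1a348_lc.GI

open Subgroup
open scoped commutatorElement

namespace RhoA

variable {U : Type} [Group U] {t : Tr U} {Y : Subgroup U} {e f : U → U}

/-- the image of `e` modulo `E` -/
def XX (g : Good t Y) (h : LHom t t id Y Y e) : Subgroup U where
  carrier := {d | ∃ y ∈ Y, Cg t.E (e y) d}
  one_mem' := ⟨1, Y.one_mem, (Cg.one_iff.2 h.one_mem).symm⟩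
  mul_mem' := by
    rintro a b ⟨x, hx, ha⟩ ⟨y, hy, hb⟩
    exact ⟨x * y, Y.mul_mem hx hy, (h.mul' hx hy).trans (ha.mul (g.nmE (h.maps y hy)) hb)⟩
  inv_mem' := by
    rintro a ⟨x, hx, ha⟩
    exact ⟨x⁻¹, Y.inv_mem hx, (h.inv' g hx).trans (ha.inv (g.nmE (Y.inv_mem (h.maps x hx))))⟩

/-- the kernel of `e` modulo `K` -/
def ZZ (g : Good t Y) (h : LHom t t id Y Y e) : Subgroup U where
  carrier := {y | y ∈ Y ∧ e y ∈ t.K}
  one_mem' := ⟨Y.one_mem, g.EK h.one_mem⟩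
  mul_mem' := by
    rintro a b ⟨ha, ha'⟩ ⟨hb, hb'⟩
    exact ⟨Y.mul_mem ha hb, ((h.mul' ha hb).mem_iff g.EK).2 (t.K.mul_mem ha' hb')⟩
  inv_mem' := by
    rintro a ⟨ha, ha'⟩
    exact ⟨Y.inv_mem ha, ((h.inv' g ha).mem_iff g.EK).2 (t.K.inv_mem ha')⟩

theorem mem_XX (g : Good t Y) (h : LHom t t id Y Y e) {d : U} :
    d ∈ XX g h ↔ ∃ y ∈ Y, Cg t.E (e y) d := Iff.rfl

theorem mem_ZZ (g : Good t Y) (h : LHom t t id Y Y e) {y : U} :
    y ∈ ZZ g h ↔ y ∈ Y ∧ e y ∈ t.K := Iff.rfl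

theorem XX_le (g : Good t Y) (h : LHom t t id Y Y e) : XX g h ≤ Y := by
  rintro d ⟨y, hy, hd⟩
  exact (hd.mem_iff g.EY).1 (h.maps y hy)

theorem XX_cen (g : Good t Y) (h : LHom t t id Y Y e) {d : U} (hd : d ∈ XX g h) :
    ∀ k ∈ t.K, d * k = k * d := by
  obtain ⟨y, hy, hd⟩ := hd
  exact g.cen_of_cg hd (h.cen y hy)

theorem XX_le_ZZ (g : Good t Y) (h : LHom t t id Y Y e) (h' : LHom t t id Y Y f)
    (ho : ∀ y ∈ Y, e (f y) ∈ t.K) : XX g h' ≤ ZZ g h := by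
  intro d hd
  have hdY := XX_le g h' hd
  obtain ⟨y, hy, hd⟩ := hd
  exact ⟨hdY, ((h.congrK g (h'.maps y hy) (hd.mono g.EK)).mem_iff g.EK).1 (ho y hy)⟩

theorem decomp (g : Good t Y) (h : RR t Y [] e e) (hi : ∀ y ∈ Y, (e (e y))⁻¹ * e y ∈ t.K)
    (hE : ∀ y ∈ Y, e y ∈ t.K → e y ∈ t.E) : Decomp t Y (XX g h.l) (ZZ g h.l) := by
  refine ⟨fun a ha => ?_, XX_le g h.l, fun k hk => ⟨g.KY hk, g.EK (h.l.fix k hk)⟩,
    fun y hy => hy.1, fun d hd hd' => ?_, fun y hy => ?_, fun a ha d hd => ?_,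
    fun j hj d hd => ?_, fun j hj a ha => ?_⟩
  · exact ⟨1, Y.one_mem, (Cg.one_iff.2 h.l.one_mem).symm.trans (Cg.one_iff.2 ha)⟩
  · obtain ⟨y, hy, hd⟩ := hd
    have h1 : e (e y) ∈ t.K :=
      ((h.l.congrK g (h.l.maps y hy) (hd.mono g.EK)).mem_iff g.EK).2 hd'.2
    have h2 : e y ∈ t.K := ((show Cg t.K (e (e y)) (e y) from hi y hy).mem_iff le_rfl).1 h1
    exact (hd.mem_iff le_rfl).1 (hE y hy h2)
  · have hm := h.l.maps y hy
    refine ⟨y * (e y)⁻¹, ⟨Y.mul_mem hy (Y.inv_mem hm), ?_⟩, e y, ⟨y, hy, Cg.refl _⟩, by simp⟩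
    have h1 : Cg t.E (e (y * (e y)⁻¹)) (e y * (e (e y))⁻¹) :=
      (h.l.mul' hy (Y.inv_mem hm)).trans ((h.l.inv' g hm).left _)
    refine (h1.mem_iff g.EK).2 ?_
    have := g.conjK hm (hi y hy)
    simpa [mul_assoc] using this
  · obtain ⟨y, hy, hd⟩ := hd
    have h1 : ⁅a, d⁆ = 1 := by
      rw [← g.comm_right ha.1 hd, h.adj a ha.1 y hy, commutatorElement_eq_one_iff_mul_comm]
      exact g.cen _ (hE a ha.1 ha.2) y hy
    exact commutatorElement_eq_one_iff_mul_comm.1 h1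
  · obtain ⟨y, hy, hd⟩ := hd
    exact ⟨_, g.nY j hj y hy, (h.l.equi' hj hy).trans
      ((hd.left j).right (g.nmEJ (t.J.inv_mem hj)))⟩
  · exact ⟨g.nY j hj a ha.1, ((h.l.equi' hj ha.1).mem_iff g.EK).2 (g.nK j hj _ ha.2)⟩

theorem restrict {X Z W : Subgroup U} (d : Decomp t Y X Z) (hK : t.K ≤ W) (hW : W ≤ Y)
    (hX : X ≤ W) (nW : ∀ j ∈ t.J, ∀ a ∈ W, j * a * j⁻¹ ∈ W) : Decomp t W X (W ⊓ Z) := by
  refine ⟨d.EX, hX, le_inf hK d.KY, inf_le_left, fun x hx hx' => d.inter x hx hx'.2,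
    fun y hy => ?_, fun a ha x hx => d.comm a ha.2 x hx, d.nX,
    fun j hj a ha => ⟨nW j hj a ha.1, d.nY j hj a ha.2⟩⟩
  obtain ⟨a, ha, x, hx, rfl⟩ := d.prod y (hW hy)
  exact ⟨a, ⟨(W.mul_mem_cancel_right (hX hx)).1 hy, ha⟩, x, hx, rfl⟩

/-- the summands of large index -/
theorem large [Finite Y] (g : Good t Y) {n b : ℕ} (X Z : Fin n → Subgroup U)
    (hd : ∀ i, Decomp t Y (X i) (Z i)) (ho : ∀ i j, i ≠ j → X j ≤ Z i) (s : Finset (Fin n))
    (hs : ∀ i ∈ s, b * Nat.card t.E ≤ Nat.card (X i)) :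
    ∃ W : Subgroup U, Good t W ∧ W ≤ Y ∧ (∀ j ∉ s, X j ≤ W) ∧
      b ^ s.card * Nat.card W ≤ Nat.card Y := by
  classical
  induction s using Finset.induction_on with
  | empty => exact ⟨Y, g, le_rfl, fun j _ => (hd j).XY, by simp⟩
  | insert i s hi ih =>
    obtain ⟨W, gW, hW, hX, hc⟩ := ih (fun j hj => hs j (Finset.mem_insert_of_mem hj))
    have d := restrict (hd i) gW.KY hW (hX i hi) gW.nY
    refine ⟨W ⊓ Z i, d.good gW, inf_le_left.trans hW, fun j hj => ?_, ?_⟩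
    · rw [Finset.mem_insert, not_or] at hj
      exact le_inf (hX j hj.2) (ho i j (Ne.symm hj.1))
    · have h1 := d.card gW
      have h2 := hs i (Finset.mem_insert_self i s)
      have : Finite t.E := Finite.of_injective _ (Subgroup.inclusion_injective g.EY)
      have h3 : 0 < Nat.card t.E := Nat.card_pos
      have h4 : b * Nat.card (W ⊓ Z i : Subgroup U) ≤ Nat.card W := by
        refine Nat.le_of_mul_le_mul_right ?_ h3
        calc b * Nat.card (W ⊓ Z i : Subgroup U) * Nat.card t.E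
            = Nat.card (W ⊓ Z i : Subgroup U) * (b * Nat.card t.E) := by ring
          _ ≤ Nat.card (W ⊓ Z i : Subgroup U) * Nat.card (X i) := Nat.mul_le_mul_left _ h2
          _ = _ := h1.symm
      rw [Finset.card_insert_of_notMem hi, pow_succ, mul_assoc]
      exact (Nat.mul_le_mul_left _ h4).trans hc

end RhoA

open RhoA in
theorem rho : S_TYPES → S_RHO := by
  classical
  intro hT B b hb
  obtain ⟨τ, hτ⟩ := hT (max B (b * B))
  refine ⟨τ, fun U _ t Y _ _ g hE hJ hD n e he ho => ?_⟩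
  set X : Fin n → Subgroup U := fun i => XX g (he i).1.l with hX
  set Z : Fin n → Subgroup U := fun i => ZZ g (he i).1.l with hZ
  have hd : ∀ i, Decomp t Y (X i) (Z i) := fun i => decomp g (he i).1 (he i).2.1 (he i).2.2.1
  have hXZ : ∀ i j, i ≠ j → X j ≤ Z i := fun i j hij => XX_le_ZZ g _ _ (ho i j hij)
  set S : Finset (Fin n) := Finset.univ.filter fun i => Nat.card (X i) ≤ b * Nat.card t.E with hS
  have h1 : S.card ≤ τ := by
    by_contra hlt
    rw [not_le] at hlt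
    obtain ⟨i, i', hii, γ, hγ⟩ := hτ U t.J t.K t.E S.card (fun k => X (S.equivFin.symm k)) hlt
      g.EK g.KJ (hJ.trans (Nat.mul_le_mul_right _ (le_max_left _ _))) (fun k =>
        ⟨Finite.of_injective _ (Subgroup.inclusion_injective (hd _).XY),
          ((Finset.mem_filter.1 (S.equivFin.symm k).2).2.trans (Nat.mul_le_mul_left _ hE)).trans
            (le_max_right _ _), (hd _).EX, (hd _).nX,
          fun k' hk' x hx => (XX_cen g _ hx k' hk').symm⟩)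
    have hne : (S.equivFin.symm i : Fin n) ≠ S.equivFin.symm i' := fun h =>
      hii (S.equivFin.symm.injective (Subtype.ext h))
    refine hD ⟨_, _, _, _, γ, hd _, restrict (hd _) (hd _).KY (hd _).YY (hXZ _ _ hne) (hd _).nY,
      fun hle => ?_, (Finset.mem_filter.1 (S.equivFin.symm i).2).2, hγ⟩
    obtain ⟨y, hy, hy'⟩ := (he (S.equivFin.symm i)).2.2.2
    exact hy' (g.EK (hle ⟨y, hy, Cg.refl _⟩))
  obtain ⟨W, -, hW, -, hc⟩ := large (b := b) g X Z hd hXZ Sᶜ (fun i hi => by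
    rw [Finset.mem_compl, hS, Finset.mem_filter] at hi
    exact (not_le.1 fun h => hi ⟨Finset.mem_univ i, h⟩).le)
  have : Finite W := Finite.of_injective _ (Subgroup.inclusion_injective hW)
  have h2 : b ^ Sᶜ.card ≤ Nat.card Y :=
    (Nat.le_mul_of_pos_right _ Nat.card_pos).trans hc
  have h3 := Nat.le_log_of_pow_le (show 1 < b by omega) h2
  have h4 := S.card_add_card_compl
  rw [Fintype.card_fin] at h4
  omega

end Pool.Agent.P.MP_f1a348_lc.GI
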