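import Pool.Agent.P.MP_f1a348_lc.GI.MDefs

/-!
Saturation: a short list whose span grows slowly under adding generators.
-/

namespace Pool.Agent.P.MP_f1a348_lc.GI

namespace SatA

theorem card_le {G : Type} [Group G] [Finite G] (H : Subgroup G) : Nat.card H ≤ Nat.card G :=
  Nat.card_le_card_of_injective _ H.subtype_injective

theorem step {G : Type} [Group G] [Finite G] (M : ℕ) (hM : 2 ≤ M) (n : ℕ) :
    ∀ I₀ : List G, Nat.card G - Nat.card (gen I₀) ≤ n → M ^ I₀.length ≤ Nat.card (gen I₀) →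
      ∃ I : List G, M ^ I.length ≤ Nat.card (gen I) ∧
        ∀ Y : List G, Nat.card (gen (I ++ Y)) ≤ M ^ Y.length * Nat.card (gen I) := by
  induction n with
  | zero =>
    intro I₀ h0 h1
    refine ⟨I₀, h1, fun Y => ?_⟩
    have h2 := card_le (gen (I₀ ++ Y))
    have h3 : 1 ≤ M ^ Y.length := Nat.one_le_pow _ _ (by omega)
    calc Nat.card (gen (I₀ ++ Y)) ≤ Nat.card (gen I₀) := by omega
      _ ≤ M ^ Y.length * Nat.card (gen I₀) := Nat.le_mul_of_pos_left _ h3
  | succ n ih =>
    intro I₀ h0 h1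
    by_cases hs : ∀ Y : List G, Nat.card (gen (I₀ ++ Y)) ≤ M ^ Y.length * Nat.card (gen I₀)
    · exact ⟨I₀, h1, hs⟩
    · push Not at hs
      obtain ⟨Y, hY⟩ := hs
      have h3 : 1 ≤ M ^ Y.length := Nat.one_le_pow _ _ (by omega)
      have h4 : Nat.card (gen I₀) ≤ M ^ Y.length * Nat.card (gen I₀) :=
        Nat.le_mul_of_pos_left _ h3
      refine ih (I₀ ++ Y) (by omega) ?_
      rw [List.length_append, pow_add, mul_comm]
      exact (Nat.mul_le_mul_left _ h1).trans hY.le

end SatA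

theorem sat : S_SAT := by
  intro G _ _ M hM
  obtain ⟨I, h1, h2⟩ := SatA.step (G := G) M hM _ [] le_rfl (by
    rw [List.length_nil, pow_zero]
    exact Nat.card_pos)
  exact ⟨I, Nat.le_log_of_pow_le (by omega) (h1.trans (SatA.card_le _)), h2⟩

end Pool.Agent.P.MP_f1a348_lc.GI
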