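import Pool.Agent.P.MP_f1a348_lc.GI.MDefs

/-!
A subgroup of a finite group that has bounded index in each of its one-step overgroups is close
to a normal subgroup.
-/

namespace Pool.Agent.P.MP_f1a348_lc.GI

open Subgroup MulAction

namespace SchlA

section
variable {G : Type} [Group G] {Ω : Type} [MulAction G Ω]

variable (G) in
/-- pointwise stabilizer of a list of points -/
def K (P : List Ω) : Subgroup G where
  carrier := {g | ∀ w ∈ P, g • w = w}
  one_mem' := fun w _ => one_smul G w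
  mul_mem' := by
    intro a b ha hb w hw
    rw [mul_smul, hb w hw, ha w hw]
  inv_mem' := by
    intro a ha w hw
    rw [inv_smul_eq_iff, ha w hw]

theorem mem_K {P : List Ω} {g : G} : g ∈ K G P ↔ ∀ w ∈ P, g • w = w := Iff.rfl

/-- the orbit of a point under a subgroup -/
def orb (S : Subgroup G) (w : Ω) : Set Ω := {w' | ∃ k ∈ S, k • w = w'}

theorem self_mem_orb (S : Subgroup G) (w : Ω) : w ∈ orb S w := ⟨1, S.one_mem, one_smul G w⟩

theorem orb_mono {S S' : Subgroup G} (h : S ≤ S') (w : Ω) : orb S w ⊆ orb S' w := by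
  rintro _ ⟨k, hk, rfl⟩
  exact ⟨k, h hk, rfl⟩

theorem orb_eq (S : Subgroup G) (w : Ω) : orb S w = orbit S w := by
  ext w'
  constructor
  · rintro ⟨k, hk, rfl⟩
    exact ⟨⟨k, hk⟩, rfl⟩
  · rintro ⟨k, rfl⟩
    exact ⟨k, k.2, rfl⟩

theorem card_eq (S : Subgroup G) (w : Ω) :
    Nat.card S = (orb S w).ncard * Nat.card (S ⊓ stabilizer G w : Subgroup G) := by
  have h1 : (stabilizer S w).index = (orbit S w).ncard := index_stabilizer S w
  have h2 : Nat.card (stabilizer S w) = Nat.card (S ⊓ stabilizer G w : Subgroup G) := by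
    refine Nat.card_congr
      ⟨fun x => ⟨x.1.1, x.1.2, x.2⟩, fun x => ⟨⟨x.1, x.2.1⟩, x.2.2⟩, fun _ => rfl, fun _ => rfl⟩
  rw [orb_eq, ← h1, ← h2, index_mul_card]

variable (G) in
/-- the elements that preserve every orbit of size `m` -/
def N (P : List Ω) (m : ℕ) : Subgroup G where
  carrier := {g | ∀ w : Ω, (orb (K G P) w).ncard = m →
    ∀ w', w' ∈ orb (K G P) w ↔ g • w' ∈ orb (K G P) w}
  one_mem' := by
    intro w _ w'
    rw [one_smul]
  mul_mem' := by
    intro a b ha hb w hw w'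
    rw [mul_smul, ← ha w hw, ← hb w hw]
  inv_mem' := by
    intro a ha w hw w'
    rw [ha w hw (a⁻¹ • w'), smul_inv_smul]

theorem mem_N {P : List Ω} {m : ℕ} {g : G} : g ∈ N G P m ↔ ∀ w : Ω, (orb (K G P) w).ncard = m →
    ∀ w', w' ∈ orb (K G P) w ↔ g • w' ∈ orb (K G P) w := Iff.rfl

theorem K_le_N (P : List Ω) (m : ℕ) : K G P ≤ N G P m := by
  intro g hg w _ w'
  constructor
  · rintro ⟨k, hk, rfl⟩
    exact ⟨g * k, (K G P).mul_mem hg hk, mul_smul g k w⟩
  · rintro ⟨k, hk, h⟩
    refine ⟨g⁻¹ * k, (K G P).mul_mem ((K G P).inv_mem hg) hk, ?_⟩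
    rw [mul_smul, h, inv_smul_smul]

theorem K_anti {P P' : List Ω} (h : P ⊆ P') : K G P' ≤ K G P := fun _ hg w hw => hg w (h hw)

variable (G) in
/-- all orbits of the pointwise stabilizer have at most `m` points -/
def Bd (P : List Ω) (m : ℕ) : Prop := ∀ w : Ω, (orb (K G P) w).ncard ≤ m

theorem orb_finite [Finite G] (S : Subgroup G) (w : Ω) : (orb S w).Finite := by
  refine (Set.finite_range (fun g : G => g • w)).subset ?_
  rintro _ ⟨k, _, rfl⟩
  exact ⟨k, rfl⟩

theorem Bd.mono [Finite G] {P P' : List Ω} {m : ℕ} (hb : Bd G P m) (h : P ⊆ P') : Bd G P' m :=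
  fun w => (Set.ncard_le_ncard (orb_mono (K_anti h) w) (orb_finite _ _)).trans (hb w)

theorem N_mono [Finite G] {P P' : List Ω} {m : ℕ} (hb : Bd G P m) (h : P ⊆ P') :
    N G P m ≤ N G P' m := by
  intro g hg w hw w'
  have hsub : orb (K G P') w ⊆ orb (K G P) w := orb_mono (K_anti (G := G) h) w
  have heq : orb (K G P') w = orb (K G P) w :=
    Set.eq_of_subset_of_ncard_le hsub (by rw [hw]; exact hb w) (orb_finite _ _)
  rw [heq] at hw ⊢
  exact hg w hw w'

theorem mem_K_map {P : List Ω} {g k : G} :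
    k ∈ K G (P.map (fun w => g • w)) ↔ g⁻¹ * k * g ∈ K G P := by
  simp only [mem_K, List.mem_map, forall_exists_index, and_imp, forall_apply_eq_imp_iff₂,
    mul_smul, inv_smul_eq_iff]

theorem mem_orb_map {P : List Ω} {g : G} {w w' : Ω} :
    w' ∈ orb (K G (P.map (fun w => g • w))) w ↔ g⁻¹ • w' ∈ orb (K G P) (g⁻¹ • w) := by
  constructor
  · rintro ⟨k, hk, rfl⟩
    refine ⟨g⁻¹ * k * g, mem_K_map.1 hk, ?_⟩
    simp only [mul_smul, smul_inv_smul]
  · rintro ⟨k, hk, h⟩
    refine ⟨g * k * g⁻¹, mem_K_map.2 (by simpa [mul_assoc] using hk), ?_⟩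
    rw [mul_smul, mul_smul, h, smul_inv_smul]

theorem ncard_orb_map {P : List Ω} {g : G} {w : Ω} :
    (orb (K G (P.map (fun w => g • w))) w).ncard = (orb (K G P) (g⁻¹ • w)).ncard := by
  have : orb (K G (P.map (fun w => g • w))) w = (fun x => g • x) '' orb (K G P) (g⁻¹ • w) := by
    ext w'
    rw [mem_orb_map]
    constructor
    · intro h
      exact ⟨_, h, smul_inv_smul g w'⟩
    · rintro ⟨x, hx, rfl⟩
      rwa [inv_smul_smul]
  rw [this, Set.ncard_image_of_injective _ (MulAction.injective g)]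

theorem Bd.map {P : List Ω} {m : ℕ} (hb : Bd G P m) (g : G) :
    Bd G (P.map (fun w => g • w)) m := fun w => by
  rw [ncard_orb_map]
  exact hb _

theorem conj_mem_N {P : List Ω} {m : ℕ} {n : G} (hn : n ∈ N G P m) (g : G) :
    g * n * g⁻¹ ∈ N G (P.map (fun w => g • w)) m := by
  intro w hw w'
  rw [ncard_orb_map] at hw
  rw [mem_orb_map, mem_orb_map, hn _ hw]
  simp only [mul_smul, inv_smul_smul]

variable (G Ω) in
/-- the orbits of point stabilizers are small -/
def Small (M : ℕ) : Prop := ∀ w w' : Ω, (orb (stabilizer G w) w').ncard ≤ M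

theorem card_le_pow [Finite G] {M : ℕ} (hM : Small G Ω M) (w : Ω) (P : List Ω) :
    ∀ S : Subgroup G, S ≤ stabilizer G w →
      Nat.card S ≤ M ^ P.length * Nat.card (S ⊓ K G P : Subgroup G) := by
  induction P with
  | nil =>
    intro S _
    have : S ⊓ K G ([] : List Ω) = S := inf_eq_left.2 (fun g _ w hw => by simp at hw)
    simp [this]
  | cons x P ih =>
    intro S hS
    have h1 : (orb S x).ncard ≤ M :=
      (Set.ncard_le_ncard (orb_mono hS x) (orb_finite _ _)).trans (hM w x)
    have h2 := ih (S ⊓ stabilizer G x) (inf_le_left.trans hS)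
    have h3 : S ⊓ stabilizer G x ⊓ K G P = S ⊓ K G (x :: P) := by
      ext g
      simp only [mem_inf, mem_stabilizer_iff, mem_K, List.mem_cons, forall_eq_or_imp, and_assoc]
    rw [h3] at h2
    calc Nat.card S = (orb S x).ncard * Nat.card (S ⊓ stabilizer G x : Subgroup G) := card_eq S x
      _ ≤ M * (M ^ P.length * Nat.card (S ⊓ K G (x :: P) : Subgroup G)) := Nat.mul_le_mul h1 h2
      _ = _ := by rw [List.length_cons]; ring

theorem Small.bd [Finite G] {M : ℕ} (hM : Small G Ω M) {P : List Ω} (hP : P ≠ []) : Bd G P M := by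
  obtain ⟨x, hx⟩ := List.exists_mem_of_ne_nil P hP
  intro w
  exact (Set.ncard_le_ncard (orb_mono (S := K G P) (fun g hg => hg x hx) w) (orb_finite _ _)).trans (hM x w)

theorem card_N_le [Finite G] {M : ℕ} (hM : Small G Ω M) {P : List Ω} (hP : P ≠ []) {m : ℕ}
    {w : Ω} (hw : (orb (K G P) w).ncard = m) (P₀ : List Ω) :
    Nat.card (N G P m) ≤ M ^ (P₀.length + 1) * Nat.card (K G P₀) := by
  have h1 : orb (N G P m) w ⊆ orb (K G P) w := by
    rintro _ ⟨n, hn, rfl⟩
    exact (hn w hw w).1 (self_mem_orb _ _)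
  have h2 : (orb (N G P m) w).ncard ≤ M :=
    (Set.ncard_le_ncard h1 (orb_finite _ _)).trans (hM.bd hP w)
  have h3 := card_le_pow hM w P₀ (N G P m ⊓ stabilizer G w) inf_le_right
  have h4 : Nat.card (N G P m ⊓ stabilizer G w ⊓ K G P₀ : Subgroup G) ≤ Nat.card (K G P₀) :=
    card_le_of_le inf_le_right
  calc Nat.card (N G P m)
      = (orb (N G P m) w).ncard * Nat.card (N G P m ⊓ stabilizer G w : Subgroup G) := card_eq _ w
    _ ≤ M * (M ^ P₀.length * Nat.card (K G P₀)) :=
        Nat.mul_le_mul h2 (h3.trans (Nat.mul_le_mul_left _ h4))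
    _ = _ := by ring

theorem two_mul_card_le [Finite G] {A B : Subgroup G} (h : A ≤ B) (hne : ¬ B ≤ A) :
    2 * Nat.card A ≤ Nat.card B := by
  obtain ⟨k, hk⟩ := card_dvd_of_le h
  have hB : 0 < Nat.card B := Nat.card_pos
  have hk1 : k ≠ 1 := by
    rintro rfl
    exact hne (eq_of_le_of_card_ge h (by omega)).ge
  have hk0 : k ≠ 0 := by
    rintro rfl
    omega
  rw [hk, mul_comm]
  exact Nat.mul_le_mul_left _ (by omega)

variable (G) in
/-- the conclusion of the main induction -/
def Concl (M c : ℕ) (P : List Ω) : Prop :=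
  ∃ Q : List Ω, P ⊆ Q ∧ Q.length ≤ c ∧ ∃ L : Subgroup G, L.Normal ∧ K G Q ≤ L ∧
    Nat.card L ≤ M ^ (Q.length + 1) * Nat.card (K G Q)

theorem Concl.mono {M c c' : ℕ} {P P' : List Ω} (h : Concl G M c P') (hP : P ⊆ P')
    (hc : c ≤ c') : Concl G M c' P := by
  obtain ⟨Q, h1, h2, h3⟩ := h
  exact ⟨Q, List.Subset.trans hP h1, h2.trans hc, h3⟩

end

theorem main (M : ℕ) (hM1 : 1 ≤ M) (m : ℕ) : ∀ s : ℕ, ∃ c : ℕ,
    ∀ (G : Type) [Group G] [Finite G] (Ω : Type) [MulAction G Ω], Small G Ω M →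
      ∀ P : List Ω, P ≠ [] → P.length ≤ s → Bd G P m → Concl G M c P := by
  induction m with
  | zero =>
    intro s
    refine ⟨0, fun G _ _ Ω _ _ P hP _ hb => ?_⟩
    obtain ⟨x, _⟩ := List.exists_mem_of_ne_nil P hP
    have h1 := hb x
    have h2 : 0 < (orb (K G P) x).ncard :=
      (Set.ncard_pos (orb_finite _ _)).2 ⟨x, self_mem_orb _ _⟩
    omega
  | succ m ih =>
    intro s
    set T := M ^ (s + 1) with hT
    obtain ⟨c', hc'⟩ := ih (2 ^ T * s)
    refine ⟨max (2 ^ T * s) c', fun G _ _ Ω _ hM P₀ hP₀ hlen hb₀ => ?_⟩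
    have key : ∀ r : ℕ, ∀ P : List Ω, P₀ ⊆ P → P.length * 2 ^ r ≤ 2 ^ T * s →
        T * Nat.card (K G P₀) < 2 ^ r * Nat.card (N G P (m + 1)) →
        Concl G M (max (2 ^ T * s) c') P := by
      intro r
      induction r with
      | zero =>
        intro P hsub hl hc
        have hP : P ≠ [] := by
          rintro rfl
          exact hP₀ (List.subset_nil.1 hsub)
        by_cases hb : Bd G P m
        · exact (hc' G Ω hM P hP (by simpa using hl) hb).mono (List.Subset.refl _) (le_max_right _ _)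
        · exfalso
          simp only [Bd, not_forall, not_le] at hb
          obtain ⟨w, hw⟩ := hb
          have hw' : (orb (K G P) w).ncard = m + 1 := le_antisymm (hb₀.mono hsub w) hw
          have h1 := card_N_le hM hP hw' P₀
          have h2 : M ^ (P₀.length + 1) ≤ T := Nat.pow_le_pow_right hM1 (by omega)
          have h3 := Nat.mul_le_mul_right (Nat.card (K G P₀)) h2
          omega
      | succ r ihr =>
        intro P hsub hl hc
        have hP : P ≠ [] := by
          rintro rfl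
          exact hP₀ (List.subset_nil.1 hsub)
        have hl' : P.length ≤ 2 ^ T * s :=
          le_trans (Nat.le_mul_of_pos_right _ (by positivity)) hl
        by_cases hb : Bd G P m
        · exact (hc' G Ω hM P hP hl' hb).mono (List.Subset.refl _) (le_max_right _ _)
        · simp only [Bd, not_forall, not_le] at hb
          obtain ⟨w, hw⟩ := hb
          have hbP : Bd G P (m + 1) := hb₀.mono hsub
          have hw' : (orb (K G P) w).ncard = m + 1 := le_antisymm (hbP w) hw
          by_cases hn : (N G P (m + 1)).Normal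
          · exact ⟨P, List.Subset.refl _, hl'.trans (le_max_left _ _), N G P (m + 1), hn,
              K_le_N P _, card_N_le hM hP hw' P⟩
          · have : ∃ n ∈ N G P (m + 1), ∃ g : G, g * n * g⁻¹ ∉ N G P (m + 1) := by
              by_contra hcon
              apply hn
              refine ⟨fun n hn g => ?_⟩
              by_contra h
              exact hcon ⟨n, hn, g, h⟩
            obtain ⟨n, hnN, g, hg⟩ := this
            have s1 : P ⊆ P ++ P.map (fun w => g • w) := List.subset_append_left _ _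
            have s2 : P.map (fun w => g • w) ⊆ P ++ P.map (fun w => g • w) :=
              List.subset_append_right _ _
            have h1 := N_mono hbP s1
            have h2 := N_mono (hbP.map g) s2 (conj_mem_N hnN g)
            have h3 := two_mul_card_le h1 (fun h => hg (h h2))
            refine (ihr _ (List.Subset.trans hsub s1) ?_ ?_).mono s1 le_rfl
            · rw [List.length_append, List.length_map]
              calc (P.length + P.length) * 2 ^ r = P.length * 2 ^ (r + 1) := by ring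
                _ ≤ _ := hl
            · calc T * Nat.card (K G P₀) < 2 ^ (r + 1) * Nat.card (N G P (m + 1)) := hc
                _ = 2 ^ r * (2 * Nat.card (N G P (m + 1))) := by ring
                _ ≤ _ := Nat.mul_le_mul_left _ h3
    refine key T P₀ (List.Subset.refl _) ?_ ?_
    · rw [mul_comm]
      exact Nat.mul_le_mul_left _ hlen
    · have h1 : Nat.card (K G P₀) ≤ Nat.card (N G P₀ (m + 1)) := card_le_of_le (K_le_N _ _)
      have h2 : 0 < Nat.card (K G P₀) := Nat.card_pos
      calc T * Nat.card (K G P₀) < 2 ^ T * Nat.card (K G P₀) :=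
            Nat.mul_lt_mul_of_pos_right Nat.lt_two_pow_self h2
        _ ≤ _ := Nat.mul_le_mul_left _ h1

theorem stab_one {G : Type} [Group G] (J : Subgroup G) :
    stabilizer G ((1 : G) : G ⧸ J) = J := stabilizer_quotient J

theorem small_quot {G : Type} [Group G] [Finite G] (J : Subgroup G) {M : ℕ}
    (h : ∀ g : G, Nat.card (J ⊔ zpowers g : Subgroup G) ≤ M * Nat.card J) :
    Small G (G ⧸ J) M := by
  intro w w'
  obtain ⟨a, rfl⟩ := QuotientGroup.mk_surjective w
  obtain ⟨b, rfl⟩ := QuotientGroup.mk_surjective w'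
  set L : Subgroup G := J ⊔ zpowers (a⁻¹ * b) with hL
  have h1 := card_eq L ((1 : G) : G ⧸ J)
  rw [stab_one, inf_eq_right.2 (le_sup_left : J ≤ L)] at h1
  have h2 : (orb L ((1 : G) : G ⧸ J)).ncard ≤ M := by
    have h3 := h (a⁻¹ * b)
    rw [← hL, h1] at h3
    exact Nat.le_of_mul_le_mul_right h3 Nat.card_pos
  have h4 : orb (stabilizer G (a : G ⧸ J)) (b : G ⧸ J) ⊆
      (fun x => a • x) '' orb L ((1 : G) : G ⧸ J) := by
    rintro _ ⟨k, hk, rfl⟩
    have hk' : a⁻¹ * k * a ∈ J := by
      rw [mem_stabilizer_iff, Quotient.smul_mk, smul_eq_mul, eq_comm, QuotientGroup.eq] at hk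
      simpa [mul_assoc] using hk
    refine ⟨_, ⟨a⁻¹ * k * a * (a⁻¹ * b), L.mul_mem (mem_sup_left hk')
      (mem_sup_right (mem_zpowers _)), rfl⟩, ?_⟩
    simp only [Quotient.smul_mk, smul_eq_mul]
    congr 1
    group
  calc _ ≤ ((fun x => a • x) '' orb L ((1 : G) : G ⧸ J)).ncard :=
        Set.ncard_le_ncard h4 ((orb_finite _ _).image _)
    _ ≤ _ := Set.ncard_image_le (orb_finite _ _)
    _ ≤ M := h2

end SchlA

open SchlA in
theorem schl : S_SCHL := by
  intro M
  rcases Nat.eq_zero_or_pos M with rfl | hM1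
  · refine ⟨0, fun G _ _ J h => ?_⟩
    have h1 := h 1
    have h2 : 0 < Nat.card (J ⊔ zpowers 1 : Subgroup G) := Nat.card_pos
    omega
  obtain ⟨c, hc⟩ := main M hM1 M 1
  refine ⟨M ^ (c + 1), fun G _ _ J h => ?_⟩
  have hs := small_quot J h
  have hne : [((1 : G) : G ⧸ J)] ≠ [] := by simp
  obtain ⟨Q, hQ, hlen, L, hL, hKL, hcard⟩ := hc G (G ⧸ J) hs _ hne (by simp) (hs.bd hne)
  have hKJ : K G Q ≤ J := by
    intro g hg
    rw [← stab_one J]
    exact hg _ (hQ (List.mem_singleton_self _))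
  have h1 : Nat.card (K G Q) ≤ Nat.card (J ⊓ L : Subgroup G) := card_le_of_le (le_inf hKJ hKL)
  have h2 := card_le_pow hs ((1 : G) : G ⧸ J) Q J (stab_one J).ge
  rw [inf_eq_right.2 hKJ] at h2
  refine ⟨L, hL, h2.trans (Nat.mul_le_mul ?_ h1), hcard.trans (Nat.mul_le_mul ?_ h1)⟩
  · exact Nat.pow_le_pow_right hM1 (by omega)
  · exact Nat.pow_le_pow_right hM1 (by omega)

end Pool.Agent.P.MP_f1a348_lc.GI
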