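import Pool.Agent.P.MP_f1a348_lc.GI.ABasic

/-!
Subgroups of small index, and the tests for `Good` and `Decomp`.
-/

namespace Pool.Agent.P.MP_f1a348_lc.GI

open scoped commutatorElement

namespace SmallA
variable {U : Type} [Group U] [DecidableEq U]

theorem sch_mem {R S : List U} {y : Subgroup U} (hR : ∀ r ∈ R, r ∈ y) (hS : ∀ s ∈ S, s ∈ y)
    {x : U} (hx : x ∈ schTriples R S) : x ∈ y := by
  obtain ⟨r', hr', s, hs, r, hr, rfl⟩ := mem_schTriples.1 hx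
  refine y.mul_mem (y.mul_mem (y.inv_mem (hR _ hr')) ?_) (hR _ hr)
  rcases hs with rfl | hs | hs
  · exact y.one_mem
  · exact hS _ hs
  · simpa using y.inv_mem (hS _ hs)

theorem two_pow_le {N b d : ℕ} {pad : List Unit} (h : Big N b pad) (hd : 2 ^ d ≤ N) :
    2 ^ ((b + 1) * ((2 * d + 1) * (b + 1))) ≤ pad.length := by
  have h1 : 2 ^ (2 * d + 1) ≤ (N + 1) ^ 3 := by
    have h2 : (2 ^ d) ^ 2 ≤ N ^ 2 := Nat.pow_le_pow_left hd 2
    have h3 : 2 ^ (2 * d + 1) = 2 * (2 ^ d) ^ 2 := by ring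
    rw [h3]
    nlinarith [Nat.zero_le (N ^ 3), Nat.zero_le (N ^ 2), Nat.zero_le N]
  calc 2 ^ ((b + 1) * ((2 * d + 1) * (b + 1))) = (2 ^ (2 * d + 1)) ^ (b + 1) ^ 2 := by
        rw [← pow_mul]
        congr 1
        ring
    _ ≤ ((N + 1) ^ 3) ^ (b + 1) ^ 2 := Nat.pow_le_pow_left h1 _
    _ = (N + 1) ^ (3 * (b + 1) ^ 2) := (pow_mul _ _ _).symm
    _ ≤ _ := h

end SmallA

theorem small : S_SMALL := by
  intro U _ _ pad ub Y y hY
  obtain ⟨hg, hd⟩ := gensOf_spec hY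
  have hS : ∀ s ∈ gensOf Y, s ∈ y := fun s hs => hg ▸ mem_gen hs
  have hR : ∀ {T : List U}, (∀ r ∈ T, r ∈ y) → ∀ r ∈ 1 :: T, r ∈ y := fun hT r hr => by
    rcases List.mem_cons.1 hr with rfl | hr
    · exact y.one_mem
    · exact hT r hr
  refine ⟨fun A hA => ?_, fun N hN hB a ha hc => ?_⟩
  · obtain ⟨T, hT, hA⟩ := List.mem_flatMap.1 hA
    obtain ⟨l, hl, rfl⟩ := List.mem_map.1 hA
    have h1 : ∀ x ∈ l, x ∈ y := fun x hx =>
      SmallA.sch_mem (hR fun r hr => (hY.mem r).1 ((tuples_sound hT).2 r hr)) hS (subl_sound hl x hx)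
    exact ⟨gen l, gen_le.2 h1, clo_rep hY h1⟩
  · classical
    have := hY.finite
    obtain ⟨T, hT1, hT2, hT3⟩ := exists_transversal ha hc
    have hT : T ∈ tuples pad Y ub :=
      tuples_complete (hB.tuples hN) hT1 fun x hx => (hY.mem x).2 (hT2 x hx)
    have hsch := (schreier (R := 1 :: T) (S := gensOf Y) (V := a) (q := fun x => decide (x ∈ a))
      List.mem_cons_self (fun r hr => hg ▸ hR hT2 r hr) (hg ▸ ha) (fun x _ => by simp)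
      (fun r hr s hs => by
        have h1 : s ∈ y := hs.elim (hS s) fun h => by simpa using y.inv_mem (hS _ h)
        obtain ⟨r', hr', h2⟩ := hT3 (s * r) (y.mul_mem h1 (hR hT2 r hr))
        exact ⟨r', List.mem_cons_of_mem _ hr', by rwa [mul_assoc]⟩)).1
    refine ⟨clo Y ((schTriples (1 :: T) (gensOf Y)).filter fun x => decide (x ∈ a)),
      List.mem_flatMap.2 ⟨T, hT, List.mem_map_of_mem (subl_complete ?_ _)⟩, ?_⟩
    · rw [length_schTriples, List.length_cons, hT1]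
      exact SmallA.two_pow_le hB (hd.trans hN)
    · have h1 := clo_rep hY (gs := (schTriples (1 :: T) (gensOf Y)).filter fun x => decide (x ∈ a))
        fun g hg' => SmallA.sch_mem (hR hT2) hS (List.mem_filter.1 hg').1
      rwa [hsch] at h1

theorem check : S_CHECK := by
  intro U _ _ tl t Y y ht hY
  refine ⟨?_, fun X Y₁ x y₁ hX hY₁ => ?_⟩
  · simp only [goodB, Bool.and_eq_true, subB_iff, normB_iff, commB_iff, List.all_eq_true,
      List.contains_iff_mem, mem_cenL, ht.J.mem, ht.K.mem, ht.E.mem, hY.mem, cm_eq]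
    exact ⟨fun ⟨⟨⟨⟨⟨⟨⟨⟨h1, h2⟩, h3⟩, h4⟩, h5⟩, h6⟩, h7⟩, h8⟩, h9⟩ =>
      ⟨h1, h2, h3, h4, h5, h6, h7, h8, fun d hd hc => h9 d ⟨hd, hc⟩⟩,
      fun g => ⟨⟨⟨⟨⟨⟨⟨⟨g.KJ, g.EK⟩, g.KY⟩, g.nY⟩, g.nK⟩, g.nE⟩, g.comm⟩, g.cen⟩,
        fun d hd => g.DE d hd.1 hd.2⟩⟩
  · simp only [decompB, Bool.and_eq_true, subB_iff, normB_iff, commB_iff, coverB_iff,
      List.all_eq_true, Bool.or_eq_true, Bool.not_eq_true', ← Bool.not_eq_true,
      List.contains_iff_mem, ht.J.mem, ht.K.mem, ht.E.mem, hY.mem, hX.mem, hY₁.mem]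
    exact ⟨fun ⟨⟨⟨⟨⟨⟨⟨⟨h1, h2⟩, h3⟩, h4⟩, h5⟩, h6⟩, h7⟩, h8⟩, h9⟩ =>
      ⟨h1, h2, h3, h4, fun a ha ha' => (h5 a ha).resolve_left fun h => h ha', h6, h7, h8, h9⟩,
      fun d => ⟨⟨⟨⟨⟨⟨⟨⟨d.EX, d.XY⟩, d.KY⟩, d.YY⟩,
        fun a ha => (em (a ∈ y₁)).symm.imp_right (d.inter a ha)⟩, d.prod⟩, d.comm⟩, d.nX⟩, d.nY⟩⟩

end Pool.Agent.P.MP_f1a348_lc.GI
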