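import Pool.Agent.P.MP_f1a348_lc.GI.MDefs

/-! The structure theorem, glued from its three ingredients. -/

namespace Pool.Agent.P.MP_f1a348_lc.GI

open Subgroup
open scoped commutatorElement

namespace StA

theorem mem_gen {G : Type} [Group G] {l : List G} {x : G} (h : x ∈ l) : x ∈ gen l :=
  subset_closure h

theorem gen_mono {G : Type} [Group G] {l l' : List G} (h : ∀ x ∈ l, x ∈ l') : gen l ≤ gen l' :=
  closure_mono h

theorem gen_map {G U : Type} [Group G] [Group U] (f : G →* U) (l : List G) :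
    gen (l.map f) = (gen l).map f := by
  unfold gen
  rw [MonoidHom.map_closure]
  congr 1
  ext x
  simp

theorem reps {G : Type} [Group G] [Finite G] (H : Subgroup G) :
    ∃ T : List G, T.length ≤ H.index ∧ ∀ g : G, ∃ t ∈ T, ∃ h ∈ H, g = t * h := by
  classical
  have := Fintype.ofFinite (G ⧸ H)
  refine ⟨(Finset.univ : Finset (G ⧸ H)).toList.map Quotient.out, ?_, fun g => ?_⟩
  · rw [List.length_map, Finset.length_toList, Finset.card_univ, index, Nat.card_eq_fintype_card]
    exact le_rfl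
  · obtain ⟨h, hh⟩ := QuotientGroup.mk_out_eq_mul H g
    exact ⟨_, List.mem_map.2 ⟨(g : G ⧸ H), by simp, rfl⟩, h⁻¹, H.inv_mem h.2, by simp [hh]⟩

theorem index_ker_le {G X : Type} [Group G] [Finite X] (f : G →* Equiv.Perm X) :
    f.ker.index ≤ (Nat.card X).factorial := by
  rw [index_ker, ← Nat.card_perm]
  exact card_le_card_group _

theorem index_core {G : Type} [Group G] [Finite G] (H : Subgroup G) :
    H.normalCore.index ≤ H.index.factorial := by
  rw [normalCore_eq_ker]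
  exact index_ker_le _

theorem index_cent {G : Type} [Group G] [Finite G] (E : Subgroup G) [E.Normal] :
    (centralizer (E : Set G)).index ≤ (Nat.card E).factorial := by
  refine le_trans (index_antitone ?_)
    (index_ker_le ((MulAut.toPerm E).comp (MulAut.conjNormal : G →* MulAut E)))
  intro g hg
  rw [mem_centralizer_iff]
  intro e he
  have h1 := congrArg (fun σ : Equiv.Perm E => ((σ ⟨e, he⟩ : E) : G)) (MonoidHom.mem_ker.1 hg)
  have h2 : g * e * g⁻¹ = e := h1
  rw [← h2]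
  simp only [inv_mul_cancel_right]
  rw [h2]

theorem good_map {G U : Type} [Group G] [Group U] (f : G →* U) (hf : Function.Injective f)
    {J K E Y : Subgroup G} (h : Good ⟨J, K, E⟩ Y) :
    Good ⟨J.map f, K.map f, E.map f⟩ (Y.map f) where
  KJ := map_mono h.KJ
  EK := map_mono h.EK
  KY := map_mono h.KY
  nY := by
    rintro _ ⟨j, hj, rfl⟩ _ ⟨y, hy, rfl⟩
    exact ⟨_, h.nY j hj y hy, by simp⟩
  nK := by
    rintro _ ⟨j, hj, rfl⟩ _ ⟨y, hy, rfl⟩
    exact ⟨_, h.nK j hj y hy, by simp⟩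
  nE := by
    rintro _ ⟨j, hj, rfl⟩ _ ⟨y, hy, rfl⟩
    exact ⟨_, h.nE j hj y hy, by simp⟩
  comm := by
    rintro _ ⟨j, hj, rfl⟩ _ ⟨y, hy, rfl⟩
    exact ⟨_, h.comm j hj y hy, map_commutatorElement f j y⟩
  cen := by
    rintro _ ⟨j, hj, rfl⟩ _ ⟨y, hy, rfl⟩
    rw [← map_mul, ← map_mul, h.cen j hj y hy]
  DE := by
    rintro _ ⟨d, hd, rfl⟩ hk _ ⟨y, hy, rfl⟩
    refine ⟨_, h.DE d hd (fun k hk' => hf ?_) y hy, map_commutatorElement f d y⟩
    rw [map_mul, map_mul]
    exact hk _ ⟨k, hk', rfl⟩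

theorem core (h1 : S_STA) (h2 : S_PIN) (h3 : S_HALF) (M : ℕ) (hM : 2 ≤ M) :
    ∃ B : ℕ, ∀ (G : Type) [Group G] [Finite G], ∃ (I : List G) (H E : Subgroup G),
      I.length ≤ 2 * Nat.log M (Nat.card G) + B ∧ H.index ≤ B ∧
      (∀ g : G, ∃ j ∈ gen I, ∃ h ∈ H, g = j * h) ∧ Nat.card E ≤ B ∧
      Good ⟨gen I, gen I ⊓ H, E⟩ H := by
  obtain ⟨B1, hB1⟩ := h1 M hM
  obtain ⟨B2, hB2⟩ := h3 M
  refine ⟨B1 + B1 + 1 + B2 + (B2 * B1).factorial * B2.factorial, fun G _ _ => ?_⟩
  obtain ⟨I1, H1, a1, a2, a3, a4⟩ := hB1 G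
  obtain ⟨T1, b1, b2⟩ := reps H1
  obtain ⟨l, c1, c2, c3⟩ := h2 G H1 M hM
  let K : Subgroup G := gen (I1 ++ T1 ++ l) ⊓ H1
  have hK : ⁅H1, H1⁆ ≤ K :=
    le_inf (a4.trans (gen_mono fun x hx => by simp [hx])) (commutator_le_left H1 H1)
  have nK : K.Normal := by
    refine ⟨fun k hk g => ?_⟩
    obtain ⟨t, ht, h, hh, rfl⟩ := b2 g
    have e1 : h * k * h⁻¹ ∈ K := by
      have : h * k * h⁻¹ = ⁅h, k⁆ * k := by rw [commutatorElement_def]; group
      rw [this]
      exact K.mul_mem (hK (commutator_mem_commutator hh hk.2)) hk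
    have e2 : t ∈ gen (I1 ++ T1 ++ l) := mem_gen (by simp [ht])
    have e3 : t * h * k * (t * h)⁻¹ = t * (h * k * h⁻¹) * t⁻¹ := by group
    rw [e3]
    exact mem_inf.2 ⟨mul_mem (mul_mem e2 (mem_inf.1 e1).1) (inv_mem e2), a2.conj_mem _ e1.2 t⟩
  obtain ⟨H0, F, d1, d2, d3, d4, d5⟩ := hB2 G H1 K inf_le_right hK fun c hc hk =>
    c3 c hc fun x hx => hk x ⟨mem_gen (by simp [hx]), c1 x hx⟩
  let C : Subgroup G := H1 ⊓ centralizer (K : Set G)
  have nC : C.Normal := normal_inf_normal _ _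
  let H2 : Subgroup G := H0.normalCore
  have k2 : K ≤ H2 := normal_le_normalCore.2 d1
  have l2 : H2 ≤ H1 := H0.normalCore_le.trans d2
  let E : Subgroup G := ⁅C, H2⁆
  have nE : E.Normal := commutator_normal C H2
  have eF : E ≤ F := commutator_le.2 fun c hc h hh =>
    d5 c hc.1 (fun k hk => (mem_centralizer_iff.1 hc.2 k hk).symm) h (H0.normalCore_le hh)
  have eC : E ≤ C := commutator_le_left C H2
  have eK : E ≤ K := (commutator_mono inf_le_left l2).trans hK
  let H : Subgroup G := H2 ⊓ centralizer (E : Set G)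
  have nH : H.Normal := normal_inf_normal _ _
  have kH : K ≤ H := le_inf k2 fun k hk => mem_centralizer_iff.2 fun e he =>
    (mem_centralizer_iff.1 (eC he).2 k hk).symm
  have cE : Nat.card E ≤ B2 := (card_le_of_le eF).trans d4
  have iH : H.index ≤ (B2 * B1).factorial * B2.factorial := by
    refine index_inf_le.trans (Nat.mul_le_mul ((index_core H0).trans (Nat.factorial_le ?_))
      ((index_cent E).trans (Nat.factorial_le cE)))
    rw [← relIndex_mul_index d2]
    exact Nat.mul_le_mul d3 a3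
  obtain ⟨T2, f1, f2⟩ := reps H
  have kI : K ≤ gen (I1 ++ T1 ++ l ++ T2) :=
    inf_le_left.trans (gen_mono fun x hx => List.mem_append_left _ hx)
  refine ⟨I1 ++ T1 ++ l ++ T2, H, E, ?_, by omega, fun g => ?_, by omega, ?_⟩
  · simp only [List.length_append]
    omega
  · obtain ⟨t, ht, h, hh, rfl⟩ := f2 g
    exact ⟨t, mem_gen (List.mem_append_right _ ht), h, hh, rfl⟩
  · exact
      { KJ := inf_le_left
        EK := eK.trans (le_inf kI kH)
        KY := inf_le_right
        nY := fun j _ y hy => nH.conj_mem y hy j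
        nK := fun j hj k hk =>
          mem_inf.2 ⟨mul_mem (mul_mem hj (mem_inf.1 hk).1) (inv_mem hj), nH.conj_mem k hk.2 j⟩
        nE := fun j _ e he => nE.conj_mem e he j
        comm := fun x hx y hy =>
          le_inf kI kH (hK (commutator_mem_commutator (l2 hx.1) (l2 hy.1)))
        cen := fun e he y hy => mem_centralizer_iff.1 hy.2 e he
        DE := fun d hd hk y hy => commutator_mem_commutator
          (show d ∈ C from ⟨l2 hd.1, mem_centralizer_iff.2 fun k hk' =>
            (hk k (le_inf kI kH hk')).symm⟩) hy.1 }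

end StA

open StA in
theorem st : S_STA → S_PIN → S_HALF → S_ST := by
  intro h1 h2 h3 M hM
  obtain ⟨B, hB⟩ := core h1 h2 h3 M hM
  refine ⟨B, fun U _ G _ => ?_⟩
  obtain ⟨I, H, E, a1, a2, a3, a4, a5⟩ := hB G
  have hf := G.subtype_injective
  refine ⟨I.map G.subtype, H.map G.subtype, E.map G.subtype, ?_, by simpa using a1,
    map_subtype_le H, ?_, ?_, ?_, ?_, ?_⟩
  · intro x hx
    obtain ⟨y, -, rfl⟩ := List.mem_map.1 hx
    exact y.2
  · rw [card_map_of_injective hf, ← H.index_mul_card]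
    exact Nat.mul_le_mul_right _ a2
  · intro g hg
    obtain ⟨j, hj, h, hh, e⟩ := a3 ⟨g, hg⟩
    exact ⟨j, gen_map G.subtype I ▸ ⟨j, hj, rfl⟩, h, ⟨h, hh, rfl⟩, congrArg Subtype.val e⟩
  · rwa [card_map_of_injective hf]
  · rw [gen_map, ← map_inf _ _ _ hf, card_map_of_injective hf, card_map_of_injective hf,
      ← (H.subgroupOf (gen I)).index_mul_card]
    refine Nat.mul_le_mul (le_trans ?_ a2) (le_of_eq ?_)
    · have := relIndex_le_of_le_right (H := H) (le_top : gen I ≤ ⊤)
        (by rw [relIndex_top_right]; exact FiniteIndex.index_ne_zero)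
      rwa [relIndex_top_right] at this
    · rw [← card_map_of_injective (gen I).subtype_injective, subgroupOf_map_subtype, inf_comm]
  · rw [gen_map, ← map_inf _ _ _ hf]
    exact good_map _ hf a5

end Pool.Agent.P.MP_f1a348_lc.GI
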