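import Pool.Agent.P.MP_f1a348_lc.GI.MDefs

/-!
First half of the structure theorem.
-/

namespace Pool.Agent.P.MP_f1a348_lc.GI

open Subgroup
open scoped commutatorElement

namespace StaA

variable {G : Type} [Group G]

theorem gen_append (l l' : List G) : gen (l ++ l') = gen l ⊔ gen l' := by
  unfold gen
  rw [← Subgroup.closure_union]
  congr 1
  ext x
  simp

theorem gen_singleton (g : G) : gen [g] = zpowers g := by
  unfold gen
  rw [zpowers_eq_closure]
  congr 1
  ext x
  simp

theorem mem_gen {l : List G} {x : G} (h : x ∈ l) : x ∈ gen l := subset_closure h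

/-- A subgroup of small index together with few elements generates. -/
theorem cover [Finite G] (S N : Subgroup G) (c : ℕ)
    (h : Nat.card N ≤ c * Nat.card (S ⊓ N : Subgroup G)) :
    ∃ l : List G, l.length ≤ c ∧ N ≤ S ⊔ gen l := by
  classical
  have := Fintype.ofFinite (N ⧸ S.subgroupOf N)
  have hc : Nat.card (S.subgroupOf N) = Nat.card (S ⊓ N : Subgroup G) := by
    rw [← inf_subgroupOf_right]
    exact Nat.card_congr (subgroupOfEquivOfLe inf_le_right).toEquiv
  have hi := (S.subgroupOf N).index_mul_card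
  have hpos : 0 < Nat.card (S ⊓ N : Subgroup G) := Nat.card_pos
  have hle : (S.subgroupOf N).index ≤ c := by
    rw [hc] at hi
    exact Nat.le_of_mul_le_mul_right (hi.le.trans h) hpos
  refine ⟨(Finset.univ : Finset (N ⧸ S.subgroupOf N)).toList.map (fun q => (q.out : G)), ?_, ?_⟩
  · rw [List.length_map, Finset.length_toList, Finset.card_univ, ← Nat.card_eq_fintype_card]
    exact hle
  · intro n hn
    obtain ⟨s, hs⟩ := QuotientGroup.mk_out_eq_mul (S.subgroupOf N) ⟨n, hn⟩
    have h1 : ((((⟨n, hn⟩ : N) : N ⧸ S.subgroupOf N).out : N) : G) = n * ((s : N) : G) := by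
      rw [hs]; rfl
    have h2 : n = ((((⟨n, hn⟩ : N) : N ⧸ S.subgroupOf N).out : N) : G) * ((s : N) : G)⁻¹ := by
      rw [h1]; group
    rw [h2]
    refine mul_mem (mem_sup_right (mem_gen ?_)) (mem_sup_left (inv_mem s.2))
    exact List.mem_map.2 ⟨_, by simp, rfl⟩

theorem card_map [Finite G] (N L : Subgroup G) [N.Normal] (h : N ≤ L) :
    Nat.card (L.map (QuotientGroup.mk' N)) * Nat.card N = Nat.card L := by
  have h1 : (L.map (QuotientGroup.mk' N)).index = L.index :=
    index_map_eq L (QuotientGroup.mk'_surjective N) (by rwa [QuotientGroup.ker_mk'])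
  have h2 := (L.map (QuotientGroup.mk' N)).card_mul_index
  have h3 := L.card_mul_index
  have h4 := card_eq_card_quotient_mul_card_subgroup N
  have h5 : 0 < L.index := Nat.pos_of_ne_zero index_ne_zero_of_finite
  apply Nat.eq_of_mul_eq_mul_right h5
  rw [h3, h4, ← h2, h1]
  ring

theorem mem_map_out (N L : Subgroup G) [N.Normal] (q : G ⧸ N) (h : q.out ∈ L) :
    q ∈ L.map (QuotientGroup.mk' N) :=
  ⟨q.out, h, QuotientGroup.out_eq' q⟩

end StaA

open StaA in
theorem sta : S_SAT → S_SCHL → S_REW → S_NEU → S_BFC → S_STA := by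
  intro hsat hschl hrew hneu hbfc M hM
  obtain ⟨c, hc⟩ := hschl M
  obtain ⟨t, ht⟩ := (Nat.eventually_mul_pow_lt_factorial_sub (c * M ^ c) M 0).exists
  rw [Nat.sub_zero] at ht
  obtain ⟨m, hm⟩ := hneu (t.factorial ^ 2)
  obtain ⟨c₂, hc₂⟩ := hbfc m
  refine ⟨c + c₂, fun G _ _ => ?_⟩
  obtain ⟨I, hI, hsatI⟩ := hsat G M hM
  obtain ⟨N, hN, hJ, hNc⟩ := hc G (gen I) (fun g => by
    have := hsatI [g]
    rwa [gen_append, gen_singleton, List.length_singleton, pow_one] at this)
  obtain ⟨Y₀, hY₀, hNY⟩ := cover (gen I) N c hNc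
  have hNL : ∀ Z : List G, N ≤ gen (I ++ (Y₀ ++ Z)) := by
    intro Z
    rw [gen_append, gen_append]
    exact hNY.trans (sup_le_sup_left le_sup_left _)
  have hZ : ∀ (Z : List G) (x : G), x ∈ Z → x ∈ gen (I ++ (Y₀ ++ Z)) := fun Z x hx =>
    mem_gen (List.mem_append_right _ (List.mem_append_right _ hx))
  have hsmall : ∀ y : Fin t → G ⧸ N, Nat.card (closure (Set.range y)) < t.factorial := by
    intro y
    set L := gen (I ++ (Y₀ ++ List.ofFn (fun i => (y i).out))) with hL
    have h1 : closure (Set.range y) ≤ L.map (QuotientGroup.mk' N) := by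
      rw [closure_le]
      rintro _ ⟨i, rfl⟩
      exact mem_map_out N L _ (hZ _ _ (List.mem_ofFn.2 ⟨i, rfl⟩))
    have h2 : Nat.card (closure (Set.range y)) ≤ Nat.card (L.map (QuotientGroup.mk' N)) :=
      card_le_of_le h1
    have h3 := card_map N L (hNL _)
    have h4 := hsatI (Y₀ ++ List.ofFn (fun i => (y i).out))
    rw [List.length_append, List.length_ofFn, ← hL] at h4
    have h5 : Nat.card (gen I ⊓ N : Subgroup G) ≤ Nat.card N := card_le_of_le inf_le_right
    have h6 : M ^ (Y₀.length + t) ≤ M ^ c * M ^ t := by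
      rw [← pow_add]
      exact Nat.pow_le_pow_right (by omega) (by omega)
    have h7 : Nat.card (L.map (QuotientGroup.mk' N)) * Nat.card N ≤
        (c * M ^ c * M ^ t) * Nat.card N := by
      calc _ = Nat.card L := h3
        _ ≤ M ^ (Y₀.length + t) * Nat.card (gen I) := h4
        _ ≤ (M ^ c * M ^ t) * (c * Nat.card N) :=
          Nat.mul_le_mul h6 (hJ.trans (Nat.mul_le_mul_left _ h5))
        _ = _ := by ring
    have h8 := Nat.le_of_mul_le_mul_right h7 (Nat.card_pos (α := N))
    omega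
  obtain ⟨H₁, hH₁, hH₁i, hH₁c⟩ := hm (G ⧸ N) (hrew t (G ⧸ N) hsmall)
  obtain ⟨l, C, hl, hC, hCi, hCl⟩ := hc₂ (G ⧸ N) H₁ hH₁ hH₁i hH₁c
  refine ⟨I ++ (Y₀ ++ l.map (fun q => q.out)), C.comap (QuotientGroup.mk' N), ?_,
    hC.comap _, ?_, ?_⟩
  · rw [List.length_append, List.length_append, List.length_map]
    omega
  · rw [index_comap_of_surjective _ (QuotientGroup.mk'_surjective N)]
    omega
  · set L := gen (I ++ (Y₀ ++ l.map (fun q => q.out))) with hL
    have h1 : gen l ≤ L.map (QuotientGroup.mk' N) := by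
      unfold gen
      rw [closure_le]
      intro q hq
      exact mem_map_out N L _ (hZ _ _ (List.mem_map.2 ⟨q, hq, rfl⟩))
    have h2 : (⁅C.comap (QuotientGroup.mk' N), C.comap (QuotientGroup.mk' N)⁆ : Subgroup G).map
        (QuotientGroup.mk' N) ≤ L.map (QuotientGroup.mk' N) := by
      rw [map_commutator]
      exact ((commutator_mono (map_comap_le _ _) (map_comap_le _ _)).trans hCl).trans h1
    have h3 := map_le_iff_le_comap.1 h2
    rwa [comap_map_eq_self (by rw [QuotientGroup.ker_mk']; exact hNL _)] at h3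

end Pool.Agent.P.MP_f1a348_lc.GI
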