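import Pool.Agent.P.MP_f1a348_lc.GI.MDefs

/-!
There are boundedly many types of small summands.
-/

namespace Pool.Agent.P.MP_f1a348_lc.GI

open Subgroup

namespace TypesA

theorem surj_type (α : Type) [Finite α] [Nonempty α] (c : ℕ) (h : Nat.card α ≤ c) :
    ∃ g : Fin c → α, Function.Surjective g := by
  classical
  have := Fintype.ofFinite α
  rw [Function.exists_surjective_iff]
  refine ⟨⟨fun _ => Classical.arbitrary α⟩, ?_⟩
  apply Function.Embedding.nonempty_of_card_le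
  simpa [Nat.card_eq_fintype_card] using h

theorem surj_sub {U : Type} [Group U] (S : Subgroup U) [Finite S] (c : ℕ)
    (h : Nat.card S ≤ c) : ∃ g : Fin c → U, (∀ a, g a ∈ S) ∧ ∀ x ∈ S, ∃ a, g a = x := by
  obtain ⟨g, hg⟩ := surj_type S c h
  refine ⟨fun a => (g a : U), fun a => (g a).2, fun x hx => ?_⟩
  obtain ⟨a, ha⟩ := hg ⟨x, hx⟩
  exact ⟨a, by simp [ha]⟩

theorem reps {U : Type} [Group U] (J K : Subgroup U) [Finite J] (c : ℕ) (hKJ : K ≤ J)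
    (h : Nat.card J ≤ c * Nat.card K) :
    ∃ ρ : Fin c → U, (∀ s, ρ s ∈ J) ∧ ∀ j ∈ J, ∃ s, ∃ k ∈ K, j = ρ s * k := by
  have h1 : Nat.card (K.subgroupOf J) = Nat.card K :=
    Nat.card_congr (Subgroup.subgroupOfEquivOfLe hKJ).toEquiv
  have h2 := (K.subgroupOf J).index_mul_card
  have hpos : 0 < Nat.card K := by
    rw [← h1]; exact Nat.card_pos
  have h3 : Nat.card (J ⧸ K.subgroupOf J) ≤ c := by
    have : (K.subgroupOf J).index * Nat.card K ≤ c * Nat.card K := by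
      rw [← h1, h2, h1]; exact h
    exact Nat.le_of_mul_le_mul_right this hpos
  obtain ⟨q, hq⟩ := surj_type (J ⧸ K.subgroupOf J) c h3
  refine ⟨fun s => ((q s).out : J), fun s => ((q s).out).2, fun j hj => ?_⟩
  obtain ⟨s, hs⟩ := hq (QuotientGroup.mk ⟨j, hj⟩)
  have h4 : (QuotientGroup.mk ((q s).out) : J ⧸ K.subgroupOf J) = QuotientGroup.mk ⟨j, hj⟩ := by
    rw [← hs]; exact QuotientGroup.out_eq' _
  rw [QuotientGroup.eq, Subgroup.mem_subgroupOf] at h4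
  refine ⟨s, _, h4, ?_⟩
  simp

/-- the finite type of data -/
abbrev D (c : ℕ) : Type :=
  Set (Fin c × Fin c × Fin c) × Set (Fin c × Fin c) × Set (Fin c × Fin c) ×
    Set (Fin c × Fin c × Fin c)

/-- the data of an enumeration -/
def dat {U : Type} [Group U] {c : ℕ} (ε ρ g : Fin c → U) : D c :=
  ({p | g p.1 * g p.2.1 = g p.2.2}, {p | g p.1 = g p.2}, {p | g p.1 = ε p.2},
    {p | ρ p.2.1 * g p.1 * (ρ p.2.1)⁻¹ = g p.2.2})

theorem iso_of_dat {U : Type} [Group U] {c : ℕ} (J K E X X' : Subgroup U) (ε ρ g g' : Fin c → U)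
    (hε : ∀ x ∈ E, ∃ a, ε a = x) (hρJ : ∀ s, ρ s ∈ J)
    (hρ : ∀ j ∈ J, ∃ s, ∃ k ∈ K, j = ρ s * k)
    (hg : ∀ a, g a ∈ X) (hgs : ∀ x ∈ X, ∃ a, g a = x)
    (hg' : ∀ a, g' a ∈ X') (hgs' : ∀ x ∈ X', ∃ a, g' a = x) (hE : E ≤ X)
    (hn : ∀ j ∈ J, ∀ x ∈ X, j * x * j⁻¹ ∈ X)
    (hc : ∀ k ∈ K, ∀ x ∈ X, k * x = x * k) (hc' : ∀ k ∈ K, ∀ x ∈ X', k * x = x * k)
    (hd : dat ε ρ g = dat ε ρ g') : ∃ γ, IsoOn J E id X X' γ := by
  classical
  simp only [dat, Prod.mk.injEq] at hd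
  obtain ⟨d1, d2, d3, d4⟩ := hd
  have e1 : ∀ a b d, g a * g b = g d ↔ g' a * g' b = g' d := fun a b d =>
    Set.ext_iff.1 d1 (a, b, d)
  have e2 : ∀ a b, g a = g b ↔ g' a = g' b := fun a b => Set.ext_iff.1 d2 (a, b)
  have e3 : ∀ a b, g a = ε b ↔ g' a = ε b := fun a b => Set.ext_iff.1 d3 (a, b)
  have e4 : ∀ a s b, ρ s * g a * (ρ s)⁻¹ = g b ↔ ρ s * g' a * (ρ s)⁻¹ = g' b := fun a s b =>
    Set.ext_iff.1 d4 (a, s, b)
  let γ : U → U := fun x => if h : ∃ a, g a = x then g' h.choose else 1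
  have hγ : ∀ a, γ (g a) = g' a := by
    intro a
    have h : ∃ b, g b = g a := ⟨a, rfl⟩
    simp only [γ, dif_pos h]
    exact (e2 _ _).1 h.choose_spec
  refine ⟨γ, ⟨?_, ?_, ?_⟩, ?_, ?_, ?_⟩
  · intro x hx
    obtain ⟨a, rfl⟩ := hgs x hx
    rw [hγ]; exact hg' a
  · intro x hx y hy hxy
    obtain ⟨a, rfl⟩ := hgs x hx
    obtain ⟨b, rfl⟩ := hgs y hy
    rw [hγ, hγ] at hxy
    exact (e2 _ _).2 hxy
  · intro y hy
    obtain ⟨a, rfl⟩ := hgs' y hy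
    exact ⟨g a, hg a, hγ a⟩
  · intro x hx y hy
    obtain ⟨a, rfl⟩ := hgs x hx
    obtain ⟨b, rfl⟩ := hgs y hy
    obtain ⟨d, hd⟩ := hgs _ (X.mul_mem hx hy)
    rw [← hd, hγ, hγ, hγ]
    exact ((e1 _ _ _).1 hd.symm).symm
  · intro j hj x hx
    obtain ⟨a, rfl⟩ := hgs x hx
    obtain ⟨s, k, hk, rfl⟩ := hρ j hj
    obtain ⟨b, hb⟩ := hgs _ (hn _ (hρJ s) _ hx)
    have f1 : ρ s * k * g a * (ρ s * k)⁻¹ = ρ s * g a * (ρ s)⁻¹ := by
      rw [mul_assoc (ρ s) k, hc k hk _ hx]; group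
    have f2 : ρ s * k * g' a * (ρ s * k)⁻¹ = ρ s * g' a * (ρ s)⁻¹ := by
      rw [mul_assoc (ρ s) k, hc' k hk _ (hg' a)]; group
    simp only [id]
    rw [f1, ← hb, hγ, hγ, f2]
    exact ((e4 _ _ _).1 hb.symm).symm
  · intro s hs
    obtain ⟨a, ha⟩ := hgs s (hE hs)
    obtain ⟨b, hb⟩ := hε s hs
    simp only [id]
    rw [← ha, hγ, ha, ← hb]
    exact (e3 _ _).1 (ha.trans hb.symm)

end TypesA

theorem types : S_TYPES := by
  intro c
  refine ⟨Nat.card (TypesA.D c), ?_⟩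
  intro U _ J K E _ n X hn hEK hKJ hJ hX
  classical
  have i0 : Fin n := ⟨0, by omega⟩
  obtain ⟨f0, c0, E0, -, -⟩ := hX i0
  have : Finite E := Finite.of_injective _ (Subgroup.inclusion_injective E0)
  obtain ⟨ε, -, hε⟩ := TypesA.surj_sub E c ((Subgroup.card_le_of_le E0).trans c0)
  obtain ⟨ρ, hρJ, hρ⟩ := TypesA.reps J K c hKJ hJ
  have hg : ∀ i, ∃ g : Fin c → U, (∀ a, g a ∈ X i) ∧ ∀ x ∈ X i, ∃ a, g a = x := by
    intro i
    obtain ⟨f, ci, -⟩ := hX i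
    exact TypesA.surj_sub (X i) c ci
  choose g hg hgs using hg
  have := Fintype.ofFinite (TypesA.D c)
  obtain ⟨i, i', hne, hd⟩ := Fintype.exists_ne_map_eq_of_card_lt
    (fun i => TypesA.dat ε ρ (g i)) (by simpa [Nat.card_eq_fintype_card] using hn)
  refine ⟨i, i', hne, ?_⟩
  obtain ⟨-, -, Ei, ni, ci⟩ := hX i
  obtain ⟨-, -, -, -, ci'⟩ := hX i'
  exact TypesA.iso_of_dat J K E (X i) (X i') ε ρ (g i) (g i') hε hρJ hρ (hg i) (hgs i) (hg i')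
    (hgs i') Ei ni ci ci' hd

end Pool.Agent.P.MP_f1a348_lc.GI
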