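import Pool.Agent.P.MP_f1a348_lc.GI.ABasic
import Pool.Agent.P.MP_f1a348_lc.GI.Gen

/-!
The group generated by `unitGens` is `1 + R` modulo `E`.
-/

namespace Pool.Agent.P.MP_f1a348_lc.GI

open GenA

namespace UnitA

variable {U : Type} [Group U] [DecidableEq U] {pad : List Unit} {Y P : List U} {t : Tr U}
  {y : Subgroup U} {S : List (FB U)}

/-- the map attached to a finitely supported function -/
def ev : FB U →* (U → U) := ⟨⟨fun F x => F.app (false, x), rfl⟩, fun _ _ => rfl⟩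

omit [DecidableEq U] in
theorem ev_mem {l : List (FB U)} {F : FB U} (hF : F ∈ gen l) :
    ev F ∈ Subgroup.closure (ev '' {G | G ∈ l}) := by
  rw [← MonoidHom.map_closure]
  exact Subgroup.mem_map_of_mem _ hF

/-- the generators of the powers of the ring -/
noncomputable def lam (pad : List Unit) (Y : List U) (S : List (FB U)) : ℕ → List (FB U)
  | 0 => S
  | i + 1 => powStep pad Y S (lam pad Y S i)

theorem mem_powList {F : FB U} : F ∈ powList pad Y S ↔ ∃ i < Y.length, F ∈ lam pad Y S i := by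
  have key : ∀ u : List U,
      (u.foldl (fun (st : List (FB U) × List (FB U)) _ => (powStep pad Y S st.1, st.1 ++ st.2))
        (S, [])).1 = lam pad Y S u.length ∧
      (F ∈ (u.foldl (fun (st : List (FB U) × List (FB U)) _ =>
        (powStep pad Y S st.1, st.1 ++ st.2)) (S, [])).2 ↔ ∃ i < u.length, F ∈ lam pad Y S i) := by
    intro u
    induction u using List.reverseRecOn with
    | nil => simp [lam]
    | append_singleton u a ih =>
      rw [List.foldl_append, List.foldl_cons, List.foldl_nil, List.length_append,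
        List.length_singleton]
      refine ⟨by rw [ih.1]; rfl, ?_⟩
      rw [List.mem_append, ih.1, ih.2]
      constructor
      · rintro (h | ⟨i, hi, h⟩)
        · exact ⟨_, Nat.lt_succ_self _, h⟩
        · exact ⟨i, Nat.lt_succ_of_lt hi, h⟩
      · rintro ⟨i, hi, h⟩
        rcases Nat.lt_succ_iff_lt_or_eq.1 hi with hi | rfl
        · exact Or.inr ⟨i, hi, h⟩
        · exact Or.inl h
  exact (key Y).2

theorem app_compF (hY : Rep Y y) (r s : FB U) (a : Bool × U) :
    (compF Y r s).app a =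
      if a ∈ Y.map (fun x => (false, x)) then r.app (false, s.app a) else 1 := by
  rw [compF, FF.app_tab (hY.nodup.map fun _ _ e => (Prod.ext_iff.1 e).2)]
  congr

theorem ev_compF (hY : Rep Y y) (r s : FB U) {x : U} (hx : x ∈ y) :
    ev (compF Y r s) x = ev r (ev s x) :=
  (app_compF hY r s (false, x)).trans (if_pos (List.mem_map_of_mem ((hY.mem x).2 hx)))

theorem mem_comps {L : List (FB U)} {c : FB U} :
    c ∈ S.flatMap (fun r => L.map (compF Y r)) ↔ ∃ r ∈ S, ∃ s ∈ L, compF Y r s = c := by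
  simp [List.mem_flatMap]

theorem gen_powStep (hS : S_SIMS) (hY : Rep Y y) {N : ℕ} (hN : Y.length ≤ N)
    (hp : (N + 1) ^ 3 ≤ pad.length) {L : List (FB U)}
    (hv : ∀ r ∈ S, ∀ s ∈ L, ∀ x ∈ y, ev r (ev s x) ∈ y) :
    gen (powStep pad Y S L) = gen (S.flatMap (fun r => L.map (compF Y r))) := by
  refine hS _ _ pad _ _ N (fun u hu h => FF.ext fun a => ?_) (fun b hb => ?_) ?_
  · by_cases ha : a ∈ Y.map (fun x => (false, x))
    · obtain ⟨x, hx, rfl⟩ := List.mem_map.1 ha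
      have := congrArg Prod.snd (h _ (List.mem_map_of_mem hx))
      simpa [FF.smul_def] using this
    · refine Subgroup.mem_bot.1 (FF.app_mem (fun c hc => ?_) hu)
      obtain ⟨r, -, s, -, rfl⟩ := mem_comps.1 hc
      rw [app_compF hY, if_neg ha]
      exact Subgroup.one_mem _
  · obtain ⟨x, hx, rfl⟩ := List.mem_map.1 hb
    refine ⟨Y.toFinset.image (fun z => ((false, x), z)),
      Finset.card_image_le.trans ((List.toFinset_card_le Y).trans hN), fun u hu => ?_⟩
    refine Finset.mem_image.2 ⟨u.app (false, x), ?_, by simp [FF.smul_def]⟩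
    rw [List.mem_toFinset, hY.mem]
    refine FF.app_mem (fun c hc => ?_) hu
    obtain ⟨r, hr, s, hs, rfl⟩ := mem_comps.1 hc
    have hx' := (hY.mem x).1 hx
    change ev (compF Y r s) x ∈ y
    rw [ev_compF hY r s hx']
    exact hv r hr s hs x hx'
  · rw [List.length_map]
    refine le_trans ?_ hp
    calc Y.length * N ≤ (N + 1) * (N + 1) := Nat.mul_le_mul (hN.trans N.le_succ) N.le_succ
      _ ≤ (N + 1) * (N + 1) * (N + 1) := Nat.le_mul_of_pos_right _ N.succ_pos
      _ = (N + 1) ^ 3 := by ring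

/-- the invariant of the generators of the power number `i + 1` -/
def Inv (t : Tr U) (y : Subgroup U) (P : List U) (i : ℕ) (F : FB U) : Prop :=
  IsR t y P (ev F) ∧ (∀ x ∈ y, ev F x ∈ Filt t y P (i + 1)) ∧
    (Filt t y P i ≤ t.K → ∀ x ∈ y, ev F x ∈ t.E)

omit [DecidableEq U] in
theorem inv_gen (g : Good t y) {i : ℕ} {l : List (FB U)} (h : ∀ F ∈ l, Inv t y P i F) {F : FB U}
    (hF : F ∈ gen l) : Inv t y P i F := by
  refine ⟨closure_R g ?_ (ev_mem hF), fun x hx => FF.app_mem (fun G hG => (h G hG).2.1 x hx) hF,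
    fun hK x hx => FF.app_mem (fun G hG => (h G hG).2.2 hK x hx) hF⟩
  rintro _ ⟨G, hG, rfl⟩
  exact (h G hG).1

theorem lam_inv (hS : S_SIMS) (hY : Rep Y y) (g : Good t y) (hP : ∀ x ∈ P, x ∈ y) {N : ℕ}
    (hN : Y.length ≤ N) (hp : (N + 1) ^ 3 ≤ pad.length) (h0 : ∀ r ∈ S, IsR t y P (ev r)) :
    ∀ i, (∀ F ∈ lam pad Y S i, Inv t y P i F) ∧ gen (lam pad Y S (i + 1)) =
      gen (S.flatMap (fun r => (lam pad Y S i).map (compF Y r))) := by
  have step : ∀ i, (∀ F ∈ lam pad Y S i, Inv t y P i F) → gen (lam pad Y S (i + 1)) =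
      gen (S.flatMap (fun r => (lam pad Y S i).map (compF Y r))) := fun i h =>
    gen_powStep hS hY hN hp fun r hr s hs x hx => (h0 r hr).l.maps _ ((h s hs).1.l.maps x hx)
  intro i
  induction i with
  | zero =>
    have : ∀ F ∈ lam pad Y S 0, Inv t y P 0 F := fun F hF => by
      obtain ⟨r', hr⟩ := h0 F hF
      exact ⟨⟨r', hr⟩, fun x hx => hr.map_filt (i := 0) hx, fun hK x hx => hr.l.fix x (hK hx)⟩
    exact ⟨this, step 0 this⟩
  | succ i ih =>
    have : ∀ F ∈ lam pad Y S (i + 1), Inv t y P (i + 1) F := fun F hF => by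
      refine inv_gen g (fun c hc => ?_) (ih.2 ▸ mem_gen hF)
      obtain ⟨r, hr, s, hs, rfl⟩ := mem_comps.1 hc
      obtain ⟨r', hr'⟩ := h0 r hr
      obtain ⟨⟨s', hs'⟩, h2, -⟩ := ih.1 s hs
      refine ⟨⟨_, (hr'.comp hs' g).congr g hP
        (fun x hx => Cg.of_eq (ev_compF hY r s hx).symm) (fun x _ => Cg.refl _)⟩,
        fun x hx => ?_, fun hK x hx => ?_⟩
      · rw [ev_compF hY r s hx]
        exact hr'.map_filt (h2 x hx)
      · rw [ev_compF hY r s hx]
        exact hr'.l.fix _ (hK (h2 x hx))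
    exact ⟨this, step _ this⟩

omit [DecidableEq U] in
theorem sim_maps (g : Good t y) {σ : Equiv.Perm U} {a : U → U} (h : Sim t y σ a)
    (ha : IsR t y P a) : ∀ x ∈ y, σ x ∈ y := fun x hx =>
  ((h x hx).mem_iff g.EY).2 (y.mul_mem hx (ha.l.maps x hx))

omit [DecidableEq U] in
theorem sim_congr (g : Good t y) {σ : Equiv.Perm U} {a : U → U} (h : Sim t y σ a)
    (ha : IsR t y P a) : ∀ x ∈ y, ∀ e ∈ t.E, (σ x)⁻¹ * σ (x * e) ∈ t.E := fun x hx _ he =>
  ((h x hx).trans ((QHom.one_add ha.l g).congrE g (fun _ h => h) hx (Cg.mul_mem he x))).trans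
    (h _ (y.mul_mem hx (g.EY he))).symm

/-- the permutations that represent elements of `1 + R` -/
def units (t : Tr U) (y : Subgroup U) (P : List U) (g : Good t y) : Submonoid (FP U) where
  carrier := {σ | (∀ a, a ∉ y → σ.app a = a) ∧ ∃ r, IsR t y P r ∧ Sim t y σ.perm r}
  one_mem' := ⟨fun _ _ => rfl, 1, IsR.one g, fun x _ => Cg.of_eq (by simp)⟩
  mul_mem' := by
    rintro σ τ ⟨h1, a, ha, hs⟩ ⟨h2, b, hb, ht⟩
    exact ⟨fun x hx => by rw [FP.app_mul, h2 x hx, h1 x hx], _, (ha.mul hb g).mul (ha.comp hb g) g,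
      Sim.mul g hs ht ha hb (sim_maps g ht hb) (sim_congr g hs ha)⟩

omit [DecidableEq U] in
theorem units_inv [Finite y] (g : Good t y) {σ : FP U} (h : σ ∈ units t y P g) :
    σ⁻¹ ∈ units t y P g := by
  have hm : ∀ τ : units t y P g, ∀ x ∈ y, τ.1.app x ∈ y := fun τ => by
    obtain ⟨-, a, ha, hs⟩ := τ.2
    exact sim_maps g hs ha
  have : Finite (units t y P g) := by
    refine Finite.of_injective (fun τ : units t y P g => fun x : y => (⟨_, hm τ x x.2⟩ : y))
      fun τ ρ e => Subtype.ext (FP.ext fun a => ?_)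
    by_cases ha : a ∈ y
    · exact congrArg Subtype.val (congrFun e ⟨a, ha⟩)
    · rw [τ.2.1 a ha, ρ.2.1 a ha]
  have hle : Submonoid.powers σ ≤ units t y P g := Submonoid.powers_le.2 h
  have hf : IsOfFinOrder σ := finite_powers.1 ((Set.toFinite _).subset hle)
  exact hle (hf.mem_powers_iff_mem_zpowers.2 (Subgroup.inv_mem _ (Subgroup.mem_zpowers σ)))

end UnitA

open UnitA in
theorem unit : S_SIMS → S_FILT → S_NORM → S_GEN → S_UNIT := by
  intro hS hF hN hG U _ _ pad tl t Y P y N ht hY g hP hYN hp hnil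
  have := hY.finite
  have hH := (hF U pad tl t Y P y N ht hY g hP hYN hp).1
  set S := ringGens pad tl Y P with hSdef
  have h0 : ∀ r ∈ S, IsR t y P (ev r) := fun r hr => ⟨_, rr_iff.2 (hH.sound r (mem_gen hr))⟩
  have hL := lam_inv hS hY g hP hYN hp h0
  have hnorm : ∀ F, IsR t y P (ev F) → Sim t y (normP tl.2.1 Y 1 true F).perm (ev F) ∧
      ∀ a, a ∉ y → (normP tl.2.1 Y 1 true F).app a = a := by
    rintro F ⟨r', hr⟩
    have := hN U tl.2.1 Y t t 1 y y true F ht.K hY g g (Link.refl t) (QHom.one_add hr.l g)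
      (fun x hx hk => hnil.inj g hr hx hk)
    exact ⟨this.1, fun a ha => this.2 a ha ha⟩
  have h1 : ∀ σ ∈ gen (unitGens pad tl Y P), σ ∈ units t y P g := by
    intro σ hσ
    induction hσ using Subgroup.closure_induction with
    | mem σ hσ =>
      obtain ⟨F, hF, rfl⟩ := List.mem_map.1 hσ
      obtain ⟨i, -, hi⟩ := mem_powList.1 hF
      have hr := ((hL i).1 F hi).1
      exact ⟨(hnorm F hr).2, _, hr, (hnorm F hr).1⟩
    | one => exact Submonoid.one_mem _
    | mul a b _ _ ha hb => exact Submonoid.mul_mem _ ha hb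
    | inv a _ ha => exact units_inv g ha
  refine ⟨fun σ hσ => ?_, fun r r' hr => ?_⟩
  · obtain ⟨h2, r, ⟨r', hr⟩, hs⟩ := h1 σ hσ
    exact ⟨h2, r, r', hr, hs⟩
  suffices h : ∃ σ ∈ (gen (unitGens pad tl Y P)).map FP.permHom,
      ∀ x ∈ y, (σ x)⁻¹ * (x * r x) ∈ t.E by
    obtain ⟨_, ⟨σ, hσ, rfl⟩, hs⟩ := h
    exact ⟨σ, hσ, hs⟩
  refine hG U t y P _ (fun i => ev '' {F | F ∈ lam pad Y S i}) Y.length g ?_ ?_ ?_ ?_ ?_ ?_ ?_
    r r' hr
  · rintro _ ⟨σ, hσ, rfl⟩
    obtain ⟨-, a, ha, hs⟩ := h1 σ hσ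
    exact sim_maps g hs ha
  · rintro _ ⟨σ, hσ, rfl⟩
    obtain ⟨-, a, ha, hs⟩ := h1 σ hσ
    exact sim_congr g hs ha
  · rintro i _ ⟨F, hF, rfl⟩
    exact ((hL i).1 F hF).1
  · intro a a' ha
    obtain ⟨u, hu, e, -⟩ := hH.complete a a' (rr_iff.1 ha)
    exact ⟨ev u, ev_mem hu, e⟩
  · rintro i _ ⟨a, ha, rfl⟩ _ ⟨s, hs, rfl⟩
    refine ⟨ev (compF Y a s), ev_mem ?_, fun x hx => ev_compF hY a s hx⟩
    rw [(hL i).2]
    exact mem_gen (mem_comps.2 ⟨a, ha, s, hs, rfl⟩)
  · rintro i hi _ ⟨F, hF, rfl⟩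
    exact ⟨_, ⟨normP tl.2.1 Y 1 true F,
      mem_gen (List.mem_map_of_mem (mem_powList.2 ⟨i, hi, hF⟩)), rfl⟩,
      (hnorm F ((hL i).1 F hF).1).1⟩
  · rintro _ ⟨F, hF, rfl⟩
    exact ((hL _).1 F hF).2.2 (hnil.filt_card g hY.card.le)

end Pool.Agent.P.MP_f1a348_lc.GI
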