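import Pool.Agent.P.MP_f1a348_lc.GI.Bfc
import Pool.Agent.P.MP_f1a348_lc.GI.Canc
import Pool.Agent.P.MP_f1a348_lc.GI.Dup
import Pool.Agent.P.MP_f1a348_lc.GI.Exec
import Pool.Agent.P.MP_f1a348_lc.GI.Ext
import Pool.Agent.P.MP_f1a348_lc.GI.Filt
import Pool.Agent.P.MP_f1a348_lc.GI.Gen
import Pool.Agent.P.MP_f1a348_lc.GI.Glue
import Pool.Agent.P.MP_f1a348_lc.GI.Half
import Pool.Agent.P.MP_f1a348_lc.GI.Lift
import Pool.Agent.P.MP_f1a348_lc.GI.Lin
import Pool.Agent.P.MP_f1a348_lc.GI.Loop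
import Pool.Agent.P.MP_f1a348_lc.GI.Match
import Pool.Agent.P.MP_f1a348_lc.GI.Neu
import Pool.Agent.P.MP_f1a348_lc.GI.Norm
import Pool.Agent.P.MP_f1a348_lc.GI.P1
import Pool.Agent.P.MP_f1a348_lc.GI.P2
import Pool.Agent.P.MP_f1a348_lc.GI.P3c
import Pool.Agent.P.MP_f1a348_lc.GI.Pin
import Pool.Agent.P.MP_f1a348_lc.GI.Plan
import Pool.Agent.P.MP_f1a348_lc.GI.Prog
import Pool.Agent.P.MP_f1a348_lc.GI.Rew
import Pool.Agent.P.MP_f1a348_lc.GI.Rho
import Pool.Agent.P.MP_f1a348_lc.GI.Ring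
import Pool.Agent.P.MP_f1a348_lc.GI.Sat
import Pool.Agent.P.MP_f1a348_lc.GI.Schl
import Pool.Agent.P.MP_f1a348_lc.GI.Sims
import Pool.Agent.P.MP_f1a348_lc.GI.Small
import Pool.Agent.P.MP_f1a348_lc.GI.St
import Pool.Agent.P.MP_f1a348_lc.GI.Sta
import Pool.Agent.P.MP_f1a348_lc.GI.Tower
import Pool.Agent.P.MP_f1a348_lc.GI.Types
import Pool.Agent.P.MP_f1a348_lc.GI.Unit

/-!
Assembly of the group isomorphism algorithm.
-/

namespace Pool.Agent.P.MP_f1a348_lc.GI

theorem all_st : S_ST := st (sta sat schl rew neu bfc) pin half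
theorem all_p2 : S_P2 := p2 ringLemma (rho types)
theorem all_lin : S_LIN := linLemma (towerLemma simsLemma)
theorem all_filt : S_FILT := filt all_lin
theorem all_loop : S_LOOP :=
  loop (p1 canc mob) glue1 (dup small matchLemma check) (twinLemma small matchLemma check)
theorem all_p3 : S_P3 :=
  p3c ext (towerLemma simsLemma) all_lin all_filt norm (unit simsLemma all_filt norm genLemma)
    (lift matchLemma) deep
theorem all_plan : S_PLAN := plan all_st all_p2 small check all_loop all_filt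
theorem all_exec : S_EXEC := execLemma glue0 small matchLemma check all_loop all_filt all_p3

end Pool.Agent.P.MP_f1a348_lc.GI
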