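import Pool.Agent.P.MP_f1a348_lc.GI.MDefs

/-!
Small lemmas on the notions of `MDefs`: congruences modulo `E`, links, isomorphisms,
(quasi-)homomorphisms and adjoint pairs.
-/

namespace Pool.Agent.P.MP_f1a348_lc.GI

open Subgroup
open scoped commutatorElement

variable {U : Type} [Group U]

theorem mem_gen {l : List U} {x : U} (h : x ∈ l) : x ∈ gen l := subset_closure h

theorem gen_le {l : List U} {Z : Subgroup U} : gen l ≤ Z ↔ ∀ x ∈ l, x ∈ Z := closure_le _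

theorem gen_mono {l m : List U} (h : ∀ x ∈ l, x ∈ m) : gen l ≤ gen m :=
  gen_le.2 fun x hx => mem_gen (h x hx)

theorem gen_append (l m : List U) : gen (l ++ m) = gen l ⊔ gen m := by
  unfold gen
  rw [← Subgroup.closure_union]
  congr 1
  ext x
  simp

theorem gen_nil : gen ([] : List U) = ⊥ := by simp [gen]

/-! ### congruence modulo `E` -/

/-- congruence modulo `E` -/
def Cg (E : Subgroup U) (a b : U) : Prop := a⁻¹ * b ∈ E

/-- `c` normalizes `E` -/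
def Nm (E : Subgroup U) (c : U) : Prop := ∀ e ∈ E, c⁻¹ * e * c ∈ E

namespace Cg
variable {E F : Subgroup U} {a b c d : U}

theorem refl (a : U) : Cg E a a := by simp [Cg]
theorem of_eq (h : a = b) : Cg E a b := h ▸ refl a
theorem symm (h : Cg E a b) : Cg E b a := by simpa [Cg] using E.inv_mem h
theorem trans (h : Cg E a b) (h' : Cg E b c) : Cg E a c := by
  have := E.mul_mem h h'
  simpa [Cg, mul_assoc] using this
instance : Trans (Cg E) (Cg E) (Cg E) := ⟨trans⟩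
instance : Trans (Cg E) Eq (Cg E) := ⟨fun h e => e ▸ h⟩
instance : Trans Eq (Cg E) (Cg E) := ⟨fun e h => e ▸ h⟩
theorem mono (h : Cg E a b) (hEF : E ≤ F) : Cg F a b := hEF h
theorem left (x : U) (h : Cg E a b) : Cg E (x * a) (x * b) := by
  simpa [Cg, mul_assoc] using h
theorem right (hc : Nm E c) (h : Cg E a b) : Cg E (a * c) (b * c) := by
  have := hc _ h
  simpa [Cg, mul_assoc] using this
theorem mul (hc : Nm E c) (h : Cg E a b) (h' : Cg E c d) : Cg E (a * c) (b * d) :=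
  (h.right hc).trans (h'.left b)
theorem inv (ha : Nm E a⁻¹) (h : Cg E a b) : Cg E a⁻¹ b⁻¹ := by
  have := ha _ (E.inv_mem h)
  simpa [Cg, mul_assoc] using this
theorem exists_eq (h : Cg E a b) : ∃ e ∈ E, b = a * e := ⟨_, h, by simp⟩
theorem mul_mem {e : U} (he : e ∈ E) (a : U) : Cg E a (a * e) := by simpa [Cg] using he
theorem mem_iff (h : Cg E a b) (hEF : E ≤ F) : a ∈ F ↔ b ∈ F := by
  obtain ⟨e, he, rfl⟩ := h.exists_eq
  exact (F.mul_mem_cancel_right (hEF he)).symm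
theorem one_iff : Cg E 1 a ↔ a ∈ E := by simp [Cg]
theorem cancel_left (x : U) (h : Cg E (x * a) (x * b)) : Cg E a b := by
  simpa [Cg, mul_assoc] using h
end Cg

/-! ### good working groups -/

namespace Good
variable {t : Tr U} {Y : Subgroup U}

theorem EY (g : Good t Y) : t.E ≤ Y := g.EK.trans g.KY
theorem EJ (g : Good t Y) : t.E ≤ t.J := g.EK.trans g.KJ
theorem nmE (g : Good t Y) {y : U} (hy : y ∈ Y) : Nm t.E y := fun e he => by
  rw [mul_assoc, g.cen e he y hy]; simpa using he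
theorem nmEJ (g : Good t Y) {j : U} (hj : j ∈ t.J) : Nm t.E j := fun e he => by
  simpa using g.nE _ (t.J.inv_mem hj) e he
theorem conjK (g : Good t Y) {y k : U} (hy : y ∈ Y) (hk : k ∈ t.K) : y * k * y⁻¹ ∈ t.K := by
  have := t.K.mul_mem (g.comm y hy k (g.KY hk)) hk
  simpa [commutatorElement_def, mul_assoc] using this
theorem nmK (g : Good t Y) {y : U} (hy : y ∈ Y) : Nm t.K y := fun k hk => by
  simpa using g.conjK (Y.inv_mem hy) hk
theorem nmKJ (g : Good t Y) {j : U} (hj : j ∈ t.J) : Nm t.K j := fun e he => by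
  simpa using g.nK _ (t.J.inv_mem hj) e he
/-- `Y / K` is commutative -/
theorem swapK (g : Good t Y) {x y : U} (hx : x ∈ Y) (hy : y ∈ Y) : Cg t.K (x * y) (y * x) := by
  have := g.comm _ (Y.inv_mem hy) _ (Y.inv_mem hx)
  simpa [Cg, commutatorElement_def, mul_assoc] using this
/-- the centralizer of `K` is central modulo `E` -/
theorem swapE (g : Good t Y) {d y : U} (hd : d ∈ Y) (hc : ∀ k ∈ t.K, d * k = k * d)
    (hy : y ∈ Y) : Cg t.E (y * d) (d * y) := by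
  have h1 : ∀ k ∈ t.K, d⁻¹ * k = k * d⁻¹ := fun k hk => by
    rw [inv_mul_eq_iff_eq_mul, ← mul_assoc, hc k hk, mul_inv_cancel_right]
  have := g.DE _ (Y.inv_mem hd) h1 _ (Y.inv_mem hy)
  simpa [Cg, commutatorElement_def, mul_assoc] using this
theorem comm_left (g : Good t Y) {a b y : U} (hy : y ∈ Y) (h : Cg t.E a b) :
    ⁅a, y⁆ = ⁅b, y⁆ := by
  obtain ⟨e, he, rfl⟩ := h.exists_eq
  have : e * y * e⁻¹ = y := by rw [g.cen e he y hy]; simp
  simp only [commutatorElement_def]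
  conv_lhs => rw [← this]
  conv_rhs => rw [show a * e * y * (a * e)⁻¹ * y⁻¹ = a * (e * y * e⁻¹) * a⁻¹ * y⁻¹ by group]
  rw [this]
theorem comm_right (g : Good t Y) {a b y : U} (hy : y ∈ Y) (h : Cg t.E a b) :
    ⁅y, a⁆ = ⁅y, b⁆ := by
  rw [← commutatorElement_inv a y, ← commutatorElement_inv b y, g.comm_left hy h]
/-- a commutator in `E` can be pulled out on the left -/
theorem comm_mul_left (g : Good t Y) {x d y : U} (hx : x ∈ Y) (h : ⁅d, y⁆ ∈ t.E) :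
    ⁅x * d, y⁆ = ⁅d, y⁆ * ⁅x, y⁆ := by
  have h1 := g.cen _ h x hx
  calc ⁅x * d, y⁆ = (x * ⁅d, y⁆) * x⁻¹ * ⁅x, y⁆ := by simp only [commutatorElement_def]; group
    _ = _ := by rw [← h1]; group
theorem comm_mul_right (g : Good t Y) {x d y : U} (hy : y ∈ Y) (h : ⁅x, d⁆ ∈ t.E) :
    ⁅x, y * d⁆ = ⁅x, y⁆ * ⁅x, d⁆ := by
  have h1 := g.cen _ h y hy
  calc ⁅x, y * d⁆ = ⁅x, y⁆ * (y * ⁅x, d⁆) * y⁻¹ := by simp only [commutatorElement_def]; group
    _ = _ := by rw [← h1]; group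
theorem DE' (g : Good t Y) {d y : U} (hd : d ∈ Y) (hc : ∀ k ∈ t.K, d * k = k * d) (hy : y ∈ Y) :
    ⁅y, d⁆ ∈ t.E := by
  rw [← commutatorElement_inv]; exact t.E.inv_mem (g.DE d hd hc y hy)
theorem Ecomm (g : Good t Y) {a b : U} (ha : a ∈ t.E) (hb : b ∈ t.E) : a * b = b * a :=
  g.cen a ha b (g.EY hb)
end Good

theorem Decomp.good {t : Tr U} {Y X Y₁ : Subgroup U} (d : Decomp t Y X Y₁) (g : Good t Y) :
    Good t Y₁ :=
  ⟨g.KJ, g.EK, d.KY, d.nY, g.nK, g.nE, fun x hx y hy => g.comm x (d.YY hx) y (d.YY hy),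
    fun e he y hy => g.cen e he y (d.YY hy), fun c hc h y hy => g.DE c (d.YY hc) h y (d.YY hy)⟩

/-! ### links -/

namespace Link
variable {t t' t'' : Tr U} {ι κ : Equiv.Perm U}

theorem refl (t : Tr U) : Link t t 1 :=
  ⟨fun _ _ _ _ => rfl, fun _ => Iff.rfl, fun _ => Iff.rfl, fun _ => Iff.rfl⟩
theorem one (h : Link t t' ι) : ι 1 = 1 := by
  have := h.mul 1 t.J.one_mem 1 t.J.one_mem
  simpa using this
theorem inv (h : Link t t' ι) {x : U} (hx : x ∈ t.J) : ι x⁻¹ = (ι x)⁻¹ := by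
  rw [eq_inv_iff_mul_eq_one, ← h.mul _ (t.J.inv_mem hx) _ hx]; simpa using h.one
theorem conj (h : Link t t' ι) {x y : U} (hx : x ∈ t.J) (hy : y ∈ t.J) :
    ι (x * y * x⁻¹) = ι x * ι y * (ι x)⁻¹ := by
  rw [h.mul _ (t.J.mul_mem hx hy) _ (t.J.inv_mem hx), h.mul _ hx _ hy, h.inv hx]
theorem symm (h : Link t t' ι) : Link t' t ι.symm := by
  refine ⟨fun x hx y hy => ?_, fun x => ?_, fun x => ?_, fun x => ?_⟩
  · apply ι.injective
    rw [h.mul _ ((h.J _).2 (by simpa using hx)) _ ((h.J _).2 (by simpa using hy))]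
    simp
  · rw [h.J]; simp
  · rw [h.K]; simp
  · rw [h.E]; simp
theorem cgE (h : Link t t' ι) {a b : U} (ha : a ∈ t.J) (hb : b ∈ t.J) (hab : Cg t.E a b) :
    Cg t'.E (ι a) (ι b) := by
  unfold Cg at *
  rw [← h.inv ha, ← h.mul _ (t.J.inv_mem ha) _ hb]
  exact (h.E _).1 hab
end Link

/-! ### isomorphisms -/

namespace IsoOn
variable {J S : Subgroup U} {ι κ γ δ : U → U} {Z Z' Z'' : Subgroup U}

theorem maps (h : IsoOn J S ι Z Z' γ) {x : U} (hx : x ∈ Z) : γ x ∈ Z' := h.bij.mapsTo hx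
theorem inj (h : IsoOn J S ι Z Z' γ) {x y : U} (hx : x ∈ Z) (hy : y ∈ Z) (e : γ x = γ y) :
    x = y := h.bij.injOn hx hy e
theorem surj (h : IsoOn J S ι Z Z' γ) {y : U} (hy : y ∈ Z') : ∃ x ∈ Z, γ x = y :=
  h.bij.surjOn hy
theorem one (h : IsoOn J S ι Z Z' γ) : γ 1 = 1 := by
  have := h.mul 1 Z.one_mem 1 Z.one_mem
  simpa using this
theorem inv (h : IsoOn J S ι Z Z' γ) {x : U} (hx : x ∈ Z) : γ x⁻¹ = (γ x)⁻¹ := by
  rw [eq_inv_iff_mul_eq_one, ← h.mul _ (Z.inv_mem hx) _ hx]; simpa using h.one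
theorem conj (h : IsoOn J S ι Z Z' γ) {x y : U} (hx : x ∈ Z) (hy : y ∈ Z) :
    γ (x * y * x⁻¹) = γ x * γ y * (γ x)⁻¹ := by
  rw [h.mul _ (Z.mul_mem hx hy) _ (Z.inv_mem hx), h.mul _ hx _ hy, h.inv hx]
theorem comm (h : IsoOn J S ι Z Z' γ) {x y : U} (hx : x ∈ Z) (hy : y ∈ Z) :
    γ ⁅x, y⁆ = ⁅γ x, γ y⁆ := by
  simp only [commutatorElement_def]
  rw [h.mul _ (Z.mul_mem (Z.mul_mem hx hy) (Z.inv_mem hx)) _ (Z.inv_mem hy), h.conj hx hy,
    h.inv hy]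
theorem refl (J S Z : Subgroup U) : IsoOn J S id Z Z id :=
  ⟨Set.bijOn_id _, fun _ _ _ _ => rfl, fun _ _ _ _ => rfl, fun _ _ => rfl⟩
theorem mono (h : IsoOn J S ι Z Z' γ) {S' : Subgroup U} (hS : S' ≤ S) : IsoOn J S' ι Z Z' γ :=
  ⟨h.bij, h.mul, h.equi, fun s hs => h.fix s (hS hs)⟩
theorem congr (h : IsoOn J S ι Z Z' γ) (hJ : ∀ j ∈ J, ι j = κ j) (hS : ∀ s ∈ S, ι s = κ s) :
    IsoOn J S κ Z Z' γ :=
  ⟨h.bij, h.mul, fun j hj x hx => hJ j hj ▸ h.equi j hj x hx, fun s hs => hS s hs ▸ h.fix s hs⟩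
/-- an automorphism-like map followed by an isomorphism -/
theorem id_trans (h : IsoOn J S id Z Z' γ) (h' : IsoOn J S ι Z' Z'' δ) :
    IsoOn J S ι Z Z'' (δ ∘ γ) := by
  refine ⟨h'.bij.comp h.bij, fun x hx y hy => ?_, fun j hj x hx => ?_, fun s hs => ?_⟩
  · simp only [Function.comp, h.mul x hx y hy, h'.mul _ (h.maps hx) _ (h.maps hy)]
  · simp only [Function.comp, h.equi j hj x hx, id, h'.equi j hj _ (h.maps hx)]
  · simp only [Function.comp, h.fix s hs, id, h'.fix s hs]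
/-- general composition -/
theorem trans {J' S' : Subgroup U} (h : IsoOn J S ι Z Z' γ) (h' : IsoOn J' S' κ Z' Z'' δ)
    (hJ : ∀ j ∈ J, ι j ∈ J') (hS : ∀ s ∈ S, ι s ∈ S') : IsoOn J S (κ ∘ ι) Z Z'' (δ ∘ γ) := by
  refine ⟨h'.bij.comp h.bij, fun x hx y hy => ?_, fun j hj x hx => ?_, fun s hs => ?_⟩
  · simp only [Function.comp, h.mul x hx y hy, h'.mul _ (h.maps hx) _ (h.maps hy)]
  · simp only [Function.comp, h.equi j hj x hx, h'.equi _ (hJ j hj) _ (h.maps hx)]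
  · simp only [Function.comp, h.fix s hs, h'.fix _ (hS s hs)]
/-- the inverse isomorphism -/
theorem symm {J' S' : Subgroup U} (h : IsoOn J S ι Z Z' γ) (hn : ∀ j ∈ J, ∀ x ∈ Z, j * x * j⁻¹ ∈ Z)
    (hSZ : S ≤ Z) (hJ : ∀ j ∈ J', κ j ∈ J ∧ ι (κ j) = j) (hS : ∀ s ∈ S', κ s ∈ S ∧ ι (κ s) = s) :
    ∃ δ, IsoOn J' S' κ Z' Z δ ∧ (∀ x ∈ Z, δ (γ x) = x) ∧ ∀ y ∈ Z', γ (δ y) = y := by
  have hi := h.bij.invOn_invFunOn
  have hb : Set.BijOn (Function.invFunOn γ Z) Z' Z := h.bij.symm hi.symm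
  refine ⟨Function.invFunOn γ Z, ⟨hb, fun x hx y hy => ?_, fun j hj x hx => ?_, fun s hs => ?_⟩,
    fun x hx => hi.1 hx, fun y hy => hi.2 hy⟩
  · obtain ⟨a, ha, rfl⟩ := h.surj hx
    obtain ⟨b, hb, rfl⟩ := h.surj hy
    rw [← h.mul a ha b hb, hi.1 ha, hi.1 hb, hi.1 (Z.mul_mem ha hb)]
  · obtain ⟨a, ha, rfl⟩ := h.surj hx
    have := h.equi _ (hJ j hj).1 a ha
    rw [(hJ j hj).2] at this
    rw [← this, hi.1 ha, hi.1 (hn _ (hJ j hj).1 a ha)]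
  · have := h.fix _ (hS s hs).1
    rw [(hS s hs).2] at this
    conv_lhs => rw [← this]
    exact hi.1 (hSZ (hS s hs).1)
theorem card_eq (h : IsoOn J S ι Z Z' γ) : Nat.card Z = Nat.card Z' :=
  Nat.card_congr h.bij.equiv
theorem mem_img (h : IsoOn J S ι Z Z' γ) {X : Subgroup U} (hX : X ≤ Z) {y : U} :
    y ∈ img γ X ↔ ∃ x ∈ X, γ x = y := by
  refine ⟨fun hy => ?_, fun ⟨x, hx, e⟩ => subset_closure ⟨x, hx, e⟩⟩
  induction hy using closure_induction with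
  | mem y hy => exact hy
  | one => exact ⟨1, X.one_mem, h.one⟩
  | mul a b _ _ ha hb =>
    obtain ⟨x, hx, rfl⟩ := ha
    obtain ⟨x', hx', rfl⟩ := hb
    exact ⟨_, X.mul_mem hx hx', h.mul _ (hX hx) _ (hX hx')⟩
  | inv a _ ha =>
    obtain ⟨x, hx, rfl⟩ := ha
    exact ⟨_, X.inv_mem hx, h.inv (hX hx)⟩
theorem mem_img_iff (h : IsoOn J S ι Z Z' γ) {X : Subgroup U} (hX : X ≤ Z) {x : U} (hx : x ∈ Z) :
    γ x ∈ img γ X ↔ x ∈ X := by
  rw [h.mem_img hX]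
  exact ⟨fun ⟨y, hy, e⟩ => h.inj (hX hy) hx e ▸ hy, fun hx => ⟨x, hx, rfl⟩⟩
theorem img_le (h : IsoOn J S ι Z Z' γ) {X : Subgroup U} (hX : X ≤ Z) : img γ X ≤ Z' :=
  fun _ hy => by
    obtain ⟨x, hx, rfl⟩ := (h.mem_img hX).1 hy
    exact h.maps (hX hx)
theorem restrict (h : IsoOn J S ι Z Z' γ) {X : Subgroup U} (hX : X ≤ Z) :
    IsoOn J S ι X (img γ X) γ :=
  ⟨⟨fun x hx => (h.mem_img hX).2 ⟨x, hx, rfl⟩, h.bij.injOn.mono hX,
    fun _ hy => (h.mem_img hX).1 hy⟩, fun x hx y hy => h.mul x (hX hx) y (hX hy),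
    fun j hj x hx => h.equi j hj x (hX hx), h.fix⟩
theorem img_gen (h : IsoOn J S ι Z Z' γ) {l : List U} (hl : ∀ x ∈ l, x ∈ Z) :
    img γ (gen l) = gen (l.map γ) := by
  have hle : gen l ≤ Z := gen_le.2 hl
  apply le_antisymm
  · intro y hy
    obtain ⟨x, hx, rfl⟩ := (h.mem_img hle).1 hy
    clear hy
    induction hx using closure_induction with
    | mem x hx => exact mem_gen (List.mem_map_of_mem hx)
    | one => rw [h.one]; exact Subgroup.one_mem _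
    | mul a b ha hb iha ihb => rw [h.mul a (hle ha) b (hle hb)]; exact Subgroup.mul_mem _ iha ihb
    | inv a ha iha => rw [h.inv (hle ha)]; exact Subgroup.inv_mem _ iha
  · refine gen_le.2 fun y hy => ?_
    obtain ⟨x, hx, rfl⟩ := List.mem_map.1 hy
    exact (h.mem_img hle).2 ⟨x, mem_gen hx, rfl⟩
end IsoOn

/-- decompositions are transported by isomorphisms -/
theorem Decomp.img {t t' : Tr U} {ι : Equiv.Perm U} {Y Y' X Y₁ : Subgroup U} {γ : U → U}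
    (d : Decomp t Y X Y₁) (hl : Link t t' ι) (g : Good t Y) (h : IsoOn t.J t.K ι Y Y' γ) :
    Decomp t' Y' (img γ X) (img γ Y₁) := by
  have hE : ∀ e ∈ t'.E, ∃ x ∈ t.E, γ x = e := fun e he =>
    ⟨ι.symm e, (hl.symm.E e).1 he, by rw [h.fix _ (g.EK ((hl.symm.E e).1 he))]; simp⟩
  have hK : ∀ e ∈ t'.K, ∃ x ∈ t.K, γ x = e := fun e he =>
    ⟨ι.symm e, (hl.symm.K e).1 he, by rw [h.fix _ ((hl.symm.K e).1 he)]; simp⟩
  refine ⟨fun e he => ?_, h.img_le d.XY, fun k hk => ?_, h.img_le d.YY, fun x hx hx' => ?_,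
    fun y hy => ?_, fun a' ha' x' hx' => ?_, fun j hj x' hx' => ?_, fun j hj x' hx' => ?_⟩
  · obtain ⟨x, hx, rfl⟩ := hE e he
    exact (h.mem_img d.XY).2 ⟨x, d.EX hx, rfl⟩
  · obtain ⟨x, hx, rfl⟩ := hK k hk
    exact (h.mem_img d.YY).2 ⟨x, d.KY hx, rfl⟩
  · obtain ⟨a, ha, rfl⟩ := (h.mem_img d.XY).1 hx
    have := d.inter a ha ((h.mem_img_iff d.YY (d.XY ha)).1 hx')
    rw [h.fix a (g.EK this)]
    exact (hl.E a).1 this
  · obtain ⟨z, hz, rfl⟩ := h.surj hy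
    obtain ⟨a, ha, x, hx, rfl⟩ := d.prod z hz
    exact ⟨_, (h.mem_img d.YY).2 ⟨a, ha, rfl⟩, _, (h.mem_img d.XY).2 ⟨x, hx, rfl⟩,
      h.mul a (d.YY ha) x (d.XY hx)⟩
  · obtain ⟨a, ha, rfl⟩ := (h.mem_img d.YY).1 ha'
    obtain ⟨x, hx, rfl⟩ := (h.mem_img d.XY).1 hx'
    rw [← h.mul a (d.YY ha) x (d.XY hx), ← h.mul x (d.XY hx) a (d.YY ha), d.comm a ha x hx]
  · obtain ⟨x, hx, rfl⟩ := (h.mem_img d.XY).1 hx'
    have hj' := (hl.symm.J j).1 hj
    have := h.equi _ hj' x (d.XY hx)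
    rw [Equiv.apply_symm_apply] at this
    exact (h.mem_img d.XY).2 ⟨_, d.nX _ hj' x hx, this⟩
  · obtain ⟨x, hx, rfl⟩ := (h.mem_img d.YY).1 hx'
    have hj' := (hl.symm.J j).1 hj
    have := h.equi _ hj' x (d.YY hx)
    rw [Equiv.apply_symm_apply] at this
    exact (h.mem_img d.YY).2 ⟨_, d.nY _ hj' x hx, this⟩

/-- the orders in a central product -/
theorem Decomp.card {t : Tr U} {Y X Y₁ : Subgroup U} (d : Decomp t Y X Y₁) (g : Good t Y) :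
    Nat.card Y * Nat.card t.E = Nat.card Y₁ * Nat.card X := by
  classical
  choose! a ha x hx hy using d.prod
  have hE1 : t.E ≤ Y₁ := g.EK.trans d.KY
  rw [← Nat.card_prod, ← Nat.card_prod]
  refine Nat.card_congr (Equiv.ofBijective (fun p : Y × t.E =>
    ((⟨a p.1 * p.2, Y₁.mul_mem (ha _ p.1.2) (hE1 p.2.2)⟩ : Y₁),
      (⟨(p.2 : U)⁻¹ * x p.1, X.mul_mem (X.inv_mem (d.EX p.2.2)) (hx _ p.1.2)⟩ : X))) ⟨?_, ?_⟩)
  · rintro ⟨y, e⟩ ⟨y', e'⟩ h
    simp only [Prod.mk.injEq, Subtype.mk.injEq] at h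
    have h1 : (y : U) = y' := by
      rw [hy y y.2, hy y' y'.2]
      calc a y * x y = (a y * e) * ((e : U)⁻¹ * x y) := by group
        _ = (a y' * e') * ((e' : U)⁻¹ * x y') := by rw [h.1, h.2]
        _ = _ := by group
    have h2 : (e : U) = e' := by
      have := h.1
      rw [h1] at this
      exact mul_left_cancel this
    exact Prod.ext (Subtype.ext h1) (Subtype.ext h2)
  · rintro ⟨b, z⟩
    have hbz : (b : U) * z ∈ Y := Y.mul_mem (d.YY b.2) (d.XY z.2)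
    have e1 := hy _ hbz
    have e2 : (a (b * z))⁻¹ * b = x (b * z) * (z : U)⁻¹ := by
      rw [inv_mul_eq_iff_eq_mul, ← mul_assoc, ← e1]; simp
    have hE : (a (b * z))⁻¹ * b ∈ t.E :=
      d.inter _ (e2 ▸ X.mul_mem (hx _ hbz) (X.inv_mem z.2))
        (Y₁.mul_mem (Y₁.inv_mem (ha _ hbz)) b.2)
    refine ⟨(⟨_, hbz⟩, ⟨_, hE⟩), Prod.ext (Subtype.ext ?_) (Subtype.ext ?_)⟩
    · simp
    · simp only [e2]; simp

/-- a subgroup of the product that is the graph of an isomorphism -/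
theorem exists_of_graph (V : Subgroup (U × U)) (Z Z' : Subgroup U)
    (h1 : ∀ v ∈ V, v.1 ∈ Z ∧ v.2 ∈ Z') (h2 : ∀ x ∈ Z, ∃ v ∈ V, v.1 = x)
    (h3 : ∀ y ∈ Z', ∃ v ∈ V, v.2 = y) (h4 : ∀ v ∈ V, v.1 = 1 ↔ v.2 = 1) :
    ∃ γ : U → U, Set.BijOn γ Z Z' ∧ (∀ x ∈ Z, ∀ y ∈ Z, γ (x * y) = γ x * γ y) ∧
      (∀ v ∈ V, γ v.1 = v.2) ∧ ∀ x ∈ Z, (x, γ x) ∈ V := by
  classical
  choose! w hw hw1 using h2
  have key : ∀ v ∈ V, ∀ v' ∈ V, v.1 = v'.1 ↔ v.2 = v'.2 := fun v hv v' hv' => by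
    have := h4 _ (V.mul_mem (V.inv_mem hv) hv')
    simpa [inv_mul_eq_one] using this
  have hγ : ∀ v ∈ V, (w v.1).2 = v.2 := fun v hv =>
    (key _ (hw _ (h1 v hv).1) v hv).1 (hw1 _ (h1 v hv).1)
  have hx : ∀ x ∈ Z, (x, (w x).2) ∈ V := fun x hx => by
    have := hw x hx
    rwa [show w x = (x, (w x).2) from Prod.ext (hw1 x hx) rfl] at this
  refine ⟨fun x => (w x).2, ⟨fun x hx' => (h1 _ (hw x hx')).2, fun x hx' y hy e => ?_,
    fun y hy => ?_⟩, fun x hx' y hy => ?_, hγ, hx⟩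
  · exact (key _ (hx x hx') _ (hx y hy)).2 e
  · obtain ⟨v, hv, rfl⟩ := h3 y hy
    exact ⟨v.1, (h1 v hv).1, hγ v hv⟩
  · exact hγ _ (V.mul_mem (hx x hx') (hx y hy))

end Pool.Agent.P.MP_f1a348_lc.GI
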