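import Pool.Agent.P.MP_f1a348_lc.GI.MDefs

/-!
Groups with boundedly finite conjugacy classes: the derived group of a large normal subgroup lies
in a subgroup with few generators.
-/

namespace Pool.Agent.P.MP_f1a348_lc.GI

open Subgroup
open scoped commutatorElement

namespace BfcA

variable {G : Type} [Group G]

theorem normalCore_index [Finite G] (H : Subgroup G) :
    H.normalCore.index ≤ H.index.factorial := by
  refine Nat.le_of_dvd (Nat.factorial_pos _) ?_
  rw [normalCore_eq_ker, index_ker, index_eq_card, ← Nat.card_perm]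
  exact card_subgroup_dvd_card (MulAction.toPermHom G (G ⧸ H)).range

theorem exists_cent (m : ℕ) (l : List G) (h : ∀ x ∈ l, (centralizer {x}).index ≤ m) :
    ∃ D : Subgroup G, D.index ≤ m ^ l.length ∧ ∀ d ∈ D, ∀ x ∈ l, x * d = d * x := by
  induction l with
  | nil => exact ⟨⊤, by simp, by simp⟩
  | cons a l ih =>
    obtain ⟨D, hD, hD'⟩ := ih (fun x hx => h x (List.mem_cons_of_mem _ hx))
    refine ⟨D ⊓ centralizer {a}, ?_, fun d hd x hx => ?_⟩
    · rw [List.length_cons, pow_succ]
      exact index_inf_le.trans (Nat.mul_le_mul hD (h a List.mem_cons_self))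
    · rcases List.mem_cons.1 hx with rfl | hx
      · exact mem_centralizer_iff.1 hd.2 x rfl
      · exact hD' d hd.1 x hx

open Classical in
/-- The class of `x` under conjugation by `H`. -/
noncomputable def cl [Fintype G] (H : Subgroup G) (x : G) : Finset G :=
  (Finset.univ.filter (· ∈ H)).image (fun h => h * x * h⁻¹)

theorem mem_cl [Fintype G] {H : Subgroup G} {x y : G} :
    y ∈ cl H x ↔ ∃ h ∈ H, h * x * h⁻¹ = y := by
  simp [cl]

theorem card_cl [Fintype G] (H : Subgroup G) (x : G) :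
    (cl H x).card ≤ (centralizer {x}).index := by
  classical
  have := Fintype.ofFinite (G ⧸ centralizer {x})
  have h1 : cl H x ⊆ (Finset.univ : Finset (G ⧸ centralizer {x})).image
      (fun q => q.out * x * q.out⁻¹) := by
    intro y hy
    obtain ⟨h, -, rfl⟩ := mem_cl.1 hy
    obtain ⟨z, hz⟩ := QuotientGroup.mk_out_eq_mul (centralizer {x}) h
    refine Finset.mem_image.2 ⟨(h : G ⧸ centralizer {x}), Finset.mem_univ _, ?_⟩
    have h2 : x * z = z * x := mem_centralizer_iff.1 z.2 x rfl
    rw [hz]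
    calc h * z * x * (h * z)⁻¹ = h * (z * x) * (z : G)⁻¹ * h⁻¹ := by group
      _ = h * x * h⁻¹ := by rw [← h2]; group
  calc (cl H x).card ≤ _ := Finset.card_le_card h1
    _ ≤ (Finset.univ : Finset (G ⧸ centralizer {x})).card := Finset.card_image_le
    _ = (centralizer {x}).index := by
      rw [Finset.card_univ, index_eq_card, Nat.card_eq_fintype_card]

end BfcA

open BfcA in
theorem bfc : S_BFC := by
  classical
  intro m
  refine ⟨max (m + 1) (m * m ^ (m + 1)).factorial, fun G _ _ H _ hHi hx => ?_⟩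
  have := Fintype.ofFinite G
  have hm : 1 ≤ m := (Nat.pos_of_ne_zero index_ne_zero_of_finite).trans_le hHi
  obtain ⟨a, ha, hmax⟩ := Finset.exists_max_image (Finset.univ.filter (· ∈ H))
    (fun x => (cl H x).card) ⟨1, by simp⟩
  have haH : a ∈ H := by simpa using ha
  have hb : ∀ y, ∃ b, y ∈ cl H a → b ∈ H ∧ b * a * b⁻¹ = y := by
    intro y
    by_cases hy : y ∈ cl H a
    · obtain ⟨b, hb, hb'⟩ := mem_cl.1 hy
      exact ⟨b, fun _ => ⟨hb, hb'⟩⟩
    · exact ⟨1, fun h => absurd h hy⟩
  choose b hb using hb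
  set l : List G := a :: (cl H a).toList.map b with hl
  have hlen : l.length ≤ m + 1 := by
    rw [hl, List.length_cons, List.length_map, Finset.length_toList]
    exact Nat.succ_le_succ ((card_cl H a).trans (hx a haH))
  have hal : a ∈ l := List.mem_cons_self
  have hbl : ∀ y ∈ cl H a, b y ∈ l := fun y hy =>
    List.mem_cons_of_mem _ (List.mem_map.2 ⟨y, Finset.mem_toList.2 hy, rfl⟩)
  have hlH : ∀ x ∈ l, x ∈ H := by
    intro x hxl
    rcases List.mem_cons.1 hxl with rfl | hxl
    · exact haH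
    · obtain ⟨y, hy, rfl⟩ := List.mem_map.1 hxl
      exact (hb y (Finset.mem_toList.1 hy)).1
  obtain ⟨D, hD, hD'⟩ := exists_cent m l (fun x hxl => hx x (hlH x hxl))
  have hidx : (H ⊓ D).index ≤ m * m ^ (m + 1) :=
    index_inf_le.trans (Nat.mul_le_mul hHi (hD.trans (Nat.pow_le_pow_right hm hlen)))
  have key : ∀ c ∈ H ⊓ D, ∀ x ∈ H ⊓ D, c⁻¹ * x * c * x⁻¹ ∈ gen l := by
    intro c hc x hxx
    have hsub : (cl H a).image (fun y => c * y) ⊆ cl H (c * a) := by
      intro z hz
      obtain ⟨y, hy, rfl⟩ := Finset.mem_image.1 hz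
      refine mem_cl.2 ⟨b y, (hb y hy).1, ?_⟩
      have h1 := hD' c hc.2 (b y) (hbl y hy)
      calc b y * (c * a) * (b y)⁻¹ = (b y * c) * a * (b y)⁻¹ := by group
        _ = c * (b y * a * (b y)⁻¹) := by rw [h1]; group
        _ = c * y := by rw [(hb y hy).2]
    have hcard : (cl H (c * a)).card ≤ ((cl H a).image (fun y => c * y)).card := by
      rw [Finset.card_image_of_injective _ (mul_right_injective c)]
      exact hmax (c * a) (by simpa using H.mul_mem hc.1 haH)
    have heq := Finset.eq_of_subset_of_card_le hsub hcard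
    have hmem : x * (c * a) * x⁻¹ ∈ cl H (c * a) := mem_cl.2 ⟨x, hxx.1, rfl⟩
    rw [← heq] at hmem
    obtain ⟨y, hy, hy'⟩ := Finset.mem_image.1 hmem
    have h2 := hD' x hxx.2 a hal
    have h3 : c⁻¹ * x * c * x⁻¹ = b y * a * (b y)⁻¹ * a⁻¹ := by
      rw [(hb y hy).2]
      have h4 : y = c⁻¹ * (x * (c * a) * x⁻¹) := by rw [← hy']; group
      have h5 : a * x⁻¹ * a⁻¹ = x⁻¹ := by
        calc a * x⁻¹ * a⁻¹ = x⁻¹ * (x * a) * x⁻¹ * a⁻¹ := by group
          _ = x⁻¹ := by rw [← h2]; group
      calc c⁻¹ * x * c * x⁻¹ = c⁻¹ * x * c * (a * x⁻¹ * a⁻¹) := by rw [h5]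
        _ = c⁻¹ * (x * (c * a) * x⁻¹) * a⁻¹ := by group
        _ = y * a⁻¹ := by rw [← h4]
    have g1 : a ∈ gen l := subset_closure hal
    have g2 : b y ∈ gen l := subset_closure (hbl y hy)
    rw [h3]
    exact mul_mem (mul_mem (mul_mem g2 g1) (inv_mem g2)) (inv_mem g1)
  refine ⟨l, (H ⊓ D).normalCore, hlen.trans (le_max_left _ _), inferInstance,
    ((normalCore_index _).trans (Nat.factorial_le hidx)).trans (le_max_right _ _), ?_⟩
  rw [commutator_le]
  intro g hg h hh
  have := key g⁻¹ (inv_mem (normalCore_le _ hg)) h (normalCore_le _ hh)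
  rwa [inv_inv, ← commutatorElement_def] at this

end Pool.Agent.P.MP_f1a348_lc.GI
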