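import Pool.Agent.P.MP_f1a348_lc.GI.ABasic

/-!
Group isomorphism in time `N ^ o(log N)`: the loops that remove duplicate summands.
-/

namespace Pool.Agent.P.MP_f1a348_lc.GI

namespace LoopA

variable {U : Type} [Group U] [DecidableEq U] {pad ub : List Unit} {tl tl' : TL U} {t t' : Tr U}
  {ι : FP U} {N : ℕ}

theorem stepG_none {Y : List U} (h : findDup pad ub tl Y = none) : stepG pad ub tl Y = Y := by
  simp [stepG, h]

theorem stepG_some {Y : List U} {c : List U × List U} (h : findDup pad ub tl Y = some c) :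
    stepG pad ub tl Y = c.2 := by
  simp [stepG, h]

theorem stepJ_fst (s : List U × List U × Bool) :
    (stepJ pad ub tl tl' ι s).1 = stepG pad ub tl s.1 := by
  unfold stepJ stepG
  cases findDup pad ub tl s.1 with
  | none => rfl
  | some c =>
    simp only [Option.elim_some, Option.map_some, Option.getD_some]
    cases twin pad ub tl tl' ι (clo s.1 (tl.2.2 ++ c.1)) c.1 s.2.1 <;> rfl

theorem iterJ_fst (i : ℕ) (s : List U × List U × Bool) :
    ((stepJ pad ub tl tl' ι)^[i] s).1 = (stepG pad ub tl)^[i] s.1 := by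
  induction i with
  | zero => rfl
  | succ i ih => rw [Function.iterate_succ_apply', Function.iterate_succ_apply', stepJ_fst, ih]

theorem invG (hD : S_DUP) {Y : List U} {y : Subgroup U} (ht : RepT tl t) (hY : Rep Y y)
    (g : Good t y) (hN : Y.length ≤ N) (hB : Big N ub.length pad) (i : ℕ) :
    ∃ z ≤ y, Rep ((stepG pad ub tl)^[i] Y) z ∧ Good t z ∧
      (findDup pad ub tl ((stepG pad ub tl)^[i] Y) = none ∨
        ((stepG pad ub tl)^[i] Y).length + i ≤ Y.length) := by
  induction i with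
  | zero => exact ⟨y, le_rfl, hY, g, Or.inr le_rfl⟩
  | succ i ih =>
    obtain ⟨z, hz, hr, gz, h⟩ := ih
    rw [Function.iterate_succ_apply']
    generalize (stepG pad ub tl)^[i] Y = Z at hr h
    cases hf : findDup pad ub tl Z with
    | none =>
      rw [stepG_none hf]
      exact ⟨z, hz, hr, gz, Or.inl hf⟩
    | some c =>
      rw [stepG_some hf]
      obtain ⟨x, y₁, x₂, y₂, γ, -, -, -, h1, h2, -, d, -, -⟩ :=
        (hD U pad ub tl t Z z N ht hr gz ((hr.length_le hY hz).trans hN) hB).2 c hf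
      have h3 := h.resolve_left (by rw [hf]; simp)
      exact ⟨y₁, d.YY.trans hz, h1, d.good gz, Or.inr (by omega)⟩

theorem invJ (hP : S_P1) (hG : S_GLUE1) (hD : S_DUP) (hT : S_TWIN) {Y Y' : List U}
    {y y' : Subgroup U} (ht : RepT tl t) (hY : Rep Y y) (g : Good t y) (hN : Y.length ≤ N)
    (hB : Big N ub.length pad) (ht' : RepT tl' t') (hY' : Rep Y' y') (g' : Good t' y')
    (hl : Link t t' ι.perm) (hN' : Y'.length ≤ N) (i : ℕ) :
    ∃ z ≤ y, ∃ z' ≤ y', Rep ((stepJ pad ub tl tl' ι)^[i] (Y, Y', true)).1 z ∧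
      Rep ((stepJ pad ub tl tl' ι)^[i] (Y, Y', true)).2.1 z' ∧ Good t z ∧ Good t' z' ∧
      ((∃ γ, IsoOn t.J t.K ι.app y y' γ) ↔
        ((stepJ pad ub tl tl' ι)^[i] (Y, Y', true)).2.2 = true ∧
          ∃ γ, IsoOn t.J t.K ι.app z z' γ) := by
  induction i with
  | zero => exact ⟨y, le_rfl, y', le_rfl, hY, hY', g, g', by simp⟩
  | succ i ih =>
    obtain ⟨z, hz, z', hz', hr, hr', gz, gz', h⟩ := ih
    rw [Function.iterate_succ_apply']
    generalize (stepJ pad ub tl tl' ι)^[i] (Y, Y', true) = s at hr hr' h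
    cases hf : findDup pad ub tl s.1 with
    | none =>
      have e : stepJ pad ub tl tl' ι s = s := by simp [stepJ, hf]
      rw [e]
      exact ⟨z, hz, z', hz', hr, hr', gz, gz', h⟩
    | some c =>
      obtain ⟨x, y₁, x₂, y₂, γ, h0, hx, hc, h1, -, hcard, d, d₂, hγ⟩ :=
        (hD U pad ub tl t s.1 z N ht hr gz ((hr.length_le hY hz).trans hN) hB).2 c hf
      have hTw := hT U pad ub tl tl' t t' ι _ c.1 s.2.1 x z' N ht ht' hl h0 hr' gz'
        ((hr'.length_le hY' hz').trans hN') hB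
      cases hw : twin pad ub tl tl' ι (clo s.1 (tl.2.2 ++ c.1)) c.1 s.2.1 with
      | none =>
        have e : stepJ pad ub tl tl' ι s = (c.2, s.2.1, false) := by simp [stepJ, hf, hw]
        rw [e]
        refine ⟨y₁, d.YY.trans hz, z', hz', h1, hr', d.good gz, gz', fun hI => ?_,
          fun hI => by simp at hI⟩
        exact absurd hw (hTw.2 z y₁ x₂ y₂ gz hx hc hcard d d₂ ⟨γ, hγ⟩ (h.1 hI).2)
      | some Z =>
        have e : stepJ pad ub tl tl' ι s = (c.2, Z, s.2.2) := by simp [stepJ, hf, hw]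
        rw [e]
        obtain ⟨x', y₁', x₂', y₂', hZ, d', d₂', hi, hi₂⟩ := hTw.1 Z hw
        refine ⟨y₁, d.YY.trans hz, y₁', d'.YY.trans hz', h1, hZ, d.good gz, d'.good gz', ?_⟩
        rw [h]
        refine and_congr_right fun _ => ⟨fun hI => ?_, fun hI => ?_⟩
        · have := ht.J.finite
          have := hr.finite
          have := hr'.finite
          exact hP U t t' ι.perm z z' x x' y₁ y₁' x₂ x₂' y₂ y₂' hl gz gz' d d₂ d' d₂' ⟨γ, hγ⟩ hi
            hi₂ hI
        · exact hG U t t' ι.perm z z' x x' y₁ y₁' hl gz gz' d d' hi hI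

end LoopA

open LoopA

theorem loop : S_P1 → S_GLUE1 → S_DUP → S_TWIN → S_LOOP := by
  intro hP hG hD hT U _ _ pad ub tl t Y y N ht hY g hN hB
  obtain ⟨z, hz, hr, gz, h⟩ := invG hD ht hY g hN hB Y.length
  have hnone : findDup pad ub tl ((stepG pad ub tl)^[Y.length] Y) = none := by
    refine h.resolve_right fun hc => ?_
    have := hr.length_pos
    omega
  refine ⟨z, hz, hr, gz,
    (hD U pad ub tl t _ z N ht hr gz ((hr.length_le hY hz).trans hN) hB).1 hnone, ?_⟩
  intro tl' t' ι Y' y' ht' hY' g' hl hN'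
  have e : (finalJ pad ub tl tl' ι Y Y').1 = finalG pad ub tl Y := iterJ_fst _ _
  refine ⟨e, ?_⟩
  obtain ⟨w, -, w', hw', h1, h1', -, gw', hI⟩ :=
    invJ hP hG hD hT ht hY g hN hB ht' hY' g' hl hN' Y.length
  have h2 : Rep (finalG pad ub tl Y) w := e ▸ h1
  obtain rfl : w = z := h2.unique hr
  exact ⟨w', hw', h1', gw', hI⟩

end Pool.Agent.P.MP_f1a348_lc.GI
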