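import Mathlib

/-!
Group isomorphism in time `N ^ o(log N)`: the group theoretic notions and the exact statements
`S_*` of the group theoretic steps.
-/

namespace Pool.Agent.P.MP_f1a348_lc.GI

open Subgroup
open scoped commutatorElement

section defs
variable {U : Type} [Group U]

/-- the subgroup generated by a list -/
def gen (l : List U) : Subgroup U := closure {x | x ∈ l}

/-- the pinned data: the pinned group `J`, its part `K` inside the working group and the small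
central subgroup `E` -/
structure Tr (U : Type) [Group U] where
  J : Subgroup U
  K : Subgroup U
  E : Subgroup U

/-- the standing hypotheses on a working group `Y` -/
structure Good (t : Tr U) (Y : Subgroup U) : Prop where
  KJ : t.K ≤ t.J
  EK : t.E ≤ t.K
  KY : t.K ≤ Y
  nY : ∀ j ∈ t.J, ∀ y ∈ Y, j * y * j⁻¹ ∈ Y
  nK : ∀ j ∈ t.J, ∀ k ∈ t.K, j * k * j⁻¹ ∈ t.K
  nE : ∀ j ∈ t.J, ∀ e ∈ t.E, j * e * j⁻¹ ∈ t.E
  comm : ∀ x ∈ Y, ∀ y ∈ Y, ⁅x, y⁆ ∈ t.K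
  cen : ∀ e ∈ t.E, ∀ y ∈ Y, e * y = y * e
  DE : ∀ d ∈ Y, (∀ k ∈ t.K, d * k = k * d) → ∀ y ∈ Y, ⁅d, y⁆ ∈ t.E

/-- `ι` is an isomorphism of the pinned data `t` onto `t'` -/
structure Link (t t' : Tr U) (ι : Equiv.Perm U) : Prop where
  mul : ∀ x ∈ t.J, ∀ y ∈ t.J, ι (x * y) = ι x * ι y
  J : ∀ x, x ∈ t.J ↔ ι x ∈ t'.J
  K : ∀ x, x ∈ t.K ↔ ι x ∈ t'.K
  E : ∀ x, x ∈ t.E ↔ ι x ∈ t'.E

/-- `γ` is an isomorphism of `Z` onto `Z'` that commutes with the action of `J` (through `ι`)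
and agrees with `ι` on `S` -/
structure IsoOn (J S : Subgroup U) (ι : U → U) (Z Z' : Subgroup U) (γ : U → U) : Prop where
  bij : Set.BijOn γ Z Z'
  mul : ∀ x ∈ Z, ∀ y ∈ Z, γ (x * y) = γ x * γ y
  equi : ∀ j ∈ J, ∀ x ∈ Z, γ (j * x * j⁻¹) = ι j * γ x * (ι j)⁻¹
  fix : ∀ s ∈ S, γ s = ι s

/-- the image of a subgroup under a map that is multiplicative on it -/
def img (γ : U → U) (Z : Subgroup U) : Subgroup U := closure (γ '' Z)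

/-- `Y` is the central product over `E` of `Y₁` (which contains `K`) and the summand `X` -/
structure Decomp (t : Tr U) (Y X Y₁ : Subgroup U) : Prop where
  EX : t.E ≤ X
  XY : X ≤ Y
  KY : t.K ≤ Y₁
  YY : Y₁ ≤ Y
  inter : ∀ x ∈ X, x ∈ Y₁ → x ∈ t.E
  prod : ∀ y ∈ Y, ∃ a ∈ Y₁, ∃ x ∈ X, y = a * x
  comm : ∀ a ∈ Y₁, ∀ x ∈ X, a * x = x * a
  nX : ∀ j ∈ t.J, ∀ x ∈ X, j * x * j⁻¹ ∈ X
  nY : ∀ j ∈ t.J, ∀ a ∈ Y₁, j * a * j⁻¹ ∈ Y₁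

/-- `Y` has a nontrivial summand of index at most `b` over `E` that occurs twice -/
def Dup (t : Tr U) (b : ℕ) (Y : Subgroup U) : Prop :=
  ∃ (X Y₁ X₂ Y₂ : Subgroup U) (γ : U → U), Decomp t Y X Y₁ ∧ Decomp t Y₁ X₂ Y₂ ∧ ¬ X ≤ t.E ∧
    Nat.card X ≤ b * Nat.card t.E ∧ IsoOn t.J t.E id X X₂ γ

/-- quasi-homomorphisms: homomorphisms modulo `E` that respect the action on `K` -/
structure QHom (t t' : Tr U) (ι : U → U) (Y Y' : Subgroup U) (φ : U → U) : Prop where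
  maps : ∀ x ∈ Y, φ x ∈ Y'
  act : ∀ x ∈ Y, ∀ k ∈ t.K, ι (x * k * x⁻¹) = φ x * ι k * (φ x)⁻¹
  mul : ∀ x ∈ Y, ∀ y ∈ Y, (φ (x * y))⁻¹ * φ x * φ y ∈ t'.E
  equi : ∀ j ∈ t.J, ∀ x ∈ Y, (φ (j * x * j⁻¹))⁻¹ * (ι j * φ x * (ι j)⁻¹) ∈ t'.E
  fix : ∀ k ∈ t.K, (φ k)⁻¹ * ι k ∈ t'.E

/-- the homogeneous version: homomorphisms modulo `E` into the centralizer of `K` -/
structure LHom (t t' : Tr U) (ι : U → U) (Y Y' : Subgroup U) (f : U → U) : Prop where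
  maps : ∀ x ∈ Y, f x ∈ Y'
  cen : ∀ x ∈ Y, ∀ k ∈ t'.K, f x * k = k * f x
  mul : ∀ x ∈ Y, ∀ y ∈ Y, (f (x * y))⁻¹ * f x * f y ∈ t'.E
  equi : ∀ j ∈ t.J, ∀ x ∈ Y, (f (j * x * j⁻¹))⁻¹ * (ι j * f x * (ι j)⁻¹) ∈ t'.E
  fix : ∀ k ∈ t.K, f k ∈ t'.E

/-- adjoint pairs of quasi-homomorphisms respecting the pins `Q` modulo `E` -/
structure Adj (t t' : Tr U) (ι : Equiv.Perm U) (Y Y' : Subgroup U) (Q : List (U × U))
    (φ θ : U → U) : Prop where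
  l : QHom t t' ι Y Y' φ
  l' : QHom t' t ι.symm Y' Y θ
  pin : ∀ q ∈ Q, (φ q.1)⁻¹ * q.2 ∈ t'.E ∧ (θ q.2)⁻¹ * q.1 ∈ t.E
  adj : ∀ x ∈ Y, ∀ y ∈ Y', ι ⁅x, θ y⁆ = ⁅φ x, y⁆

/-- the homogeneous version of `Adj` -/
structure HAdj (t t' : Tr U) (ι : Equiv.Perm U) (Y Y' : Subgroup U) (Q : List (U × U))
    (f g : U → U) : Prop where
  l : LHom t t' ι Y Y' f
  l' : LHom t' t ι.symm Y' Y g
  pin : ∀ q ∈ Q, f q.1 ∈ t'.E ∧ g q.2 ∈ t.E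
  adj : ∀ x ∈ Y, ∀ y ∈ Y', ι ⁅x, g y⁆ = ⁅f x, y⁆

/-- the ring with involution of adjoint pairs of `Y` killing the pins `P` -/
structure RR (t : Tr U) (Y : Subgroup U) (P : List U) (r r' : U → U) : Prop where
  l : LHom t t id Y Y r
  l' : LHom t t id Y Y r'
  pin : ∀ x ∈ P, r x ∈ t.E ∧ r' x ∈ t.E
  adj : ∀ x ∈ Y, ∀ y ∈ Y, ⁅x, r' y⁆ = ⁅r x, y⁆

/-- the descending filtration of `Y` defined by the ring -/
def Filt (t : Tr U) (Y : Subgroup U) (P : List U) : ℕ → Subgroup U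
  | 0 => Y
  | i + 1 => t.K ⊔ closure {z | ∃ r r', RR t Y P r r' ∧ ∃ x ∈ Filt t Y P i, z = r x}

/-- the ring is nilpotent -/
def Nil (t : Tr U) (Y : Subgroup U) (P : List U) : Prop := ∃ m, Filt t Y P m ≤ t.K

/-- commutator preserving quasi-automorphisms -/
structure CP (t : Tr U) (Y : Subgroup U) (u : U → U) : Prop where
  q : QHom t t id Y Y u
  comm : ∀ x ∈ Y, ∀ y ∈ Y, ⁅u x, u y⁆ = ⁅x, y⁆
  surj : ∀ y ∈ Y, ∃ x ∈ Y, (u x)⁻¹ * y ∈ t.K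
  inj : ∀ x ∈ Y, u x ∈ t.K → x ∈ t.K

end defs

/-! ### The structure theorem -/

/-- saturation -/
def S_SAT : Prop :=
  ∀ (G : Type) [Group G] [Finite G] (M : ℕ), 2 ≤ M → ∃ I : List G,
    I.length ≤ Nat.log M (Nat.card G) ∧
    ∀ Y : List G, Nat.card (gen (I ++ Y)) ≤ M ^ Y.length * Nat.card (gen I)

/-- a subgroup close to all its overgroups is close to a normal subgroup -/
def S_SCHL : Prop :=
  ∀ M : ℕ, ∃ c : ℕ, ∀ (G : Type) [Group G] [Finite G] (J : Subgroup G),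
    (∀ g : G, Nat.card (J ⊔ zpowers g : Subgroup G) ≤ M * Nat.card J) →
    ∃ N : Subgroup G, N.Normal ∧ Nat.card J ≤ c * Nat.card (J ⊓ N : Subgroup G) ∧
      Nat.card N ≤ c * Nat.card (J ⊓ N : Subgroup G)

/-- small subgroups force a large commuting probability -/
def S_REW : Prop :=
  ∀ (t : ℕ) (G : Type) [Group G] [Finite G],
    (∀ y : Fin t → G, Nat.card (closure (Set.range y)) < t.factorial) →
    Nat.card G ^ 2 ≤ t.factorial ^ 2 * Nat.card {p : G × G // Commute p.1 p.2}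

/-- a large commuting probability gives a large normal subgroup with small classes -/
def S_NEU : Prop :=
  ∀ q : ℕ, ∃ m : ℕ, ∀ (G : Type) [Group G] [Finite G],
    Nat.card G ^ 2 ≤ q * Nat.card {p : G × G // Commute p.1 p.2} →
    ∃ H : Subgroup G, H.Normal ∧ H.index ≤ m ∧ ∀ x ∈ H, (centralizer {x}).index ≤ m

/-- small classes: the derived group of a large normal subgroup lies in a subgroup with few
generators -/
def S_BFC : Prop :=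
  ∀ m : ℕ, ∃ c : ℕ, ∀ (G : Type) [Group G] [Finite G] (H : Subgroup G), H.Normal → H.index ≤ m →
    (∀ x ∈ H, (centralizer {x}).index ≤ m) →
    ∃ (l : List G) (C : Subgroup G), l.length ≤ c ∧ C.Normal ∧ C.index ≤ c ∧ ⁅C, C⁆ ≤ gen l

/-- first half of the structure theorem -/
def S_STA : Prop :=
  ∀ M : ℕ, 2 ≤ M → ∃ B : ℕ, ∀ (G : Type) [Group G] [Finite G], ∃ (I : List G) (H : Subgroup G),
    I.length ≤ Nat.log M (Nat.card G) + B ∧ H.Normal ∧ H.index ≤ B ∧ ⁅H, H⁆ ≤ gen I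

/-- few pins kill all elements with large classes -/
def S_PIN : Prop :=
  ∀ (G : Type) [Group G] [Finite G] (H : Subgroup G) (m : ℕ), 2 ≤ m → ∃ l : List G,
    (∀ x ∈ l, x ∈ H) ∧ l.length ≤ Nat.log m (Nat.card G) + 1 ∧
    ∀ c ∈ H, (∀ x ∈ l, Commute c x) → (centralizer {c}).relIndex H ≤ m

/-- the halving lemma -/
def S_HALF : Prop :=
  ∀ m : ℕ, ∃ B : ℕ, ∀ (G : Type) [Group G] [Finite G] (H K : Subgroup G), K ≤ H → ⁅H, H⁆ ≤ K →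
    (∀ c ∈ H, (∀ k ∈ K, Commute c k) → (centralizer {c}).relIndex H ≤ m) →
    ∃ H₀ F : Subgroup G, K ≤ H₀ ∧ H₀ ≤ H ∧ H₀.relIndex H ≤ B ∧ Nat.card F ≤ B ∧
      ∀ c ∈ H, (∀ k ∈ K, Commute c k) → ∀ h ∈ H₀, ⁅c, h⁆ ∈ F

/-- the structure theorem, for a finite subgroup `G` of an ambient group -/
def S_ST : Prop :=
  ∀ M : ℕ, 2 ≤ M → ∃ B : ℕ, ∀ (U : Type) [Group U] (G : Subgroup U) [Finite G],
    ∃ (I : List U) (H E : Subgroup U), (∀ x ∈ I, x ∈ G) ∧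
      I.length ≤ 2 * Nat.log M (Nat.card G) + B ∧ H ≤ G ∧ Nat.card G ≤ B * Nat.card H ∧
      (∀ g ∈ G, ∃ j ∈ gen I, ∃ h ∈ H, g = j * h) ∧ Nat.card E ≤ B ∧
      Nat.card (gen I) ≤ B * Nat.card (gen I ⊓ H : Subgroup U) ∧ Good ⟨gen I, gen I ⊓ H, E⟩ H

/-! ### Stable cancellation -/

/-- the integral group ring of a finite abelian group is reduced -/
def S_CANC : Prop :=
  ∀ (A : Type) [CommGroup A] [Fintype A] (f g ν : A → ℤ),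
    (∀ a, ∑ b, (∑ c, f c * ν (c⁻¹ * b)) * ν (b⁻¹ * a) =
      ∑ b, (∑ c, g c * ν (c⁻¹ * b)) * ν (b⁻¹ * a)) →
    ∀ a, ∑ c, f c * ν (c⁻¹ * a) = ∑ c, g c * ν (c⁻¹ * a)

/-- inversion over the subsets of a finite set -/
def S_MOB : Prop :=
  ∀ (T Φ Ψ : Type) [Finite T] [Finite Φ] [Finite Ψ] (κ : Φ → Set T) (μ : Ψ → Set T),
    (∀ L : Set T, Nat.card {a : Φ // L ⊆ κ a} = Nat.card {b : Ψ // L ⊆ μ b}) →
    ∀ L : Set T, Nat.card {a : Φ // κ a = L} = Nat.card {b : Ψ // μ b = L}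

/-- stable cancellation of a summand that occurs twice -/
def S_P1 : Prop :=
  ∀ (U : Type) [Group U] (t t' : Tr U) (ι : Equiv.Perm U)
    (Y Y' X X' Y₁ Y₁' X₂ X₂' Y₂ Y₂' : Subgroup U) [Finite t.J] [Finite Y] [Finite Y'],
    Link t t' ι → Good t Y → Good t' Y' → Decomp t Y X Y₁ → Decomp t Y₁ X₂ Y₂ →
    Decomp t' Y' X' Y₁' → Decomp t' Y₁' X₂' Y₂' → (∃ γ, IsoOn t.J t.E id X X₂ γ) →
    (∃ γ, IsoOn t.J t.E ι X X' γ) → (∃ γ, IsoOn t.J t.E ι X X₂' γ) →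
    (∃ γ, IsoOn t.J t.K ι Y Y' γ) → ∃ γ, IsoOn t.J t.K ι Y₁ Y₁' γ

/-- gluing isomorphisms of the two factors of a central product -/
def S_GLUE1 : Prop :=
  ∀ (U : Type) [Group U] (t t' : Tr U) (ι : Equiv.Perm U) (Y Y' X X' Y₁ Y₁' : Subgroup U),
    Link t t' ι → Good t Y → Good t' Y' → Decomp t Y X Y₁ → Decomp t' Y' X' Y₁' →
    (∃ γ, IsoOn t.J t.E ι X X' γ) → (∃ γ, IsoOn t.J t.K ι Y₁ Y₁' γ) →
    ∃ γ, IsoOn t.J t.K ι Y Y' γ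

/-- gluing the pinned isomorphism and an isomorphism of the working groups -/
def S_GLUE0 : Prop :=
  ∀ (U : Type) [Group U] (t t' : Tr U) (ι : Equiv.Perm U) (G G' H H' : Subgroup U),
    Link t t' ι → Good t H → Good t' H' → t.J ⊓ H ≤ t.K → t'.J ⊓ H' ≤ t'.K →
    t.J ≤ G → H ≤ G → t'.J ≤ G' → H' ≤ G' →
    (∀ g ∈ G, ∃ j ∈ t.J, ∃ h ∈ H, g = j * h) → (∀ g ∈ G', ∃ j ∈ t'.J, ∃ h ∈ H', g = j * h) →
    (∃ γ, IsoOn t.J t.K ι H H' γ) → Nonempty (G ≃* G')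

/-! ### Few pins make the ring nilpotent -/

/-- the pin lemma for finite rings with involution -/
def S_RING : Prop :=
  ∀ (T M : Type) [Ring T] [AddCommGroup M] [Module T M] (σ : T → T) (S : NonUnitalSubring T)
    [Finite S] (ρ : ℕ), (∀ a b, σ (a + b) = σ a + σ b) → (∀ a b, σ (a * b) = σ b * σ a) →
    (∀ a, σ (σ a) = a) → (∀ a ∈ S, σ a ∈ S) →
    (∀ e ∈ S, σ e = e → (∀ m : M, e • m = 0) → e = 0) →
    (∀ (n : ℕ) (e : Fin n → T), (∀ i, e i ∈ S ∧ σ (e i) = e i ∧ e i * e i = e i ∧ e i ≠ 0) →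
      (∀ i j, i ≠ j → e i * e j = 0) → n ≤ ρ) →
    ∃ l : List M, l.length ≤ ρ ∧ ∃ n : ℕ, ∀ w : List T, w.length = n →
      (∀ s ∈ w, s ∈ S ∧ ∀ x ∈ l, s • x = 0 ∧ σ s • x = 0) → w.prod = 0

/-- there are boundedly many types of small summands -/
def S_TYPES : Prop :=
  ∀ c : ℕ, ∃ τ : ℕ, ∀ (U : Type) [Group U] (J K E : Subgroup U) [Finite J] (n : ℕ)
    (X : Fin n → Subgroup U), τ < n → E ≤ K → K ≤ J → Nat.card J ≤ c * Nat.card K →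
    (∀ i, Finite (X i) ∧ Nat.card (X i) ≤ c ∧ E ≤ X i ∧ (∀ j ∈ J, ∀ x ∈ X i, j * x * j⁻¹ ∈ X i) ∧
      ∀ k ∈ K, ∀ x ∈ X i, k * x = x * k) →
    ∃ i i', i ≠ i' ∧ ∃ γ, IsoOn J E id (X i) (X i') γ

/-- without duplicates there are few orthogonal self-adjoint idempotents -/
def S_RHO : Prop :=
  ∀ B b : ℕ, 2 ≤ b → ∃ τ : ℕ, ∀ (U : Type) [Group U] (t : Tr U) (Y : Subgroup U) [Finite t.J]
    [Finite Y], Good t Y → Nat.card t.E ≤ B → Nat.card t.J ≤ B * Nat.card t.K → ¬ Dup t b Y →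
    ∀ (n : ℕ) (e : Fin n → U → U),
      (∀ i, RR t Y [] (e i) (e i) ∧ (∀ y ∈ Y, (e i (e i y))⁻¹ * e i y ∈ t.K) ∧
        (∀ y ∈ Y, e i y ∈ t.K → e i y ∈ t.E) ∧ ∃ y ∈ Y, e i y ∉ t.K) →
      (∀ i j, i ≠ j → ∀ y ∈ Y, e i (e j y) ∈ t.K) → n ≤ τ + Nat.log b (Nat.card Y)

/-- without duplicates few pins make the ring nilpotent -/
def S_P2 : Prop :=
  ∀ B b : ℕ, 2 ≤ b → ∃ τ : ℕ, ∀ (U : Type) [Group U] (t : Tr U) (Y : Subgroup U) [Finite t.J]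
    [Finite Y], Good t Y → Nat.card t.E ≤ B → Nat.card t.J ≤ B * Nat.card t.K → ¬ Dup t b Y →
    ∃ P : List U, (∀ x ∈ P, x ∈ Y) ∧ P.length ≤ τ + Nat.log b (Nat.card Y) ∧ Nil t Y P

/-! ### The nilpotent case -/

/-- few classes of commutator preserving quasi-automorphisms modulo liftable ones -/
def S_EXT : Prop :=
  ∀ (U : Type) [Group U] (t : Tr U) (Y : Subgroup U) [Finite t.J] [Finite Y] (b : ℕ)
    (h : List U), Good t Y → Nat.card t.E ≤ b → Nat.card t.J ≤ b * Nat.card t.K → gen h = Y →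
    ∀ l : List (U → U), (∀ u ∈ l, CP t Y u) →
      l.Pairwise (fun u v => ¬ ∃ α, IsoOn t.J t.K id Y Y α ∧ ∀ x ∈ Y, (α (u x))⁻¹ * v x ∈ t.E) →
      l.length ≤ b ^ (h.length * (1 + b))

/-- generators of the group `1 + R` modulo `E`; `L i` generates the power `R ^ (i + 1)` -/
def S_GEN : Prop :=
  ∀ (U : Type) [Group U] (t : Tr U) (Y : Subgroup U) (P : List U) (W : Subgroup (Equiv.Perm U))
    (L : ℕ → Set (U → U)) (m : ℕ), Good t Y →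
    (∀ σ ∈ W, ∀ x ∈ Y, σ x ∈ Y) →
    (∀ σ ∈ W, ∀ x ∈ Y, ∀ e ∈ t.E, (σ x)⁻¹ * σ (x * e) ∈ t.E) →
    (∀ i, ∀ s ∈ L i, ∃ s', RR t Y P s s') →
    (∀ r r', RR t Y P r r' → ∃ q ∈ closure (L 0), ∀ x ∈ Y, q x = r x) →
    (∀ i, ∀ r ∈ L 0, ∀ s ∈ L i, ∃ q ∈ closure (L (i + 1)), ∀ x ∈ Y, q x = r (s x)) →
    (∀ i < m, ∀ s ∈ L i, ∃ σ ∈ W, ∀ x ∈ Y, (σ x)⁻¹ * (x * s x) ∈ t.E) →
    (∀ s ∈ L m, ∀ x ∈ Y, s x ∈ t.E) →
    ∀ r r', RR t Y P r r' → ∃ σ ∈ W, ∀ x ∈ Y, (σ x)⁻¹ * (x * r x) ∈ t.E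

end Pool.Agent.P.MP_f1a348_lc.GI
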