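import Pool.Agent.P.MP_f1a348_lc.GI.PTA

/-!
The linear phase, the nilpotent phase, plans and their execution run in polynomial time.
-/

namespace Pool.Agent.P.MP_f1a348_lc.GI

open Pool.Agent.Lib.Helper47

set_option linter.unusedSectionVars false

variable {α : Type} [Enc α] {U : Type} [Group U] [DecidableEq U] [Enc U] [PG U]

@[fun_prop] theorem pt_linTest {h : α → Bool} {E E' : α → List U} {ι : α → FP U}
    {t : α → ℕ × Bool × U × U} {F : α → FB U} (h0 : PT h) (h1 : PT E) (h2 : PT E') (h3 : PT ι)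
    (h4 : PT t) (h5 : PT F) : PT (fun a => linTest (h a) (E a) (E' a) (ι a) (t a) (F a)) := by
  unfold linTest; fun_prop

@[fun_prop] theorem pt_linTests {tl tl' : α → TL U} {ι : α → FP U} {Y Y' : α → List U}
    {Q : α → List (U × U)} (h0 : PT tl) (h1 : PT tl') (h2 : PT ι) (h3 : PT Y) (h4 : PT Y')
    (h5 : PT Q) : PT (fun a => linTests (tl a) (tl' a) (ι a) (Y a) (Y' a) (Q a)) := by
  unfold linTests; fun_prop

@[fun_prop] theorem pt_dom {Y Y' : α → List U} (h3 : PT Y) (h4 : PT Y') :
    PT (fun a => dom (Y a) (Y' a)) := by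
  unfold dom; fun_prop

@[fun_prop] theorem pt_sameAct {K : α → List U} {ι : α → FP U} {x y : α → U} (h1 : PT K)
    (h2 : PT ι) (h3 : PT x) (h4 : PT y) : PT (fun a => sameAct (K a) (ι a) (x a) (y a)) := by
  unfold sameAct; fun_prop

@[fun_prop] theorem pt_linStart {tl tl' : α → TL U} {ι : α → FP U} {Y Y' : α → List U}
    (h0 : PT tl) (h1 : PT tl') (h2 : PT ι) (h3 : PT Y) (h4 : PT Y') :
    PT (fun a => linStart (tl a) (tl' a) (ι a) (Y a) (Y' a)) := by
  unfold linStart; fun_prop

@[fun_prop] theorem pt_linGens {tl tl' : α → TL U} {Y Y' : α → List U}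
    (h0 : PT tl) (h1 : PT tl') (h3 : PT Y) (h4 : PT Y') :
    PT (fun a => linGens (tl a) (tl' a) (Y a) (Y' a)) := by
  unfold linGens; fun_prop

@[fun_prop] theorem pt_lin {pad : α → List Unit} {tl tl' : α → TL U} {ι : α → FP U}
    {Y Y' : α → List U} {Q : α → List (U × U)} (hp : PT pad) (h0 : PT tl) (h1 : PT tl')
    (h2 : PT ι) (h3 : PT Y) (h4 : PT Y') (h5 : PT Q) :
    PT (fun a => lin (pad a) (tl a) (tl' a) (ι a) (Y a) (Y' a) (Q a)) :=
  pt_tower (mem := fun a => linTest true (tl a).2.2 (tl' a).2.2 (ι a))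
    (pass := fun a => linTest false (tl a).2.2 (tl' a).2.2 (ι a)) (by fun_prop) (by fun_prop) hp
    (by fun_prop) (by fun_prop) (by fun_prop) (by fun_prop)

@[fun_prop] theorem pt_ringGens {pad : α → List Unit} {tl : α → TL U} {Y P : α → List U}
    (hp : PT pad) (h0 : PT tl) (h3 : PT Y) (h4 : PT P) :
    PT (fun a => ringGens (pad a) (tl a) (Y a) (P a)) := by
  unfold ringGens; fun_prop

@[fun_prop] theorem pt_filtStep {K Y A : α → List U} {S : α → List (FB U)} (h0 : PT K) (h1 : PT Y)
    (h2 : PT S) (h3 : PT A) : PT (fun a => filtStep (K a) (Y a) (S a) (A a)) := by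
  unfold filtStep; fun_prop

@[fun_prop] theorem pt_filtList {K Y : α → List U} {S : α → List (FB U)} (h0 : PT K) (h1 : PT Y)
    (h2 : PT S) : PT (fun a => filtList (K a) (Y a) (S a)) := by
  refine PT.foldl_add (f := fun a (FL : List (List U)) (_ : U) =>
    filtStep (K a) (Y a) (S a) (FL.headD []) :: FL) (by fun_prop) h1 (by fun_prop)
    (fun a => size (Y a) + 1) (h1.size_le.add (PB.const 1)) (fun a FL x _ => ?_)
  have : size (filtStep (K a) (Y a) (S a) (FL.headD [])) ≤ size (Y a) :=
    size_sublist (clo_sublist _ _)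
  simp only [size_cons]; omega

@[fun_prop] theorem pt_nilB {pad : α → List Unit} {tl : α → TL U} {Y P : α → List U}
    (hp : PT pad) (h0 : PT tl) (h3 : PT Y) (h4 : PT P) :
    PT (fun a => nilB (pad a) (tl a) (Y a) (P a)) := by
  unfold nilB; fun_prop

@[fun_prop] theorem pt_compF {Y : α → List U} {r s : α → FB U} (h0 : PT Y) (h1 : PT r)
    (h2 : PT s) : PT (fun a => compF (Y a) (r a) (s a)) := by
  unfold compF; fun_prop

@[fun_prop] theorem pt_powStep {pad : α → List Unit} {Y : α → List U} {S L : α → List (FB U)}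
    (hp : PT pad) (h0 : PT Y) (h1 : PT S) (h2 : PT L) :
    PT (fun a => powStep (pad a) (Y a) (S a) (L a)) := by
  unfold powStep; fun_prop

/-- one-point functions with values taken by elements of `S` -/
noncomputable def bigGens (Y : List U) (S : List (FB U)) : List (FB U) :=
  S ++ Y.flatMap (fun y => S.flatMap (fun r => r.code.map (fun p => FF.single (false, y) p.2)))

omit [PG U] in
theorem compF_mem {Y : List U} {S : List (FB U)} {r : FB U} (hr : r ∈ S) (s : FB U) :
    compF Y r s ∈ gen (bigGens Y S) := by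
  unfold compF FF.tab
  refine Subgroup.list_prod_mem _ (fun x hx => ?_)
  obtain ⟨a, ha, rfl⟩ := List.mem_map.1 hx
  obtain ⟨y, hy, rfl⟩ := List.mem_map.1 ha
  by_cases e : r.app (false, s.app (false, y)) = 1
  · have : FF.single (false, y) (r.app (false, s.app (false, y))) = (1 : FB U) :=
      FF.ext fun b => by rw [e, FF.app_single]; simp
    rw [this]
    exact Subgroup.one_mem _
  · refine mem_gen (List.mem_append_right _ (List.mem_flatMap.2 ⟨y, hy, List.mem_flatMap.2
      ⟨r, hr, List.mem_map.2 ⟨((false, s.app (false, y)), r.app (false, s.app (false, y))),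
        mem_tbl.2 ⟨FF.mem_supp.2 e, rfl⟩, rfl⟩⟩⟩))

@[fun_prop] theorem pt_powList {pad : α → List Unit} {Y : α → List U} {S : α → List (FB U)}
    (hp : PT pad) (h0 : PT Y) (h1 : PT S) : PT (fun a => powList (pad a) (Y a) (S a)) := by
  have hc := FF.pt_code (α := Bool × U) (U := U)
  have hb : PT (fun a => bigGens (Y a) (S a)) := by unfold bigGens; fun_prop
  obtain ⟨B, hB, h⟩ := gen_bound hb
  have key : ∀ a (v : List U),
      let st := v.foldl (fun (st : List (FB U) × List (FB U)) _ =>
        (powStep (pad a) (Y a) (S a) st.1, st.1 ++ st.2)) (S a, [])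
      (∀ x ∈ st.1 ++ st.2, x ∈ gen (bigGens (Y a) (S a))) ∧
        st.1.length ≤ (pad a).length + (S a).length ∧
        st.2.length ≤ v.length * ((pad a).length + (S a).length) := by
    intro a v
    induction v using List.reverseRecOn with
    | nil => exact ⟨fun x hx => mem_gen (List.mem_append_left _ (by simpa using hx)),
        Nat.le_add_left _ _, by simp⟩
    | append_singleton v y ih =>
      obtain ⟨i1, i2, i3⟩ := ih
      simp only [List.foldl_append, List.foldl_cons, List.foldl_nil]
      refine ⟨fun x hx => ?_, (sims_length _ _ _).trans (Nat.le_add_right _ _), ?_⟩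
      · rcases List.mem_append.1 hx with hx | hx
        · refine (gen_le.2 fun z hz => ?_ : gen _ ≤ _) (sims_mem hx)
          obtain ⟨r, hr, hz⟩ := List.mem_flatMap.1 hz
          obtain ⟨s, _, rfl⟩ := List.mem_map.1 hz
          exact compF_mem hr s
        · exact i1 x hx
      · simp only [List.length_append, List.length_singleton]
        nlinarith
  refine PT.snd (PT.foldl (f := fun a (st : List (FB U) × List (FB U)) (_ : U) =>
    (powStep (pad a) (Y a) (S a) st.1, st.1 ++ st.2)) (by fun_prop) h0 (by fun_prop)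
    (fun a => (((Y a).length + 1) * ((pad a).length + (S a).length)) * (B a + 1) + 3)
    (((((ps_len h0).add (PB.const 1)).mul ((ps_len hp).add (ps_len h1))).mul
      (hB.add (PB.const 1))).add (PB.const 3)) (fun a v hv => ?_))
  obtain ⟨i1, i2, i3⟩ := key a v
  refine size_pairlist (fun x hx => h a x (i1 x hx)) ?_
  have := Nat.mul_le_mul_right ((pad a).length + (S a).length) hv.length_le
  nlinarith

@[fun_prop] theorem pt_rep {K Y : α → List U} {x : α → U} (h0 : PT K) (h1 : PT Y) (h2 : PT x) :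
    PT (fun a => rep (K a) (Y a) (x a)) := by
  unfold rep; fun_prop

@[fun_prop] theorem pt_normP {K Y : α → List U} {ι : α → FP U} {h : α → Bool} {F : α → FB U}
    (h0 : PT K) (h1 : PT Y) (h2 : PT ι) (h3 : PT h) (h4 : PT F) :
    PT (fun a => normP (K a) (Y a) (ι a) (h a) (F a)) := by
  unfold normP; fun_prop

@[fun_prop] theorem pt_liftB {pad : α → List Unit} {tl : α → TL U} {ι g : α → FP U}
    {E' Y Y' : α → List U} (hp : PT pad) (h0 : PT tl) (h1 : PT ι) (h2 : PT E') (h3 : PT Y)
    (h4 : PT Y') (h5 : PT g) :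
    PT (fun a => liftB (pad a) (tl a) (ι a) (E' a) (Y a) (Y' a) (g a)) := by
  unfold liftB; fun_prop

@[fun_prop] theorem pt_test2 {pad : α → List Unit} {tl : α → TL U} {ι g : α → FP U}
    {E' Y Y' : α → List U} {t : α → Option (U × U)} (hp : PT pad) (h0 : PT tl) (h1 : PT ι)
    (h2 : PT E') (h3 : PT Y) (h4 : PT Y') (h6 : PT t) (h5 : PT g) :
    PT (fun a => test2 (pad a) (tl a) (ι a) (E' a) (Y a) (Y' a) (t a) (g a)) := by
  unfold test2; fun_prop

@[fun_prop] theorem pt_pairTests {FL : α → List (List U)} (h : PT FL) :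
    PT (fun a => pairTests (FL a)) := by
  unfold pairTests; fun_prop

@[fun_prop] theorem pt_unitGens {pad : α → List Unit} {tl : α → TL U} {Y P : α → List U}
    (hp : PT pad) (h0 : PT tl) (h3 : PT Y) (h4 : PT P) :
    PT (fun a => unitGens (pad a) (tl a) (Y a) (P a)) := by
  unfold unitGens; fun_prop

@[fun_prop] theorem pt_p3 {pad : α → List Unit} {tl tl' : α → TL U} {ι : α → FP U}
    {Y Y' P P' : α → List U} (hp : PT pad) (h0 : PT tl) (h1 : PT tl') (h2 : PT ι) (h3 : PT Y)
    (h4 : PT Y') (h5 : PT P) (h6 : PT P') :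
    PT (fun a => p3 (pad a) (tl a) (tl' a) (ι a) (Y a) (Y' a) (P a) (P' a)) := by
  unfold p3
  refine PT.optElim (by fun_prop) (PT.const _) (PT.isSome ?_)
  exact pt_tower
    (mem := fun q : α × FB U × List (FB U) =>
      test2 (pad q.1) (tl q.1) 1 (tl q.1).2.2 (Y q.1) (Y q.1))
    (pass := fun q : α × FB U × List (FB U) =>
      test2 (pad q.1) (tl q.1) (ι q.1) (tl' q.1).2.2 (Y q.1) (Y' q.1))
    (by fun_prop) (by fun_prop) (by fun_prop) (by fun_prop) (by fun_prop) (by fun_prop)
    (by fun_prop)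

@[fun_prop] theorem pt_tlOf {el I H E : α → List U} (h0 : PT el) (h1 : PT I) (h2 : PT H)
    (h3 : PT E) : PT (fun a => tlOf (el a) (I a) (H a) (E a)) := by
  unfold tlOf; fun_prop

@[fun_prop] theorem pt_planB {pad ub : α → List Unit} {el : α → List U} {p : α → Plan U}
    (h0 : PT pad) (h1 : PT ub) (h2 : PT el) (h3 : PT p) :
    PT (fun a => planB (pad a) (ub a) (el a) (p a)) := by
  unfold planB; fun_prop

@[fun_prop] theorem pt_plans {pad uk ub : α → List Unit} {el : α → List U}
    (h0 : PT pad) (h3 : PT uk) (h1 : PT ub) (h2 : PT el) :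
    PT (fun a => plans (pad a) (uk a) (ub a) (el a)) := by
  unfold plans; fun_prop

@[fun_prop] theorem pt_findPlan {pad uk ub : α → List Unit} {el : α → List U}
    (h0 : PT pad) (h3 : PT uk) (h1 : PT ub) (h2 : PT el) :
    PT (fun a => findPlan (pad a) (uk a) (ub a) (el a)) := by
  unfold findPlan; fun_prop

@[fun_prop] theorem pt_pinIso {el el' I I' : α → List U} (h0 : PT el) (h1 : PT el') (h2 : PT I)
    (h3 : PT I') : PT (fun a => pinIso (el a) (el' a) (I a) (I' a)) := by
  unfold pinIso; fun_prop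

@[fun_prop] theorem pt_execEnd {pad uk : α → List Unit} {tl tl' : α → TL U} {ι : α → FP U}
    {P : α → List U} {s : α → List U × List U × Bool} (hp : PT pad) (hk : PT uk) (h0 : PT tl)
    (h1 : PT tl') (h2 : PT ι) (h3 : PT P) (h4 : PT s) :
    PT (fun a => execEnd (pad a) (uk a) (tl a) (tl' a) (ι a) (P a) (s a)) := by
  unfold execEnd; fun_prop

@[fun_prop] theorem pt_execMid {pad uk ub : α → List Unit} {tl tl' : α → TL U} {ι : α → FP U}
    {el' H H' P : α → List U} (hp : PT pad) (hk : PT uk) (hb : PT ub) (he : PT el') (h0 : PT tl)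
    (h1 : PT tl') (h2 : PT ι) (h3 : PT H) (h4 : PT H') (h5 : PT P) :
    PT (fun a => execMid (pad a) (uk a) (ub a) (el' a) (tl a) (tl' a) (ι a) (H a) (H' a)
      (P a)) := by
  unfold execMid; fun_prop

@[fun_prop] theorem pt_execOne {pad uk ub : α → List Unit} {el el' I' H' : α → List U}
    {p : α → Plan U} (hp : PT pad) (hk : PT uk) (hb : PT ub) (h0 : PT el) (he : PT el')
    (h1 : PT p) (h2 : PT I') (h4 : PT H') :
    PT (fun a => execOne (pad a) (uk a) (ub a) (el a) (el' a) (p a) (I' a) (H' a)) := by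
  unfold execOne; fun_prop

@[fun_prop] theorem pt_exec {pad uk ub : α → List Unit} {el el' : α → List U}
    {p : α → Plan U} (hp : PT pad) (hk : PT uk) (hb : PT ub) (h0 : PT el) (he : PT el')
    (h1 : PT p) : PT (fun a => exec (pad a) (uk a) (ub a) (el a) (el' a) (p a)) := by
  unfold exec; fun_prop

end Pool.Agent.P.MP_f1a348_lc.GI
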