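import Pool.Agent.P.MP_f1a348_lc.GI.Basic

/-!
The algebra of (quasi-)homomorphisms modulo `E`, adjoint pairs and the filtration.
-/

namespace Pool.Agent.P.MP_f1a348_lc.GI

open Subgroup
open scoped commutatorElement

set_option linter.unusedVariables false

variable {U : Type} [Group U] {t t' t'' : Tr U} {Y Y' Y'' : Subgroup U}

theorem cen_inv {K : Subgroup U} {d : U} (h : ∀ k ∈ K, d * k = k * d) :
    ∀ k ∈ K, d⁻¹ * k = k * d⁻¹ := fun k hk => by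
  rw [inv_mul_eq_iff_eq_mul, ← mul_assoc, h k hk, mul_inv_cancel_right]

theorem cen_mul {K : Subgroup U} {d e : U} (h : ∀ k ∈ K, d * k = k * d)
    (h' : ∀ k ∈ K, e * k = k * e) : ∀ k ∈ K, d * e * k = k * (d * e) := fun k hk => by
  rw [mul_assoc, h' k hk, ← mul_assoc, h k hk, mul_assoc]

theorem Good.cen_of_cg (g : Good t Y) {a b : U} (h : Cg t.E a b)
    (ha : ∀ k ∈ t.K, a * k = k * a) : ∀ k ∈ t.K, b * k = k * b := by
  obtain ⟨e, he, rfl⟩ := h.exists_eq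
  exact cen_mul ha (fun k hk => g.cen e he k (g.KY hk))

theorem Good.cen_conj (g : Good t Y) {j d : U} (hj : j ∈ t.J) (h : ∀ k ∈ t.K, d * k = k * d) :
    ∀ k ∈ t.K, j * d * j⁻¹ * k = k * (j * d * j⁻¹) := fun k hk => by
  have := h _ (g.nmKJ hj k hk)
  calc j * d * j⁻¹ * k = j * (d * (j⁻¹ * k * j)) * j⁻¹ := by group
    _ = _ := by rw [this]; group

theorem cg_mul_iff {E : Subgroup U} {a b c : U} : a⁻¹ * b * c ∈ E ↔ Cg E a (b * c) := by
  rw [Cg, mul_assoc]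

/-! ### homogeneous maps -/

namespace LHom
variable {ι κ f f' : U → U}

theorem mul' (h : LHom t t' ι Y Y' f) {x y : U} (hx : x ∈ Y) (hy : y ∈ Y) :
    Cg t'.E (f (x * y)) (f x * f y) := cg_mul_iff.1 (h.mul x hx y hy)
theorem equi' (h : LHom t t' ι Y Y' f) {j x : U} (hj : j ∈ t.J) (hx : x ∈ Y) :
    Cg t'.E (f (j * x * j⁻¹)) (ι j * f x * (ι j)⁻¹) := h.equi j hj x hx
theorem one_mem (h : LHom t t' ι Y Y' f) : f 1 ∈ t'.E := h.fix 1 t.K.one_mem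
theorem inv' (h : LHom t t' ι Y Y' f) (g' : Good t' Y') {x : U} (hx : x ∈ Y) :
    Cg t'.E (f x⁻¹) (f x)⁻¹ := by
  have h1 := h.mul' hx (Y.inv_mem hx)
  rw [mul_inv_cancel] at h1
  have h2 : Cg t'.E 1 (f x * f x⁻¹) := (Cg.one_iff.2 h.one_mem).trans h1
  have h3 := (h2.left (f x)⁻¹).symm
  simpa using h3
/-- `f` is constant modulo `E` on the cosets of `K` -/
theorem congrK (h : LHom t t' ι Y Y' f) (g : Good t Y) {x y : U} (hx : x ∈ Y)
    (hxy : Cg t.K x y) : Cg t'.E (f x) (f y) := by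
  obtain ⟨k, hk, rfl⟩ := hxy.exists_eq
  exact (Cg.mul_mem (h.fix k hk) _).trans (h.mul' hx (g.KY hk)).symm
theorem swap (h : LHom t t' ι Y Y' f) (g' : Good t' Y') {x y : U} (hx : x ∈ Y) (hy : y ∈ Y') :
    Cg t'.E (y * f x) (f x * y) := g'.swapE (h.maps x hx) (h.cen x hx) hy
theorem comm_mem (h : LHom t t' ι Y Y' f) (g' : Good t' Y') {x y : U} (hx : x ∈ Y) (hy : y ∈ Y') :
    ⁅f x, y⁆ ∈ t'.E := g'.DE _ (h.maps x hx) (h.cen x hx) y hy
theorem comm_mem' (h : LHom t t' ι Y Y' f) (g' : Good t' Y') {x y : U} (hx : x ∈ Y)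
    (hy : y ∈ Y') : ⁅y, f x⁆ ∈ t'.E := g'.DE' (h.maps x hx) (h.cen x hx) hy

theorem one (g' : Good t' Y') : LHom t t' ι Y Y' (fun _ => 1) :=
  ⟨fun _ _ => Y'.one_mem, fun _ _ _ _ => by simp, fun _ _ _ _ => by simp,
    fun _ _ _ _ => by simp, fun _ _ => t'.E.one_mem⟩

theorem congr (h : LHom t t' ι Y Y' f) (g : Good t Y) (g' : Good t' Y') (hι : ∀ j ∈ t.J, ι j ∈ t'.J)
    (e : ∀ x ∈ Y, Cg t'.E (f x) (f' x)) : LHom t t' ι Y Y' f' := by
  have hm : ∀ x ∈ Y, f' x ∈ Y' := fun x hx => ((e x hx).mem_iff g'.EY).1 (h.maps x hx)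
  refine ⟨hm, fun x hx => g'.cen_of_cg (e x hx) (h.cen x hx), fun x hx y hy => cg_mul_iff.2 ?_,
    fun j hj x hx => ?_, fun k hk => ((e k (g.KY hk)).mem_iff le_rfl).1 (h.fix k hk)⟩
  · exact ((e _ (Y.mul_mem hx hy)).symm.trans (h.mul' hx hy)).trans
      ((e x hx).mul (g'.nmE (h.maps y hy)) (e y hy))
  · exact ((e _ (g.nY j hj x hx)).symm.trans (h.equi' hj hx)).trans
      (((e x hx).left _).right (g'.nmEJ (t'.J.inv_mem (hι j hj))))

theorem pmul (h : LHom t t' ι Y Y' f) (h' : LHom t t' ι Y Y' f') (g : Good t Y) (g' : Good t' Y') :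
    LHom t t' ι Y Y' (fun x => f x * f' x) := by
  refine ⟨fun x hx => Y'.mul_mem (h.maps x hx) (h'.maps x hx),
    fun x hx => cen_mul (h.cen x hx) (h'.cen x hx), fun x hx y hy => cg_mul_iff.2 ?_,
    fun j hj x hx => ?_, fun k hk => t'.E.mul_mem (h.fix k hk) (h'.fix k hk)⟩
  · calc Cg t'.E (f (x * y) * f' (x * y)) (f x * f y * (f' x * f' y)) :=
          (h.mul' hx hy).mul (g'.nmE (h'.maps _ (Y.mul_mem hx hy))) (h'.mul' hx hy)
      _ = f x * (f y * f' x * f' y) := by group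
      Cg t'.E _ (f x * (f' x * f y * f' y)) :=
          ((h'.swap g' hx (h.maps y hy)).right (g'.nmE (h'.maps y hy))).left _
      _ = f x * f' x * (f y * f' y) := by group
  · calc Cg t'.E (f (j * x * j⁻¹) * f' (j * x * j⁻¹))
          (ι j * f x * (ι j)⁻¹ * (ι j * f' x * (ι j)⁻¹)) :=
          (h.equi' hj hx).mul (g'.nmE (h'.maps _ (g.nY j hj x hx))) (h'.equi' hj hx)
      _ = ι j * (f x * f' x) * (ι j)⁻¹ := by group

theorem pinv (h : LHom t t' ι Y Y' f) (g : Good t Y) (g' : Good t' Y') :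
    LHom t t' ι Y Y' (fun x => (f x)⁻¹) := by
  refine ⟨fun x hx => Y'.inv_mem (h.maps x hx), fun x hx => cen_inv (h.cen x hx),
    fun x hx y hy => cg_mul_iff.2 ?_, fun j hj x hx => ?_,
    fun k hk => t'.E.inv_mem (h.fix k hk)⟩
  · calc Cg t'.E (f (x * y))⁻¹ (f y * f x)⁻¹ :=
          ((h.mul' hx hy).trans (h.swap g' hy (h.maps x hx))).inv
            (g'.nmE (Y'.inv_mem (h.maps _ (Y.mul_mem hx hy))))
      _ = (f x)⁻¹ * (f y)⁻¹ := by group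
  · calc Cg t'.E (f (j * x * j⁻¹))⁻¹ (ι j * f x * (ι j)⁻¹)⁻¹ :=
          (h.equi' hj hx).inv (g'.nmE (Y'.inv_mem (h.maps _ (g.nY j hj x hx))))
      _ = ι j * (f x)⁻¹ * (ι j)⁻¹ := by group

theorem comp (h' : LHom t' t'' κ Y' Y'' f') (h : LHom t t' ι Y Y' f) (g : Good t Y)
    (g' : Good t' Y') (hι : ∀ j ∈ t.J, ι j ∈ t'.J) :
    LHom t t'' (fun x => κ (ι x)) Y Y'' (fun x => f' (f x)) := by
  refine ⟨fun x hx => h'.maps _ (h.maps x hx), fun x hx => h'.cen _ (h.maps x hx),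
    fun x hx y hy => cg_mul_iff.2 ?_, fun j hj x hx => ?_,
    fun k hk => h'.fix _ (g'.EK (h.fix k hk))⟩
  · exact (h'.congrK g' (h.maps _ (Y.mul_mem hx hy)) ((h.mul' hx hy).mono g'.EK)).trans
      (h'.mul' (h.maps x hx) (h.maps y hy))
  · exact (h'.congrK g' (h.maps _ (g.nY j hj x hx)) ((h.equi' hj hx).mono g'.EK)).trans
      (h'.equi' (hι j hj) (h.maps x hx))

theorem comp_id (h' : LHom t t id Y Y f') (h : LHom t t id Y Y f) (g : Good t Y) :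
    LHom t t id Y Y (fun x => f' (f x)) := h'.comp h g g (fun _ hj => hj)

/-- elements of the subgroup generated by `K` and a set of elements of `Y` are mapped into any
subgroup containing `E` and the images -/
theorem map_closure (h : LHom t t' ι Y Y' f) (g : Good t Y) (g' : Good t' Y') {S : Set U}
    (hS : S ⊆ Y) {Z : Subgroup U} (hE : t'.E ≤ Z) (hZ : ∀ x ∈ S, f x ∈ Z) {x : U}
    (hx : x ∈ t.K ⊔ closure S) : f x ∈ Z := by
  have hle : t.K ⊔ closure S ≤ Y := sup_le g.KY ((closure_le _).2 hS)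
  rw [← closure_eq t.K, ← Subgroup.closure_union] at hx hle
  induction hx using closure_induction with
  | mem x hx => exact hx.elim (fun hk => hE (h.fix x hk)) (hZ x)
  | one => exact hE h.one_mem
  | mul a b ha hb iha ihb =>
    exact ((h.mul' (hle ha) (hle hb)).mem_iff hE).2 (Z.mul_mem iha ihb)
  | inv a ha iha => exact ((h.inv' g' (hle ha)).mem_iff hE).2 (Z.inv_mem iha)
end LHom

/-! ### quasi-homomorphisms -/

namespace QHom
variable {ι κ φ ψ f : U → U}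

theorem mul' (h : QHom t t' ι Y Y' φ) {x y : U} (hx : x ∈ Y) (hy : y ∈ Y) :
    Cg t'.E (φ (x * y)) (φ x * φ y) := cg_mul_iff.1 (h.mul x hx y hy)
theorem equi' (h : QHom t t' ι Y Y' φ) {j x : U} (hj : j ∈ t.J) (hx : x ∈ Y) :
    Cg t'.E (φ (j * x * j⁻¹)) (ι j * φ x * (ι j)⁻¹) := h.equi j hj x hx
theorem fix' (h : QHom t t' ι Y Y' φ) {k : U} (hk : k ∈ t.K) : Cg t'.E (φ k) (ι k) := h.fix k hk
theorem one_mem (h : QHom t t' ι Y Y' φ) : φ 1 ∈ t'.E := by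
  have := h.mul 1 Y.one_mem 1 Y.one_mem
  simpa using this
theorem inv' (h : QHom t t' ι Y Y' φ) {x : U} (hx : x ∈ Y) : Cg t'.E (φ x⁻¹) (φ x)⁻¹ := by
  have h1 := h.mul' hx (Y.inv_mem hx)
  rw [mul_inv_cancel] at h1
  have h2 : Cg t'.E 1 (φ x * φ x⁻¹) := (Cg.one_iff.2 h.one_mem).trans h1
  have h3 := (h2.left (φ x)⁻¹).symm
  simpa using h3
theorem mulK (h : QHom t t' ι Y Y' φ) (g : Good t Y) {x k : U} (hx : x ∈ Y) (hk : k ∈ t.K) :
    Cg t'.E (φ (x * k)) (φ x * ι k) := (h.mul' hx (g.KY hk)).trans ((h.fix' hk).left _)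
theorem Kmul (h : QHom t t' ι Y Y' φ) (g : Good t Y) (g' : Good t' Y') {x k : U} (hx : x ∈ Y)
    (hk : k ∈ t.K) : Cg t'.E (φ (k * x)) (ι k * φ x) :=
  (h.mul' (g.KY hk) hx).trans ((h.fix' hk).right (g'.nmE (h.maps x hx)))
theorem congrE (h : QHom t t' ι Y Y' φ) (g : Good t Y) (hE : ∀ e ∈ t.E, ι e ∈ t'.E) {x y : U}
    (hx : x ∈ Y) (hxy : Cg t.E x y) : Cg t'.E (φ x) (φ y) := by
  obtain ⟨e, he, rfl⟩ := hxy.exists_eq
  exact (Cg.mul_mem (hE e he) _).trans (h.mulK g hx (g.EK he)).symm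
theorem congrK (h : QHom t t' ι Y Y' φ) (g : Good t Y) (g' : Good t' Y')
    (hK : ∀ e ∈ t.K, ι e ∈ t'.K) {x y : U} (hx : x ∈ Y) (hxy : Cg t.K x y) :
    Cg t'.K (φ x) (φ y) := by
  obtain ⟨e, he, rfl⟩ := hxy.exists_eq
  exact (Cg.mul_mem (hK e he) _).trans ((h.mulK g hx he).symm.mono g'.EK)

theorem id (g : Good t Y) : QHom t t id Y Y id :=
  ⟨fun _ hx => hx, fun _ _ _ _ => rfl, fun x _ y _ => cg_mul_iff.2 (Cg.refl _),
    fun _ _ _ _ => Cg.refl _, fun _ _ => Cg.refl _⟩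

theorem of_isoOn (h : IsoOn t.J t.K ι Y Y' φ) (g : Good t Y) : QHom t t' ι Y Y' φ :=
  ⟨fun _ hx => h.maps hx, fun x hx k hk => by
    rw [← h.fix _ (g.conjK hx hk), h.conj hx (g.KY hk), h.fix k hk],
    fun x hx y hy => cg_mul_iff.2 (Cg.of_eq (h.mul x hx y hy)),
    fun j hj x hx => Cg.of_eq (h.equi j hj x hx), fun k hk => Cg.of_eq (h.fix k hk)⟩

theorem congr (h : QHom t t' ι Y Y' φ) (g : Good t Y) (g' : Good t' Y')
    (hι : ∀ j ∈ t.J, ι j ∈ t'.J) (hK : ∀ k ∈ t.K, ι k ∈ t'.K)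
    (e : ∀ x ∈ Y, Cg t'.E (φ x) (ψ x)) : QHom t t' ι Y Y' ψ := by
  have hm : ∀ x ∈ Y, ψ x ∈ Y' := fun x hx => ((e x hx).mem_iff g'.EY).1 (h.maps x hx)
  refine ⟨hm, fun x hx k hk => ?_, fun x hx y hy => cg_mul_iff.2 ?_,
    fun j hj x hx => ?_, fun k hk => (e k (g.KY hk)).symm.trans (h.fix' hk)⟩
  · obtain ⟨a, ha, ea⟩ := (e x hx).exists_eq
    rw [h.act x hx k hk, ea, mul_assoc (φ x) a, g'.cen a ha _ (g'.KY (hK k hk))]
    group
  · exact ((e _ (Y.mul_mem hx hy)).symm.trans (h.mul' hx hy)).trans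
      ((e x hx).mul (g'.nmE (h.maps y hy)) (e y hy))
  · exact ((e _ (g.nY j hj x hx)).symm.trans (h.equi' hj hx)).trans
      (((e x hx).left _).right (g'.nmEJ (t'.J.inv_mem (hι j hj))))

theorem comp (h' : QHom t' t'' κ Y' Y'' ψ) (h : QHom t t' ι Y Y' φ) (g : Good t Y)
    (g' : Good t' Y') (hι : ∀ j ∈ t.J, ι j ∈ t'.J) (hK : ∀ k ∈ t.K, ι k ∈ t'.K)
    (hE : ∀ e ∈ t'.E, κ e ∈ t''.E) :
    QHom t t'' (fun x => κ (ι x)) Y Y'' (fun x => ψ (φ x)) := by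
  refine ⟨fun x hx => h'.maps _ (h.maps x hx), fun x hx k hk => ?_,
    fun x hx y hy => cg_mul_iff.2 ?_, fun j hj x hx => ?_, fun k hk => ?_⟩
  · rw [h.act x hx k hk, h'.act _ (h.maps x hx) _ (hK k hk)]
  · exact (h'.congrE g' hE (h.maps _ (Y.mul_mem hx hy)) (h.mul' hx hy)).trans
      (h'.mul' (h.maps x hx) (h.maps y hy))
  · exact (h'.congrE g' hE (h.maps _ (g.nY j hj x hx)) (h.equi' hj hx)).trans
      (h'.equi' (hι j hj) (h.maps x hx))
  · exact (h'.congrE g' hE (h.maps _ (g.KY hk)) (h.fix' hk)).trans (h'.fix' (hK k hk))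

theorem pmul (h : QHom t t' ι Y Y' φ) (h' : LHom t t' ι Y Y' f) (g : Good t Y) (g' : Good t' Y')
    (hK : ∀ k ∈ t.K, ι k ∈ t'.K) : QHom t t' ι Y Y' (fun x => φ x * f x) := by
  refine ⟨fun x hx => Y'.mul_mem (h.maps x hx) (h'.maps x hx), fun x hx k hk => ?_,
    fun x hx y hy => cg_mul_iff.2 ?_, fun j hj x hx => ?_, fun k hk => ?_⟩
  · rw [h.act x hx k hk, mul_assoc (φ x) (f x), h'.cen x hx _ (hK k hk)]
    group
  · calc Cg t'.E (φ (x * y) * f (x * y)) (φ x * φ y * (f x * f y)) :=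
          (h.mul' hx hy).mul (g'.nmE (h'.maps _ (Y.mul_mem hx hy))) (h'.mul' hx hy)
      _ = φ x * (φ y * f x * f y) := by group
      Cg t'.E _ (φ x * (f x * φ y * f y)) :=
          ((h'.swap g' hx (h.maps y hy)).right (g'.nmE (h'.maps y hy))).left _
      _ = φ x * f x * (φ y * f y) := by group
  · calc Cg t'.E (φ (j * x * j⁻¹) * f (j * x * j⁻¹))
          (ι j * φ x * (ι j)⁻¹ * (ι j * f x * (ι j)⁻¹)) :=
          (h.equi' hj hx).mul (g'.nmE (h'.maps _ (g.nY j hj x hx))) (h'.equi' hj hx)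
      _ = ι j * (φ x * f x) * (ι j)⁻¹ := by group
  · exact (Cg.mul_mem (h'.fix k hk) _).symm.trans (h.fix' hk)

/-- the pointwise quotient of two quasi-homomorphisms is homogeneous -/
theorem pdiv (h : QHom t t' ι Y Y' φ) (h' : QHom t t' ι Y Y' ψ) (g : Good t Y) (g' : Good t' Y')
    (hK : ∀ k ∈ t'.K, ∃ k₀ ∈ t.K, ι k₀ = k) : LHom t t' ι Y Y' (fun x => (φ x)⁻¹ * ψ x) := by
  have hm : ∀ x ∈ Y, (φ x)⁻¹ * ψ x ∈ Y' := fun x hx =>
    Y'.mul_mem (Y'.inv_mem (h.maps x hx)) (h'.maps x hx)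
  have hc : ∀ x ∈ Y, ∀ k ∈ t'.K, (φ x)⁻¹ * ψ x * k = k * ((φ x)⁻¹ * ψ x) := by
    intro x hx k' hk'
    obtain ⟨k, hk, rfl⟩ := hK k' hk'
    have e := (h.act x hx k hk).symm.trans (h'.act x hx k hk)
    calc (φ x)⁻¹ * ψ x * ι k = (φ x)⁻¹ * (ψ x * ι k * (ψ x)⁻¹) * ψ x := by group
      _ = _ := by rw [← e]; group
  refine ⟨hm, hc, fun x hx y hy => cg_mul_iff.2 ?_, fun j hj x hx => ?_, fun k hk => ?_⟩
  · calc Cg t'.E ((φ (x * y))⁻¹ * ψ (x * y)) ((φ x * φ y)⁻¹ * (ψ x * ψ y)) :=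
          ((h.mul' hx hy).inv (g'.nmE (Y'.inv_mem (h.maps _ (Y.mul_mem hx hy))))).mul
            (g'.nmE (h'.maps _ (Y.mul_mem hx hy))) (h'.mul' hx hy)
      _ = (φ y)⁻¹ * ((φ x)⁻¹ * ψ x) * ψ y := by group
      Cg t'.E _ ((φ x)⁻¹ * ψ x * (φ y)⁻¹ * ψ y) :=
          (g'.swapE (hm x hx) (hc x hx) (Y'.inv_mem (h.maps y hy))).right (g'.nmE (h'.maps y hy))
      _ = (φ x)⁻¹ * ψ x * ((φ y)⁻¹ * ψ y) := by group
  · calc Cg t'.E ((φ (j * x * j⁻¹))⁻¹ * ψ (j * x * j⁻¹))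
          ((ι j * φ x * (ι j)⁻¹)⁻¹ * (ι j * ψ x * (ι j)⁻¹)) :=
          ((h.equi' hj hx).inv (g'.nmE (Y'.inv_mem (h.maps _ (g.nY j hj x hx))))).mul
            (g'.nmE (h'.maps _ (g.nY j hj x hx))) (h'.equi' hj hx)
      _ = ι j * ((φ x)⁻¹ * ψ x) * (ι j)⁻¹ := by group
  · exact (h.fix' hk).trans (h'.fix' hk).symm

theorem one_add (h : LHom t t _root_.id Y Y f) (g : Good t Y) :
    QHom t t _root_.id Y Y (fun x => x * f x) := (QHom.id g).pmul h g g (fun _ hk => hk)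

theorem sub_one (h : QHom t t _root_.id Y Y φ) (g : Good t Y) :
    LHom t t _root_.id Y Y (fun x => x⁻¹ * φ x) :=
  (QHom.id g).pdiv h g g (fun k hk => ⟨k, hk, rfl⟩)

/-- two quasi-homomorphisms that agree modulo `E` on generators agree modulo `E` -/
theorem ext_gen (h : QHom t t' ι Y Y' φ) (h' : QHom t t' ι Y Y' ψ) (g : Good t Y)
    (g' : Good t' Y') {S : Set U} (hS : S ⊆ Y) (e : ∀ x ∈ S, Cg t'.E (φ x) (ψ x)) {x : U}
    (hx : x ∈ t.K ⊔ closure S) : Cg t'.E (φ x) (ψ x) := by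
  have hle : t.K ⊔ closure S ≤ Y := sup_le g.KY ((closure_le _).2 hS)
  rw [← closure_eq t.K, ← Subgroup.closure_union] at hx hle
  induction hx using closure_induction with
  | mem x hx => exact hx.elim (fun hk => (h.fix' hk).trans (h'.fix' hk).symm) (e x)
  | one => exact (Cg.one_iff.2 h.one_mem).symm.trans (Cg.one_iff.2 h'.one_mem)
  | mul a b ha hb iha ihb =>
    exact ((h.mul' (hle ha) (hle hb)).trans (iha.mul (g'.nmE (h.maps _ (hle hb))) ihb)).trans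
      (h'.mul' (hle ha) (hle hb)).symm
  | inv a ha iha =>
    exact ((h.inv' (hle ha)).trans (iha.inv (g'.nmE (Y'.inv_mem (h.maps _ (hle ha)))))).trans
      (h'.inv' (hle ha)).symm
end QHom

/-! ### the commutator defect of a quasi-homomorphism is bimultiplicative -/

/-- the commutator defect -/
def cdef (ι φ : U → U) (x y : U) : U := ⁅φ x, φ y⁆ * (ι ⁅x, y⁆)⁻¹

theorem cdef_eq_one {ι φ : U → U} {x y : U} : cdef ι φ x y = 1 ↔ ⁅φ x, φ y⁆ = ι ⁅x, y⁆ :=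
  mul_inv_eq_one

namespace QHom
variable {ι : Equiv.Perm U} {φ : U → U}

theorem comm' (h : QHom t t' ι Y Y' φ) (g' : Good t' Y') {x y : U} (hx : x ∈ Y) (hy : y ∈ Y) :
    Cg t'.E (φ ⁅x, y⁆) ⁅φ x, φ y⁆ := by
  simp only [commutatorElement_def]
  have hx' := Y.inv_mem hx
  have hy' := Y.inv_mem hy
  refine (h.mul' (Y.mul_mem (Y.mul_mem hx hy) hx') hy').trans
    (Cg.mul (g'.nmE (h.maps _ hy')) ?_ (h.inv' hy))
  exact (h.mul' (Y.mul_mem hx hy) hx').trans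
    (Cg.mul (g'.nmE (h.maps _ hx')) (h.mul' hx hy) (h.inv' hx))

theorem cdef_mem (h : QHom t t' ι Y Y' φ) (hl : Link t t' ι) (g : Good t Y) (g' : Good t' Y')
    {x y : U} (hx : x ∈ Y) (hy : y ∈ Y) : cdef ι φ x y ∈ t'.E := by
  have h1 := (h.fix' (g.comm x hx y hy)).symm.trans (h.comm' g' hx hy)
  obtain ⟨e, he, ee⟩ := h1.exists_eq
  have hk : ι ⁅x, y⁆ ∈ Y' := g'.KY ((hl.K _).1 (g.comm x hx y hy))
  rw [cdef, ee, ← g'.cen e he _ hk]
  simpa using he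

theorem cdef_mul_left (h : QHom t t' ι Y Y' φ) (hl : Link t t' ι) (g : Good t Y)
    (g' : Good t' Y') {x x' y : U} (hx : x ∈ Y) (hx' : x' ∈ Y) (hy : y ∈ Y) :
    cdef ι φ (x * x') y = cdef ι φ x' y * cdef ι φ x y := by
  have hc' := h.cdef_mem hl g g' hx' hy
  have hc := h.cdef_mem hl g g' hx hy
  have hk' := g.comm x' hx' y hy
  have hk := g.comm x hx y hy
  have e1 : ⁅φ (x * x'), φ y⁆ = ⁅φ x * φ x', φ y⁆ := g'.comm_left (h.maps y hy) (h.mul' hx hx')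
  have e2 : ⁅x * x', y⁆ = x * ⁅x', y⁆ * x⁻¹ * ⁅x, y⁆ := by simp only [commutatorElement_def]; group
  have e3 : ι ⁅x * x', y⁆ = φ x * ι ⁅x', y⁆ * (φ x)⁻¹ * ι ⁅x, y⁆ := by
    rw [e2, hl.mul _ (g.KJ (g.conjK hx hk')) _ (g.KJ hk), h.act x hx _ hk']
  have e4 : ⁅φ x * φ x', φ y⁆ = φ x * ⁅φ x', φ y⁆ * (φ x)⁻¹ * ⁅φ x, φ y⁆ := by
    simp only [commutatorElement_def]; group
  have e5 : ⁅φ x', φ y⁆ = cdef ι φ x' y * ι ⁅x', y⁆ := by simp [cdef]
  have e6 : ⁅φ x, φ y⁆ = cdef ι φ x y * ι ⁅x, y⁆ := by simp [cdef]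
  have z1 := g'.cen _ hc' _ (h.maps x hx)
  have z2 := g'.cen _ hc _ (Y'.mul_mem (Y'.mul_mem (h.maps x hx) (g'.KY ((hl.K _).1 hk')))
    (Y'.inv_mem (h.maps x hx)))
  conv_lhs => rw [cdef, e1, e3, e4, e5, e6]
  calc _ = (φ x * cdef ι φ x' y) * ι ⁅x', y⁆ * (φ x)⁻¹ * cdef ι φ x y *
        (φ x * ι ⁅x', y⁆ * (φ x)⁻¹)⁻¹ := by group
    _ = cdef ι φ x' y * ((φ x * ι ⁅x', y⁆ * (φ x)⁻¹) * cdef ι φ x y) *
        (φ x * ι ⁅x', y⁆ * (φ x)⁻¹)⁻¹ := by rw [← z1]; group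
    _ = _ := by rw [← z2]; group

theorem cdef_swap (h : QHom t t' ι Y Y' φ) (hl : Link t t' ι) (g : Good t Y)
    (g' : Good t' Y') {x y : U} (hx : x ∈ Y) (hy : y ∈ Y) :
    cdef ι φ y x = (cdef ι φ x y)⁻¹ := by
  have hc := h.cdef_mem hl g g' hx hy
  have hk := g.comm x hx y hy
  have e6 : ⁅φ x, φ y⁆ = cdef ι φ x y * ι ⁅x, y⁆ := by simp [cdef]
  have z := g'.cen _ hc _ (g'.KY ((hl.K _).1 hk))
  conv_lhs => rw [cdef, ← commutatorElement_inv (φ x), ← commutatorElement_inv x,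
    hl.inv (g.KJ hk), e6, z]
  rw [eq_inv_iff_mul_eq_one, inv_inv, mul_assoc, ← z]
  group

theorem cdef_mul_right (h : QHom t t' ι Y Y' φ) (hl : Link t t' ι) (g : Good t Y)
    (g' : Good t' Y') {x y y' : U} (hx : x ∈ Y) (hy : y ∈ Y) (hy' : y' ∈ Y) :
    cdef ι φ x (y * y') = cdef ι φ x y * cdef ι φ x y' := by
  rw [h.cdef_swap hl g g' (Y.mul_mem hy hy') hx, h.cdef_mul_left hl g g' hy hy' hx,
    h.cdef_swap hl g g' hy hx, h.cdef_swap hl g g' hy' hx, mul_inv_rev]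

theorem cdef_K_left (h : QHom t t' ι Y Y' φ) (hl : Link t t' ι) (g : Good t Y)
    (g' : Good t' Y') {k y : U} (hk : k ∈ t.K) (hy : y ∈ Y) : cdef ι φ k y = 1 := by
  rw [cdef_eq_one, g'.comm_left (h.maps y hy) (h.fix' hk)]
  have e : ⁅k, y⁆ = k * (y * k⁻¹ * y⁻¹) := by simp only [commutatorElement_def]; group
  rw [e, hl.mul _ (g.KJ hk) _ (g.KJ (g.conjK hy (t.K.inv_mem hk))),
    h.act y hy _ (t.K.inv_mem hk), hl.inv (g.KJ hk), commutatorElement_def]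
  group

theorem cdef_K_right (h : QHom t t' ι Y Y' φ) (hl : Link t t' ι) (g : Good t Y)
    (g' : Good t' Y') {k y : U} (hy : y ∈ Y) (hk : k ∈ t.K) : cdef ι φ y k = 1 := by
  rw [h.cdef_swap hl g g' (g.KY hk) hy, h.cdef_K_left hl g g' hk hy, inv_one]
end QHom

/-! ### adjoint pairs -/

namespace HAdj
variable {ι : Equiv.Perm U} {Q : List (U × U)} {f f' a a' : U → U}

theorem one (hl : Link t t' ι) (g : Good t Y) (g' : Good t' Y') :
    HAdj t t' ι Y Y' Q (fun _ => 1) (fun _ => 1) :=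
  ⟨LHom.one g', LHom.one g, fun _ _ => ⟨t'.E.one_mem, t.E.one_mem⟩,
    fun _ _ _ _ => by simpa using hl.one⟩

theorem pmul (h : HAdj t t' ι Y Y' Q f f') (h' : HAdj t t' ι Y Y' Q a a') (hl : Link t t' ι)
    (g : Good t Y) (g' : Good t' Y') :
    HAdj t t' ι Y Y' Q (fun x => f x * a x) (fun x => f' x * a' x) := by
  refine ⟨h.l.pmul h'.l g g', h.l'.pmul h'.l' g' g, fun q hq =>
    ⟨t'.E.mul_mem (h.pin q hq).1 (h'.pin q hq).1, t.E.mul_mem (h.pin q hq).2 (h'.pin q hq).2⟩,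
    fun x hx y hy => ?_⟩
  have m1 := h.l'.comm_mem' g hy hx
  have m2 := h'.l'.comm_mem' g hy hx
  rw [g.comm_mul_right (h.l'.maps y hy) m2, g'.comm_mul_left (h.l.maps x hx)
    (h'.l.comm_mem g' hx hy), hl.mul _ (g.EJ m1) _ (g.EJ m2), h.adj x hx y hy, h'.adj x hx y hy]
  exact g'.Ecomm (h.l.comm_mem g' hx hy) (h'.l.comm_mem g' hx hy)

theorem pinv (h : HAdj t t' ι Y Y' Q f f') (hl : Link t t' ι) (g : Good t Y) (g' : Good t' Y') :
    HAdj t t' ι Y Y' Q (fun x => (f x)⁻¹) (fun x => (f' x)⁻¹) := by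
  refine ⟨h.l.pinv g g', h.l'.pinv g' g, fun q hq =>
    ⟨t'.E.inv_mem (h.pin q hq).1, t.E.inv_mem (h.pin q hq).2⟩, fun x hx y hy => ?_⟩
  have m1 := h.l'.comm_mem' g hy hx
  have m2 := (h.l'.pinv g' g).comm_mem' g hy hx
  have e1 := g.comm_mul_right (h.l'.maps y hy) m2
  have e2 := g'.comm_mul_left (Y'.inv_mem (h.l.maps x hx)) (h.l.comm_mem g' hx hy)
  rw [mul_inv_cancel, commutatorElement_one_right] at e1
  rw [inv_mul_cancel, commutatorElement_one_left] at e2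
  rw [eq_inv_of_mul_eq_one_right e1.symm, eq_inv_of_mul_eq_one_right e2.symm, hl.inv (g.EJ m1),
    h.adj x hx y hy]
end HAdj

namespace Adj
variable {ι : Equiv.Perm U} {Q : List (U × U)} {φ θ ψ η a a' : U → U}

theorem pmul (h : Adj t t' ι Y Y' Q φ θ) (h' : HAdj t t' ι Y Y' Q a a') (hl : Link t t' ι)
    (g : Good t Y) (g' : Good t' Y') :
    Adj t t' ι Y Y' Q (fun x => φ x * a x) (fun x => θ x * a' x) := by
  refine ⟨h.l.pmul h'.l g g' (fun k hk => (hl.K k).1 hk),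
    h.l'.pmul h'.l' g' g (fun k hk => (hl.symm.K k).1 hk), fun q hq =>
    ⟨(Cg.mul_mem (h'.pin q hq).1 _).symm.trans (h.pin q hq).1,
      (Cg.mul_mem (h'.pin q hq).2 _).symm.trans (h.pin q hq).2⟩, fun x hx y hy => ?_⟩
  have m2 := h'.l'.comm_mem' g hy hx
  rw [g.comm_mul_right (h.l'.maps y hy) m2, g'.comm_mul_left (h.l.maps x hx)
    (h'.l.comm_mem g' hx hy), hl.mul _ (g.KJ (g.comm _ hx _ (h.l'.maps y hy))) _ (g.EJ m2),
    h.adj x hx y hy, h'.adj x hx y hy]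
  exact (g'.cen _ (h'.l.comm_mem g' hx hy) _ (g'.KY (g'.comm _ (h.l.maps x hx) _ hy))).symm

theorem pdiv (h : Adj t t' ι Y Y' Q φ θ) (h' : Adj t t' ι Y Y' Q ψ η) (hl : Link t t' ι)
    (g : Good t Y) (g' : Good t' Y') :
    HAdj t t' ι Y Y' Q (fun x => (φ x)⁻¹ * ψ x) (fun x => (θ x)⁻¹ * η x) := by
  have l1 := h.l.pdiv h'.l g g' (fun k hk => ⟨ι.symm k, (hl.symm.K k).1 hk, by simp⟩)
  have l2 := h.l'.pdiv h'.l' g' g (fun k hk => ⟨ι k, (hl.K k).1 hk, by simp⟩)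
  refine ⟨l1, l2, fun q hq => ⟨Cg.trans (h.pin q hq).1 (Cg.symm (h'.pin q hq).1),
    Cg.trans (h.pin q hq).2 (Cg.symm (h'.pin q hq).2)⟩, fun x hx y hy => ?_⟩
  have m2 := l2.comm_mem' g hy hx
  have m1 := l1.comm_mem g' hx hy
  have e1 := g.comm_mul_right (h.l'.maps y hy) m2
  have e2 := g'.comm_mul_left (h.l.maps x hx) m1
  rw [mul_inv_cancel_left] at e1 e2
  have e3 := h'.adj x hx y hy
  rw [e1, e2, hl.mul _ (g.KJ (g.comm _ hx _ (h.l'.maps y hy))) _ (g.EJ m2), h.adj x hx y hy,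
    g'.cen _ m1 _ (g'.KY (g'.comm _ (h.l.maps x hx) _ hy))] at e3
  exact mul_left_cancel e3

/-- an isomorphism and its inverse are adjoint -/
theorem of_isoOn {γ : U → U} (h : IsoOn t.J t.K ι Y Y' γ) (hl : Link t t' ι) (g : Good t Y)
    (g' : Good t' Y') (hQ : ∀ q ∈ Q, q.1 ∈ Y ∧ q.2 ∈ Y' ∧ Cg t'.E (γ q.1) q.2) :
    ∃ δ, Adj t t' ι Y Y' Q γ δ ∧ IsoOn t'.J t'.K ι.symm Y' Y δ ∧ (∀ x ∈ Y, δ (γ x) = x) ∧
      ∀ y ∈ Y', γ (δ y) = y := by
  obtain ⟨δ, hδ, e1, e2⟩ := h.symm (J' := t'.J) (S' := t'.K) (κ := ι.symm) g.nY g.KY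
    (fun j hj => ⟨(hl.symm.J j).1 hj, by simp⟩) (fun j hj => ⟨(hl.symm.K j).1 hj, by simp⟩)
  have q2 : QHom t' t ι.symm Y' Y δ := QHom.of_isoOn hδ g'
  refine ⟨δ, ⟨QHom.of_isoOn h g, q2, fun q hq => ⟨(hQ q hq).2.2, ?_⟩, fun x hx y hy => ?_⟩,
    hδ, e1, e2⟩
  · have := q2.congrE g' (fun e he => (hl.symm.E e).1 he) (h.maps (hQ q hq).1) (hQ q hq).2.2
    rw [e1 _ (hQ q hq).1] at this
    exact this.symm
  · rw [← h.fix _ (g.comm _ hx _ (hδ.maps hy)), h.comm hx (hδ.maps hy), e2 y hy]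
end Adj

theorem rr_iff {P : List U} {r r' : U → U} :
    RR t Y P r r' ↔ HAdj t t 1 Y Y (P.zip P) r r' := by
  have hz : ∀ q, q ∈ P.zip P ↔ ∃ x ∈ P, q = (x, x) := by
    intro q
    rw [List.zip_eq_zipWith, List.zipWith_self]
    simp [eq_comm]
  refine ⟨fun h => ⟨h.l, h.l', fun q hq => ?_, h.adj⟩, fun h => ⟨h.l, h.l', fun x hx => ?_, h.adj⟩⟩
  · obtain ⟨x, hx, rfl⟩ := (hz q).1 hq
    exact h.pin x hx
  · exact h.pin (x, x) ((hz _).2 ⟨x, hx, rfl⟩)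

namespace RR
variable {P P' : List U} {r r' s s' : U → U}

theorem one (g : Good t Y) : RR t Y P (fun _ => 1) (fun _ => 1) :=
  rr_iff.2 (HAdj.one (Link.refl t) g g)
theorem pmul (h : RR t Y P r r') (h' : RR t Y P s s') (g : Good t Y) :
    RR t Y P (fun x => r x * s x) (fun x => r' x * s' x) :=
  rr_iff.2 ((rr_iff.1 h).pmul (rr_iff.1 h') (Link.refl t) g g)
theorem pinv (h : RR t Y P r r') (g : Good t Y) :
    RR t Y P (fun x => (r x)⁻¹) (fun x => (r' x)⁻¹) :=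
  rr_iff.2 ((rr_iff.1 h).pinv (Link.refl t) g g)
theorem swap (h : RR t Y P r r') : RR t Y P r' r :=
  ⟨h.l', h.l, fun x hx => (h.pin x hx).symm, fun x hx y hy => by
    rw [← commutatorElement_inv (r y), ← h.adj y hy x hx, commutatorElement_inv]⟩
theorem comp (h : RR t Y P r r') (h' : RR t Y P s s') (g : Good t Y) :
    RR t Y P (fun x => r (s x)) (fun x => s' (r' x)) :=
  ⟨h.l.comp_id h'.l g, h'.l'.comp_id h.l' g, fun x hx =>
    ⟨h.l.fix _ (g.EK (h'.pin x hx).1), h'.l'.fix _ (g.EK (h.pin x hx).2)⟩, fun x hx y hy => by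
    rw [h'.adj x hx _ (h.l'.maps y hy), h.adj _ (h'.l.maps x hx) y hy]⟩
theorem mono (h : RR t Y P r r') (hP : ∀ x ∈ P', x ∈ P ∨ x ∈ t.K) : RR t Y P' r r' :=
  ⟨h.l, h.l', fun x hx => (hP x hx).elim (h.pin x) (fun hk => ⟨h.l.fix x hk, h.l'.fix x hk⟩),
    h.adj⟩
theorem congr (h : RR t Y P r r') (g : Good t Y) (hP : ∀ x ∈ P, x ∈ Y)
    (e : ∀ x ∈ Y, Cg t.E (r x) (s x)) (e' : ∀ x ∈ Y, Cg t.E (r' x) (s' x)) : RR t Y P s s' :=
  ⟨h.l.congr g g (fun _ hj => hj) e, h.l'.congr g g (fun _ hj => hj) e', fun x hx =>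
    ⟨((e x (hP x hx)).mem_iff le_rfl).1 (h.pin x hx).1,
      ((e' x (hP x hx)).mem_iff le_rfl).1 (h.pin x hx).2⟩, fun x hx y hy => by
    rw [← g.comm_left hy (e x hx), ← g.comm_right hx (e' y hy), h.adj x hx y hy]⟩
end RR

/-- the difference of an adjoint pair and an isomorphism lies in the ring -/
theorem Adj.rr {ι : Equiv.Perm U} {P P' : List U} {φ θ γ δ : U → U}
    (h : Adj t t' ι Y Y' (P.zip P') φ θ) (hγ : IsoOn t.J t.K ι Y Y' γ)
    (hδ : IsoOn t'.J t'.K ι.symm Y' Y δ) (e1 : ∀ x ∈ Y, δ (γ x) = x) (e2 : ∀ y ∈ Y', γ (δ y) = y)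
    (hl : Link t t' ι) (g : Good t Y) (g' : Good t' Y') (hlen : P.length = P'.length)
    (hQ : ∀ q ∈ P.zip P', q.1 ∈ Y ∧ q.2 ∈ Y' ∧ Cg t'.E (γ q.1) q.2) :
    RR t Y P (fun x => x⁻¹ * δ (φ x)) (fun x => x⁻¹ * θ (γ x)) := by
  have qγ : QHom t t' ι Y Y' γ := QHom.of_isoOn hγ g
  have qδ : QHom t' t ι.symm Y' Y δ := QHom.of_isoOn hδ g'
  have hJ : ∀ j ∈ t.J, ι j ∈ t'.J := fun j hj => (hl.J j).1 hj
  have hK : ∀ j ∈ t.K, ι j ∈ t'.K := fun j hj => (hl.K j).1 hj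
  have hE : ∀ j ∈ t'.E, ι.symm j ∈ t.E := fun j hj => (hl.symm.E j).1 hj
  have eid : (fun x => ι.symm (ι x)) = id := by ext x; simp
  have q1 : QHom t t id Y Y (fun x => δ (φ x)) := eid ▸ qδ.comp h.l g g' hJ hK hE
  have q2 : QHom t t id Y Y (fun x => θ (γ x)) := eid ▸ h.l'.comp qγ g g' hJ hK hE
  have l1 := q1.sub_one g
  have l2 := q2.sub_one g
  refine ⟨l1, l2, fun x hx => ?_, fun x hx y hy => ?_⟩
  · obtain ⟨i, hi, rfl⟩ := List.getElem_of_mem hx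
    have hm : (P[i], P'[i]'(hlen ▸ hi)) ∈ P.zip P' := by
      rw [List.mem_iff_getElem]
      exact ⟨i, by simp [hi, hlen ▸ hi], by simp⟩
    obtain ⟨a1, a2, a3⟩ := hQ _ hm
    obtain ⟨b1, b2⟩ := h.pin _ hm
    constructor
    · have := qδ.congrE g' hE (hγ.maps a1) (a3.trans (Cg.symm b1))
      rwa [e1 _ a1] at this
    · exact Cg.symm ((h.l'.congrE g' hE (hγ.maps a1) a3).trans b2)
  · have m1 := l1.comm_mem g hx hy
    have m2 := l2.comm_mem' g hy hx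
    have c1 := g.comm_mul_left hx m1
    have c2 := g.comm_mul_right hy m2
    rw [mul_inv_cancel_left] at c1 c2
    have c3 : ⁅δ (φ x), y⁆ = ⁅x, θ (γ y)⁆ := by
      apply ι.injective
      rw [h.adj x hx _ (hγ.maps hy), ← hγ.fix _ (g.comm _ (hδ.maps (h.l.maps x hx)) _ hy),
        hγ.comm (hδ.maps (h.l.maps x hx)) hy, e2 _ (h.l.maps x hx)]
    rw [c1, c2, g.cen _ m1 _ (g.KY (g.comm x hx y hy))] at c3
    exact (mul_left_cancel c3).symm

/-! ### the filtration -/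

section filt
variable {P P' : List U}

theorem filt_le (g : Good t Y) : ∀ i, Filt t Y P i ≤ Y
  | 0 => le_rfl
  | i + 1 => sup_le g.KY ((closure_le _).2 (by
      rintro _ ⟨r, r', h, x, hx, rfl⟩
      exact h.l.maps x (filt_le g i hx)))

theorem le_filt (g : Good t Y) : ∀ i, t.K ≤ Filt t Y P i
  | 0 => g.KY
  | _ + 1 => le_sup_left

theorem RR.map_filt {r r' : U → U} (h : RR t Y P r r') {i : ℕ} {x : U} (hx : x ∈ Filt t Y P i) :
    r x ∈ Filt t Y P (i + 1) :=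
  (le_sup_right : _ ≤ t.K ⊔ _) (subset_closure ⟨r, r', h, x, hx, rfl⟩)

theorem filt_succ_mono {i j : ℕ} (hP : ∀ r r', RR t Y P r r' → RR t Y P' r r')
    (h : Filt t Y P i ≤ Filt t Y P' j) : Filt t Y P (i + 1) ≤ Filt t Y P' (j + 1) :=
  sup_le_sup_left (Subgroup.closure_mono (by
    rintro _ ⟨r, r', hr, x, hx, rfl⟩
    exact ⟨r, r', hP r r' hr, x, h hx, rfl⟩)) _

theorem filt_succ_le (g : Good t Y) : ∀ i, Filt t Y P (i + 1) ≤ Filt t Y P i
  | 0 => filt_le g 1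
  | i + 1 => filt_succ_mono (fun _ _ h => h) (filt_succ_le g i)

theorem filt_anti (g : Good t Y) : Antitone (Filt t Y P) := antitone_nat_of_succ_le (filt_succ_le g)

theorem Nil.mono (h : Nil t Y P) (hP : ∀ x ∈ P, x ∈ P' ∨ x ∈ t.K) : Nil t Y P' := by
  obtain ⟨m, hm⟩ := h
  refine ⟨m, le_trans ?_ hm⟩
  clear hm
  induction m with
  | zero => exact le_rfl
  | succ m ih => exact filt_succ_mono (fun _ _ h => h.mono hP) ih

/-- a nilpotent filtration reaches `K` after at most `card Y` steps -/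
theorem Nil.filt_card [Finite Y] (h : Nil t Y P) (g : Good t Y) {n : ℕ} (hn : Nat.card Y ≤ n) :
    Filt t Y P n ≤ t.K := by
  obtain ⟨m, hm⟩ := h
  have stab : ∀ i, Filt t Y P i ≤ Filt t Y P (i + 1) → ∀ j, Filt t Y P i ≤ Filt t Y P (i + j) := by
    intro i hi j
    induction j with
    | zero => exact le_rfl
    | succ j ih => exact hi.trans (filt_succ_mono (fun _ _ h => h) ih)
  have fin : ∀ i, Finite (Filt t Y P i) := fun i =>
    Finite.of_injective _ (Subgroup.inclusion_injective (filt_le g i))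
  have key : ∀ i, Filt t Y P i ≤ t.K ∨ Nat.card (Filt t Y P i) + i ≤ Nat.card Y := by
    intro i
    induction i with
    | zero => exact Or.inr le_rfl
    | succ i ih =>
      rcases ih with ih | ih
      · exact Or.inl ((filt_succ_le g i).trans ih)
      by_cases hi : Filt t Y P i ≤ Filt t Y P (i + 1)
      · exact Or.inl ((filt_succ_le g i).trans
          ((stab i hi m).trans ((filt_anti g (Nat.le_add_left m i)).trans hm)))
      · right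
        have := fin i
        have hlt : Nat.card (Filt t Y P (i + 1)) < Nat.card (Filt t Y P i) := by
          refine lt_of_le_of_ne (Subgroup.card_le_of_le (filt_succ_le g i)) (fun e => hi ?_)
          exact (Subgroup.eq_of_le_of_card_ge (filt_succ_le g i) e.ge).ge
        omega
  rcases key n with h | h
  · exact h
  · have := fin n
    have := Nat.card_pos (α := Filt t Y P n)
    omega

/-- `1 + r` is injective modulo `K` -/
theorem Nil.inj (h : Nil t Y P) (g : Good t Y) {r r' : U → U} (hr : RR t Y P r r') {x : U}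
    (hx : x ∈ Y) (hk : x * r x ∈ t.K) : x ∈ t.K := by
  obtain ⟨m, hm⟩ := h
  refine hm ?_
  clear hm
  induction m with
  | zero => exact hx
  | succ m ih =>
    have := (Filt t Y P (m + 1)).mul_mem (le_filt g _ hk) (Subgroup.inv_mem _ (hr.map_filt ih))
    simpa using this
end filt

end Pool.Agent.P.MP_f1a348_lc.GI
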