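import Pool.Agent.P.MP_f1a348_lc.GI.MDefs

/-!
The pin lemma for finite rings with involution.
-/

namespace Pool.Agent.P.MP_f1a348_lc.GI

namespace RingA

variable {T : Type} [Ring T]

theorem pow_succ_mem (S : NonUnitalSubring T) {a : T} (ha : a ∈ S) (n : ℕ) : a ^ (n + 1) ∈ S := by
  induction n with
  | zero => simpa using ha
  | succ n ih => rw [pow_succ]; exact S.mul_mem ih ha

/-- some positive power of an element of a finite subring is idempotent -/
theorem exists_idem (S : NonUnitalSubring T) [Finite S] {a : T} (ha : a ∈ S) :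
    ∃ k : ℕ, a ^ (k + 1) * a ^ (k + 1) = a ^ (k + 1) := by
  obtain ⟨i, j, hij, h⟩ := Finite.exists_ne_map_eq_of_infinite
    (fun n : ℕ => (⟨a ^ (n + 1), pow_succ_mem S ha n⟩ : S))
  have key : ∀ i j : ℕ, i < j → a ^ (i + 1) = a ^ (j + 1) →
      ∃ k : ℕ, a ^ (k + 1) * a ^ (k + 1) = a ^ (k + 1) := by
    intro i j hlt h
    obtain ⟨d, rfl⟩ : ∃ d, j = i + (d + 1) := ⟨j - i - 1, by omega⟩
    have h1 : ∀ t : ℕ, a ^ (i + 1 + t * (d + 1)) = a ^ (i + 1) := by
      intro t
      induction t with
      | zero => simp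
      | succ t ih =>
        have : i + 1 + (t + 1) * (d + 1) = (i + (d + 1) + 1) + t * (d + 1) := by ring
        rw [this, pow_add, ← h, ← pow_add, ih]
    refine ⟨i + d * (i + 1), ?_⟩
    rw [← pow_add]
    have e1 : i + d * (i + 1) + 1 + (i + d * (i + 1) + 1)
        = (i + 1 + (i + 1) * (d + 1)) + d * (i + 1) := by ring
    have e2 : i + d * (i + 1) + 1 = (i + 1) + d * (i + 1) := by ring
    rw [e1, pow_add, h1, ← pow_add, e2]
  have h' : a ^ (i + 1) = a ^ (j + 1) := congrArg Subtype.val h
  rcases lt_or_gt_of_ne hij with hlt | hlt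
  · exact key i j hlt h'
  · exact key j i hlt h'.symm

theorem sig_zero {σ : T → T} (hadd : ∀ a b, σ (a + b) = σ a + σ b) : σ 0 = 0 := by
  have := hadd 0 0
  rw [add_zero] at this
  exact left_eq_add.mp this

theorem sig_neg {σ : T → T} (hadd : ∀ a b, σ (a + b) = σ a + σ b) (a : T) : σ (-a) = -σ a := by
  have := hadd a (-a)
  rw [add_neg_cancel, sig_zero hadd] at this
  exact (neg_eq_of_add_eq_zero_right this.symm).symm

theorem sig_sub {σ : T → T} (hadd : ∀ a b, σ (a + b) = σ a + σ b) (a b : T) :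
    σ (a - b) = σ a - σ b := by
  rw [sub_eq_add_neg, hadd, sig_neg hadd, sub_eq_add_neg]

theorem sig_pow {σ : T → T} (hmul : ∀ a b, σ (a * b) = σ b * σ a) (a : T) (n : ℕ) :
    σ (a ^ (n + 1)) = σ a ^ (n + 1) := by
  induction n with
  | zero => simp
  | succ n ih => rw [pow_succ, hmul, ih, ← pow_succ']

theorem sig_sum {σ : T → T} (hadd : ∀ a b, σ (a + b) = σ a + σ b) {ι : Type} (s : Finset ι)
    (f : ι → T) : σ (∑ i ∈ s, f i) = ∑ i ∈ s, σ (f i) := by
  classical
  induction s using Finset.induction_on with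
  | empty => simpa using sig_zero hadd
  | insert i s hi ih => rw [Finset.sum_insert hi, Finset.sum_insert hi, hadd, ih]

/-- without nonzero self-adjoint idempotents every element is nilpotent -/
theorem nilp (σ : T → T) (S : NonUnitalSubring T) [Finite S]
    (hadd : ∀ a b, σ (a + b) = σ a + σ b) (hmul : ∀ a b, σ (a * b) = σ b * σ a)
    (hinv : ∀ a, σ (σ a) = a) (hS : ∀ a ∈ S, σ a ∈ S)
    (hno : ∀ e ∈ S, σ e = e → e * e = e → e = 0) : ∀ a ∈ S, IsNilpotent a := by
  have hsa : ∀ a ∈ S, σ a = a → IsNilpotent a := by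
    intro a ha h
    obtain ⟨k, hk⟩ := exists_idem S ha
    exact ⟨k + 1, hno _ (pow_succ_mem S ha k) (by rw [sig_pow hmul, h]) hk⟩
  have hid : ∀ e ∈ S, e * e = e → e = 0 := by
    intro e he hee
    obtain ⟨f, hf⟩ : ∃ f, f = σ e := ⟨_, rfl⟩
    have hfS : f ∈ S := hf ▸ hS e he
    have hff : f * f = f := by rw [hf, ← hmul, hee]
    have hσf : σ f = e := by rw [hf, hinv]
    have hz : IsNilpotent ((e - f) * (e - f)) := by
      refine hsa _ (S.mul_mem (S.sub_mem he hfS) (S.sub_mem he hfS)) ?_
      rw [hmul, sig_sub hadd, ← hf, hσf]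
      noncomm_ring
    have hze : (e - f) * (e - f) * e = e - e * f * e := by
      have : (e - f) * (e - f) * e = e * e * e - e * f * e - f * (e * e) + f * f * e := by
        noncomm_ring
      rw [this, hee, hee, hff]; abel
    have hez : e * ((e - f) * (e - f)) = e - e * f * e := by
      have : e * ((e - f) * (e - f)) = e * e * e - e * e * f - e * f * e + e * (f * f) := by
        noncomm_ring
      rw [this, hee, hee, hff]; abel
    have hc : Commute ((e - f) * (e - f)) e := by
      unfold Commute SemiconjBy; rw [hze, hez]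
    have h1 : IsNilpotent (e - e * f * e) := by
      rw [← hze]; exact hc.isNilpotent_mul_right hz
    have hfe : IsNilpotent (f * e) := by
      refine hsa _ (S.mul_mem hfS he) ?_
      rw [hmul, ← hf, hσf]
    have h2 : IsNilpotent (e * f * e) := by
      obtain ⟨n, hn⟩ := hfe
      have : ∀ m : ℕ, (e * f * e) ^ (m + 1) = e * (f * e) ^ (m + 1) := by
        intro m
        induction m with
        | zero => simp [mul_assoc]
        | succ m ih =>
          rw [pow_succ', ih, pow_succ' (f * e) (m + 1)]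
          have : e * f * e * (e * (f * e) ^ (m + 1)) = e * f * (e * e) * (f * e) ^ (m + 1) := by
            noncomm_ring
          rw [this, hee]; noncomm_ring
      exact ⟨n + 1, by rw [this, pow_succ, hn]; simp⟩
    have hc2 : Commute (e * f * e) (e - e * f * e) := by
      refine Commute.sub_right ?_ (Commute.refl _)
      unfold Commute SemiconjBy
      have a1 : e * f * e * e = e * f * (e * e) := by noncomm_ring
      have a2 : e * (e * f * e) = (e * e) * f * e := by noncomm_ring
      rw [a1, a2, hee]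
    have h3 : IsNilpotent e := by
      have := hc2.isNilpotent_add h2 h1
      rwa [add_sub_cancel] at this
    obtain ⟨n, hn⟩ := h3
    have : ∀ m : ℕ, e ^ (m + 1) = e := by
      intro m
      induction m with
      | zero => simp
      | succ m ih => rw [pow_succ, ih, hee]
    rw [← this n, pow_succ, hn, zero_mul]
  intro a ha
  obtain ⟨k, hk⟩ := exists_idem S ha
  exact ⟨k + 1, hid _ (pow_succ_mem S ha k) hk⟩

theorem prod_mem (S : NonUnitalSubring T) (w : List T) (hw : w ≠ []) (h : ∀ s ∈ w, s ∈ S) :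
    w.prod ∈ S := by
  induction w with
  | nil => exact absurd rfl hw
  | cons a w ih =>
    rcases w with _ | ⟨b, w⟩
    · simpa using h a (by simp)
    · rw [List.prod_cons]
      exact S.mul_mem (h a (by simp)) (ih (by simp) fun s hs => h s (List.mem_cons_of_mem _ hs))

/-- a finite nil subring is nilpotent -/
theorem long_prod (S : NonUnitalSubring T) [Finite S] (hn : ∀ a ∈ S, IsNilpotent a) :
    ∃ n : ℕ, ∀ w : List T, w.length = n → (∀ s ∈ w, s ∈ S) → w.prod = 0 := by
  refine ⟨Nat.card S + 1, fun w hw hS => ?_⟩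
  have hmem : ∀ i : Fin (Nat.card S + 1), (w.take (i + 1)).prod ∈ S := by
    intro i
    refine prod_mem S _ ?_ fun s hs => hS s (List.mem_of_mem_take hs)
    intro h
    have := congrArg List.length h
    rw [List.length_take, hw] at this
    simp at this
  have key : ∀ i j : ℕ, i < j → j < Nat.card S + 1 →
      (w.take (i + 1)).prod = (w.take (j + 1)).prod → w.prod = 0 := by
    intro i j hij hj h
    obtain ⟨d, rfl⟩ : ∃ d, j = i + (d + 1) := ⟨j - i - 1, by omega⟩
    have e1 : i + (d + 1) + 1 = (i + 1) + (d + 1) := by ring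
    rw [e1, List.take_add (i := i + 1), List.prod_append] at h
    obtain ⟨v, hv⟩ : ∃ v, v = ((w.drop (i + 1)).take (d + 1)).prod := ⟨_, rfl⟩
    have hvS : v ∈ S := by
      rw [hv]
      refine prod_mem S _ ?_ fun s hs => hS s (List.mem_of_mem_drop (List.mem_of_mem_take hs))
      intro h
      have := congrArg List.length h
      rw [List.length_take, List.length_drop, hw] at this
      simp at this
      omega
    rw [← hv] at h
    obtain ⟨n, hn⟩ := hn v hvS
    have : ∀ m : ℕ, (w.take (i + 1)).prod = (w.take (i + 1)).prod * v ^ m := by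
      intro m
      induction m with
      | zero => simp
      | succ m ih => rw [pow_succ', ← mul_assoc, ← h, ← ih]
    have h0 : (w.take (i + 1)).prod = 0 := by rw [this n, hn, mul_zero]
    rw [← List.take_append_drop (i + 1) w, List.prod_append, h0, zero_mul]
  have : Fintype S := Fintype.ofFinite S
  obtain ⟨i, j, hij, h⟩ := Fintype.exists_ne_map_eq_of_card_lt
    (fun i : Fin (Nat.card S + 1) => (⟨_, hmem i⟩ : S)) (by simp)
  have h' : (w.take (i + 1)).prod = (w.take (j + 1)).prod := congrArg Subtype.val h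
  rcases lt_or_gt_of_ne hij with hlt | hlt
  · exact key i j hlt j.2 h'
  · exact key j i hlt i.2 h'.symm

/-- the elements of `S` that kill `x` together with their adjoints -/
def killer {M : Type} [AddCommGroup M] [Module T M] (σ : T → T)
    (hadd : ∀ a b, σ (a + b) = σ a + σ b) (hmul : ∀ a b, σ (a * b) = σ b * σ a)
    (S : NonUnitalSubring T) (x : M) : NonUnitalSubring T where
  carrier := {s | s ∈ S ∧ s • x = 0 ∧ σ s • x = 0}
  add_mem' := by
    rintro a b ⟨ha, ha1, ha2⟩ ⟨hb, hb1, hb2⟩
    exact ⟨S.add_mem ha hb, by rw [add_smul, ha1, hb1, add_zero],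
      by rw [hadd, add_smul, ha2, hb2, add_zero]⟩
  zero_mem' := ⟨S.zero_mem, zero_smul _ _, by rw [sig_zero hadd, zero_smul]⟩
  mul_mem' := by
    rintro a b ⟨ha, ha1, ha2⟩ ⟨hb, hb1, hb2⟩
    exact ⟨S.mul_mem ha hb, by rw [mul_smul, hb1, smul_zero],
      by rw [hmul, mul_smul, ha2, smul_zero]⟩
  neg_mem' := by
    rintro a ⟨ha, ha1, ha2⟩
    exact ⟨S.neg_mem ha, by rw [neg_smul, ha1, neg_zero],
      by rw [sig_neg hadd, neg_smul, ha2, neg_zero]⟩

/-- the elements of `S` orthogonal to `F` -/
def corner (S : NonUnitalSubring T) (F : T) : NonUnitalSubring T where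
  carrier := {s | s ∈ S ∧ F * s = 0 ∧ s * F = 0}
  add_mem' := by
    rintro a b ⟨ha, ha1, ha2⟩ ⟨hb, hb1, hb2⟩
    exact ⟨S.add_mem ha hb, by rw [mul_add, ha1, hb1, add_zero],
      by rw [add_mul, ha2, hb2, add_zero]⟩
  zero_mem' := ⟨S.zero_mem, mul_zero _, zero_mul _⟩
  mul_mem' := by
    rintro a b ⟨ha, ha1, ha2⟩ ⟨hb, hb1, hb2⟩
    exact ⟨S.mul_mem ha hb, by rw [← mul_assoc, ha1, zero_mul], by rw [mul_assoc, hb2, mul_zero]⟩
  neg_mem' := by
    rintro a ⟨ha, ha1, ha2⟩
    exact ⟨S.neg_mem ha, by rw [mul_neg, ha1, neg_zero], by rw [neg_mul, ha2, neg_zero]⟩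

theorem finite_of_le {S S' : NonUnitalSubring T} [Finite S] (h : ∀ s ∈ S', s ∈ S) : Finite S' :=
  Finite.of_injective (fun s : S' => (⟨s.1, h s.1 s.2⟩ : S))
    fun _ _ hab => Subtype.ext (congrArg (fun s : S => (s : T)) hab)

/-- pinning a vector fixed by an element of `S` lowers the rank -/
theorem rank_drop {M : Type} [AddCommGroup M] [Module T M] (σ : T → T) (S : NonUnitalSubring T)
    [Finite S] (ρ : ℕ) (hadd : ∀ a b, σ (a + b) = σ a + σ b)
    (hmul : ∀ a b, σ (a * b) = σ b * σ a) (hinv : ∀ a, σ (σ a) = a) (hS : ∀ a ∈ S, σ a ∈ S)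
    (hρ : ∀ (n : ℕ) (e : Fin n → T), (∀ i, e i ∈ S ∧ σ (e i) = e i ∧ e i * e i = e i ∧ e i ≠ 0) →
      (∀ i j, i ≠ j → e i * e j = 0) → n ≤ ρ)
    {e : T} (he : e ∈ S) {x : M} (hx : x ≠ 0) (hex : e • x = x) (n : ℕ) (f : Fin n → T)
    (hf : ∀ i, f i ∈ S ∧ σ (f i) = f i ∧ f i * f i = f i ∧ f i ≠ 0)
    (hfx : ∀ i, f i • x = 0) (horth : ∀ i j, i ≠ j → f i * f j = 0) : n + 1 ≤ ρ := by
  by_contra hcon
  obtain ⟨F, hF⟩ : ∃ F, F = ∑ i, f i := ⟨_, rfl⟩
  have hFS : F ∈ S := hF ▸ S.sum_mem fun i _ => (hf i).1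
  have hσF : σ F = F := by
    rw [hF, sig_sum hadd]; exact Finset.sum_congr rfl fun i _ => (hf i).2.1
  have hl : ∀ i, f i * F = f i := by
    intro i
    rw [hF, Finset.mul_sum, Finset.sum_eq_single i (fun j _ hj => horth i j hj.symm) (by simp)]
    exact (hf i).2.2.1
  have hr : ∀ i, F * f i = f i := by
    intro i
    rw [hF, Finset.sum_mul, Finset.sum_eq_single i (fun j _ hj => horth j i hj) (by simp)]
    exact (hf i).2.2.1
  have hFF : F * F = F := by
    conv_lhs => rw [hF, Finset.sum_mul, ← hF]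
    rw [Finset.sum_congr rfl fun i _ => hl i, hF]
  have hFx : F • x = 0 := by
    rw [hF, Finset.sum_smul]; exact Finset.sum_eq_zero fun i _ => hfx i
  have : Finite (corner S F) := finite_of_le (S := S) fun s hs => hs.1
  have hN := nilp σ (corner S F) hadd hmul hinv
    (fun a ha => ⟨hS a ha.1, by rw [← hσF, ← hmul, ha.2.2, sig_zero hadd],
      by rw [← hσF, ← hmul, ha.2.1, sig_zero hadd]⟩)
    (by
      intro g hg hσg hgg
      by_contra hg0
      apply hcon
      refine hρ (n + 1) (Fin.cons g f) ?_ ?_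
      · intro i
        refine Fin.cases ?_ (fun i => ?_) i
        · exact ⟨hg.1, hσg, hgg, hg0⟩
        · exact hf i
      · intro i j
        refine Fin.cases ?_ (fun i => ?_) i <;> refine Fin.cases ?_ (fun j => ?_) j
        · intro h; exact absurd rfl h
        · intro _
          show g * f j = 0
          rw [← hr j, ← mul_assoc, hg.2.2, zero_mul]
        · intro _
          show f i * g = 0
          rw [← hl i, mul_assoc, hg.2.1, mul_zero]
        · intro h
          exact horth i j fun hij => h (by rw [hij]))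
  have hg : e - F * e - e * F + F * e * F ∈ corner S F := by
    refine ⟨S.add_mem (S.sub_mem (S.sub_mem he (S.mul_mem hFS he)) (S.mul_mem he hFS))
      (S.mul_mem (S.mul_mem hFS he) hFS), ?_, ?_⟩
    · have : F * (e - F * e - e * F + F * e * F)
          = F * e - F * F * e - F * e * F + F * F * e * F := by noncomm_ring
      rw [this, hFF]; abel
    · have : (e - F * e - e * F + F * e * F) * F
          = e * F - F * e * F - e * (F * F) + F * e * (F * F) := by noncomm_ring
      rw [this, hFF]; abel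
  obtain ⟨k, hk⟩ := hN _ hg
  have h1 : (e - F * e - e * F + F * e * F) • x = x := by
    simp only [add_smul, sub_smul, mul_smul, hex, hFx, smul_zero, sub_zero, add_zero]
  have h2 : ∀ m : ℕ, (e - F * e - e * F + F * e * F) ^ m • x = x := by
    intro m
    induction m with
    | zero => simp
    | succ m ih => rw [pow_succ, mul_smul, h1, ih]
  apply hx
  rw [← h2 k, hk, zero_smul]

end RingA

open RingA in
theorem ringLemma : S_RING := by
  intro T M _ _ _ σ S hfin ρ hadd hmul hinv
  induction ρ generalizing S with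
  | zero =>
    intro hS _ hρ
    refine ⟨[], le_rfl, ?_⟩
    obtain ⟨n, hn⟩ := long_prod S (nilp σ S hadd hmul hinv hS (by
      intro e he h1 h2
      by_contra h0
      have := hρ 1 (fun _ => e) (fun _ => ⟨he, h1, h2, h0⟩)
        (fun i j hij => absurd (Subsingleton.elim i j) hij)
      omega))
    exact ⟨n, fun w hw h => hn w hw fun s hs => (h s hs).1⟩
  | succ ρ ih =>
    intro hS hfaith hρ
    by_cases hno : ∀ e ∈ S, σ e = e → e * e = e → e = 0
    · refine ⟨[], Nat.zero_le _, ?_⟩
      obtain ⟨n, hn⟩ := long_prod S (nilp σ S hadd hmul hinv hS hno)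
      exact ⟨n, fun w hw h => hn w hw fun s hs => (h s hs).1⟩
    · push Not at hno
      obtain ⟨e, he, h1, h2, h0⟩ := hno
      obtain ⟨m, hm⟩ : ∃ m : M, e • m ≠ 0 := by
        by_contra hcon
        push Not at hcon
        exact h0 (hfaith e he h1 hcon)
      have hex : e • (e • m) = e • m := by rw [← mul_smul, h2]
      have : Finite (killer σ hadd hmul S (e • m)) := finite_of_le (S := S) fun s hs => hs.1
      obtain ⟨l, hl, n, hn⟩ := ih (killer σ hadd hmul S (e • m))
        (fun a ha => ⟨hS a ha.1, ha.2.2, by rw [hinv]; exact ha.2.1⟩)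
        (fun g hg => hfaith g hg.1)
        (fun n f hf horth => Nat.le_of_succ_le_succ
          (rank_drop σ S (ρ + 1) hadd hmul hinv hS hρ he hm hex n f
            (fun i => ⟨(hf i).1.1, (hf i).2⟩) (fun i => (hf i).1.2.1) horth))
      refine ⟨e • m :: l, by simpa using hl, n, fun w hw h => hn w hw fun s hs => ?_⟩
      obtain ⟨hsS, hs⟩ := h s hs
      exact ⟨⟨hsS, hs _ (by simp)⟩, fun x hx => hs x (List.mem_cons_of_mem _ hx)⟩

end Pool.Agent.P.MP_f1a348_lc.GI
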